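import Pool.Agent.Work.MP_7d0410_cr.Interface
set_option autoImplicit false

/-! Block ASC: the counting function. -/

namespace Pool.Agent.Work.MP_7d0410_cr

open Finset Filter MeasureTheory ProbabilityTheory
open scoped Classical Topology

theorem ASC_bc {Ω : Type*} [MeasurableSpace Ω] (μ : Measure Ω) [IsProbabilityMeasure μ]
    (s : ℕ → Set Ω) (b : ℕ → ℝ) (hb : Summable b) (h : ∀ᶠ j in atTop, μ.real (s j) ≤ b j) :
    ∀ᵐ ω ∂μ, ∀ᶠ j in atTop, ω ∉ s j := by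
  have h1 : Summable (fun j => μ.real (s j)) := by
    refine Summable.of_norm_bounded_eventually_nat hb ?_
    filter_upwards [h] with j hj
    rw [Real.norm_eq_abs, abs_of_nonneg measureReal_nonneg]
    exact hj
  refine ae_eventually_notMem ?_
  have h2 : ∀ j, μ (s j) = ENNReal.ofReal (μ.real (s j)) :=
    fun j => (ofReal_measureReal (measure_ne_top μ (s j))).symm
  rw [tsum_congr h2, ← ENNReal.ofReal_tsum_of_nonneg (fun j => measureReal_nonneg) h1]
  exact ENNReal.ofReal_ne_top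

theorem ASC_log : ∀ᶠ y : ℕ in atTop, 2 * Real.log y ≤ √(y : ℝ) := by
  have h1 := (isLittleO_log_rpow_atTop (by norm_num : (0 : ℝ) < 1 / 2)).bound
    (by norm_num : (0 : ℝ) < 1 / 2)
  have h2 := tendsto_natCast_atTop_atTop (R := ℝ)
  filter_upwards [h2.eventually h1, eventually_ge_atTop 1] with y hy hy1
  rw [Real.norm_eq_abs, Real.norm_eq_abs, abs_of_nonneg (Real.rpow_nonneg (Nat.cast_nonneg _) _),
    ← Real.sqrt_eq_rpow] at hy
  have h3 := le_abs_self (Real.log (y : ℝ))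
  linarith

theorem ASC_sum : ∀ᶠ y : ℕ in atTop, ∑ m ∈ Finset.Icc 3 y, pr m ≤ 5 / 2 * ((y : ℝ) / Real.log y) := by
  filter_upwards [ASC_log, eventually_ge_atTop 3] with y hy hy3
  have hyr : (3 : ℝ) ≤ y := by exact_mod_cast hy3
  have hlog : 0 < Real.log y := Real.log_pos (by linarith)
  have hy0 : (0 : ℝ) < y := by linarith
  have hs0 : 0 < √(y : ℝ) := Real.sqrt_pos.2 hy0
  have h1 : ∀ m ∈ Finset.Icc 3 y, pr m ≤ (if (m : ℝ) ≤ √(y : ℝ) then 1 else 0) + 2 / Real.log y := by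
    intro m hm
    rw [Finset.mem_Icc] at hm
    by_cases h2 : (m : ℝ) ≤ √(y : ℝ)
    · rw [if_pos h2]
      have h3 := pr_le_one m
      have h4 : 0 < 2 / Real.log y := by positivity
      linarith
    · rw [if_neg h2, zero_add, pr_eq hm.1]
      push Not at h2
      have h3 : Real.log √(y : ℝ) ≤ Real.log m := Real.log_le_log hs0 h2.le
      rw [Real.log_sqrt hy0.le] at h3
      have h4 : 0 < Real.log y / 2 := by positivity
      calc 1 / Real.log m ≤ 1 / (Real.log y / 2) := one_div_le_one_div_of_le h4 h3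
        _ = 2 / Real.log y := by field_simp
  have h2 : ∑ m ∈ Finset.Icc 3 y, (if (m : ℝ) ≤ √(y : ℝ) then (1 : ℝ) else 0) ≤ √(y : ℝ) := by
    rw [← Finset.sum_filter, Finset.sum_const, nsmul_eq_mul, mul_one]
    have h3 : ((Finset.Icc 3 y).filter (fun m : ℕ => (m : ℝ) ≤ √(y : ℝ))) ⊆ Finset.Icc 1 ⌊√(y : ℝ)⌋₊ := by
      intro m hm
      rw [Finset.mem_filter, Finset.mem_Icc] at hm
      rw [Finset.mem_Icc]
      exact ⟨by omega, Nat.le_floor hm.2⟩
    have h4 := Finset.card_le_card h3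
    rw [Nat.card_Icc, Nat.add_sub_cancel] at h4
    calc (((Finset.Icc 3 y).filter (fun m : ℕ => (m : ℝ) ≤ √(y : ℝ))).card : ℝ)
        ≤ (⌊√(y : ℝ)⌋₊ : ℝ) := by exact_mod_cast h4
      _ ≤ √(y : ℝ) := Nat.floor_le hs0.le
  have h5 : ∑ m ∈ Finset.Icc 3 y, (2 / Real.log (y : ℝ)) ≤ 2 * ((y : ℝ) / Real.log y) := by
    rw [Finset.sum_const, nsmul_eq_mul, Nat.card_Icc]
    have h6 : ((y + 1 - 3 : ℕ) : ℝ) ≤ y := by
      have : y + 1 - 3 ≤ y := by omega
      exact_mod_cast this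
    calc ((y + 1 - 3 : ℕ) : ℝ) * (2 / Real.log y) ≤ y * (2 / Real.log y) :=
          mul_le_mul_of_nonneg_right h6 (by positivity)
      _ = _ := by ring
  have h7 : √(y : ℝ) ≤ 1 / 2 * ((y : ℝ) / Real.log y) := by
    rw [← mul_div_assoc, le_div_iff₀ hlog]
    have h8 : √(y : ℝ) * √(y : ℝ) = y := Real.mul_self_sqrt hy0.le
    nlinarith
  calc ∑ m ∈ Finset.Icc 3 y, pr m
      ≤ ∑ m ∈ Finset.Icc 3 y, ((if (m : ℝ) ≤ √(y : ℝ) then 1 else 0) + 2 / Real.log y) :=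
        Finset.sum_le_sum h1
    _ = ∑ m ∈ Finset.Icc 3 y, (if (m : ℝ) ≤ √(y : ℝ) then (1 : ℝ) else 0) +
        ∑ m ∈ Finset.Icc 3 y, (2 / Real.log (y : ℝ)) := Finset.sum_add_distrib
    _ ≤ _ := by linarith

theorem ASC_sq (i : ℕ) : i ^ 2 ≤ 2 ^ (i + 1) := by
  induction i with
  | zero => norm_num
  | succ i ih =>
    have h1 : i < 2 ^ i := Nat.lt_two_pow_self
    have h2 : 2 ^ (i + 1 + 1) = 2 ^ (i + 1) + 2 ^ (i + 1) := by ring
    have h3 : 2 ^ (i + 1) = 2 ^ i + 2 ^ i := by ring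
    have h4 : (i + 1) ^ 2 = i ^ 2 + 2 * i + 1 := by ring
    omega

theorem p_ASC.{u} (hC : Stmt_CHU) (hL : Stmt_LAW.{u}) : Stmt_ASC.{u} := by
  intro Ω _ μ _ E hE
  have hbc : ∀ᵐ ω ∂μ, ∀ᶠ i : ℕ in atTop, ω ∉ {ω | 7 * (((2 ^ i : ℕ) : ℝ) / Real.log ((2 ^ i : ℕ) : ℝ)) ≤
      ((((Finset.Icc 3 (2 ^ i)).filter (fun m => m ∈ cramer E ω)).card : ℕ) : ℝ)} := by
    refine ASC_bc μ _ (fun i => Real.exp (-(i : ℝ))) Real.summable_exp_neg_nat ?_
    have hp : Tendsto (fun i : ℕ => 2 ^ i) atTop atTop := tendsto_pow_atTop_atTop_of_one_lt (by norm_num)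
    filter_upwards [hp.eventually ASC_sum, eventually_ge_atTop 2] with i hi hi2
    have hlaw := (hL μ E hE (Finset.Icc 3 (2 ^ i)) (fun m hm => (Finset.mem_Icc.1 hm).1)
      (fun S => 7 * (((2 ^ i : ℕ) : ℝ) / Real.log ((2 ^ i : ℕ) : ℝ)) ≤ (S.card : ℝ))).2
    have hset : {ω | 7 * (((2 ^ i : ℕ) : ℝ) / Real.log ((2 ^ i : ℕ) : ℝ)) ≤
      ((((Finset.Icc 3 (2 ^ i)).filter (fun m => m ∈ cramer E ω)).card : ℕ) : ℝ)} =
      {ω | (fun S : Finset ℕ => 7 * (((2 ^ i : ℕ) : ℝ) / Real.log ((2 ^ i : ℕ) : ℝ)) ≤ (S.card : ℝ))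
        ((Finset.Icc 3 (2 ^ i)).filter (fun m => m ∈ cramer E ω))} := rfl
    rw [hset, hlaw]
    refine (hC _ _).trans ?_
    apply Real.exp_le_exp.2
    have hir : (2 : ℝ) ≤ i := by exact_mod_cast hi2
    have hlog : Real.log ((2 ^ i : ℕ) : ℝ) = i * Real.log 2 := by
      push_cast
      rw [Real.log_pow]
    have hl2 : 0 < Real.log 2 := Real.log_pos (by norm_num)
    have hl21 : Real.log 2 ≤ 1 := by
      have := Real.log_two_lt_d9
      linarith
    have hsq : ((i : ℝ)) ^ 2 ≤ 2 * ((2 ^ i : ℕ) : ℝ) := by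
      have h1 := ASC_sq i
      have h2 : ((i ^ 2 : ℕ) : ℝ) ≤ ((2 ^ (i + 1) : ℕ) : ℝ) := by exact_mod_cast h1
      push_cast at h2 ⊢
      have h3 : (2 : ℝ) ^ (i + 1) = 2 * 2 ^ i := by ring
      rw [h3] at h2
      exact h2
    have h3 : (i : ℝ) ≤ 2 * (((2 ^ i : ℕ) : ℝ) / Real.log ((2 ^ i : ℕ) : ℝ)) := by
      rw [hlog, ← mul_div_assoc, le_div_iff₀ (by positivity)]
      have h4 : (i : ℝ) * (i * Real.log 2) ≤ (i : ℝ) ^ 2 := by
        have : (i : ℝ) * (i * Real.log 2) = (i : ℝ) ^ 2 * Real.log 2 := by ring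
        rw [this]
        exact mul_le_of_le_one_right (by positivity) hl21
      linarith
    linarith
  filter_upwards [hbc] with ω hω
  rw [eventually_atTop] at hω
  obtain ⟨J, hJ⟩ := hω
  unfold CountReg
  filter_upwards [eventually_ge_atTop (2 ^ J), eventually_ge_atTop 3] with y hyJ hy3
  set i : ℕ := Nat.log 2 y with hi
  have h1 : 2 ^ i ≤ y := Nat.pow_log_le_self 2 (by omega)
  have h2 : y < 2 ^ (i + 1) := Nat.lt_pow_succ_log_self (by norm_num) y
  have hiJ : J ≤ i + 1 := by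
    by_contra hcon
    push Not at hcon
    have h3 : 2 ^ (i + 1) ≤ 2 ^ J := Nat.pow_le_pow_right (by norm_num) hcon.le
    omega
  set z : ℕ := 2 ^ (i + 1) with hz
  have h3 := hJ (i + 1) hiJ
  rw [← hz] at h3
  have h3' : ((((Finset.Icc 3 z).filter (fun m => m ∈ cramer E ω)).card : ℕ) : ℝ) <
      7 * ((z : ℝ) / Real.log z) := not_le.1 h3
  have hyr : (3 : ℝ) ≤ y := by exact_mod_cast hy3
  have hlogy : 0 < Real.log y := Real.log_pos (by linarith)
  have hyz : (y : ℝ) ≤ z := by exact_mod_cast h2.le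
  have hlogz : Real.log y ≤ Real.log z := Real.log_le_log (by linarith) hyz
  have hz0 : (0 : ℝ) < z := by linarith
  have h4 : (1 : ℝ) ≤ (z : ℝ) / Real.log z := by
    rw [le_div_iff₀ (by linarith), one_mul]
    exact (Real.log_le_sub_one_of_pos hz0).trans (by linarith)
  have h5 : PP (cramer E ω) y ⊆ insert 2 ((Finset.Icc 3 z).filter (fun m => m ∈ cramer E ω)) := by
    intro m hm
    unfold PP at hm
    rw [Finset.mem_filter, Finset.mem_Icc] at hm
    rw [Finset.mem_insert, Finset.mem_filter, Finset.mem_Icc]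
    rcases hm.2 with h6 | h6
    · exact Or.inl h6
    · exact Or.inr ⟨⟨h6.1, by omega⟩, hm.2⟩
  have h6 : (PP (cramer E ω) y).card ≤ ((Finset.Icc 3 z).filter (fun m => m ∈ cramer E ω)).card + 1 :=
    (Finset.card_le_card h5).trans (Finset.card_insert_le _ _)
  have h7 : ((PP (cramer E ω) y).card : ℝ) ≤
      ((((Finset.Icc 3 z).filter (fun m => m ∈ cramer E ω)).card : ℕ) : ℝ) + 1 := by exact_mod_cast h6
  have h8 : (z : ℝ) / Real.log z ≤ 2 * y / Real.log y := by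
    have h9 : (z : ℝ) ≤ 2 * y := by
      have h10 : z ≤ 2 * y := by
        rw [hz, pow_succ]
        omega
      exact_mod_cast h10
    exact div_le_div₀ (by linarith) h9 hlogy hlogz
  have h9 : 2 * (y : ℝ) / Real.log y = 2 * (y / Real.log y) := by ring
  linarith

end Pool.Agent.Work.MP_7d0410_cr
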