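import Pool.Agent.Work.MP_7d0410_cr.Interface

/-! # Block ASG: the gaps of the random set -/

set_option autoImplicit false

namespace Pool.Agent.Work.MP_7d0410_cr

open Finset Filter MeasureTheory ProbabilityTheory
open scoped Classical Topology

/-- the interval after `m` -/
noncomputable def ASG_U (m : ℕ) : Finset ℕ := Finset.Ioc m (m + ⌊10 * Real.log m ^ 2⌋₊)

lemma ASG_large : ∀ᶠ m : ℕ in atTop, 3 ≤ m ∧ 2 * Real.log m ≤ ∑ p ∈ ASG_U m, pr p := by
  have ht : Tendsto (fun x : ℕ => Real.log (x : ℝ)) atTop atTop :=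
    Real.tendsto_log_atTop.comp tendsto_natCast_atTop_atTop
  have h2 := (Real.isLittleO_pow_log_id_atTop (n := 2)).bound (show (0 : ℝ) < 1 / 10 by norm_num)
  have h3 := tendsto_natCast_atTop_atTop (R := ℝ) |>.eventually h2
  filter_upwards [Filter.eventually_ge_atTop 3, ht.eventually_ge_atTop 1, h3] with m hm hl hb
  refine ⟨hm, ?_⟩
  have hm' : (3 : ℝ) ≤ m := by exact_mod_cast hm
  have hb' : 10 * Real.log m ^ 2 ≤ m := by
    rw [Real.norm_of_nonneg (by positivity), id, Real.norm_of_nonneg (by positivity)] at hb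
    linarith
  set L := ⌊10 * Real.log m ^ 2⌋₊ with hL
  have hL1 : (L : ℝ) ≤ 10 * Real.log m ^ 2 := Nat.floor_le (by positivity)
  have hL2 : 10 * Real.log m ^ 2 < L + 1 := Nat.lt_floor_add_one _
  have hLm : L ≤ m := by
    have : (L : ℝ) ≤ m := hL1.trans hb'
    exact_mod_cast this
  have hlog2 : Real.log 2 < 0.6931471808 := Real.log_two_lt_d9
  have hlog : Real.log (((2 * m : ℕ)) : ℝ) ≤ 2 * Real.log m := by
    push_cast
    rw [Real.log_mul (by norm_num) (by linarith)]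
    linarith
  have hlpos : 0 < Real.log (((2 * m : ℕ)) : ℝ) := by
    apply Real.log_pos
    push_cast
    linarith
  have hp : ∀ p ∈ ASG_U m, pr (2 * m) ≤ pr p := by
    intro p hp
    unfold ASG_U at hp
    rw [Finset.mem_Ioc] at hp
    exact pr_anti (by omega)
  have hs := Finset.card_nsmul_le_sum _ _ _ hp
  have hcard : (ASG_U m).card = L := by
    unfold ASG_U
    rw [Nat.card_Ioc]
    omega
  rw [hcard, nsmul_eq_mul, pr_eq (by omega : 3 ≤ 2 * m)] at hs
  refine le_trans ?_ hs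
  rw [mul_one_div, le_div_iff₀ hlpos]
  nlinarith

theorem p_ASG.{u} (hEMP : Stmt_EMP) (hLAW : Stmt_LAW.{u}) : Stmt_ASG.{u} := by
  intro Ω _ μ _ E hE
  obtain ⟨m₀, hm₀⟩ := Filter.eventually_atTop.1 ASG_large
  let s : ℕ → Set Ω := fun m => {ω | (ASG_U m).filter (fun p => p ∈ cramer E ω) ∩ ASG_U m = ∅}
  have hs : ∀ m, m₀ ≤ m → μ (s m) ≤ ENNReal.ofReal (1 / (m : ℝ) ^ 2) := by
    intro m hm
    obtain ⟨h3, hlog⟩ := hm₀ m hm
    have hm3 : (3 : ℝ) ≤ m := by exact_mod_cast h3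
    obtain ⟨h1, h2⟩ := hLAW μ E hE (ASG_U m) (by
      intro p hp
      unfold ASG_U at hp
      rw [Finset.mem_Ioc] at hp
      omega) (fun S => S ∩ ASG_U m = ∅)
    have h4 := hEMP (ASG_U m) (ASG_U m) (Finset.Subset.refl _)
    have h5 : μ.real (s m) ≤ 1 / (m : ℝ) ^ 2 := by
      show μ.real {ω | (ASG_U m).filter (fun p => p ∈ cramer E ω) ∩ ASG_U m = ∅} ≤ _
      rw [h2]
      refine h4.trans ?_
      calc Real.exp (-∑ p ∈ ASG_U m, pr p) ≤ Real.exp (-(2 * Real.log m)) :=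
            Real.exp_le_exp.2 (by linarith)
        _ = 1 / (m : ℝ) ^ 2 := by
            rw [Real.exp_neg, two_mul, Real.exp_add, Real.exp_log (by linarith), one_div, sq]
    rw [← ENNReal.ofReal_toReal (measure_ne_top μ (s m))]
    exact ENNReal.ofReal_le_ofReal h5
  let s' : ℕ → Set Ω := fun m => if m₀ ≤ m then s m else ∅
  have hsum : ∑' m, μ (s' m) ≠ ⊤ := by
    have h1 : ∀ m, μ (s' m) ≤ ENNReal.ofReal (1 / (m : ℝ) ^ 2) := by
      intro m
      by_cases hm : m₀ ≤ m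
      · simp only [s', if_pos hm]
        exact hs m hm
      · simp only [s', if_neg hm, measure_empty]
        exact bot_le
    have h2 : Summable (fun m : ℕ => 1 / (m : ℝ) ^ 2) := Real.summable_one_div_nat_pow.2 (by norm_num)
    exact ne_top_of_le_ne_top h2.tsum_ofReal_ne_top (ENNReal.tsum_le_tsum h1)
  filter_upwards [ae_eventually_notMem hsum] with ω hω
  unfold GapReg
  filter_upwards [hω, Filter.eventually_ge_atTop m₀] with m hm hmm
  simp only [s', if_pos hmm, s, Set.mem_ofPred_eq] at hm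
  obtain ⟨p, hp⟩ := Finset.nonempty_iff_ne_empty.2 hm
  obtain ⟨hp1, hp2⟩ := Finset.mem_inter.1 hp
  have hp3 := (Finset.mem_filter.1 hp1).2
  unfold ASG_U at hp2
  rw [Finset.mem_Ioc] at hp2
  refine ⟨p, hp3, hp2.1, ?_⟩
  have h1 : (p : ℝ) ≤ m + (⌊10 * Real.log m ^ 2⌋₊ : ℝ) := by exact_mod_cast hp2.2
  have h2 : (⌊10 * Real.log m ^ 2⌋₊ : ℝ) ≤ 10 * Real.log m ^ 2 := Nat.floor_le (by positivity)
  linarith

end Pool.Agent.Work.MP_7d0410_cr
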