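import Pool.Agent.Work.MP_7d0410_cr.Interface

/-! # Block BAD: few bad values (helper17) -/

set_option autoImplicit false

namespace Pool.Agent.Work.MP_7d0410_cr

open Finset Filter MeasureTheory ProbabilityTheory
open scoped Classical

theorem p_BAD (h1 : Stmt_BD1) (h2 : Stmt_BD2) (h3 : Stmt_BD3) (h4 : Stmt_BD4) : Stmt_BAD := by
  intro P hP hc hg ε hε hε4
  filter_upwards [h2 P hc ε hε hε4, h3 P hc ε hε hε4, h4 P hg ε hε hε4] with x e2 e3 e4
  have hsub : ((runs (PP P x)).filter (fun q => sm (PP P x) q ≤ x ∧ (len (PP P x) q < R0 ε x ∨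
      q.1 < a0 ε x ∨ (a0 ε x ≤ q.1 ∧ q.1 + GG x * len (PP P x) q < q.2)))) ⊆
      ((runs (PP P x)).filter (fun q => sm (PP P x) q ≤ x ∧ len (PP P x) q < R0 ε x)) ∪
      ((runs (PP P x)).filter (fun q => sm (PP P x) q ≤ x ∧ q.1 < a0 ε x)) := by
    intro q hq
    obtain ⟨hq1, hq2, hq3⟩ := mem_filter.1 hq
    rcases hq3 with h | h | h
    · exact mem_union_left _ (mem_filter.2 ⟨hq1, hq2, h⟩)
    · exact mem_union_right _ (mem_filter.2 ⟨hq1, hq2, h⟩)
    · have := e4 q hq1 h.1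
      exact absurd h.2 (not_lt.2 this)
  have hcard := (h1 P ε x hP).trans ((card_le_card hsub).trans (card_union_le _ _))
  have hcast : (((Finset.Icc 1 x).filter
      (fun n => repCount P n ≠ cnt (R0 ε x) (GG x) (SS ε x P) n)).card : ℝ) ≤
      (((runs (PP P x)).filter (fun q => sm (PP P x) q ≤ x ∧ len (PP P x) q < R0 ε x)).card : ℝ) +
      (((runs (PP P x)).filter (fun q => sm (PP P x) q ≤ x ∧ q.1 < a0 ε x)).card : ℝ) := by
    exact_mod_cast hcard
  have hx : 0 ≤ ε * x := by positivity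
  linarith

end Pool.Agent.Work.MP_7d0410_cr
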