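import Pool.Agent.Work.MP_7d0410_cr.Interface
set_option autoImplicit false

/-! Block BCL: concentration along the subsequence `j ^ A`. -/

namespace Pool.Agent.Work.MP_7d0410_cr

open Finset Filter MeasureTheory ProbabilityTheory
open scoped Classical Topology

theorem BCL_bc {Ω : Type*} [MeasurableSpace Ω] (μ : Measure Ω) [IsProbabilityMeasure μ]
    (s : ℕ → Set Ω) (b : ℕ → ℝ) (hb : Summable b) (h : ∀ᶠ j in atTop, μ.real (s j) ≤ b j) :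
    ∀ᵐ ω ∂μ, ∀ᶠ j in atTop, ω ∉ s j := by
  have h1 : Summable (fun j => μ.real (s j)) := by
    refine Summable.of_norm_bounded_eventually_nat hb ?_
    filter_upwards [h] with j hj
    rw [Real.norm_eq_abs, abs_of_nonneg measureReal_nonneg]
    exact hj
  refine ae_eventually_notMem ?_
  have h2 : ∀ j, μ (s j) = ENNReal.ofReal (μ.real (s j)) := fun j => (ofReal_measureReal (measure_ne_top μ (s j))).symm
  rw [tsum_congr h2, ← ENNReal.ofReal_tsum_of_nonneg (fun j => measureReal_nonneg) h1]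
  exact ENNReal.ofReal_ne_top

theorem BCL_a0 {ε : ℝ} (h0 : 0 < ε) {j : ℕ} (hj : 2 ≤ j) :
    (j : ℝ) ^ 4 * ((j ^ AA ε : ℕ) : ℝ) ≤ (a0 ε (j ^ AA ε) : ℝ) ^ 2 := by
  have hj1 : (1 : ℝ) ≤ j := by
    have : 1 ≤ j := by omega
    exact_mod_cast this
  have hj0 : (0 : ℝ) < j := by linarith
  have hx : ((j ^ AA ε : ℕ) : ℝ) = (j : ℝ) ^ (AA ε) := by push_cast; rfl
  have hxp : (0 : ℝ) < ((j ^ AA ε : ℕ) : ℝ) := by rw [hx]; positivity
  have h1 : ((j ^ AA ε : ℕ) : ℝ) ^ (1 / 2 + ε) ≤ (a0 ε (j ^ AA ε) : ℝ) := Nat.le_ceil _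
  have h2 : (((j ^ AA ε : ℕ) : ℝ) ^ (1 / 2 + ε)) ^ 2 =
      ((j ^ AA ε : ℕ) : ℝ) * ((j ^ AA ε : ℕ) : ℝ) ^ (2 * ε) := by
    rw [← Real.rpow_natCast, ← Real.rpow_mul hxp.le]
    have h3 : (1 / 2 + ε) * ((2 : ℕ) : ℝ) = 1 + 2 * ε := by push_cast; ring
    rw [h3, Real.rpow_add hxp, Real.rpow_one]
  have h4 : (j : ℝ) ^ 4 ≤ ((j ^ AA ε : ℕ) : ℝ) ^ (2 * ε) := by
    rw [hx, ← Real.rpow_natCast (j : ℝ) (AA ε), ← Real.rpow_mul hj0.le, ← Real.rpow_natCast (j : ℝ) 4]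
    apply Real.rpow_le_rpow_of_exponent_le hj1
    have h5 : 2 / ε ≤ (AA ε : ℝ) := Nat.le_ceil _
    rw [div_le_iff₀ h0] at h5
    push_cast
    nlinarith
  calc (j : ℝ) ^ 4 * ((j ^ AA ε : ℕ) : ℝ)
      ≤ ((j ^ AA ε : ℕ) : ℝ) ^ (2 * ε) * ((j ^ AA ε : ℕ) : ℝ) := mul_le_mul_of_nonneg_right h4 hxp.le
    _ = (((j ^ AA ε : ℕ) : ℝ) ^ (1 / 2 + ε)) ^ 2 := by rw [h2]; ring
    _ ≤ _ := pow_le_pow_left₀ (by positivity) h1 2

theorem BCL_a0x {ε : ℝ} (h1 : ε < 1 / 4) {x : ℕ} (hx : 1 ≤ x) : a0 ε x ≤ x := by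
  unfold a0
  rw [Nat.ceil_le]
  have h2 : (1 : ℝ) ≤ x := by exact_mod_cast hx
  calc (x : ℝ) ^ (1 / 2 + ε) ≤ (x : ℝ) ^ (1 : ℝ) :=
        Real.rpow_le_rpow_of_exponent_le h2 (by linarith)
    _ = x := Real.rpow_one _

theorem p_BCL.{u} (hV : Stmt_VAR) (hL : Stmt_LAW.{u}) : Stmt_BCL.{u} := by
  intro Ω _ μ _ E hE ε h0 h1 k
  set D : ℕ → Finset ℕ → ℝ := fun x S => (DD (R0 ε x) (GG x) S x k : ℝ) with hD
  have hbc : ∀ i : ℕ, ∀ᵐ ω ∂μ, ∀ᶠ j in atTop, ω ∉ {ω | (1 / ((i : ℝ) + 1)) * ((j ^ AA ε : ℕ) : ℝ) ≤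
      |D (j ^ AA ε) (SS ε (j ^ AA ε) (cramer E ω)) - Ex (UU ε (j ^ AA ε)) (D (j ^ AA ε))|} := by
    intro i
    have hη : (0 : ℝ) < 1 / ((i : ℝ) + 1) := by positivity
    set η : ℝ := 1 / ((i : ℝ) + 1) with hηd
    refine BCL_bc μ _ (fun j => 64 / η ^ 2 * (1 / (j : ℝ) ^ 4))
      ((Real.summable_one_div_nat_pow.mpr (by norm_num)).mul_left _) ?_
    filter_upwards [eventually_ge_atTop 2] with j hj
    set x : ℕ := j ^ AA ε with hx
    have hx1 : 1 ≤ x := Nat.one_le_pow _ _ (by omega)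
    have hxr : (1 : ℝ) ≤ x := by exact_mod_cast hx1
    have hjr : (2 : ℝ) ≤ j := by exact_mod_cast hj
    have ha := BCL_a0 h0 hj
    rw [← hx] at ha
    have hj4 : (16 : ℝ) ≤ (j : ℝ) ^ 4 := by
      calc (16 : ℝ) = 2 ^ 4 := by norm_num
        _ ≤ (j : ℝ) ^ 4 := pow_le_pow_left₀ (by norm_num) hjr 4
    have ha16 : (16 : ℝ) * x ≤ (a0 ε x : ℝ) ^ 2 := by
      refine le_trans ?_ ha
      exact mul_le_mul_of_nonneg_right hj4 (by linarith)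
    have ha3 : 3 ≤ a0 ε x := by
      by_contra hcon
      push Not at hcon
      have h2 : (a0 ε x : ℝ) ≤ 2 := by
        have : a0 ε x ≤ 2 := by omega
        exact_mod_cast this
      have h3 : (0 : ℝ) ≤ (a0 ε x : ℝ) := Nat.cast_nonneg _
      nlinarith
    have hapos : (0 : ℝ) < (a0 ε x : ℝ) := by
      have : 0 < a0 ε x := by omega
      exact_mod_cast this
    have hvar := hV (a0 ε x) x (R0 ε x) (GG x) k (by omega) (BCL_a0x h1 hx1) (by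
      have h2 : (4 : ℝ) * x ≤ (a0 ε x : ℝ) ^ 2 := by linarith
      exact_mod_cast h2)
    have hlaw := (hL μ E hE (UU ε x) (by
      intro m hm
      unfold UU at hm
      rw [Finset.mem_Icc] at hm
      omega) (fun S => η * (x : ℝ) ≤ |D x S - Ex (UU ε x) (D x)|)).2
    have hset : {ω | η * (x : ℝ) ≤ |D x (SS ε x (cramer E ω)) - Ex (UU ε x) (D x)|} =
        {ω | (fun S => η * (x : ℝ) ≤ |D x S - Ex (UU ε x) (D x)|)
          ((UU ε x).filter (fun m => m ∈ cramer E ω))} := rfl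
    rw [hset, hlaw]
    have hηx : 0 < η * (x : ℝ) := by positivity
    have hM : Pb (UU ε x) (fun S => η * (x : ℝ) ≤ |D x S - Ex (UU ε x) (D x)|) ≤
        Ex (UU ε x) (fun S => (1 / (η * x) ^ 2) * (D x S - Ex (UU ε x) (D x)) ^ 2) := by
      refine Pb_le_Ex (fun S _ => by positivity) (fun S _ hS => ?_)
      have h2 : (η * (x : ℝ)) ^ 2 ≤ (D x S - Ex (UU ε x) (D x)) ^ 2 := by
        rw [← sq_abs (D x S - Ex (UU ε x) (D x))]
        exact pow_le_pow_left₀ hηx.le hS 2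
      rw [one_div, ← div_eq_inv_mul, le_div_iff₀ (by positivity), one_mul]
      exact h2
    rw [Ex_const_mul] at hM
    refine hM.trans ?_
    have h2 : Ex (UU ε x) (fun S => (D x S - Ex (UU ε x) (D x)) ^ 2) ≤
        64 * (x : ℝ) ^ 3 / (a0 ε x : ℝ) ^ 2 := hvar
    calc 1 / (η * (x : ℝ)) ^ 2 * Ex (UU ε x) (fun S => (D x S - Ex (UU ε x) (D x)) ^ 2)
        ≤ 1 / (η * (x : ℝ)) ^ 2 * (64 * (x : ℝ) ^ 3 / (a0 ε x : ℝ) ^ 2) :=
          mul_le_mul_of_nonneg_left h2 (by positivity)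
      _ = 64 / η ^ 2 * ((x : ℝ) / (a0 ε x : ℝ) ^ 2) := by
          field_simp
      _ ≤ 64 / η ^ 2 * (1 / (j : ℝ) ^ 4) := by
          apply mul_le_mul_of_nonneg_left _ (by positivity)
          rw [div_le_div_iff₀ (by positivity) (by positivity)]
          linarith
  rw [← ae_all_iff] at hbc
  filter_upwards [hbc] with ω hω
  rw [Metric.tendsto_atTop]
  intro δ hδ
  obtain ⟨i, hi⟩ := exists_nat_one_div_lt hδ
  have h2 := hω i
  rw [eventually_atTop] at h2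
  obtain ⟨J, hJ⟩ := h2
  refine ⟨max J 1, fun j hj => ?_⟩
  have h3 := hJ j (le_trans (le_max_left _ _) hj)
  have hj1 : 1 ≤ j := le_trans (le_max_right _ _) hj
  rw [not_le] at h3
  have hxp : (0 : ℝ) < ((j ^ AA ε : ℕ) : ℝ) := by
    have : 0 < j ^ AA ε := Nat.pow_pos hj1
    exact_mod_cast this
  rw [Real.dist_eq, sub_zero, abs_div, abs_of_pos hxp, div_lt_iff₀ hxp]
  exact h3.trans (mul_lt_mul_of_pos_right hi hxp)

end Pool.Agent.Work.MP_7d0410_cr
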