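import Pool.Agent.Work.MP_7d0410_cr.Interface

/-!
# Where the numbers of runs and of good runs differ there is a bad run
-/

set_option autoImplicit false

namespace Pool.Agent.Work.MP_7d0410_cr

open Finset Filter MeasureTheory ProbabilityTheory
open scoped Classical Topology

lemma BD1_mem_PP {P : Set ℕ} {x m : ℕ} : m ∈ PP P x ↔ (1 ≤ m ∧ m ≤ x) ∧ m ∈ P := by
  unfold PP
  rw [Finset.mem_filter, Finset.mem_Icc]

lemma BD1_mem_SS {P : Set ℕ} {ε : ℝ} {x m : ℕ} :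
    m ∈ SS ε x P ↔ (a0 ε x ≤ m ∧ m ≤ 2 * x) ∧ m ∈ P := by
  unfold SS UU
  rw [Finset.mem_filter, Finset.mem_Icc]

theorem p_BD1 : Stmt_BD1 := by
  intro P ε x hP
  have hsub : (Finset.Icc 1 x).filter
      (fun n => repCount P n ≠ cnt (R0 ε x) (GG x) (SS ε x P) n) ⊆
      ((runs (PP P x)).filter (fun q => sm (PP P x) q ≤ x ∧ (len (PP P x) q < R0 ε x ∨
        q.1 < a0 ε x ∨ (a0 ε x ≤ q.1 ∧ q.1 + GG x * len (PP P x) q < q.2)))).image
        (sm (PP P x)) := by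
    intro n hn
    rw [Finset.mem_filter, Finset.mem_Icc] at hn
    obtain ⟨⟨hn1, hnx⟩, hne⟩ := hn
    by_contra hcon
    apply hne
    have hbad : ∀ q ∈ runs (PP P x), sm (PP P x) q = n →
        R0 ε x ≤ len (PP P x) q ∧ a0 ε x ≤ q.1 ∧ q.2 ≤ q.1 + GG x * len (PP P x) q := by
      intro q hq hs
      by_contra h
      apply hcon
      rw [Finset.mem_image]
      refine ⟨q, Finset.mem_filter.2 ⟨hq, by omega, ?_⟩, hs⟩
      by_contra h2
      apply h
      push Not at h2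
      exact ⟨h2.1, h2.2.1, h2.2.2 h2.2.1⟩
    have hset : {q : ℕ × ℕ | q.1 ∈ P ∧ q.2 ∈ P ∧ q.1 ≤ q.2 ∧
        ∑ m ∈ (Finset.Icc q.1 q.2).filter (fun m => m ∈ P), m = n} =
        ((gr (R0 ε x) (GG x) (SS ε x P) n : Finset (ℕ × ℕ)) : Set (ℕ × ℕ)) := by
      ext q
      rw [Set.mem_setOf_eq, Finset.mem_coe, mem_gr, mem_good, mem_runs]
      constructor
      · rintro ⟨h1, h2, h3, h4⟩
        have hq2 : q.2 ≤ n := by
          rw [← h4]
          exact Finset.single_le_sum (f := fun m => m) (fun _ _ => Nat.zero_le _)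
            (Finset.mem_filter.2 ⟨Finset.mem_Icc.2 ⟨h3, le_rfl⟩, h2⟩)
        have hq1 := hP q.1 h1
        have hseg : seg (PP P x) q = (Finset.Icc q.1 q.2).filter (fun m => m ∈ P) := by
          ext m
          rw [mem_seg, BD1_mem_PP, Finset.mem_filter, Finset.mem_Icc]
          constructor
          · rintro ⟨⟨_, k2⟩, k3, k4⟩
            exact ⟨⟨k3, k4⟩, k2⟩
          · rintro ⟨⟨k3, k4⟩, k2⟩
            exact ⟨⟨⟨by omega, by omega⟩, k2⟩, k3, k4⟩
        have hrun : q ∈ runs (PP P x) :=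
          mem_runs.2 ⟨BD1_mem_PP.2 ⟨⟨hq1, by omega⟩, h1⟩, BD1_mem_PP.2 ⟨⟨by omega, by omega⟩, h2⟩, h3⟩
        have hsm : sm (PP P x) q = n := by
          unfold sm
          rw [hseg]
          exact h4
        obtain ⟨b1, b2, b3⟩ := hbad q hrun hsm
        have hseg2 : seg (SS ε x P) q = seg (PP P x) q := by
          ext m
          rw [mem_seg, mem_seg, BD1_mem_PP, BD1_mem_SS]
          constructor
          · rintro ⟨⟨_, k2⟩, k3, k4⟩
            exact ⟨⟨⟨by omega, by omega⟩, k2⟩, k3, k4⟩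
          · rintro ⟨⟨_, k2⟩, k3, k4⟩
            exact ⟨⟨⟨by omega, by omega⟩, k2⟩, k3, k4⟩
        have hlen : len (SS ε x P) q = len (PP P x) q := by unfold len; rw [hseg2]
        have hsm2 : sm (SS ε x P) q = sm (PP P x) q := by unfold sm; rw [hseg2]
        refine ⟨⟨⟨BD1_mem_SS.2 ⟨⟨b2, by omega⟩, h1⟩, BD1_mem_SS.2 ⟨⟨by omega, by omega⟩, h2⟩, h3⟩,
          ?_, ?_⟩, ?_⟩
        · rw [hlen]; exact b1
        · rw [hlen]; exact b3
        · rw [hsm2]; exact hsm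
      · rintro ⟨⟨⟨h1, h2, h3⟩, _, _⟩, h6⟩
        obtain ⟨⟨c1, c2⟩, c3⟩ := BD1_mem_SS.1 h1
        obtain ⟨⟨d1, d2⟩, d3⟩ := BD1_mem_SS.1 h2
        refine ⟨c3, d3, h3, ?_⟩
        rw [← h6]
        unfold sm
        refine Finset.sum_congr ?_ fun _ _ => rfl
        ext m
        rw [mem_seg, BD1_mem_SS, Finset.mem_filter, Finset.mem_Icc]
        constructor
        · rintro ⟨⟨k3, k4⟩, k2⟩
          exact ⟨⟨⟨by omega, by omega⟩, k2⟩, k3, k4⟩
        · rintro ⟨⟨_, k2⟩, k3, k4⟩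
          exact ⟨⟨k3, k4⟩, k2⟩
    unfold repCount cnt
    rw [hset, Set.ncard_coe_finset]
  exact (Finset.card_le_card hsub).trans Finset.card_image_le

end Pool.Agent.Work.MP_7d0410_cr
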