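import Pool.Agent.Work.MP_7d0410_cr.Interface

/-! # Block BD2: few short runs -/

set_option autoImplicit false

namespace Pool.Agent.Work.MP_7d0410_cr

open Finset Filter MeasureTheory ProbabilityTheory
open scoped Classical Topology

lemma BD2_end (S : Finset ℕ) (q q' : ℕ × ℕ) (hq : q ∈ runs S) (hq' : q' ∈ runs S)
    (h1 : q.1 = q'.1) (h2 : len S q = len S q') : q.2 = q'.2 := by
  have key : ∀ z z' : ℕ × ℕ, z ∈ runs S → z' ∈ runs S → z.1 = z'.1 → z.2 < z'.2 →
      len S z < len S z' := by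
    intro z z' hz hz' h1 hlt
    obtain ⟨a1, a2, a3⟩ := mem_runs.1 hz
    obtain ⟨b1, b2, b3⟩ := mem_runs.1 hz'
    unfold len
    apply Finset.card_lt_card
    rw [Finset.ssubset_iff_of_subset]
    · exact ⟨z'.2, mem_seg.2 ⟨b2, b3, le_rfl⟩, fun h => by
        have := (mem_seg.1 h).2.2
        omega⟩
    · intro m hm
      rw [mem_seg] at hm ⊢
      exact ⟨hm.1, by omega, by omega⟩
  rcases lt_trichotomy q.2 q'.2 with h | h | h
  · have := key q q' hq hq' h1 h
    omega
  · exact h
  · have := key q' q hq' hq h1.symm h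
    omega

lemma BD2_fib (P : Set ℕ) (x r : ℕ) (hr : 1 ≤ r) :
    ((runs (PP P x)).filter (fun q => sm (PP P x) q ≤ x ∧ len (PP P x) q = r)).card ≤
      (PP P (x / r)).card := by
  apply Finset.card_le_card_of_injOn (fun q => q.1)
  · intro q hq
    have hq' := Finset.mem_filter.1 hq
    obtain ⟨h1, h2, h3⟩ := mem_runs.1 hq'.1
    have h4 := len_mul_le_sm (PP P x) q
    rw [hq'.2.2] at h4
    have h5 : q.1 ≤ x / r := by
      rw [Nat.le_div_iff_mul_le (by omega), mul_comm]
      exact h4.trans hq'.2.1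
    unfold PP at h1 ⊢
    rw [Finset.mem_filter, Finset.mem_Icc] at h1
    refine Finset.mem_coe.2 (Finset.mem_filter.2 ⟨Finset.mem_Icc.2 ⟨h1.1.1, h5⟩, h1.2⟩)
  · intro q hq q' hq' hqq
    have a := Finset.mem_filter.1 hq
    have b := Finset.mem_filter.1 hq'
    exact Prod.ext hqq (BD2_end _ q q' a.1 b.1 hqq (a.2.2.trans b.2.2.symm))

theorem p_BD2 : Stmt_BD2 := by
  intro P hP ε hε hε'
  obtain ⟨y₀, hy₀⟩ := Filter.eventually_atTop.1 hP
  have ht : Tendsto (fun x : ℕ => Real.log (x : ℝ)) atTop atTop :=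
    Real.tendsto_log_atTop.comp tendsto_natCast_atTop_atTop
  have ht2 : Tendsto (fun x : ℕ => (x : ℝ) ^ (1 / 4 : ℝ)) atTop atTop :=
    (tendsto_rpow_atTop (by norm_num)).comp tendsto_natCast_atTop_atTop
  filter_upwards [Filter.eventually_ge_atTop (max (y₀ * y₀) 3), ht.eventually_ge_atTop (1 / ε),
    ht2.eventually_ge_atTop 2] with x hx hlε hx4
  have hx1 : y₀ * y₀ ≤ x := (le_max_left _ _).trans hx
  have hx3 : 3 ≤ x := (le_max_right _ _).trans hx
  have hx3' : (3 : ℝ) ≤ x := by exact_mod_cast hx3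
  have hx0 : (0 : ℝ) < x := by linarith
  set X := Real.log (x : ℝ) with hXd
  have hX0 : 0 < X := Real.log_pos (by linarith)
  set S := PP P x with hS
  set T := (runs S).filter (fun q => sm S q ≤ x ∧ len S q < R0 ε x) with hT
  have hmaps : ∀ q ∈ T, len S q ∈ Finset.Icc 1 (R0 ε x - 1) := by
    intro q hq
    rw [hT, Finset.mem_filter] at hq
    have := len_pos hq.1
    rw [Finset.mem_Icc]
    omega
  have hcount : (T.card : ℝ) = ∑ r ∈ Finset.Icc 1 (R0 ε x - 1),
      ((T.filter (fun q => len S q = r)).card : ℝ) := by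
    rw [Finset.card_eq_sum_card_fiberwise hmaps]
    push_cast
    rfl
  have hfib : ∀ r ∈ Finset.Icc 1 (R0 ε x - 1), ((T.filter (fun q => len S q = r)).card : ℝ) ≤
      32 * x / X * (1 / r) := by
    intro r hr
    rw [Finset.mem_Icc] at hr
    have hr1 : (1 : ℝ) ≤ r := by exact_mod_cast hr.1
    have hr0 : (0 : ℝ) < r := by linarith
    have hrε : (r : ℝ) < (x : ℝ) ^ ε := by
      have : r < R0 ε x := by omega
      unfold R0 at this
      exact Nat.lt_ceil.1 this
    have hrε' : (r : ℝ) ≤ (x : ℝ) ^ (1 / 4 : ℝ) :=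
      hrε.le.trans (Real.rpow_le_rpow_of_exponent_le (by linarith) hε'.le)
    -- the size of x / r
    have hy1 : ((x / r : ℕ) : ℝ) ≤ x / r := Nat.cast_div_le
    have hy2 : (x : ℝ) / r - 1 ≤ ((x / r : ℕ) : ℝ) := by
      have h1 : x < r * (x / r + 1) := by
        have := Nat.div_add_mod x r
        have h2 := Nat.mod_lt x (show 0 < r by omega)
        rw [Nat.mul_add, Nat.mul_one]
        omega
      have h2 : (x : ℝ) < r * (((x / r : ℕ) : ℝ) + 1) := by exact_mod_cast h1
      have h3 : (x : ℝ) / r < ((x / r : ℕ) : ℝ) + 1 := by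
        rw [div_lt_iff₀ hr0]
        linarith
      linarith
    set w := (x : ℝ) ^ (1 / 4 : ℝ) with hw
    have hw0 : 0 < w := by positivity
    have hw4 : w * w * w * w = x := by
      rw [hw, ← Real.rpow_add hx0, ← Real.rpow_add hx0, ← Real.rpow_add hx0]
      norm_num
    have hy3 : w * w ≤ ((x / r : ℕ) : ℝ) := by
      have h1 : w * w * w ≤ x / r := by
        rw [le_div_iff₀ hr0, ← hw4]
        exact mul_le_mul_of_nonneg_left hrε' (by positivity)
      have h2 : w * w + 1 ≤ w * w * w := by nlinarith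
      linarith
    have hsq : w * w = Real.sqrt x := by
      rw [← hw4, show w * w * w * w = (w * w) * (w * w) by ring, Real.sqrt_mul_self (by positivity)]
    have hyy : y₀ ≤ x / r := by
      have h1 : (y₀ : ℝ) ≤ Real.sqrt x := by
        apply Real.le_sqrt_of_sq_le
        rw [sq]
        exact_mod_cast hx1
      have h2 : (y₀ : ℝ) ≤ ((x / r : ℕ) : ℝ) := by linarith
      exact_mod_cast h2
    have hlog : X / 2 ≤ Real.log ((x / r : ℕ) : ℝ) := by
      rw [hXd, ← Real.log_sqrt hx0.le, ← hsq]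
      exact Real.log_le_log (by positivity) hy3
    have h6 := hy₀ (x / r) hyy
    have h7 : (((x / r : ℕ) : ℝ)) / Real.log ((x / r : ℕ) : ℝ) ≤ (x / r) / (X / 2) :=
      div_le_div₀ (by positivity) hy1 (by positivity) hlog
    have h8 : (T.filter (fun q => len S q = r)).card ≤ (PP P (x / r)).card := by
      refine le_trans (Finset.card_le_card ?_) (BD2_fib P x r hr.1)
      intro q hq
      rw [Finset.mem_filter, hT, Finset.mem_filter] at hq
      rw [Finset.mem_filter]
      exact ⟨hq.1.1, hq.1.2.1, hq.2⟩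
    have h9 : ((T.filter (fun q => len S q = r)).card : ℝ) ≤ (PP P (x / r)).card := by
      exact_mod_cast h8
    calc ((T.filter (fun q => len S q = r)).card : ℝ) ≤ 16 * ((x / r) / (X / 2)) := by linarith
      _ = 32 * x / X * (1 / r) := by field_simp; ring
  have hharm : ∑ r ∈ Finset.Icc 1 (R0 ε x - 1), (1 / (r : ℝ)) ≤ 1 + ε * X := by
    have h1 := harmonic_le_one_add_log (R0 ε x - 1)
    have h2 : ((harmonic (R0 ε x - 1) : ℚ) : ℝ) = ∑ r ∈ Finset.Icc 1 (R0 ε x - 1), (1 / (r : ℝ)) := by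
      rw [harmonic_eq_sum_Icc]
      push_cast
      exact Finset.sum_congr rfl fun i _ => by rw [one_div]
    rw [← h2]
    refine h1.trans ?_
    have hRpos : 1 < (x : ℝ) ^ ε := Real.one_lt_rpow (by linarith) hε
    have hR1 : 1 < R0 ε x := by
      unfold R0
      rw [Nat.lt_ceil]
      exact_mod_cast hRpos
    have h3 : ((R0 ε x - 1 : ℕ) : ℝ) < (x : ℝ) ^ ε := by
      have : R0 ε x - 1 < R0 ε x := by omega
      exact Nat.lt_ceil.1 this
    have h4 : Real.log ((R0 ε x - 1 : ℕ) : ℝ) ≤ ε * X := by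
      rw [hXd, ← Real.log_rpow hx0]
      apply Real.log_le_log _ h3.le
      have : 0 < R0 ε x - 1 := by omega
      exact_mod_cast this
    linarith
  rw [hcount]
  refine (Finset.sum_le_sum hfib).trans ?_
  rw [← Finset.mul_sum]
  have h10 : 32 * (x : ℝ) / X * ∑ r ∈ Finset.Icc 1 (R0 ε x - 1), (1 / (r : ℝ)) ≤
      32 * x / X * (1 + ε * X) := mul_le_mul_of_nonneg_left hharm (by positivity)
  refine h10.trans ?_
  have h11 : 32 * (x : ℝ) / X * (1 + ε * X) = 32 * x * (1 / X + ε) := by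
    field_simp
  rw [h11]
  have h12 : 1 / X ≤ ε := by
    rw [div_le_iff₀ hX0]
    rw [div_le_iff₀ hε] at hlε
    linarith
  nlinarith

end Pool.Agent.Work.MP_7d0410_cr
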