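import Pool.Agent.Work.MP_7d0410_cr.Interface

/-! # Block BD3: few runs with a small first element -/

set_option autoImplicit false

namespace Pool.Agent.Work.MP_7d0410_cr

open Finset Filter MeasureTheory ProbabilityTheory
open scoped Classical Topology

lemma BD3_sum (T : Finset ℕ) (h : ∀ m ∈ T, 1 ≤ m) : T.card * (T.card + 1) ≤ 2 * ∑ m ∈ T, m := by
  induction T using Finset.induction_on_max with
  | empty => simp
  | insert a s hs ih =>
    have ha : a ∉ s := fun h' => lt_irrefl a (hs a h')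
    rw [Finset.card_insert_of_notMem ha, Finset.sum_insert ha]
    have ih' := ih (fun m hm => h m (Finset.mem_insert_of_mem hm))
    have ha1 := h a (Finset.mem_insert_self a s)
    have hc : s.card + 1 ≤ a := by
      have hsub : s ⊆ Finset.Icc 1 (a - 1) := fun m hm => by
        rw [Finset.mem_Icc]
        have h1 := hs m hm
        have h2 := h m (Finset.mem_insert_of_mem hm)
        omega
      have h3 := Finset.card_le_card hsub
      rw [Nat.card_Icc] at h3
      omega
    nlinarith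

lemma BD3_fib (S : Finset ℕ) (x b : ℕ) (A : Finset (ℕ × ℕ)) (hS : ∀ m ∈ S, 1 ≤ m)
    (hA : ∀ q ∈ A, q ∈ runs S ∧ sm S q ≤ x ∧ q.1 = b) :
    ∃ c : ℕ, A.card ≤ c ∧ c * b ≤ x ∧ c * (c + 1) ≤ 2 * x := by
  rcases A.eq_empty_or_nonempty with h0 | hne
  · exact ⟨0, by rw [h0]; simp, by simp, by simp⟩
  · obtain ⟨z, hz, hmax⟩ := Finset.exists_max_image A (fun q => q.2) hne
    obtain ⟨hz1, hz2, hz3⟩ := hA z hz
    refine ⟨len S z, ?_, ?_, ?_⟩
    · unfold len
      apply Finset.card_le_card_of_injOn (fun q => q.2)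
      · intro q hq
        obtain ⟨hq1, -, hq3⟩ := hA q hq
        rw [mem_runs] at hq1
        exact mem_seg.2 ⟨hq1.2.1, by rw [hz3, ← hq3]; exact hq1.2.2, hmax q hq⟩
      · intro q hq q' hq' hqq
        have h1 := (hA q hq).2.2
        have h2 := (hA q' hq').2.2
        exact Prod.ext (h1.trans h2.symm) hqq
    · rw [← hz3]
      exact (len_mul_le_sm S z).trans hz2
    · have h1 := BD3_sum (seg S z) (fun m hm => hS m (mem_seg.1 hm).1)
      unfold len
      unfold sm at hz2
      omega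

theorem p_BD3 : Stmt_BD3 := by
  intro P hP ε hε hε'
  obtain ⟨y₀, hy₀⟩ := Filter.eventually_atTop.1 hP
  have ht : Tendsto (fun x : ℕ => Real.log (x : ℝ)) atTop atTop :=
    Real.tendsto_log_atTop.comp tendsto_natCast_atTop_atTop
  filter_upwards [Filter.eventually_ge_atTop (max 4 (y₀ * y₀)), ht.eventually_ge_atTop 3,
    ht.eventually_ge_atTop (3 / ε)] with x hx hX3 hXε
  have hx4 : 4 ≤ x := (le_max_left _ _).trans hx
  have hxy : y₀ * y₀ ≤ x := (le_max_right _ _).trans hx
  set s := Nat.sqrt x with hs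
  have hsy : y₀ ≤ s := Nat.le_sqrt.2 hxy
  have hs2 : 2 ≤ s := Nat.le_sqrt.2 (by omega)
  have hss : s * s ≤ x := Nat.sqrt_le x
  have hss' : x < (s + 1) * (s + 1) := Nat.lt_succ_sqrt x
  set X := Real.log (x : ℝ) with hXd
  have hX0 : 0 < X := by linarith
  have hxr : (4 : ℝ) ≤ x := by exact_mod_cast hx4
  set r := Real.sqrt (x : ℝ) with hr
  have hr2 : r * r = x := Real.mul_self_sqrt (by linarith)
  have hr0 : 0 < r := Real.sqrt_pos.2 (by linarith)
  have hrlog : Real.log r = X / 2 := by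
    rw [hr, Real.log_sqrt (by linarith)]
  have hlog2 : Real.log 2 < 0.6931471808 := Real.log_two_lt_d9
  have hlog2' : 0.6931471803 < Real.log 2 := Real.log_two_gt_d9
  have hsr : (s : ℝ) ≤ r := by
    apply Real.le_sqrt_of_sq_le
    rw [sq]
    exact_mod_cast hss
  have hrs : r < s + 1 := by
    have h1 : r * r < ((s : ℝ) + 1) * (s + 1) := by
      rw [hr2]
      exact_mod_cast hss'
    have h2 : (0 : ℝ) ≤ s := Nat.cast_nonneg s
    nlinarith
  have hs2r : (2 : ℝ) ≤ s := by exact_mod_cast hs2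
  have hlogs : X / 4 ≤ Real.log s := by
    have h1 : r / 2 ≤ s := by linarith
    have h2 : Real.log (r / 2) ≤ Real.log s := Real.log_le_log (by positivity) h1
    rw [Real.log_div hr0.ne' (by norm_num), hrlog] at h2
    linarith
  set S := PP P x with hSd
  have hSm : ∀ m ∈ S, 1 ≤ m := by
    intro m hm
    rw [hSd] at hm
    unfold PP at hm
    rw [Finset.mem_filter, Finset.mem_Icc] at hm
    exact hm.1.1
  have hSP : ∀ m ∈ S, m ∈ P := by
    intro m hm
    rw [hSd] at hm
    unfold PP at hm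
    exact (Finset.mem_filter.1 hm).2
  set T := (runs S).filter (fun q => sm S q ≤ x ∧ q.1 < a0 ε x) with hT
  set S' := S.filter (fun b => b < a0 ε x) with hS'
  have hTS : ∀ q ∈ T, q.1 ∈ S' := by
    intro q hq
    rw [hT, Finset.mem_filter] at hq
    rw [hS', Finset.mem_filter]
    exact ⟨(mem_runs.1 hq.1).1, hq.2.2⟩
  have hcount : (T.card : ℝ) = ∑ b ∈ S', ((T.filter (fun q => q.1 = b)).card : ℝ) := by
    rw [Finset.card_eq_sum_card_fiberwise hTS]
    push_cast
    rfl
  have hfib : ∀ b, ∃ c : ℕ, (T.filter (fun q => q.1 = b)).card ≤ c ∧ c * b ≤ x ∧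
      c * (c + 1) ≤ 2 * x := by
    intro b
    apply BD3_fib S x b _ hSm
    intro q hq
    rw [Finset.mem_filter, hT, Finset.mem_filter] at hq
    exact ⟨hq.1.1, hq.1.2.1, hq.2⟩
  have hf1 : ∀ b ∈ S', ((T.filter (fun q => q.1 = b)).card : ℝ) ≤ x / b := by
    intro b hb
    obtain ⟨c, h1, h2, -⟩ := hfib b
    have hb1 := hSm b (Finset.mem_filter.1 hb).1
    have hb2 : (0 : ℝ) < b := by exact_mod_cast hb1
    rw [le_div_iff₀ hb2]
    have h3 : (((T.filter (fun q => q.1 = b)).card * b : ℕ) : ℝ) ≤ x := by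
      exact_mod_cast (Nat.mul_le_mul_right b h1).trans h2
    push_cast at h3
    exact h3
  have hf2 : ∀ b : ℕ, ((T.filter (fun q => q.1 = b)).card : ℝ) ≤ 2 * r := by
    intro b
    obtain ⟨c, h1, -, h2⟩ := hfib b
    have h3 : (c : ℝ) * (c + 1) ≤ 2 * x := by exact_mod_cast h2
    have h4 : ((T.filter (fun q => q.1 = b)).card : ℝ) ≤ c := by exact_mod_cast h1
    have h5 : (0 : ℝ) ≤ c := Nat.cast_nonneg c
    have h6 : (c : ℝ) ≤ 2 * r := by
      by_contra hcon
      push Not at hcon
      nlinarith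
    linarith
  rw [hcount, ← Finset.sum_filter_add_sum_filter_not S' (fun b => b ≤ s)]
  -- part one
  have hpart1 : ∑ b ∈ S'.filter (fun b => b ≤ s), ((T.filter (fun q => q.1 = b)).card : ℝ) ≤
      128 * (x / X) := by
    have h1 : ∑ b ∈ S'.filter (fun b => b ≤ s), ((T.filter (fun q => q.1 = b)).card : ℝ) ≤
        ∑ _b ∈ S'.filter (fun b => b ≤ s), 2 * r :=
      Finset.sum_le_sum fun b _ => hf2 b
    rw [Finset.sum_const, nsmul_eq_mul] at h1
    have h2 : ((S'.filter (fun b => b ≤ s)).card : ℝ) ≤ (PP P s).card := by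
      have : S'.filter (fun b => b ≤ s) ⊆ PP P s := by
        intro b hb
        rw [Finset.mem_filter, hS', Finset.mem_filter] at hb
        unfold PP
        rw [Finset.mem_filter, Finset.mem_Icc]
        exact ⟨⟨hSm b hb.1.1, hb.2⟩, hSP b hb.1.1⟩
      exact_mod_cast Finset.card_le_card this
    have h3 := hy₀ s hsy
    have h4 : (s : ℝ) / Real.log s ≤ r / (X / 4) :=
      div_le_div₀ hr0.le hsr (by positivity) hlogs
    have h5 : (((S'.filter (fun b => b ≤ s)).card : ℝ)) ≤ 16 * (r / (X / 4)) := by linarith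
    calc _ ≤ ((S'.filter (fun b => b ≤ s)).card : ℝ) * (2 * r) := h1
      _ ≤ 16 * (r / (X / 4)) * (2 * r) := mul_le_mul_of_nonneg_right h5 (by positivity)
      _ = 128 * (r * r / X) := by field_simp; ring
      _ = 128 * (x / X) := by rw [hr2]
  -- part two
  set B := S'.filter (fun b => ¬ b ≤ s) with hB
  set k₀ := ⌊X / (2 * Real.log 2)⌋₊ with hk₀
  set k₁ := ⌊(1 / 2 + ε) * X / Real.log 2⌋₊ with hk₁
  have hl2 : 0 < Real.log 2 := by linarith
  have hk₀' : ∀ k : ℕ, k₀ ≤ k → X / 2 ≤ ((k : ℝ) + 1) * Real.log 2 := by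
    intro k hk
    have h1 : X / (2 * Real.log 2) < (k₀ : ℝ) + 1 := Nat.lt_floor_add_one _
    have h2 : (k₀ : ℝ) ≤ k := by exact_mod_cast hk
    have h3 : X / (2 * Real.log 2) ≤ (k : ℝ) + 1 := by linarith
    rw [div_le_iff₀ (by positivity)] at h3
    linarith
  have hmaps : ∀ b ∈ B, Nat.log 2 b ∈ Finset.Icc k₀ k₁ := by
    intro b hb
    rw [hB, Finset.mem_filter, hS', Finset.mem_filter] at hb
    obtain ⟨⟨hbS, hba⟩, hbs⟩ := hb
    push Not at hbs
    have hb1 := hSm b hbS
    have hbr : (0 : ℝ) < b := by exact_mod_cast hb1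
    have hbu : (b : ℝ) < (x : ℝ) ^ (1 / 2 + ε) := by
      unfold a0 at hba
      exact Nat.lt_ceil.1 hba
    have hlu : Real.log b ≤ (1 / 2 + ε) * X := by
      rw [hXd, ← Real.log_rpow (by linarith)]
      exact Real.log_le_log hbr hbu.le
    have hrb : r ≤ b := by
      have h1 : (s : ℝ) + 1 ≤ b := by exact_mod_cast hbs
      linarith
    have hll : X / 2 ≤ Real.log b := by
      rw [← hrlog]
      exact Real.log_le_log hr0 hrb
    have hp1 : ((2 : ℝ) ^ (Nat.log 2 b)) ≤ b := by
      exact_mod_cast Nat.pow_log_le_self 2 (by omega : b ≠ 0)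
    have hp2 : (b : ℝ) < (2 : ℝ) ^ (Nat.log 2 b + 1) := by
      exact_mod_cast Nat.lt_pow_succ_log_self (by norm_num) b
    have hq1 : (Nat.log 2 b : ℝ) * Real.log 2 ≤ Real.log b := by
      have := Real.log_le_log (by positivity) hp1
      rwa [Real.log_pow] at this
    have hq2 : Real.log b < ((Nat.log 2 b : ℝ) + 1) * Real.log 2 := by
      have := Real.log_lt_log hbr hp2
      rw [Real.log_pow] at this
      push_cast at this
      exact this
    rw [Finset.mem_Icc]
    constructor
    · have h1 : (k₀ : ℝ) ≤ X / (2 * Real.log 2) := Nat.floor_le (by positivity)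
      have h2 : X / (2 * Real.log 2) < (Nat.log 2 b : ℝ) + 1 := by
        rw [div_lt_iff₀ (by positivity)]
        linarith
      have h3 : (k₀ : ℝ) < ((Nat.log 2 b + 1 : ℕ) : ℝ) := by
        push_cast
        linarith
      have h4 : k₀ < Nat.log 2 b + 1 := by exact_mod_cast h3
      omega
    · apply Nat.le_floor
      rw [le_div_iff₀ hl2]
      linarith
  have hpart2 : ∑ b ∈ B, ((T.filter (fun q => q.1 = b)).card : ℝ) ≤
      (ε * X / Real.log 2 + 2) * (64 * (x / X)) := by
    have h1 : ∑ b ∈ B, ((T.filter (fun q => q.1 = b)).card : ℝ) ≤ ∑ b ∈ B, (x : ℝ) / b :=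
      Finset.sum_le_sum fun b hb => hf1 b (Finset.mem_filter.1 hb).1
    have h2 : ∑ b ∈ B, (x : ℝ) / b =
        ∑ k ∈ Finset.Icc k₀ k₁, ∑ b ∈ B.filter (fun b => Nat.log 2 b = k), (x : ℝ) / b :=
      (Finset.sum_fiberwise_of_maps_to hmaps _).symm
    have h3 : ∀ k ∈ Finset.Icc k₀ k₁,
        ∑ b ∈ B.filter (fun b => Nat.log 2 b = k), (x : ℝ) / b ≤ 64 * (x / X) := by
      intro k hk
      rw [Finset.mem_Icc] at hk
      have hkX := hk₀' k hk.1
      have hk1 : (0 : ℝ) < (k : ℝ) + 1 := by positivity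
      -- the power is large
      have hpow : r ≤ (2 : ℝ) ^ (k + 1) := by
        have g1 : Real.log r ≤ Real.log ((2 : ℝ) ^ (k + 1)) := by
          rw [hrlog, Real.log_pow]
          push_cast
          exact hkX
        exact (Real.log_le_log_iff hr0 (by positivity)).1 g1
      have hy : y₀ ≤ 2 ^ (k + 1) := by
        have g2 : (y₀ : ℝ) ≤ ((2 ^ (k + 1) : ℕ) : ℝ) := by
          push_cast
          have : (y₀ : ℝ) ≤ s := by exact_mod_cast hsy
          linarith
        exact_mod_cast g2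
      have hcnt := hy₀ (2 ^ (k + 1)) hy
      have g3 : ((B.filter (fun b => Nat.log 2 b = k)).card : ℝ) ≤ (PP P (2 ^ (k + 1))).card := by
        have : B.filter (fun b => Nat.log 2 b = k) ⊆ PP P (2 ^ (k + 1)) := by
          intro b hb
          rw [Finset.mem_filter, hB, Finset.mem_filter, hS', Finset.mem_filter] at hb
          have hbS := hb.1.1.1
          unfold PP
          rw [Finset.mem_filter, Finset.mem_Icc]
          have g4 := Nat.lt_pow_succ_log_self (show 1 < 2 by norm_num) b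
          rw [hb.2] at g4
          exact ⟨⟨hSm b hbS, g4.le⟩, hSP b hbS⟩
        exact_mod_cast Finset.card_le_card this
      have g5 : ∑ b ∈ B.filter (fun b => Nat.log 2 b = k), (x : ℝ) / b ≤
          ∑ _b ∈ B.filter (fun b => Nat.log 2 b = k), (x : ℝ) / 2 ^ k := by
        apply Finset.sum_le_sum
        intro b hb
        rw [Finset.mem_filter, hB, Finset.mem_filter, hS', Finset.mem_filter] at hb
        have hb1 := hSm b hb.1.1.1
        have g6 := Nat.pow_log_le_self 2 (show b ≠ 0 by omega)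
        rw [hb.2] at g6
        have g7 : (2 : ℝ) ^ k ≤ b := by exact_mod_cast g6
        exact div_le_div_of_nonneg_left (by linarith) (by positivity) g7
      rw [Finset.sum_const, nsmul_eq_mul] at g5
      have g8 : (((2 : ℕ) ^ (k + 1) : ℕ) : ℝ) / Real.log (((2 : ℕ) ^ (k + 1) : ℕ) : ℝ) ≤
          2 * 2 ^ k / (X / 2) := by
        push_cast
        rw [Real.log_pow, pow_succ]
        push_cast
        apply div_le_div₀ (by positivity) (by linarith) (by positivity) hkX
      have g9 : ((B.filter (fun b => Nat.log 2 b = k)).card : ℝ) ≤ 16 * (2 * 2 ^ k / (X / 2)) := by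
        linarith
      calc _ ≤ ((B.filter (fun b => Nat.log 2 b = k)).card : ℝ) * (x / 2 ^ k) := g5
        _ ≤ 16 * (2 * 2 ^ k / (X / 2)) * (x / 2 ^ k) :=
            mul_le_mul_of_nonneg_right g9 (by positivity)
        _ = 64 * (x / X) := by field_simp; ring
    have h4 := Finset.sum_le_card_nsmul _ _ _ h3
    rw [nsmul_eq_mul, Nat.card_Icc] at h4
    have h5 : ((k₁ + 1 - k₀ : ℕ) : ℝ) ≤ ε * X / Real.log 2 + 2 := by
      have h6 : (k₁ : ℝ) ≤ (1 / 2 + ε) * X / Real.log 2 := Nat.floor_le (by positivity)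
      have h7 : X / (2 * Real.log 2) < (k₀ : ℝ) + 1 := Nat.lt_floor_add_one _
      have h8 : (1 / 2 + ε) * X / Real.log 2 = X / (2 * Real.log 2) + ε * X / Real.log 2 := by
        field_simp
      have h9 : 0 ≤ ε * X / Real.log 2 := by positivity
      rcases le_total k₀ (k₁ + 1) with h10 | h10
      · rw [Nat.cast_sub h10]
        push_cast
        linarith
      · rw [Nat.sub_eq_zero_of_le h10]
        push_cast
        linarith
    calc _ ≤ ∑ b ∈ B, (x : ℝ) / b := h1
      _ ≤ ((k₁ + 1 - k₀ : ℕ) : ℝ) * (64 * (x / X)) := by rw [h2]; exact h4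
      _ ≤ _ := mul_le_mul_of_nonneg_right h5 (by positivity)
  -- the end
  have hfin : 128 * (x / X) + (ε * X / Real.log 2 + 2) * (64 * (x / X)) ≤ 200 * ε * x := by
    have e1 : 128 * (x / X) + (ε * X / Real.log 2 + 2) * (64 * (x / X)) =
        x * (64 * ε / Real.log 2 + 256 / X) := by
      field_simp
      ring
    rw [e1]
    have e2 : 64 * ε / Real.log 2 ≤ 93 * ε := by
      rw [div_le_iff₀ hl2]
      nlinarith
    have e3 : 256 / X ≤ 107 * ε := by
      rw [div_le_iff₀ hX0]
      have : 3 ≤ X * ε := by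
        rw [div_le_iff₀ hε] at hXε
        exact hXε
      nlinarith
    nlinarith
  linarith

end Pool.Agent.Work.MP_7d0410_cr
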