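import Pool.Agent.Work.MP_7d0410_cr.Interface

/-! # Block BD4: no run with large gaps -/

set_option autoImplicit false

namespace Pool.Agent.Work.MP_7d0410_cr

open Finset Filter MeasureTheory ProbabilityTheory
open scoped Classical Topology

lemma BD4_ind (S : Finset ℕ) (a G : ℕ)
    (hgap : ∀ m ∈ S, a ≤ m → ∀ m' ∈ S, m < m' → ∃ p ∈ S, m < p ∧ p ≤ m + G) :
    ∀ d : ℕ, ∀ q : ℕ × ℕ, q ∈ runs S → a ≤ q.1 → q.2 ≤ q.1 + d → q.2 ≤ q.1 + G * len S q := by
  intro d
  induction d using Nat.strong_induction_on with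
  | _ d ih =>
    intro q hq ha hd
    obtain ⟨h1, h2, h3⟩ := mem_runs.1 hq
    rcases h3.eq_or_lt with he | hlt
    · rw [he]
      exact Nat.le_add_right _ _
    · obtain ⟨p, hp, hp1, hp2⟩ := hgap q.1 h1 ha q.2 h2 hlt
      have hl1 := len_pos hq
      rcases le_or_gt q.2 p with hle | hlt2
      · have : G * 1 ≤ G * len S q := Nat.mul_le_mul_left G hl1
        omega
      · have hrun : (p, q.2) ∈ runs S := mem_runs.2 ⟨hp, h2, hlt2.le⟩
        have h4 := ih (d - 1) (by omega) (p, q.2) hrun (by simp only; omega) (by simp only; omega)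
        have h5 : len S (p, q.2) + 1 ≤ len S q := by
          unfold len
          have hnot : q.1 ∉ seg S (p, q.2) := by
            rw [mem_seg]
            simp only
            omega
          rw [← Finset.card_insert_of_notMem hnot]
          apply Finset.card_le_card
          intro m hm
          rcases Finset.mem_insert.1 hm with h | h
          · rw [h]
            exact mem_seg.2 ⟨h1, le_rfl, h3⟩
          · rw [mem_seg] at h ⊢
            simp only at h
            exact ⟨h.1, by omega, h.2.2⟩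
        have h6 : G * (len S (p, q.2) + 1) ≤ G * len S q := Nat.mul_le_mul_left G h5
        rw [Nat.mul_add, Nat.mul_one] at h6
        simp only at h4
        omega

theorem p_BD4 : Stmt_BD4 := by
  intro P hP ε hε hε'
  obtain ⟨m₀, hm₀⟩ := Filter.eventually_atTop.1 hP
  filter_upwards [Filter.eventually_ge_atTop (max (m₀ * m₀) 3)] with x hx
  have hx1 : m₀ * m₀ ≤ x := (le_max_left _ _).trans hx
  have hx3 : 3 ≤ x := (le_max_right _ _).trans hx
  have hx3' : (3 : ℝ) ≤ x := by exact_mod_cast hx3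
  -- the start is large
  have ha : m₀ ≤ a0 ε x := by
    have h1 : (m₀ : ℝ) ≤ Real.sqrt x := by
      apply Real.le_sqrt_of_sq_le
      rw [sq]
      exact_mod_cast hx1
    have h2 : Real.sqrt x ≤ (x : ℝ) ^ (1 / 2 + ε) := by
      rw [Real.sqrt_eq_rpow]
      exact Real.rpow_le_rpow_of_exponent_le (by linarith) (by linarith)
    have h3 : (x : ℝ) ^ (1 / 2 + ε) ≤ (a0 ε x : ℝ) := Nat.le_ceil _
    have h4 : (m₀ : ℝ) ≤ (a0 ε x : ℝ) := h1.trans (h2.trans h3)
    exact_mod_cast h4
  intro q hq hqa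
  refine BD4_ind (PP P x) (a0 ε x) (GG x) ?_ (q.2 - q.1) q hq hqa (by omega)
  intro m hm hma m' hm' hmm'
  have hmx : ∀ y ∈ PP P x, 1 ≤ y ∧ y ≤ x ∧ y ∈ P := by
    intro y hy
    unfold PP at hy
    rw [Finset.mem_filter, Finset.mem_Icc] at hy
    exact ⟨hy.1.1, hy.1.2, hy.2⟩
  obtain ⟨h1, h2, h3⟩ := hmx m hm
  obtain ⟨h1', h2', h3'⟩ := hmx m' hm'
  obtain ⟨p, hp, hp1, hp2⟩ := hm₀ m (ha.trans hma)
  have hlog : Real.log m ≤ Real.log x := by
    apply Real.log_le_log
    · exact_mod_cast h1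
    · exact_mod_cast h2
  have hlog0 : 0 ≤ Real.log m := Real.log_natCast_nonneg m
  have hG : 10 * Real.log m ^ 2 ≤ (GG x : ℝ) := by
    have h4 : 40 * Real.log x ^ 2 ≤ (GG x : ℝ) := Nat.le_ceil _
    nlinarith
  have hpG : p ≤ m + GG x := by
    have : (p : ℝ) ≤ ((m + GG x : ℕ) : ℝ) := by
      push_cast
      linarith
    exact_mod_cast this
  by_cases hpx : p ≤ x
  · refine ⟨p, ?_, hp1, hpG⟩
    unfold PP
    rw [Finset.mem_filter, Finset.mem_Icc]
    exact ⟨⟨by omega, hpx⟩, hp⟩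
  · exact ⟨m', hm', hmm', by omega⟩

end Pool.Agent.Work.MP_7d0410_cr
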