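import Pool.Agent.Work.MP_7d0410_cr.Interface

/-!
# Moser's problem in Cramér's random model: colliding runs (block C1A)
-/

set_option autoImplicit false

namespace Pool.Agent.Work.MP_7d0410_cr

open Finset Filter MeasureTheory ProbabilityTheory
open scoped Classical Topology

/-- the last element of `S` below `y` -/
noncomputable def C1A_prd (S : Finset ℕ) (y : ℕ) : ℕ := (S.filter (fun m => m < y)).sup id

/-- the first element of `S` above `y` -/
noncomputable def C1A_nxt (S : Finset ℕ) (y : ℕ) : ℕ := sInf {m | m ∈ S ∧ y < m}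

lemma C1A_prd_spec {S : Finset ℕ} {y a : ℕ} (ha : a ∈ S) (hy : a < y) :
    C1A_prd S y ∈ S ∧ C1A_prd S y < y ∧ ∀ m ∈ S, m < y → m ≤ C1A_prd S y := by
  have hne : (S.filter (fun m => m < y)).Nonempty := ⟨a, Finset.mem_filter.2 ⟨ha, hy⟩⟩
  obtain ⟨b, hb, hb2⟩ := Finset.exists_mem_eq_sup _ hne id
  have hb' := Finset.mem_filter.1 hb
  have e : C1A_prd S y = b := hb2
  refine ⟨e ▸ hb'.1, e ▸ hb'.2, fun m hm hmy => ?_⟩
  exact Finset.le_sup (f := id) (Finset.mem_filter.2 ⟨hm, hmy⟩)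

lemma C1A_nxt_spec {S : Finset ℕ} {y a : ℕ} (ha : a ∈ S) (hy : y < a) :
    C1A_nxt S y ∈ S ∧ y < C1A_nxt S y ∧ ∀ m ∈ S, y < m → C1A_nxt S y ≤ m := by
  have hne : ({m | m ∈ S ∧ y < m} : Set ℕ).Nonempty := ⟨a, ha, hy⟩
  have h := Nat.sInf_mem hne
  exact ⟨h.1, h.2, fun m hm hmy => Nat.sInf_le ⟨hm, hmy⟩⟩

lemma C1A_seg_split {S : Finset ℕ} {a c b e : ℕ} (hac : a ≤ b) (hcb : c < b) (hce : c ≤ e)
    (h : ∀ m ∈ S, c < m → b ≤ m) : sm S (a, e) = sm S (a, c) + sm S (b, e) := by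
  unfold sm
  rw [← Finset.sum_union]
  · congr 1
    ext m
    simp only [mem_seg, Finset.mem_union]
    constructor
    · rintro ⟨h1, h2, h3⟩
      by_cases hm : m ≤ c
      · exact Or.inl ⟨h1, h2, hm⟩
      · exact Or.inr ⟨h1, h m h1 (by omega), h3⟩
    · rintro (⟨h1, h2, h3⟩ | ⟨h1, h2, h3⟩)
      · exact ⟨h1, h2, by omega⟩
      · exact ⟨h1, by omega, h3⟩
  · rw [Finset.disjoint_left]
    intro m h1 h2
    have h1 := (mem_seg.1 h1).2
    have h2 := (mem_seg.1 h2).2
    simp only at h1 h2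
    omega

lemma C1A_sm_lt {S : Finset ℕ} {q q' : ℕ × ℕ} {m : ℕ} (hpos : ∀ m ∈ S, 1 ≤ m)
    (h : seg S q' ⊆ seg S q) (hm : m ∈ seg S q) (hm' : m ∉ seg S q') : sm S q' < sm S q := by
  unfold sm
  refine Finset.sum_lt_sum_of_subset h hm hm' ?_ (fun _ _ _ => Nat.zero_le _)
  exact hpos m (mem_seg.1 hm).1

/-- the map from pairs of short runs to pairs of colliding runs -/
noncomputable def C1A_psi (S : Finset ℕ) (z : (ℕ × ℕ) × (ℕ × ℕ)) : (ℕ × ℕ) × (ℕ × ℕ) :=
  ((z.1.1, C1A_prd S z.2.1), (C1A_nxt S z.1.2, z.2.2))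

/-- the pairs of colliding runs, in order -/
noncomputable def C1A_Z (R G : ℕ) (S : Finset ℕ) (n : ℕ) : Finset ((ℕ × ℕ) × (ℕ × ℕ)) :=
  (gr R G S n ×ˢ gr R G S n).filter (fun z => z.1.1 < z.2.1 ∧ meet z.1 z.2)

lemma C1A_mem {S : Finset ℕ} {R G x n : ℕ} (hpos : ∀ m ∈ S, 1 ≤ m) (hn : n ≤ x)
    {z : (ℕ × ℕ) × (ℕ × ℕ)} (hz : z ∈ C1A_Z R G S n) : z ∈ (AB S G x).image (C1A_psi S) := by
  obtain ⟨⟨a, b⟩, ⟨a', b'⟩⟩ := z
  unfold C1A_Z at hz
  rw [Finset.mem_filter, Finset.mem_product] at hz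
  obtain ⟨⟨hq, hq'⟩, hlt, hmeet⟩ := hz
  simp only at hq hq' hlt
  obtain ⟨hqg, hqs⟩ := mem_gr.1 hq
  obtain ⟨hqg', hqs'⟩ := mem_gr.1 hq'
  obtain ⟨hqr, -, hqG⟩ := mem_good.1 hqg
  obtain ⟨hqr', -, hqG'⟩ := mem_good.1 hqg'
  obtain ⟨haS, hbS, hab⟩ := mem_runs.1 hqr
  obtain ⟨haS', hbS', hab'⟩ := mem_runs.1 hqr'
  simp only at haS hbS hab haS' hbS' hab' hqG hqG'
  have hm1 : a' ≤ b := hmeet.2
  have hbb : b < b' := by
    by_contra hcon
    push Not at hcon
    have : sm S (a', b') < sm S (a, b) := by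
      refine C1A_sm_lt (m := a) hpos ?_ ?_ ?_
      · intro m hm
        have := mem_seg.1 hm
        simp only at this
        exact mem_seg.2 ⟨this.1, by simp only; omega, by simp only; omega⟩
      · exact mem_seg.2 ⟨haS, le_rfl, hab⟩
      · intro hm
        have := (mem_seg.1 hm).2.1
        simp only at this
        omega
    omega
  obtain ⟨hc1, hc2, hc3⟩ := C1A_prd_spec haS hlt
  obtain ⟨hd1, hd2, hd3⟩ := C1A_nxt_spec hbS' hbb
  set c := C1A_prd S a' with hc
  set d := C1A_nxt S b with hd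
  have hac : a ≤ c := hc3 a haS hlt
  have hdb : d ≤ b' := hd3 b' hbS' hbb
  have s1 : sm S (a, b) = sm S (a, c) + sm S (a', b) :=
    C1A_seg_split (by omega) hc2 (by omega) (fun m hm hcm => by
      by_contra hlt'
      exact absurd (hc3 m hm (by omega)) (by omega))
  have s2 : sm S (a', b') = sm S (a', b) + sm S (d, b') :=
    C1A_seg_split (by omega) hd2 (by omega) (fun m hm hcm => hd3 m hm hcm)
  have hl1 := len_mul_le_sm S (a, b)
  have hl2 := len_mul_le_sm S (a', b')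
  simp only at hl1 hl2
  refine Finset.mem_image.2 ⟨((a, c), (d, b')), ?_, ?_⟩
  · unfold AB
    rw [Finset.mem_filter, Finset.mem_product]
    refine ⟨⟨mem_runs.2 ⟨haS, hc1, hac⟩, mem_runs.2 ⟨hd1, hbS', hdb⟩⟩, ?_, ?_, ?_, ?_⟩
    · simp only; omega
    · simp only; omega
    · simp only; omega
    · simp only
      have h1 : a * (b - a) ≤ G * x := by
        calc a * (b - a) ≤ a * (G * len S (a, b)) := Nat.mul_le_mul_left _ (by omega)
          _ = G * (len S (a, b) * a) := by ring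
          _ ≤ G * x := Nat.mul_le_mul_left _ (by omega)
      have h2 : a * (b' - a') ≤ G * x := by
        calc a * (b' - a') ≤ a' * (G * len S (a', b')) :=
              Nat.mul_le_mul hlt.le (by omega)
          _ = G * (len S (a', b') * a') := by ring
          _ ≤ G * x := Nat.mul_le_mul_left _ (by omega)
      calc a * (b' - a) ≤ a * ((b' - a') + (b - a)) := Nat.mul_le_mul_left _ (by omega)
        _ = a * (b' - a') + a * (b - a) := by ring
        _ ≤ G * x + G * x := Nat.add_le_add h2 h1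
        _ = 2 * G * x := by ring
  · unfold C1A_psi
    simp only
    have e1 : C1A_prd S d = b := by
      obtain ⟨k1, k2, k3⟩ := C1A_prd_spec hbS hd2
      refine le_antisymm ?_ (k3 b hbS hd2)
      by_contra hcon
      push Not at hcon
      exact absurd (hd3 _ k1 hcon) (by omega)
    have e2 : C1A_nxt S c = a' := by
      obtain ⟨k1, k2, k3⟩ := C1A_nxt_spec haS' hc2
      refine le_antisymm (k3 a' haS' hc2) ?_
      by_contra hcon
      push Not at hcon
      exact absurd (hc3 _ k1 hcon) (by omega)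
    rw [e1, e2]

lemma C1A_start {S : Finset ℕ} {q q' : ℕ × ℕ} (hpos : ∀ m ∈ S, 1 ≤ m) (hq : q ∈ runs S)
    (hq' : q' ∈ runs S) (hs : sm S q = sm S q') (h1 : q.1 = q'.1) : q = q' := by
  obtain ⟨a1, a2, a3⟩ := mem_runs.1 hq
  obtain ⟨b1, b2, b3⟩ := mem_runs.1 hq'
  rcases lt_trichotomy q.2 q'.2 with h | h | h
  · exfalso
    have : sm S q < sm S q' := by
      refine C1A_sm_lt (m := q'.2) hpos ?_ ?_ ?_
      · intro m hm
        have := mem_seg.1 hm
        exact mem_seg.2 ⟨this.1, by omega, by omega⟩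
      · exact mem_seg.2 ⟨b2, b3, le_rfl⟩
      · intro hm
        have := (mem_seg.1 hm).2.2
        omega
    omega
  · exact Prod.ext h1 h
  · exfalso
    have : sm S q' < sm S q := by
      refine C1A_sm_lt (m := q.2) hpos ?_ ?_ ?_
      · intro m hm
        have := mem_seg.1 hm
        exact mem_seg.2 ⟨this.1, by omega, by omega⟩
      · exact mem_seg.2 ⟨a2, a3, le_rfl⟩
      · intro hm
        have := (mem_seg.1 hm).2.2
        omega
    omega

lemma C1A_ordered {S : Finset ℕ} {R G n : ℕ} (hpos : ∀ m ∈ S, 1 ≤ m) :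
    ∑ q ∈ gr R G S n, ((gr R G S n).filter (fun q' => q' ≠ q ∧ meet q q')).card ≤
      2 * (C1A_Z R G S n).card := by
  have e1 : (C1A_Z R G S n).card =
      ∑ q ∈ gr R G S n, ((gr R G S n).filter (fun q' => q.1 < q'.1 ∧ meet q q')).card := by
    unfold C1A_Z
    rw [Finset.card_filter, Finset.sum_product]
    exact Finset.sum_congr rfl fun q _ => (Finset.card_filter _ _).symm
  have e2 : (C1A_Z R G S n).card =
      ∑ q ∈ gr R G S n, ((gr R G S n).filter (fun q' => q'.1 < q.1 ∧ meet q q')).card := by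
    unfold C1A_Z
    rw [Finset.card_filter, Finset.sum_product_right]
    refine Finset.sum_congr rfl fun q _ => ?_
    rw [Finset.card_filter]
    refine Finset.sum_congr rfl fun q' _ => ?_
    have : meet q' q ↔ meet q q' := ⟨fun h => ⟨h.2, h.1⟩, fun h => ⟨h.2, h.1⟩⟩
    simp only [this]
  have e3 : ∑ q ∈ gr R G S n, ((gr R G S n).filter (fun q' => q' ≠ q ∧ meet q q')).card ≤
      ∑ q ∈ gr R G S n, (((gr R G S n).filter (fun q' => q.1 < q'.1 ∧ meet q q')).card +
        ((gr R G S n).filter (fun q' => q'.1 < q.1 ∧ meet q q')).card) := by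
    refine Finset.sum_le_sum fun q hq => ?_
    rw [← Finset.card_union_add_card_inter]
    refine le_trans (Finset.card_le_card ?_) (Nat.le_add_right _ _)
    intro q' hq'
    obtain ⟨h1, h2, h3⟩ := Finset.mem_filter.1 hq'
    obtain ⟨g1, g2⟩ := mem_gr.1 hq
    obtain ⟨g1', g2'⟩ := mem_gr.1 h1
    rcases lt_trichotomy q.1 q'.1 with h | h | h
    · exact Finset.mem_union_left _ (Finset.mem_filter.2 ⟨h1, h, h3⟩)
    · exact absurd (C1A_start hpos (mem_good.1 g1').1 (mem_good.1 g1).1 (by omega) h.symm) h2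
    · exact Finset.mem_union_right _ (Finset.mem_filter.2 ⟨h1, h, h3⟩)
  rw [Finset.sum_add_distrib, ← e1, ← e2] at e3
  omega

theorem p_C1A : Stmt_C1A := by
  intro S R G x hpos
  calc ∑ n ∈ Finset.Icc 1 x, ∑ q ∈ gr R G S n,
        ((gr R G S n).filter (fun q' => q' ≠ q ∧ meet q q')).card
      ≤ ∑ n ∈ Finset.Icc 1 x, 2 * (C1A_Z R G S n).card :=
        Finset.sum_le_sum fun n _ => C1A_ordered hpos
    _ = 2 * ∑ n ∈ Finset.Icc 1 x, (C1A_Z R G S n).card := by rw [Finset.mul_sum]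
    _ = 2 * ((Finset.Icc 1 x).biUnion (fun n => C1A_Z R G S n)).card := by
        rw [Finset.card_biUnion]
        intro n _ n' _ hne
        rw [Function.onFun, Finset.disjoint_left]
        intro z h1 h2
        apply hne
        have h1 := (Finset.mem_product.1 (Finset.mem_filter.1 h1).1).1
        have h2 := (Finset.mem_product.1 (Finset.mem_filter.1 h2).1).1
        exact (mem_gr.1 h1).2.symm.trans (mem_gr.1 h2).2
    _ ≤ 2 * ((AB S G x).image (C1A_psi S)).card := by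
        refine Nat.mul_le_mul_left _ (Finset.card_le_card ?_)
        intro z hz
        obtain ⟨n, hn, hz⟩ := Finset.mem_biUnion.1 hz
        exact C1A_mem hpos (Finset.mem_Icc.1 hn).2 hz
    _ ≤ 2 * (AB S G x).card := Nat.mul_le_mul_left _ Finset.card_image_le

end Pool.Agent.Work.MP_7d0410_cr
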