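import Pool.Agent.Work.MP_7d0410_cr.Interface

/-!
# Moser's problem in Cramér's random model: the number of pairs of short runs (block C1B)
-/

set_option autoImplicit false

namespace Pool.Agent.Work.MP_7d0410_cr

open Finset Filter MeasureTheory ProbabilityTheory
open scoped Classical Topology

/-- `∑ 1 / b³` -/
lemma C1B_cube (a : ℕ) (ha : 2 ≤ a) (N : ℕ) : ∑ b ∈ Finset.Icc a N, 1 / (b : ℝ) ^ 3 ≤ 2 / (a : ℝ) ^ 2 := by
  have ha' : (2 : ℝ) ≤ a := by exact_mod_cast ha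
  have key : ∀ d : ℕ, ∑ b ∈ Finset.Icc a (a + d), 1 / (b : ℝ) ^ 3 ≤
      1 / (a : ℝ) * (1 / ((a : ℝ) - 1) - 1 / ((a : ℝ) + d)) := by
    intro d
    induction d with
    | zero =>
      simp only [Nat.add_zero, Finset.Icc_self, Finset.sum_singleton, Nat.cast_zero, add_zero]
      have h1 : 1 / ((a : ℝ) - 1) - 1 / (a : ℝ) = 1 / (((a : ℝ) - 1) * a) := by
        have h0 : (a : ℝ) - 1 ≠ 0 := by linarith
        have h0' : (a : ℝ) ≠ 0 := by linarith
        rw [div_sub_div _ _ h0 h0']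
        congr 1
        ring
      rw [h1, one_div_mul_one_div]
      apply one_div_le_one_div_of_le
      · have : 0 < (a : ℝ) - 1 := by linarith
        positivity
      · nlinarith [sq_nonneg (a : ℝ)]
    | succ d ih =>
      rw [← Nat.add_assoc, Finset.sum_Icc_succ_top (by omega)]
      have hb : (0 : ℝ) < (a : ℝ) + d := by positivity
      have h2 : 1 / ((a + d + 1 : ℕ) : ℝ) ^ 3 ≤
          1 / (a : ℝ) * (1 / ((a : ℝ) + d) - 1 / ((a : ℝ) + (d + 1 : ℕ))) := by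
        push_cast
        have h3 : 1 / ((a : ℝ) + d) - 1 / ((a : ℝ) + (d + 1)) = 1 / (((a : ℝ) + d) * (a + (d + 1))) := by
          field_simp
          ring
        rw [h3, one_div_mul_one_div]
        apply one_div_le_one_div_of_le
        · positivity
        · have e : ((a : ℝ) + d + 1) ^ 3 = ((a : ℝ) + d + 1) * ((a + d + 1) * (a + (d + 1))) := by ring
          rw [e]
          have hd : (0 : ℝ) ≤ d := Nat.cast_nonneg d
          refine mul_le_mul (by linarith) ?_ (by positivity) (by positivity)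
          exact mul_le_mul_of_nonneg_right (by linarith) (by positivity)
      calc _ ≤ 1 / (a : ℝ) * (1 / ((a : ℝ) - 1) - 1 / ((a : ℝ) + d)) +
            1 / (a : ℝ) * (1 / ((a : ℝ) + d) - 1 / ((a : ℝ) + (d + 1 : ℕ))) := add_le_add ih h2
        _ = _ := by ring
  have hfin : ∀ d : ℕ, 1 / (a : ℝ) * (1 / ((a : ℝ) - 1) - 1 / ((a : ℝ) + d)) ≤ 2 / (a : ℝ) ^ 2 := by
    intro d
    have h0 : (0 : ℝ) < (a : ℝ) - 1 := by linarith
    have h1 : 0 ≤ 1 / ((a : ℝ) + d) := by positivity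
    calc 1 / (a : ℝ) * (1 / ((a : ℝ) - 1) - 1 / ((a : ℝ) + d)) ≤ 1 / (a : ℝ) * (1 / ((a : ℝ) - 1)) :=
          mul_le_mul_of_nonneg_left (by linarith) (by positivity)
      _ = 1 / ((a : ℝ) * (a - 1)) := by rw [one_div_mul_one_div]
      _ ≤ 2 / (a : ℝ) ^ 2 := by
          rw [div_le_div_iff₀ (by positivity) (by positivity)]
          nlinarith
  by_cases h : a ≤ N
  · obtain ⟨d, rfl⟩ := Nat.exists_eq_add_of_le h
    exact (key d).trans (hfin d)
  · rw [Finset.Icc_eq_empty h, Finset.sum_empty]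
    positivity

/-- the lengths and first elements of the pairs -/
def C1B_J (a x G : ℕ) : Finset (Σ _ : ℕ, Σ _ : ℕ, ℕ) :=
  (Finset.Icc a x).sigma fun b => (Finset.Icc 1 (x / b)).sigma fun l =>
    Finset.Ioc l (l + 2 * G * x * l / b ^ 2)

lemma C1B_mem {a x G : ℕ} {S : Finset ℕ} (ha : 1 ≤ a) (hS : S ⊆ Finset.Icc a (2 * x))
    {z : (ℕ × ℕ) × (ℕ × ℕ)} (hz : z ∈ AB S G x) :
    (⟨z.1.1, len S z.2, len S z.1⟩ : Σ _ : ℕ, Σ _ : ℕ, ℕ) ∈ C1B_J a x G := by
  obtain ⟨hz7, hz8, hz9, hz10, hz11⟩ := Finset.mem_filter.1 hz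
  obtain ⟨r1, r2⟩ := Finset.mem_product.1 hz7
  obtain ⟨g1, g2, g3⟩ := mem_runs.1 r1
  obtain ⟨f1, f2, f3⟩ := mem_runs.1 r2
  have hb : a ≤ z.1.1 := (Finset.mem_Icc.1 (hS g1)).1
  have hl1 := len_pos r2
  have h1 := len_mul_le_sm S z.1
  have h2 := len_mul_le_sm S z.2
  have h3 := sm_le_len_mul S z.1
  have h4 := sm_le_len_mul S z.2
  have hbx : z.1.1 ≤ x := by
    have : z.1.1 ∈ seg S z.1 := mem_seg.2 ⟨g1, le_rfl, g3⟩
    exact (le_sm_of_mem this).trans hz10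
  set b := z.1.1
  set k := len S z.1
  set l := len S z.2
  have hb0 : 0 < b := lt_of_lt_of_le ha hb
  have hlx : l * b ≤ x := by
    calc l * b ≤ l * z.2.1 := Nat.mul_le_mul_left _ (by omega)
      _ ≤ x := by omega
  have hkl : l < k := by
    by_contra hcon
    push Not at hcon
    have e1 : k * z.1.2 ≤ l * z.1.2 := Nat.mul_le_mul_right _ hcon
    have e2 : l * z.1.2 < l * z.2.1 := Nat.mul_lt_mul_of_pos_left hz8 (by omega)
    omega
  have hk2 : (k - l) * b ^ 2 ≤ 2 * G * x * l := by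
    have e1 : k * b ≤ l * z.2.2 := by omega
    have e2 : (k - l) * b ≤ l * (z.2.2 - b) := by
      rw [Nat.sub_mul, Nat.mul_sub]
      omega
    calc (k - l) * b ^ 2 = b * ((k - l) * b) := by ring
      _ ≤ b * (l * (z.2.2 - b)) := Nat.mul_le_mul_left _ e2
      _ = l * (b * (z.2.2 - b)) := by ring
      _ ≤ l * (2 * G * x) := Nat.mul_le_mul_left _ hz11
      _ = 2 * G * x * l := by ring
  refine Finset.mem_sigma.2 ⟨Finset.mem_Icc.2 ⟨hb, hbx⟩, Finset.mem_sigma.2 ⟨?_, ?_⟩⟩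
  · exact Finset.mem_Icc.2 ⟨hl1, (Nat.le_div_iff_mul_le hb0).2 hlx⟩
  · refine Finset.mem_Ioc.2 ⟨hkl, ?_⟩
    have : k - l ≤ 2 * G * x * l / b ^ 2 :=
      (Nat.le_div_iff_mul_le (pow_pos hb0 2)).2 hk2
    have h' : k ≤ l + 2 * G * x * l / b ^ 2 := by omega
    exact h'

theorem p_C1B (h1 : Stmt_C1L) : Stmt_C1B := by
  intro a x G ha hx
  set U := Finset.Icc a (2 * x) with hU
  have ha0 : (0 : ℝ) < a := by
    have : 0 < a := by omega
    exact_mod_cast this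
  have step1 : Ex U (fun S => ((AB S G x).card : ℝ)) ≤
      ∑ j ∈ C1B_J a x G, Ex U (fun S => (((AB S G x).filter
        (fun z => z.1.1 = j.1 ∧ len S z.1 = j.2.2 ∧ len S z.2 = j.2.1)).card : ℝ)) := by
    rw [← Ex_sum]
    refine Ex_mono fun S hS => ?_
    have : AB S G x ⊆ (C1B_J a x G).biUnion (fun j => (AB S G x).filter
        (fun z => z.1.1 = j.1 ∧ len S z.1 = j.2.2 ∧ len S z.2 = j.2.1)) := by
      intro z hz
      refine Finset.mem_biUnion.2 ⟨⟨z.1.1, len S z.2, len S z.1⟩, C1B_mem (by omega) hS hz, ?_⟩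
      exact Finset.mem_filter.2 ⟨hz, rfl, rfl, rfl⟩
    have h := (Finset.card_le_card this).trans Finset.card_biUnion_le
    exact_mod_cast h
  have step2 : ∀ j ∈ C1B_J a x G, Ex U (fun S => (((AB S G x).filter
        (fun z => z.1.1 = j.1 ∧ len S z.1 = j.2.2 ∧ len S z.2 = j.2.1)).card : ℝ)) ≤ 2 / (j.2.1 : ℝ) := by
    intro j hj
    obtain ⟨hj1, hj2⟩ := Finset.mem_sigma.1 hj
    obtain ⟨hj3, hj4⟩ := Finset.mem_sigma.1 hj2
    exact h1 a x G j.1 j.2.2 j.2.1 ha hx (Finset.mem_Icc.1 hj1).1 (Finset.mem_Icc.1 hj3).1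
  have step3 : ∑ j ∈ C1B_J a x G, 2 / (j.2.1 : ℝ) ≤
      ∑ b ∈ Finset.Icc a x, 4 * G * (x : ℝ) ^ 2 * (1 / (b : ℝ) ^ 3) := by
    unfold C1B_J
    rw [Finset.sum_sigma]
    refine Finset.sum_le_sum fun b hb => ?_
    rw [Finset.sum_sigma]
    have hb0 : (0 : ℝ) < b := by
      have := (Finset.mem_Icc.1 hb).1
      have : 0 < b := by omega
      exact_mod_cast this
    calc ∑ l ∈ Finset.Icc 1 (x / b), ∑ k ∈ Finset.Ioc l (l + 2 * G * x * l / b ^ 2), 2 / (l : ℝ)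
        ≤ ∑ l ∈ Finset.Icc 1 (x / b), 4 * G * (x : ℝ) / (b : ℝ) ^ 2 := by
          refine Finset.sum_le_sum fun l hl => ?_
          have hl0 : (0 : ℝ) < l := by
            have := (Finset.mem_Icc.1 hl).1
            exact_mod_cast this
          rw [Finset.sum_const, Nat.card_Ioc, nsmul_eq_mul, Nat.add_sub_cancel_left]
          have : ((2 * G * x * l / b ^ 2 : ℕ) : ℝ) ≤ (2 * G * x * l : ℝ) / (b : ℝ) ^ 2 := by
            have := @Nat.cast_div_le ℝ _ _ _ (2 * G * x * l) (b ^ 2)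
            push_cast at this
            exact this
          calc ((2 * G * x * l / b ^ 2 : ℕ) : ℝ) * (2 / l) ≤ (2 * G * x * l : ℝ) / (b : ℝ) ^ 2 * (2 / l) :=
                mul_le_mul_of_nonneg_right this (by positivity)
            _ = 4 * G * (x : ℝ) / (b : ℝ) ^ 2 := by field_simp; ring
      _ = ((x / b : ℕ) : ℝ) * (4 * G * (x : ℝ) / (b : ℝ) ^ 2) := by
          rw [Finset.sum_const, Nat.card_Icc, nsmul_eq_mul, Nat.add_sub_cancel]
      _ ≤ ((x : ℝ) / b) * (4 * G * (x : ℝ) / (b : ℝ) ^ 2) :=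
          mul_le_mul_of_nonneg_right Nat.cast_div_le (by positivity)
      _ = 4 * G * (x : ℝ) ^ 2 * (1 / (b : ℝ) ^ 3) := by field_simp
  calc _ ≤ _ := step1
    _ ≤ ∑ j ∈ C1B_J a x G, 2 / (j.2.1 : ℝ) := Finset.sum_le_sum step2
    _ ≤ _ := step3
    _ = 4 * G * (x : ℝ) ^ 2 * ∑ b ∈ Finset.Icc a x, (1 / (b : ℝ) ^ 3) := by rw [Finset.mul_sum]
    _ ≤ 4 * G * (x : ℝ) ^ 2 * (2 / (a : ℝ) ^ 2) :=
        mul_le_mul_of_nonneg_left (C1B_cube a (by omega) x) (by positivity)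
    _ = 8 * G * (x : ℝ) ^ 2 / (a : ℝ) ^ 2 := by ring

end Pool.Agent.Work.MP_7d0410_cr
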