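import Pool.Agent.Work.MP_7d0410_cr.Interface

/-!
# Moser's problem in Cramér's random model: pairs of short runs (block C1L)
-/

set_option autoImplicit false

namespace Pool.Agent.Work.MP_7d0410_cr

open Finset Filter MeasureTheory ProbabilityTheory
open scoped Classical Topology

/-- the event that `(b, c)` is a run of length `k` with the sum at most `x` -/
noncomputable def C1L_K (x b k c : ℕ) (T : Finset ℕ) : ℝ :=
  if (b, c) ∈ runs T ∧ len T (b, c) = k ∧ sm T (b, c) ≤ x then 1 else 0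

lemma C1L_seg_low {S U : Finset ℕ} (hS : S ⊆ U) (b c : ℕ) :
    seg (S ∩ U.filter (fun m => m ≤ c)) (b, c) = seg S (b, c) := by
  ext m
  simp only [mem_seg, Finset.mem_inter, Finset.mem_filter]
  constructor
  · rintro ⟨⟨h1, _⟩, h2⟩; exact ⟨h1, h2⟩
  · rintro ⟨h1, h2⟩; exact ⟨⟨h1, hS h1, h2.2⟩, h2⟩

lemma C1L_seg_high {S U : Finset ℕ} {q : ℕ × ℕ} {c : ℕ} (h : c < q.1) :
    seg (S \ U.filter (fun m => m ≤ c)) q = seg S q := by
  ext m
  simp only [mem_seg, Finset.mem_sdiff, Finset.mem_filter]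
  constructor
  · rintro ⟨⟨h1, _⟩, h2⟩; exact ⟨h1, h2⟩
  · rintro ⟨h1, h2⟩
    exact ⟨⟨h1, fun h3 => by omega⟩, h2⟩

lemma C1L_rr_sub {S U : Finset ℕ} (hS : S ⊆ U) (c l s : ℕ) :
    rr (S \ U.filter (fun m => m ≤ c)) l s ⊆ rr S l s := by
  intro q hq
  obtain ⟨h1, h2, h3⟩ := mem_rr.1 hq
  obtain ⟨g1, g2, g3⟩ := mem_runs.1 h1
  have g1' := Finset.mem_sdiff.1 g1
  have hc : c < q.1 := by
    by_contra hcon
    push Not at hcon
    exact g1'.2 (Finset.mem_filter.2 ⟨hS g1'.1, hcon⟩)
  unfold len at h2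
  unfold sm at h3
  rw [C1L_seg_high hc] at h2 h3
  exact mem_rr.2 ⟨mem_runs.2 ⟨g1'.1, (Finset.mem_sdiff.1 g2).1, g3⟩, h2, h3⟩

/-- at most one end for given start and length -/
lemma C1L_one (x b k : ℕ) (U S : Finset ℕ) (hS : S ⊆ U) :
    ∑ c ∈ U, C1L_K x b k c (S ∩ U.filter (fun m => m ≤ c)) ≤ 1 := by
  have hK : ∀ c ∈ U, C1L_K x b k c (S ∩ U.filter (fun m => m ≤ c)) ≤
      if c ∈ U.filter (fun c => (b, c) ∈ runs S ∧ len S (b, c) = k) then 1 else 0 := by
    intro c hc
    unfold C1L_K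
    by_cases h : (b, c) ∈ runs (S ∩ U.filter (fun m => m ≤ c)) ∧
        len (S ∩ U.filter (fun m => m ≤ c)) (b, c) = k ∧ sm (S ∩ U.filter (fun m => m ≤ c)) (b, c) ≤ x
    · rw [if_pos h]
      have : c ∈ U.filter (fun c => (b, c) ∈ runs S ∧ len S (b, c) = k) := by
        obtain ⟨h1, h2, -⟩ := h
        obtain ⟨g1, g2, g3⟩ := mem_runs.1 h1
        unfold len at h2
        rw [C1L_seg_low hS] at h2
        exact Finset.mem_filter.2 ⟨hc, mem_runs.2 ⟨(Finset.mem_inter.1 g1).1,
          (Finset.mem_inter.1 g2).1, g3⟩, h2⟩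
      rw [if_pos this]
    · rw [if_neg h]
      split_ifs <;> norm_num
  refine (Finset.sum_le_sum hK).trans ?_
  rw [Finset.sum_ite_mem, Finset.inter_eq_right.2 (Finset.filter_subset _ _), Finset.sum_const,
    nsmul_eq_mul, mul_one]
  have : (U.filter (fun c => (b, c) ∈ runs S ∧ len S (b, c) = k)).card ≤ 1 := by
    rw [Finset.card_le_one]
    have key : ∀ c c' : ℕ, (b, c) ∈ runs S → (b, c') ∈ runs S → c < c' →
        len S (b, c) < len S (b, c') := by
      intro c c' h1 h2 h3
      obtain ⟨g1, g2, g3⟩ := mem_runs.1 h1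
      obtain ⟨f1, f2, f3⟩ := mem_runs.1 h2
      simp only at g1 g2 g3 f1 f2 f3
      apply Finset.card_lt_card
      rw [Finset.ssubset_iff_of_subset]
      · exact ⟨c', mem_seg.2 ⟨f2, f3, le_rfl⟩, fun h => by
          have := (mem_seg.1 h).2.2
          simp only at this
          omega⟩
      · intro m hm
        have := mem_seg.1 hm
        simp only at this
        exact mem_seg.2 ⟨this.1, this.2.1, by simp only; omega⟩
    intro c hc c' hc'
    obtain ⟨-, h1, h2⟩ := Finset.mem_filter.1 hc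
    obtain ⟨-, h1', h2'⟩ := Finset.mem_filter.1 hc'
    rcases lt_trichotomy c c' with h | h | h
    · have := key c c' h1 h1' h
      omega
    · exact h
    · have := key c' c h1' h1 h
      omega
  exact_mod_cast this

/-- the pairs are counted by their first run -/
lemma C1L_count (x G b k l : ℕ) (U S : Finset ℕ) (hS : S ⊆ U) :
    (((AB S G x).filter (fun z => z.1.1 = b ∧ len S z.1 = k ∧ len S z.2 = l)).card : ℝ) ≤
    ∑ c ∈ U, C1L_K x b k c (S ∩ U.filter (fun m => m ≤ c)) *
      ((rr (S \ U.filter (fun m => m ≤ c)) l (sm (S ∩ U.filter (fun m => m ≤ c)) (b, c))).card : ℝ) := by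
  set A := (AB S G x).filter (fun z => z.1.1 = b ∧ len S z.1 = k ∧ len S z.2 = l) with hA
  have hmap : ∀ z ∈ A, z.1.2 ∈ U := by
    intro z hz
    have := (Finset.mem_product.1 (Finset.mem_filter.1 (Finset.mem_filter.1 hz).1).1).1
    exact hS (mem_runs.1 this).2.1
  rw [Finset.card_eq_sum_card_fiberwise hmap]
  push_cast
  refine Finset.sum_le_sum fun c hc => ?_
  by_cases hne : (A.filter (fun z => z.1.2 = c)).Nonempty
  · have hspec : ∀ z ∈ A.filter (fun z => z.1.2 = c), z.1 = (b, c) ∧ (b, c) ∈ runs S ∧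
        len S (b, c) = k ∧ sm S (b, c) ≤ x ∧ z.2 ∈ runs S ∧ c < z.2.1 ∧ len S z.2 = l ∧
        sm S z.2 = sm S (b, c) := by
      intro z hz
      obtain ⟨hz1, hz2⟩ := Finset.mem_filter.1 hz
      obtain ⟨hz3, hz4, hz5, hz6⟩ := Finset.mem_filter.1 hz1
      obtain ⟨hz7, hz8, hz9, hz10, -⟩ := Finset.mem_filter.1 hz3
      obtain ⟨hz11, hz12⟩ := Finset.mem_product.1 hz7
      have e : z.1 = (b, c) := Prod.ext hz4 hz2
      rw [e] at hz5 hz8 hz9 hz10 hz11
      exact ⟨e, hz11, hz5, hz10, hz12, hz8, hz6, hz9.symm⟩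
    obtain ⟨z0, hz0⟩ := hne
    obtain ⟨-, k2, k3, k4, -⟩ := hspec z0 hz0
    have hsm : sm (S ∩ U.filter (fun m => m ≤ c)) (b, c) = sm S (b, c) := by
      unfold sm
      rw [C1L_seg_low hS]
    have hK : C1L_K x b k c (S ∩ U.filter (fun m => m ≤ c)) = 1 := by
      unfold C1L_K
      rw [if_pos]
      refine ⟨?_, ?_, ?_⟩
      · obtain ⟨g1, g2, g3⟩ := mem_runs.1 k2
        simp only at g1 g2 g3
        exact mem_runs.2 ⟨Finset.mem_inter.2 ⟨g1, Finset.mem_filter.2 ⟨hS g1, g3⟩⟩,
          Finset.mem_inter.2 ⟨g2, Finset.mem_filter.2 ⟨hS g2, le_rfl⟩⟩, g3⟩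
      · unfold len
        rw [C1L_seg_low hS]
        exact k3
      · rw [hsm]
        exact k4
    rw [hK, one_mul, hsm]
    norm_cast
    refine Finset.card_le_card_of_injOn (fun z => z.2) ?_ ?_
    · intro z hz
      obtain ⟨f1, f2, f3, f4, f5, f6, f7, f8⟩ := hspec z (Finset.mem_coe.1 hz)
      refine Finset.mem_coe.2 (mem_rr.2 ⟨?_, ?_, ?_⟩)
      · obtain ⟨g1, g2, g3⟩ := mem_runs.1 f5
        exact mem_runs.2 ⟨Finset.mem_sdiff.2 ⟨g1, fun h => by
          have := (Finset.mem_filter.1 h).2; simp only at this; omega⟩,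
          Finset.mem_sdiff.2 ⟨g2, fun h => by
            have := (Finset.mem_filter.1 h).2; simp only at this; omega⟩, g3⟩
      · unfold len
        rw [C1L_seg_high f6]
        exact f7
      · unfold sm
        rw [C1L_seg_high f6]
        exact f8
    · intro z hz z' hz' h
      have f1 := (hspec z (Finset.mem_coe.1 hz)).1
      have f1' := (hspec z' (Finset.mem_coe.1 hz')).1
      exact Prod.ext (f1.trans f1'.symm) h
  · rw [Finset.not_nonempty_iff_eq_empty.1 hne]
    simp only [Finset.card_empty, Nat.cast_zero]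
    refine mul_nonneg ?_ (Nat.cast_nonneg _)
    unfold C1L_K
    split_ifs <;> norm_num

theorem p_C1L (h1 : Stmt_CRU) : Stmt_C1L := by
  intro a x G b k l ha hx hab hl
  set U := Finset.Icc a (2 * x) with hU
  have hl0 : (0 : ℝ) < l := by exact_mod_cast hl
  by_cases hcase : 8 * l ≤ a ∧ l ≤ x
  · obtain ⟨hl8, hlx⟩ := hcase
    have step1 : Ex U (fun S => (((AB S G x).filter
        (fun z => z.1.1 = b ∧ len S z.1 = k ∧ len S z.2 = l)).card : ℝ)) ≤
        ∑ c ∈ U, Ex U (fun S => C1L_K x b k c (S ∩ U.filter (fun m => m ≤ c)) *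
          ((rr (S \ U.filter (fun m => m ≤ c)) l
            (sm (S ∩ U.filter (fun m => m ≤ c)) (b, c))).card : ℝ)) := by
      rw [← Ex_sum]
      exact Ex_mono fun S hS => C1L_count x G b k l U S hS
    have step2 : ∀ c ∈ U, Ex U (fun S => C1L_K x b k c (S ∩ U.filter (fun m => m ≤ c)) *
          ((rr (S \ U.filter (fun m => m ≤ c)) l
            (sm (S ∩ U.filter (fun m => m ≤ c)) (b, c))).card : ℝ)) ≤
        Ex U (fun S => C1L_K x b k c (S ∩ U.filter (fun m => m ≤ c))) * (2 / l) := by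
      intro c _
      set V := U.filter (fun m => m ≤ c) with hV
      have hVU : V ⊆ U := Finset.filter_subset _ _
      rw [Ex_inter hVU (fun T => C1L_K x b k c T), Ex_split hVU, ← Ex_mul_const]
      refine Ex_mono fun T hT => ?_
      have hrew : Ex (U \ V) (fun S' => C1L_K x b k c ((T ∪ S') ∩ V) *
          ((rr ((T ∪ S') \ V) l (sm ((T ∪ S') ∩ V) (b, c))).card : ℝ)) =
          Ex (U \ V) (fun S' => C1L_K x b k c T * ((rr S' l (sm T (b, c))).card : ℝ)) := by
        refine Ex_congr fun S' hS' => ?_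
        have e1 : (T ∪ S') ∩ V = T := by
          ext m
          simp only [Finset.mem_inter, Finset.mem_union]
          constructor
          · rintro ⟨h1 | h1, h2⟩
            · exact h1
            · exact absurd h2 (Finset.mem_sdiff.1 (hS' h1)).2
          · intro h1
            exact ⟨Or.inl h1, hT h1⟩
        have e2 : (T ∪ S') \ V = S' := by
          ext m
          simp only [Finset.mem_sdiff, Finset.mem_union]
          constructor
          · rintro ⟨h1 | h1, h2⟩
            · exact absurd (hT h1) h2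
            · exact h1
          · intro h1
            exact ⟨Or.inr h1, (Finset.mem_sdiff.1 (hS' h1)).2⟩
        rw [e1, e2]
      rw [hrew, Ex_const_mul]
      by_cases hK : (b, c) ∈ runs T ∧ len T (b, c) = k ∧ sm T (b, c) ≤ x
      · have hK0 : 0 ≤ C1L_K x b k c T := by unfold C1L_K; split_ifs <;> norm_num
        refine mul_le_mul_of_nonneg_left ?_ hK0
        calc Ex (U \ V) (fun S' => ((rr S' l (sm T (b, c))).card : ℝ))
            = Ex U (fun S => ((rr (S \ V) l (sm T (b, c))).card : ℝ)) :=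
              (Ex_sdiff hVU (fun S' => ((rr S' l (sm T (b, c))).card : ℝ))).symm
          _ ≤ Ex U (fun S => ((rr S l (sm T (b, c))).card : ℝ)) := by
              refine Ex_mono fun S hS => ?_
              exact_mod_cast Finset.card_le_card (C1L_rr_sub hS c l _)
          _ ≤ 2 / l := h1 a x l (sm T (b, c)) ha hl hl8 (by omega)
      · have : C1L_K x b k c T = 0 := by unfold C1L_K; rw [if_neg hK]
        rw [this, zero_mul, zero_mul]
    calc _ ≤ _ := step1
      _ ≤ ∑ c ∈ U, Ex U (fun S => C1L_K x b k c (S ∩ U.filter (fun m => m ≤ c))) * (2 / l) :=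
          Finset.sum_le_sum step2
      _ = Ex U (fun S => ∑ c ∈ U, C1L_K x b k c (S ∩ U.filter (fun m => m ≤ c))) * (2 / l) := by
          rw [← Finset.sum_mul, Ex_sum]
      _ ≤ 1 * (2 / l) := by
          refine mul_le_mul_of_nonneg_right ?_ (by positivity)
          exact Ex_le_const fun S hS => C1L_one x b k U S hS
      _ = 2 / l := one_mul _
  · have hzero : ∀ S ⊆ U, (((AB S G x).filter
        (fun z => z.1.1 = b ∧ len S z.1 = k ∧ len S z.2 = l)).card : ℝ) ≤ 0 := by
      intro S hS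
      have : (AB S G x).filter (fun z => z.1.1 = b ∧ len S z.1 = k ∧ len S z.2 = l) = ∅ := by
        rw [Finset.filter_eq_empty_iff]
        rintro z hz ⟨-, -, h3⟩
        apply hcase
        obtain ⟨hz7, hz8, hz9, hz10, -⟩ := Finset.mem_filter.1 hz
        have h4 := len_mul_le_sm S z.2
        rw [h3] at h4
        have h5 : a ≤ z.2.1 :=
          (Finset.mem_Icc.1 (hS (mem_runs.1 (Finset.mem_product.1 hz7).2).1)).1
        have h6 : l * a ≤ x := by
          calc l * a ≤ l * z.2.1 := Nat.mul_le_mul_left _ h5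
            _ ≤ x := by omega
        constructor
        · have : 8 * l * a ≤ a * a := by nlinarith
          exact Nat.le_of_mul_le_mul_right this (by omega)
        · nlinarith
      rw [this]
      simp
    refine (Ex_le_const hzero).trans (by positivity)

end Pool.Agent.Work.MP_7d0410_cr
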