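import Pool.Agent.Work.MP_7d0410_cr.Interface

/-!
# Moser's problem in Cramér's random model: block C2A (collisions of independent copies)
-/

set_option autoImplicit false

namespace Pool.Agent.Work.MP_7d0410_cr

open Finset Filter MeasureTheory ProbabilityTheory
open scoped Classical Topology

/-- the probability that `q` is a good run with `r` elements and the sum `n` -/
noncomputable def C2A_gl (U : Finset ℕ) (R G n r : ℕ) (q : ℕ × ℕ) : ℝ :=
  Pb U (fun S => q ∈ gr R G S n ∧ len S q = r)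

lemma C2A_boole {ι : Type*} (T : Finset ι) (A : ι → Prop) (inst : ∀ i, Decidable (A i)) (c : ℕ)
    (h : ∀ V : Finset ι, (∀ i ∈ V, i ∈ T ∧ A i) → V.card ≤ c) :
    (∑ i ∈ T, @ite ℝ (A i) (inst i) 1 0) ≤ c := by
  have e : (∑ i ∈ T, @ite ℝ (A i) (inst i) 1 0) = ((@Finset.filter ι A inst T).card : ℝ) := by
    rw [← @Finset.sum_boole ι ℝ _ A inst T]
  rw [e]
  exact Nat.cast_le.2 (h _ (fun i hi => (@Finset.mem_filter ι A inst T i).1 hi))

lemma C2A_gl_nonneg (U : Finset ℕ) (R G n r : ℕ) (q : ℕ × ℕ) : 0 ≤ C2A_gl U R G n r q :=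
  Pb_nonneg _ _

/-- a nonzero probability has a witness -/
lemma C2A_wit {U : Finset ℕ} {A : Finset ℕ → Prop} (h : Pb U A ≠ 0) : ∃ S ⊆ U, A S := by
  by_contra hc
  push Not at hc
  apply h
  have h1 : Pb U A = Ex U (fun _ => 0) := by
    unfold Pb
    refine Ex_congr fun S hS => ?_
    rw [if_neg (hc S hS)]
  rw [h1, Ex_const]

lemma C2A_facts {a x R G n r : ℕ} {q : ℕ × ℕ}
    (h : C2A_gl (Finset.Icc a (2 * x)) R G n r q ≠ 0) :
    a ≤ q.1 ∧ R ≤ r ∧ 1 ≤ r ∧ q.2 ≤ q.1 + G * r ∧ r * q.1 ≤ n ∧ n ≤ r * q.2 := by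
  obtain ⟨S, hS, hq, hr⟩ := C2A_wit h
  obtain ⟨hg, hn⟩ := mem_gr.1 hq
  obtain ⟨h1, h2, h3⟩ := mem_good.1 hg
  have h4 := len_pos h1
  have h5 := len_mul_le_sm S q
  have h6 := sm_le_len_mul S q
  rw [hr] at h2 h3 h4 h5 h6
  rw [hn] at h5 h6
  exact ⟨(Finset.mem_Icc.1 (hS (mem_runs.1 h1).1)).1, h2, h4, h3, h5, h6⟩

/-- the arithmetic of two meeting good runs -/
lemma C2A_arith {a x G n r s a' b c d : ℕ} (ha : 1 ≤ a) (hG : 8 * G * x ≤ a ^ 2) (hn : n ≤ x)
    (haa : a ≤ a') (hac : a ≤ c) (h1 : r * a' ≤ n) (h2 : n ≤ r * b) (h3 : b ≤ a' + G * r)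
    (h4 : s * c ≤ n) (h5 : n ≤ s * d) (h6 : d ≤ c + G * s) (h7 : c ≤ b) (h8 : a' ≤ d) :
    r ≤ 2 * s ∧ s * a' ≤ r * a' + 6 * G * r ^ 2 ∧ r * a' ≤ s * a' + 6 * G * r ^ 2 := by
  have hGr : 8 * (G * r) ≤ a' := by
    have e1 : 8 * (G * r) * a ≤ a * a := by
      calc 8 * (G * r) * a ≤ 8 * (G * r) * a' := Nat.mul_le_mul_left _ haa
        _ = 8 * G * (r * a') := by ring
        _ ≤ 8 * G * x := Nat.mul_le_mul_left _ (h1.trans hn)
        _ ≤ a ^ 2 := hG
        _ = a * a := by ring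
    exact (Nat.le_of_mul_le_mul_right e1 (by omega)).trans haa
  have hGs : 8 * (G * s) ≤ a' := by
    have e1 : 8 * (G * s) * a ≤ a * a := by
      calc 8 * (G * s) * a ≤ 8 * (G * s) * c := Nat.mul_le_mul_left _ hac
        _ = 8 * G * (s * c) := by ring
        _ ≤ 8 * G * x := Nat.mul_le_mul_left _ (h4.trans hn)
        _ ≤ a ^ 2 := hG
        _ = a * a := by ring
    exact (Nat.le_of_mul_le_mul_right e1 (by omega)).trans haa
  have ha' : 0 < a' := by omega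
  have k1 : s * a' ≤ r * a' + G * r ^ 2 + G * s ^ 2 := by
    have e1 : s * a' ≤ s * (c + G * s) := Nat.mul_le_mul_left _ (h8.trans h6)
    have e2 : r * b ≤ r * (a' + G * r) := Nat.mul_le_mul_left _ h3
    nlinarith
  have k2 : r * a' ≤ s * a' + G * r * s + G * s ^ 2 := by
    have e1 : s * d ≤ s * (c + G * s) := Nat.mul_le_mul_left _ h6
    have e2 : s * c ≤ s * (a' + G * r) := Nat.mul_le_mul_left _ (h7.trans h3)
    nlinarith
  have m1 : 8 * (G * s ^ 2) ≤ a' * s := by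
    have := Nat.mul_le_mul_right s hGs
    nlinarith
  have m2 : 8 * (G * r ^ 2) ≤ a' * r := by
    have := Nat.mul_le_mul_right r hGr
    nlinarith
  have m3 : 8 * (G * r * s) ≤ a' * s := by
    have := Nat.mul_le_mul_right s hGr
    nlinarith
  have hs : s ≤ 2 * r := by
    have e1 : 7 * s * a' ≤ 9 * r * a' := by nlinarith
    have := Nat.le_of_mul_le_mul_right e1 ha'
    omega
  have hr : r ≤ 2 * s := by
    have e1 : 8 * r * a' ≤ 10 * s * a' := by nlinarith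
    have := Nat.le_of_mul_le_mul_right e1 ha'
    omega
  have n1 : G * s ^ 2 ≤ 4 * (G * r ^ 2) := by
    have e1 : s ^ 2 ≤ (2 * r) ^ 2 := Nat.pow_le_pow_left hs 2
    have := Nat.mul_le_mul_left G e1
    nlinarith
  have n2 : G * r * s ≤ 2 * (G * r ^ 2) := by
    have := Nat.mul_le_mul_left (G * r) hs
    nlinarith
  exact ⟨hr, by nlinarith, by nlinarith⟩

/-- the expected number of good runs of length `s` and sum `n` -/
lemma C2A_hh (a x R G n s : ℕ) :
    ∑ q' ∈ (Finset.Icc a (2 * x)) ×ˢ (Finset.Icc a (2 * x)),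
      C2A_gl (Finset.Icc a (2 * x)) R G n s q' ≤ hh a x s n := by
  unfold C2A_gl hh
  unfold Pb
  rw [← Ex_sum]
  refine Ex_mono fun S hS => ?_
  refine C2A_boole _ (fun q => q ∈ gr R G S n ∧ len S q = s) _ _ fun V hV => ?_
  refine Finset.card_le_card fun q hq => ?_
  obtain ⟨-, h1, h2⟩ := hV q hq
  obtain ⟨hg, hn⟩ := mem_gr.1 h1
  exact mem_rr.2 ⟨(mem_good.1 hg).1, h2, hn⟩

/-- the sum over the runs which meet a given one -/
lemma C2A_inner (hCRU : Stmt_CRU) {a x R G n r : ℕ} {q : ℕ × ℕ} (ha : 64 ≤ a)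
    (hx8 : 8 * x ≤ a ^ 2) (hG : 8 * G * x ≤ a ^ 2) (hn : n ≤ x)
    (h : C2A_gl (Finset.Icc a (2 * x)) R G n r q ≠ 0) :
    ∑ s ∈ Finset.Icc R x, ∑ q' ∈ ((Finset.Icc a (2 * x)) ×ˢ (Finset.Icc a (2 * x))).filter
      (fun q' => meet q q'), C2A_gl (Finset.Icc a (2 * x)) R G n s q' ≤
      4 / r * (1 + 12 * G * (r : ℝ) ^ 2 / q.1) := by
  obtain ⟨f1, f2, f3, f4, f5, f6⟩ := C2A_facts h
  set U := Finset.Icc a (2 * x) with hU
  set F : ℕ → ℝ := fun s => ∑ q' ∈ (U ×ˢ U).filter (fun q' => meet q q'),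
    C2A_gl U R G n s q' with hF
  show ∑ s ∈ Finset.Icc R x, F s ≤ _
  rw [← Finset.sum_filter_ne_zero]
  set t := 6 * G * r ^ 2 / q.1 with ht
  have hq1 : 0 < q.1 := by omega
  have hkey : ∀ s ∈ (Finset.Icc R x).filter (fun s => F s ≠ 0),
      s ∈ Finset.Icc (r - t) (r + t) ∧ F s ≤ 4 / r := by
    intro s hs
    obtain ⟨hs1, hs2⟩ := Finset.mem_filter.1 hs
    obtain ⟨q', hq', hne⟩ := Finset.exists_ne_zero_of_sum_ne_zero hs2
    obtain ⟨-, hm1, hm2⟩ := Finset.mem_filter.1 hq'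
    obtain ⟨g1, g2, g3, g4, g5, g6⟩ := C2A_facts hne
    obtain ⟨k1, k2, k3⟩ := C2A_arith (by omega) hG hn f1 g1 f5 f6 f4 g5 g6 g4 hm2 hm1
    constructor
    · rw [Finset.mem_Icc]
      constructor
      · rw [Nat.sub_le_iff_le_add]
        by_contra hc
        push Not at hc
        have e1 : (r - s) * q.1 ≤ 6 * G * r ^ 2 := by
          rw [Nat.sub_mul]
          omega
        have e2 := (Nat.le_div_iff_mul_le hq1).2 e1
        omega
      · by_contra hc
        push Not at hc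
        have e1 : (s - r) * q.1 ≤ 6 * G * r ^ 2 := by
          rw [Nat.sub_mul]
          omega
        have e2 := (Nat.le_div_iff_mul_le hq1).2 e1
        omega
    · have hsa : s * a ≤ x := (Nat.mul_le_mul_left s g1).trans (g5.trans hn)
      have c1 : 8 * s ≤ a := by
        have e1 : 8 * s * a ≤ a * a := by nlinarith
        exact Nat.le_of_mul_le_mul_right e1 (by omega)
      have c2 : n + s ≤ 2 * x := by nlinarith
      have e1 := hCRU a x s n ha g3 c1 c2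
      have e2 := C2A_hh a x R G n s
      have e3 : F s ≤ ∑ q' ∈ U ×ˢ U, C2A_gl U R G n s q' :=
        Finset.sum_le_sum_of_subset_of_nonneg (Finset.filter_subset _ _)
          (fun _ _ _ => C2A_gl_nonneg _ _ _ _ _ _)
      have e4 : (2 : ℝ) / s ≤ 4 / r := by
        have hs0 : (0 : ℝ) < s := by exact_mod_cast g3
        have hr0 : (0 : ℝ) < r := by exact_mod_cast f3
        have k1' : (r : ℝ) ≤ 2 * s := by exact_mod_cast k1
        rw [div_le_div_iff₀ hs0 hr0]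
        linarith
      exact e3.trans (e2.trans (e1.trans e4))
  have hr0 : (0 : ℝ) < r := by exact_mod_cast f3
  have h1 : ∑ s ∈ (Finset.Icc R x).filter (fun s => F s ≠ 0), F s ≤
      ((Finset.Icc R x).filter (fun s => F s ≠ 0)).card • (4 / (r : ℝ)) :=
    Finset.sum_le_card_nsmul _ _ _ fun s hs => (hkey s hs).2
  have h2 : ((Finset.Icc R x).filter (fun s => F s ≠ 0)).card ≤ 2 * t + 1 := by
    refine (Finset.card_le_card fun s hs => (hkey s hs).1).trans ?_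
    rw [Nat.card_Icc]
    omega
  have h3 : (t : ℝ) ≤ 6 * G * (r : ℝ) ^ 2 / q.1 := by
    have := @Nat.cast_div_le ℝ _ _ _ (6 * G * r ^ 2) q.1
    rw [ht]
    refine this.trans (le_of_eq ?_)
    push_cast
    ring
  have h4 : (((Finset.Icc R x).filter (fun s => F s ≠ 0)).card : ℝ) ≤
      1 + 12 * G * (r : ℝ) ^ 2 / q.1 := by
    have : (((Finset.Icc R x).filter (fun s => F s ≠ 0)).card : ℝ) ≤ 2 * t + 1 := by
      exact_mod_cast h2
    have e : 12 * G * (r : ℝ) ^ 2 / q.1 = 2 * (6 * G * (r : ℝ) ^ 2 / q.1) := by ring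
    rw [e]
    linarith
  refine h1.trans ?_
  rw [nsmul_eq_mul, mul_comm]
  exact mul_le_mul_of_nonneg_left h4 (by positivity)

/-- decomposition by the length -/
lemma C2A_gg {a x R G n : ℕ} (ha : 1 ≤ a) (hn : n ≤ x) (q : ℕ × ℕ) :
    gg (Finset.Icc a (2 * x)) R G n q =
      ∑ r ∈ Finset.Icc R x, C2A_gl (Finset.Icc a (2 * x)) R G n r q := by
  unfold gg C2A_gl Pb
  rw [← Ex_sum]
  refine Ex_congr fun S hS => ?_
  by_cases hq : q ∈ gr R G S n
  · rw [if_pos hq]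
    obtain ⟨hg, hs⟩ := mem_gr.1 hq
    obtain ⟨h1, h2, -⟩ := mem_good.1 hg
    have h3 : len S q ≤ x := by
      have e1 := len_mul_le_sm S q
      have e2 : a ≤ q.1 := (Finset.mem_Icc.1 (hS (mem_runs.1 h1).1)).1
      nlinarith
    rw [Finset.sum_eq_single_of_mem (len S q) (Finset.mem_Icc.2 ⟨h2, h3⟩)]
    · rw [if_pos ⟨hq, rfl⟩]
    · intro r _ hr
      rw [if_neg]
      rintro ⟨-, h⟩
      exact hr h.symm
  · rw [if_neg hq]
    symm
    refine Finset.sum_eq_zero fun r _ => ?_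
    rw [if_neg]
    rintro ⟨h, -⟩
    exact hq h

/-- the bound for `T2` -/
lemma C2A_T2 (hCRU : Stmt_CRU) {a x R G n : ℕ} (ha : 64 ≤ a)
    (hx8 : 8 * x ≤ a ^ 2) (hG : 8 * G * x ≤ a ^ 2) (hn : n ≤ x) :
    T2 (Finset.Icc a (2 * x)) R G n ≤
      ∑ q ∈ (Finset.Icc a (2 * x)) ×ˢ (Finset.Icc a (2 * x)), ∑ r ∈ Finset.Icc R x,
        C2A_gl (Finset.Icc a (2 * x)) R G n r q * (4 / r * (1 + 12 * G * (r : ℝ) ^ 2 / q.1)) := by
  set U := Finset.Icc a (2 * x) with hU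
  unfold T2
  refine Finset.sum_le_sum fun q _ => ?_
  have h1 : ∑ q' ∈ (U ×ˢ U).filter (fun q' => meet q q'), gg U R G n q * gg U R G n q' =
      ∑ r ∈ Finset.Icc R x, C2A_gl U R G n r q * ∑ s ∈ Finset.Icc R x,
        ∑ q' ∈ (U ×ˢ U).filter (fun q' => meet q q'), C2A_gl U R G n s q' := by
    rw [← Finset.mul_sum, C2A_gg (by omega) hn q, ← Finset.sum_mul]
    congr 1
    rw [Finset.sum_comm]
    exact Finset.sum_congr rfl fun q' _ => C2A_gg (by omega) hn q'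
  rw [h1]
  refine Finset.sum_le_sum fun r _ => ?_
  by_cases h0 : C2A_gl U R G n r q = 0
  · rw [h0, zero_mul, zero_mul]
  · exact mul_le_mul_of_nonneg_left (C2A_inner hCRU ha hx8 hG hn h0) (C2A_gl_nonneg _ _ _ _ _ _)

/-- the length grows with the last element -/
lemma C2A_len {S : Finset ℕ} {c b b' : ℕ} (hb' : b' ∈ S) (hc : c ≤ b') (h : b < b') :
    len S (c, b) < len S (c, b') := by
  refine Finset.card_lt_card ?_
  rw [Finset.ssubset_iff_of_subset]
  · refine ⟨b', mem_seg.2 ⟨hb', hc, le_rfl⟩, ?_⟩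
    intro hm
    have := (mem_seg.1 hm).2.2
    simp only at this
    omega
  · intro m hm
    obtain ⟨h1, h2, h3⟩ := mem_seg.1 hm
    simp only at h2 h3
    exact mem_seg.2 ⟨h1, h2, by simp only; omega⟩

/-- a run is determined by its first element and its length -/
lemma C2A_one (a x R G r c : ℕ) :
    ∑ n ∈ Finset.Icc 1 x, ∑ b ∈ Finset.Icc a (2 * x),
      C2A_gl (Finset.Icc a (2 * x)) R G n r (c, b) ≤ 1 := by
  unfold C2A_gl Pb
  simp_rw [← Ex_sum]
  refine Ex_le_const fun S hS => ?_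
  rw [← Finset.sum_product']
  have h0 : ∀ V : Finset (ℕ × ℕ), (∀ z ∈ V, z ∈ (Finset.Icc 1 x) ×ˢ (Finset.Icc a (2 * x)) ∧
      ((c, z.2) ∈ gr R G S z.1 ∧ len S (c, z.2) = r)) → V.card ≤ 1 := by
    intro V hV
    rw [Finset.card_le_one]
    rintro ⟨n, b⟩ h ⟨n', b'⟩ h'
    obtain ⟨-, h1, h2⟩ := hV _ h
    obtain ⟨-, h1', h2'⟩ := hV _ h'
    simp only at h1 h2 h1' h2'
    obtain ⟨hg, hs⟩ := mem_gr.1 h1
    obtain ⟨hg', hs'⟩ := mem_gr.1 h1'
    obtain ⟨-, m2, m3⟩ := mem_runs.1 (mem_good.1 hg).1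
    obtain ⟨-, m2', m3'⟩ := mem_runs.1 (mem_good.1 hg').1
    simp only at m2 m3 m2' m3'
    have hbb : b = b' := by
      rcases lt_trichotomy b b' with h | h | h
      · have := C2A_len m2' m3' h
        omega
      · exact h
      · have := C2A_len m2 m3 h
        omega
    subst hbb
    rw [← hs, ← hs']
  have h1 := C2A_boole _ (fun z : ℕ × ℕ => (c, z.2) ∈ gr R G S z.1 ∧ len S (c, z.2) = r)
    (fun _ => Classical.propDecidable _) 1 h0
  rw [Nat.cast_one] at h1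
  refine le_trans (le_of_eq ?_) h1
  exact Finset.sum_congr rfl fun z _ => by congr

/-- the sum of `1 / m ^ 3` -/
lemma C2A_cube (a N : ℕ) (ha : 1 ≤ a) :
    ∑ m ∈ Finset.Icc a N, 1 / (m : ℝ) ^ 3 ≤ 2 / (a : ℝ) ^ 2 := by
  have key : ∀ k : ℕ, ∑ m ∈ Finset.Ico a (a + k), 1 / (m : ℝ) ^ 3 ≤
      2 / (a : ℝ) ^ 2 - 2 / ((a + k : ℕ) : ℝ) ^ 2 := by
    intro k
    induction k with
    | zero => simp
    | succ k ih =>
      rw [← add_assoc, Finset.sum_Ico_succ_top (by omega)]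
      have h1 : 1 / ((a + k : ℕ) : ℝ) ^ 3 ≤
          2 / ((a + k : ℕ) : ℝ) ^ 2 - 2 / ((a + k + 1 : ℕ) : ℝ) ^ 2 := by
        have h0 : (1 : ℝ) ≤ ((a + k : ℕ) : ℝ) := by
          exact_mod_cast (by omega : 1 ≤ a + k)
        set m : ℝ := ((a + k : ℕ) : ℝ) with hm
        have e : ((a + k + 1 : ℕ) : ℝ) = m + 1 := by
          rw [hm]
          push_cast
          ring
        rw [e]
        have hm0 : 0 < m := by linarith
        rw [div_sub_div _ _ (by positivity) (by positivity), div_le_div_iff₀ (by positivity)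
          (by positivity)]
        nlinarith [pow_pos hm0 2, pow_pos hm0 3, pow_pos hm0 4]
      linarith
  rcases Nat.lt_or_ge N a with h | h
  · rw [Finset.Icc_eq_empty (by omega), Finset.sum_empty]
    positivity
  · have h1 := key (N + 1 - a)
    have e : Finset.Icc a N = Finset.Ico a (a + (N + 1 - a)) := by
      ext m
      simp only [Finset.mem_Icc, Finset.mem_Ico]
      omega
    rw [e]
    have h2 : (0 : ℝ) ≤ 2 / ((a + (N + 1 - a) : ℕ) : ℝ) ^ 2 := by positivity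
    linarith

/-- the sum of `x / m` -/
lemma C2A_harm (a x : ℕ) (ha : 1 ≤ a) :
    ∑ m ∈ Finset.Icc a (2 * x), (if m ≤ x then (x : ℝ) / m else 0) ≤ x * (1 + Real.log x) := by
  rw [← Finset.sum_filter]
  have h1 : ∑ m ∈ (Finset.Icc a (2 * x)).filter (fun m => m ≤ x), (x : ℝ) / m ≤
      ∑ m ∈ Finset.Icc 1 x, (x : ℝ) / m := by
    refine Finset.sum_le_sum_of_subset_of_nonneg ?_ (fun _ _ _ => by positivity)
    intro m hm
    rw [Finset.mem_filter, Finset.mem_Icc] at hm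
    rw [Finset.mem_Icc]
    omega
  have h2 : ∑ m ∈ Finset.Icc 1 x, (x : ℝ) / m = x * (harmonic x : ℝ) := by
    rw [harmonic_eq_sum_Icc]
    push_cast
    rw [Finset.mul_sum]
    exact Finset.sum_congr rfl fun m _ => by rw [div_eq_mul_inv]
  rw [h2] at h1
  exact h1.trans (mul_le_mul_of_nonneg_left (harmonic_le_one_add_log x) (by positivity))

/-- the sum over the lengths -/
lemma C2A_len_sum (x R G m : ℕ) (hR : 1 ≤ R) (hm : 1 ≤ m) :
    ∑ r ∈ (Finset.Icc R x).filter (fun r => r * m ≤ x),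
      (4 / (r : ℝ) * (1 + 12 * G * (r : ℝ) ^ 2 / m)) ≤
      4 / R * (if m ≤ x then (x : ℝ) / m else 0) + 48 * G * (x : ℝ) ^ 2 * (1 / (m : ℝ) ^ 3) := by
  set J := (Finset.Icc R x).filter (fun r => r * m ≤ x) with hJ
  have hm0 : (0 : ℝ) < m := by exact_mod_cast hm
  have hR0 : (0 : ℝ) < R := by exact_mod_cast hR
  by_cases hmx : m ≤ x
  · rw [if_pos hmx]
    have hterm : ∀ r ∈ J, 4 / (r : ℝ) * (1 + 12 * G * (r : ℝ) ^ 2 / m) ≤
        4 / R + 48 * G * (x / m) / m := by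
      intro r hr
      obtain ⟨hr1, hr2⟩ := Finset.mem_filter.1 hr
      rw [Finset.mem_Icc] at hr1
      have hr0 : (0 : ℝ) < r := by exact_mod_cast (by omega : 0 < r)
      have hRr : (R : ℝ) ≤ r := by exact_mod_cast hr1.1
      have hrx : (r : ℝ) ≤ x / m := by
        rw [le_div_iff₀ hm0]
        exact_mod_cast hr2
      have e1 : 4 / (r : ℝ) * (1 + 12 * G * (r : ℝ) ^ 2 / m) = 4 / r + 48 * G * r / m := by
        field_simp
        ring
      rw [e1]
      have e2 : 4 / (r : ℝ) ≤ 4 / R := div_le_div_of_nonneg_left (by norm_num) hR0 hRr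
      have e3 : 48 * G * (r : ℝ) / m ≤ 48 * G * (x / m) / m := by
        refine div_le_div_of_nonneg_right ?_ hm0.le
        exact mul_le_mul_of_nonneg_left hrx (by positivity)
      linarith
    have hcard : (J.card : ℝ) ≤ x / m := by
      have h1 : J.card ≤ x / m := by
        have : J ⊆ Finset.Icc 1 (x / m) := by
          intro r hr
          obtain ⟨hr1, hr2⟩ := Finset.mem_filter.1 hr
          rw [Finset.mem_Icc] at hr1 ⊢
          exact ⟨by omega, (Nat.le_div_iff_mul_le (by omega)).2 hr2⟩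
        have h2 := Finset.card_le_card this
        rw [Nat.card_Icc, Nat.add_sub_cancel] at h2
        exact h2
      exact (Nat.cast_le.2 h1).trans Nat.cast_div_le
    have h1 := Finset.sum_le_card_nsmul J _ _ hterm
    refine h1.trans ?_
    rw [nsmul_eq_mul]
    have h2 : (J.card : ℝ) * (4 / R + 48 * G * (x / m) / m) ≤
        x / m * (4 / R + 48 * G * (x / m) / m) :=
      mul_le_mul_of_nonneg_right hcard (by positivity)
    refine h2.trans (le_of_eq ?_)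
    field_simp
  · rw [if_neg hmx]
    have : J = ∅ := by
      rw [Finset.eq_empty_iff_forall_notMem]
      intro r hr
      obtain ⟨hr1, hr2⟩ := Finset.mem_filter.1 hr
      rw [Finset.mem_Icc] at hr1
      have : 1 * m ≤ r * m := Nat.mul_le_mul_right m (by omega)
      omega
    rw [this, Finset.sum_empty]
    positivity

theorem p_C2A (hCRU : Stmt_CRU) : Stmt_C2A := by
  intro a x R G ha hx8 hG hR hx
  set U := Finset.Icc a (2 * x) with hU
  have hw : ∀ (r m : ℕ), (0 : ℝ) ≤ 4 / r * (1 + 12 * G * (r : ℝ) ^ 2 / m) := by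
    intro r m
    positivity
  have h1 : ∑ n ∈ Finset.Icc 1 x, T2 U R G n ≤ ∑ n ∈ Finset.Icc 1 x, ∑ q ∈ U ×ˢ U,
      ∑ r ∈ Finset.Icc R x, C2A_gl U R G n r q * (4 / r * (1 + 12 * G * (r : ℝ) ^ 2 / q.1)) :=
    Finset.sum_le_sum fun n hn => C2A_T2 hCRU ha hx8 hG (Finset.mem_Icc.1 hn).2
  have h2 : ∑ n ∈ Finset.Icc 1 x, ∑ q ∈ U ×ˢ U,
      ∑ r ∈ Finset.Icc R x, C2A_gl U R G n r q * (4 / r * (1 + 12 * G * (r : ℝ) ^ 2 / q.1)) =
      ∑ m ∈ U, ∑ r ∈ Finset.Icc R x, (4 / (r : ℝ) * (1 + 12 * G * (r : ℝ) ^ 2 / m)) *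
        ∑ n ∈ Finset.Icc 1 x, ∑ b ∈ U, C2A_gl U R G n r (m, b) := by
    simp_rw [Finset.sum_product]
    rw [Finset.sum_comm]
    refine Finset.sum_congr rfl fun m _ => ?_
    simp_rw [Finset.mul_sum]
    symm
    rw [Finset.sum_comm]
    refine Finset.sum_congr rfl fun n _ => ?_
    rw [Finset.sum_comm]
    refine Finset.sum_congr rfl fun b _ => ?_
    exact Finset.sum_congr rfl fun r _ => by ring
  have h3 : ∑ m ∈ U, ∑ r ∈ Finset.Icc R x, (4 / (r : ℝ) * (1 + 12 * G * (r : ℝ) ^ 2 / m)) *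
        ∑ n ∈ Finset.Icc 1 x, ∑ b ∈ U, C2A_gl U R G n r (m, b) ≤
      ∑ m ∈ U, ∑ r ∈ (Finset.Icc R x).filter (fun r => r * m ≤ x),
        (4 / (r : ℝ) * (1 + 12 * G * (r : ℝ) ^ 2 / m)) := by
    refine Finset.sum_le_sum fun m hm => ?_
    rw [Finset.sum_filter]
    refine Finset.sum_le_sum fun r _ => ?_
    split_ifs with hrm
    · have := C2A_one a x R G r m
      exact mul_le_of_le_one_right (hw r m) this
    · have : ∑ n ∈ Finset.Icc 1 x, ∑ b ∈ U, C2A_gl U R G n r (m, b) = 0 := by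
        refine Finset.sum_eq_zero fun n hn => Finset.sum_eq_zero fun b _ => ?_
        by_contra hne
        have e1 := (C2A_facts hne).2.2.2.2.1
        simp only at e1
        exact hrm (e1.trans (Finset.mem_Icc.1 hn).2)
      rw [this, mul_zero]
  have h4 : ∑ m ∈ U, ∑ r ∈ (Finset.Icc R x).filter (fun r => r * m ≤ x),
        (4 / (r : ℝ) * (1 + 12 * G * (r : ℝ) ^ 2 / m)) ≤
      ∑ m ∈ U, (4 / R * (if m ≤ x then (x : ℝ) / m else 0) +
        48 * G * (x : ℝ) ^ 2 * (1 / (m : ℝ) ^ 3)) :=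
    Finset.sum_le_sum fun m hm => C2A_len_sum x R G m hR
      (by have := (Finset.mem_Icc.1 hm).1; omega)
  rw [Finset.sum_add_distrib, ← Finset.mul_sum, ← Finset.mul_sum] at h4
  have h5 := C2A_harm a x (by omega)
  have h6 := C2A_cube a (2 * x) (by omega)
  have hR0 : (0 : ℝ) < R := by exact_mod_cast hR
  have ha0 : (0 : ℝ) < a := by exact_mod_cast (by omega : 0 < a)
  have h7 : 4 / (R : ℝ) * ∑ m ∈ U, (if m ≤ x then (x : ℝ) / m else 0) ≤
      4 / R * (x * (1 + Real.log x)) := mul_le_mul_of_nonneg_left h5 (by positivity)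
  have h8 : 48 * (G : ℝ) * (x : ℝ) ^ 2 * ∑ m ∈ U, 1 / (m : ℝ) ^ 3 ≤
      48 * G * (x : ℝ) ^ 2 * (2 / (a : ℝ) ^ 2) := mul_le_mul_of_nonneg_left h6 (by positivity)
  have e1 : 4 / (R : ℝ) * (x * (1 + Real.log x)) = 4 * ((x : ℝ) / R) * (1 + Real.log x) := by
    field_simp
  have e2 : 48 * (G : ℝ) * (x : ℝ) ^ 2 * (2 / (a : ℝ) ^ 2) =
      96 * G * (x : ℝ) ^ 2 / (a : ℝ) ^ 2 := by ring
  rw [h2] at h1
  rw [e1] at h7
  rw [e2] at h8
  linarith

end Pool.Agent.Work.MP_7d0410_cr
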