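import Pool.Agent.Work.MP_7d0410_cr.Interface

/-! # Block CHE: Chernoff bounds -/

set_option autoImplicit false

namespace Pool.Agent.Work.MP_7d0410_cr

open Finset Filter MeasureTheory ProbabilityTheory
open scoped Classical Topology

lemma CHE_gen (I : Finset ℕ) (c : ℝ) (hc : 0 ≤ c) :
    Ex I (fun S => c ^ S.card) ≤ Real.exp ((c - 1) * ∑ m ∈ I, pr m) := by
  have h1 : Ex I (fun S => c ^ S.card) = Ex I (fun S => ∏ m ∈ S, (fun _ => c) m) := by
    refine Ex_congr fun S _ => ?_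
    rw [Finset.prod_const]
  rw [h1, Ex_prod, Finset.mul_sum, Real.exp_sum]
  apply Finset.prod_le_prod
  · intro m _
    have h2 := one_sub_pr_pos m
    have h3 := pr_nonneg m
    positivity
  · intro m _
    have h2 := Real.add_one_le_exp ((c - 1) * pr m)
    linarith

lemma CHE_exp (θ : ℝ) (hθ : 0 ≤ θ) : Real.exp (-θ) ≤ 1 - θ + θ ^ 2 / 2 := by
  have h1 := Real.quadratic_le_exp_of_nonneg hθ
  have h2 : 0 < 1 + θ + θ ^ 2 / 2 := by positivity
  have h3 : Real.exp (-θ) * Real.exp θ = 1 := by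
    rw [← Real.exp_add]
    simp
  have h4 : 0 < Real.exp (-θ) := Real.exp_pos _
  have h5 : Real.exp (-θ) * (1 + θ + θ ^ 2 / 2) ≤ 1 := by
    have := mul_le_mul_of_nonneg_left h1 h4.le
    linarith
  have h6 : 1 ≤ (1 - θ + θ ^ 2 / 2) * (1 + θ + θ ^ 2 / 2) := by
    have : (1 - θ + θ ^ 2 / 2) * (1 + θ + θ ^ 2 / 2) = 1 + θ ^ 4 / 4 := by ring
    rw [this]
    have : 0 ≤ θ ^ 4 := by positivity
    linarith
  by_contra hcon
  push Not at hcon
  have h7 := mul_lt_mul_of_pos_right hcon h2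
  linarith

theorem p_CHL : Stmt_CHL := by
  intro U I r δ hI hδ hδ1 hr
  have h1 : Pb U (fun S => (S ∩ I).card < r) = Pb I (fun S => S.card < r) :=
    Pb_inter hI (fun S => S.card < r)
  rw [h1]
  set θ := δ / 2 with hθ
  set c := Real.exp (-θ) with hc
  have hc0 : 0 ≤ c := (Real.exp_pos _).le
  have h2 : Pb I (fun S => S.card < r) ≤ Ex I (fun S => Real.exp (θ * r) * c ^ S.card) := by
    apply Pb_le_Ex
    · intro S _
      positivity
    · intro S _ hS
      rw [hc, ← Real.exp_nat_mul, ← Real.exp_add]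
      apply Real.one_le_exp
      have h3 : (S.card : ℝ) ≤ r := by exact_mod_cast hS.le
      have h4 : 0 ≤ θ := by positivity
      nlinarith
  rw [Ex_const_mul] at h2
  have h3 := CHE_gen I c hc0
  have h4 : Real.exp (θ * r) * Ex I (fun S => c ^ S.card) ≤
      Real.exp (θ * r) * Real.exp ((c - 1) * ∑ m ∈ I, pr m) :=
    mul_le_mul_of_nonneg_left h3 (Real.exp_pos _).le
  rw [← Real.exp_add] at h4
  refine (h2.trans h4).trans (Real.exp_le_exp.2 ?_)
  have h5 := CHE_exp θ (by positivity)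
  have hr0 : (0 : ℝ) ≤ r := Nat.cast_nonneg r
  have h6 : c - 1 ≤ -θ + θ ^ 2 / 2 := by linarith
  have h7 : c - 1 ≤ 0 := by
    have : c ≤ 1 := by
      rw [hc, Real.exp_le_one_iff]
      have : 0 ≤ θ := by positivity
      linarith
    linarith
  have h8 : (c - 1) * ∑ m ∈ I, pr m ≤ (c - 1) * ((1 + δ) * r) :=
    mul_le_mul_of_nonpos_left hr h7
  have h9 : (c - 1) * ((1 + δ) * r) ≤ (-θ + θ ^ 2 / 2) * ((1 + δ) * r) :=
    mul_le_mul_of_nonneg_right h6 (by positivity)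
  have h10 : θ * r + (-θ + θ ^ 2 / 2) * ((1 + δ) * r) =
      r * (-(δ ^ 2) / 2 + δ ^ 2 * (1 + δ) / 8) := by
    rw [hθ]
    ring
  have h11 : δ ^ 2 * (1 + δ) / 8 ≤ δ ^ 2 / 4 := by nlinarith [sq_nonneg δ]
  have h12 : (r : ℝ) * (-(δ ^ 2) / 2 + δ ^ 2 * (1 + δ) / 8) ≤ r * (-(δ ^ 2) / 4) := by
    apply mul_le_mul_of_nonneg_left _ hr0
    linarith
  linarith

theorem p_CHU : Stmt_CHU := by
  intro U t
  have h2 : Pb U (fun S => t ≤ (S.card : ℝ)) ≤
      Ex U (fun S => Real.exp (-t) * Real.exp 1 ^ S.card) := by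
    apply Pb_le_Ex
    · intro S _
      positivity
    · intro S _ hS
      rw [← Real.exp_nat_mul, ← Real.exp_add]
      apply Real.one_le_exp
      linarith
  rw [Ex_const_mul] at h2
  have h3 := CHE_gen U (Real.exp 1) (Real.exp_pos _).le
  have h4 : Real.exp (-t) * Ex U (fun S => Real.exp 1 ^ S.card) ≤
      Real.exp (-t) * Real.exp ((Real.exp 1 - 1) * ∑ m ∈ U, pr m) :=
    mul_le_mul_of_nonneg_left h3 (Real.exp_pos _).le
  rw [← Real.exp_add] at h4
  refine (h2.trans h4).trans (Real.exp_le_exp.2 ?_)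
  have h5 : Real.exp 1 - 1 ≤ 2 := by
    have := Real.exp_one_lt_d9
    linarith
  have h6 : 0 ≤ ∑ m ∈ U, pr m := Finset.sum_nonneg fun m _ => pr_nonneg m
  nlinarith

theorem p_EMP : Stmt_EMP := by
  intro U I hI
  have h1 : Pb U (fun S => S ∩ I = ∅) = Pb I (fun S => S = ∅) :=
    Pb_inter hI (fun S => S = ∅)
  rw [h1]
  have h2 : Pb I (fun S => S = ∅) ≤ Ex I (fun S => (0 : ℝ) ^ S.card) := by
    apply Pb_le_Ex
    · intro S _
      positivity
    · intro S _ hS
      rw [hS]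
      simp
  have h3 := CHE_gen I 0 le_rfl
  refine (h2.trans h3).trans (Real.exp_le_exp.2 ?_)
  linarith

end Pool.Agent.Work.MP_7d0410_cr
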