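import Pool.Agent.Work.MP_7d0410_cr.Interface

/-!
# Moser's problem in Cramér's random model: collisions are rare (block CO)
-/

set_option autoImplicit false

namespace Pool.Agent.Work.MP_7d0410_cr

open Finset Filter MeasureTheory ProbabilityTheory
open scoped Classical Topology

/-- powers of `x` beat powers of `log x` -/
lemma CO_log (c : ℝ) (hc : 0 < c) (K : ℝ) :
    ∀ᶠ x : ℕ in atTop, K * ((Real.log x) ^ 2 + 1) ≤ (x : ℝ) ^ c := by
  have h1 : Tendsto (fun x : ℕ => (x : ℝ) ^ (c / 2)) atTop atTop :=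
    (tendsto_rpow_atTop (by linarith)).comp tendsto_natCast_atTop_atTop
  filter_upwards [h1.eventually_ge_atTop (|K| * (16 / c ^ 2 + 1)), eventually_ge_atTop 1] with x hx hx1
  have hx1' : (1 : ℝ) ≤ x := by exact_mod_cast hx1
  have hlog : 0 ≤ Real.log x := Real.log_nonneg hx1'
  have h2 : Real.log x ≤ (x : ℝ) ^ (c / 4) / (c / 4) := Real.log_le_rpow_div (by linarith) (by linarith)
  have h3 : (Real.log x) ^ 2 ≤ 16 / c ^ 2 * (x : ℝ) ^ (c / 2) := by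
    have e : (x : ℝ) ^ (c / 2) = ((x : ℝ) ^ (c / 4)) ^ 2 := by
      rw [← Real.rpow_natCast, ← Real.rpow_mul (by linarith)]
      congr 1
      push_cast
      ring
    calc (Real.log x) ^ 2 ≤ ((x : ℝ) ^ (c / 4) / (c / 4)) ^ 2 := pow_le_pow_left₀ hlog h2 2
      _ = 16 / c ^ 2 * (x : ℝ) ^ (c / 2) := by
          rw [e]
          field_simp
          ring
  have h4 : 1 ≤ (x : ℝ) ^ (c / 2) := Real.one_le_rpow hx1' (by linarith)
  have h5 : (Real.log x) ^ 2 + 1 ≤ (16 / c ^ 2 + 1) * (x : ℝ) ^ (c / 2) := by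
    rw [add_mul, one_mul]
    linarith
  have e2 : (x : ℝ) ^ c = (x : ℝ) ^ (c / 2) * (x : ℝ) ^ (c / 2) := by
    rw [← Real.rpow_add (by linarith)]
    congr 1
    ring
  calc K * ((Real.log x) ^ 2 + 1) ≤ |K| * ((Real.log x) ^ 2 + 1) :=
        mul_le_mul_of_nonneg_right (le_abs_self K) (by positivity)
    _ ≤ |K| * ((16 / c ^ 2 + 1) * (x : ℝ) ^ (c / 2)) := mul_le_mul_of_nonneg_left h5 (abs_nonneg K)
    _ = (|K| * (16 / c ^ 2 + 1)) * (x : ℝ) ^ (c / 2) := by ring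
    _ ≤ (x : ℝ) ^ (c / 2) * (x : ℝ) ^ (c / 2) := mul_le_mul_of_nonneg_right hx (by positivity)
    _ = (x : ℝ) ^ c := e2.symm

lemma CO_GG (x : ℕ) : (GG x : ℝ) ≤ 41 * ((Real.log x) ^ 2 + 1) := by
  unfold GG
  have := Nat.ceil_lt_add_one (a := 40 * (Real.log x) ^ 2) (by positivity)
  nlinarith [sq_nonneg (Real.log x)]

lemma CO_a0 (ε : ℝ) (x : ℕ) (hx : 1 ≤ x) : (x : ℝ) * (x : ℝ) ^ (2 * ε) ≤ (a0 ε x : ℝ) ^ 2 := by
  have hx0 : (0 : ℝ) < x := by exact_mod_cast hx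
  have h1 : (x : ℝ) ^ (1 / 2 + ε) ≤ a0 ε x := Nat.le_ceil _
  have h2 : ((x : ℝ) ^ (1 / 2 + ε)) ^ 2 = (x : ℝ) * (x : ℝ) ^ (2 * ε) := by
    rw [← Real.rpow_natCast, ← Real.rpow_mul hx0.le]
    have : (1 / 2 + ε) * ((2 : ℕ) : ℝ) = 1 + 2 * ε := by push_cast; ring
    rw [this, Real.rpow_add hx0, Real.rpow_one]
  rw [← h2]
  exact pow_le_pow_left₀ (by positivity) h1 2

/-- the facts about the parameters for large `x` -/
lemma CO_par (ε : ℝ) (h1 : 0 < ε) (K : ℝ) : ∀ᶠ x : ℕ in atTop, 64 ≤ a0 ε x ∧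
    K * (((Real.log x) ^ 2 + 1) * x) ≤ (a0 ε x : ℝ) ^ 2 ∧ 1 ≤ x := by
  have t : Tendsto (fun x : ℕ => (x : ℝ) ^ (1 / 2 + ε)) atTop atTop :=
    (tendsto_rpow_atTop (by linarith)).comp tendsto_natCast_atTop_atTop
  filter_upwards [t.eventually_ge_atTop 64, CO_log (2 * ε) (by linarith) K,
    eventually_ge_atTop 1] with x hx1 hx2 hx3
  refine ⟨?_, ?_, hx3⟩
  · have : (64 : ℝ) ≤ a0 ε x := hx1.trans (Nat.le_ceil _)
    exact_mod_cast this
  · have hx0 : (0 : ℝ) ≤ x := Nat.cast_nonneg x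
    calc K * (((Real.log x) ^ 2 + 1) * x) = x * (K * ((Real.log x) ^ 2 + 1)) := by ring
      _ ≤ x * (x : ℝ) ^ (2 * ε) := mul_le_mul_of_nonneg_left hx2 hx0
      _ ≤ _ := CO_a0 ε x hx3

/-- the error term -/
lemma CO_err {ε η x G a : ℝ} (hη : 0 < η) (hx : 0 ≤ x) (ha : 0 < a) (K : ℝ)
    (hG : G ≤ 41 * (ε ^ 2 + 1)) (hK : 0 ≤ K) (h : K * 41 / η * ((ε ^ 2 + 1) * x) ≤ a ^ 2) :
    K * G * x ^ 2 / a ^ 2 ≤ η * x := by
  rw [div_le_iff₀ (by positivity)]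
  have h1 : K * 41 * ((ε ^ 2 + 1) * x) ≤ η * a ^ 2 := by
    have := mul_le_mul_of_nonneg_left h hη.le
    calc K * 41 * ((ε ^ 2 + 1) * x) = η * (K * 41 / η * ((ε ^ 2 + 1) * x)) := by field_simp
      _ ≤ _ := this
  calc K * G * x ^ 2 ≤ K * (41 * (ε ^ 2 + 1)) * x ^ 2 := by
        refine mul_le_mul_of_nonneg_right (mul_le_mul_of_nonneg_left hG hK) (by positivity)
    _ = (K * 41 * ((ε ^ 2 + 1) * x)) * x := by ring
    _ ≤ (η * a ^ 2) * x := mul_le_mul_of_nonneg_right h1 hx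
    _ = η * x * a ^ 2 := by ring

theorem p_CO1 (h : Stmt_C1A) (h2 : Stmt_C1B) : Stmt_CO1 := by
  intro ε η hε _ hη
  filter_upwards [CO_par ε hε (16 * 41 / η), CO_par ε hε 8] with x hx hx'
  obtain ⟨ha, hx1, hx2⟩ := hx
  obtain ⟨-, hx3, -⟩ := hx'
  have hx0 : (0 : ℝ) < x := by exact_mod_cast hx2
  have ha0 : (0 : ℝ) < a0 ε x := by
    have : 0 < a0 ε x := by omega
    exact_mod_cast this
  have h8 : 8 * x ≤ a0 ε x ^ 2 := by
    have : (8 : ℝ) * x ≤ (a0 ε x : ℝ) ^ 2 := by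
      refine le_trans ?_ hx3
      have : (x : ℝ) ≤ ((Real.log x) ^ 2 + 1) * x := by nlinarith [sq_nonneg (Real.log x)]
      linarith
    exact_mod_cast this
  have e1 : ∑ n ∈ Finset.Icc 1 x, T1 (UU ε x) (R0 ε x) (GG x) n ≤
      Ex (UU ε x) (fun S => 2 * ((AB S (GG x) x).card : ℝ)) := by
    unfold T1
    rw [← Ex_sum]
    refine Ex_mono fun S hS => ?_
    have hpos : ∀ m ∈ S, 1 ≤ m := by
      intro m hm
      have := (Finset.mem_Icc.1 (hS hm)).1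
      omega
    exact_mod_cast h S (R0 ε x) (GG x) x hpos
  refine e1.trans ?_
  rw [Ex_const_mul]
  have e2 := h2 (a0 ε x) x (GG x) ha h8
  calc 2 * Ex (UU ε x) (fun S => ((AB S (GG x) x).card : ℝ))
      ≤ 2 * (8 * GG x * (x : ℝ) ^ 2 / (a0 ε x : ℝ) ^ 2) := mul_le_mul_of_nonneg_left e2 (by norm_num)
    _ = 16 * GG x * (x : ℝ) ^ 2 / (a0 ε x : ℝ) ^ 2 := by ring
    _ ≤ η * x := CO_err hη hx0.le ha0 16 (CO_GG x) (by norm_num) hx1

theorem p_CO2 (h : Stmt_C2A) : Stmt_CO2 := by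
  intro ε η hε _ hη
  filter_upwards [CO_par ε hε (96 * 41 / (η / 2)), CO_par ε hε (8 * 41), CO_log ε hε (16 / η)]
    with x hx hx' hx''
  obtain ⟨ha, hx1, hx2⟩ := hx
  obtain ⟨-, hx3, -⟩ := hx'
  have hx1' : (1 : ℝ) ≤ x := by exact_mod_cast hx2
  have hx0 : (0 : ℝ) < x := by linarith
  have ha0 : (0 : ℝ) < a0 ε x := by
    have : 0 < a0 ε x := by omega
    exact_mod_cast this
  have hlog : 0 ≤ Real.log x := Real.log_nonneg hx1'
  have h8 : 8 * x ≤ a0 ε x ^ 2 := by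
    have : (8 : ℝ) * x ≤ (a0 ε x : ℝ) ^ 2 := by
      refine le_trans ?_ hx3
      have : (x : ℝ) ≤ ((Real.log x) ^ 2 + 1) * x := by nlinarith [sq_nonneg (Real.log x)]
      linarith
    exact_mod_cast this
  have h8' : 8 * GG x * x ≤ a0 ε x ^ 2 := by
    have : (8 : ℝ) * GG x * x ≤ (a0 ε x : ℝ) ^ 2 := by
      refine le_trans ?_ hx3
      have := mul_le_mul_of_nonneg_right (CO_GG x) hx0.le
      nlinarith
    exact_mod_cast this
  have hR : (x : ℝ) ^ ε ≤ R0 ε x := Nat.le_ceil _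
  have hxe : 0 < (x : ℝ) ^ ε := by positivity
  have hR0 : (0 : ℝ) < R0 ε x := lt_of_lt_of_le hxe hR
  have hR1 : 1 ≤ R0 ε x := by
    have : 0 < R0 ε x := by exact_mod_cast hR0
    omega
  have e1 := h (a0 ε x) x (R0 ε x) (GG x) ha h8 h8' hR1 hx2
  refine e1.trans ?_
  have e2 : 96 * (GG x : ℝ) * (x : ℝ) ^ 2 / (a0 ε x : ℝ) ^ 2 ≤ η / 2 * x :=
    CO_err (by linarith) hx0.le ha0 96 (CO_GG x) (by norm_num) hx1
  have e3 : 4 * ((x : ℝ) / R0 ε x) * (1 + Real.log x) ≤ η / 2 * x := by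
    have k1 : 8 * (1 + Real.log x) ≤ η * R0 ε x := by
      have k2 : 16 * ((Real.log x) ^ 2 + 1) ≤ η * (x : ℝ) ^ ε := by
        have := mul_le_mul_of_nonneg_left hx'' hη.le
        calc 16 * ((Real.log x) ^ 2 + 1) = η * (16 / η * ((Real.log x) ^ 2 + 1)) := by field_simp
          _ ≤ _ := this
      have k3 : 1 + Real.log x ≤ 2 * ((Real.log x) ^ 2 + 1) := by
        nlinarith [sq_nonneg (Real.log x - 1), sq_nonneg (Real.log x)]
      calc 8 * (1 + Real.log x) ≤ 16 * ((Real.log x) ^ 2 + 1) := by linarith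
        _ ≤ η * (x : ℝ) ^ ε := k2
        _ ≤ η * R0 ε x := mul_le_mul_of_nonneg_left hR hη.le
    calc 4 * ((x : ℝ) / R0 ε x) * (1 + Real.log x) = (x : ℝ) / (2 * R0 ε x) * (8 * (1 + Real.log x)) := by
          field_simp
          ring
      _ ≤ (x : ℝ) / (2 * R0 ε x) * (η * R0 ε x) := mul_le_mul_of_nonneg_left k1 (by positivity)
      _ = η / 2 * x := by field_simp
  linarith

end Pool.Agent.Work.MP_7d0410_cr
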