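import Pool.Agent.Work.MP_7d0410_cr.Interface

/-! # Block CRU: the crude bound -/

set_option autoImplicit false

namespace Pool.Agent.Work.MP_7d0410_cr

open Finset Filter MeasureTheory ProbabilityTheory
open scoped Classical Topology

theorem p_CRU (hSHH : Stmt_SHH) (hONE : Stmt_ONE) : Stmt_CRU := by
  intro a x r n ha hr hra hn
  have ha' : (64 : ℝ) ≤ a := by exact_mod_cast ha
  have hr' : (1 : ℝ) ≤ r := by exact_mod_cast hr
  have hra' : 8 * (r : ℝ) ≤ a := by exact_mod_cast hra
  have hlog : 4 ≤ Real.log a := by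
    have h1 : Real.log 64 ≤ Real.log a := Real.log_le_log (by norm_num) ha'
    have h2 : Real.log 64 = 6 * Real.log 2 := by
      rw [show (64 : ℝ) = 2 ^ 6 by norm_num, Real.log_pow]
      norm_num
    have h3 := Real.log_two_gt_d9
    linarith
  have hnn : 0 ≤ hh a x r n := Ex_nonneg fun S _ => Nat.cast_nonneg _
  have hstep : ∀ ℓ ∈ Finset.range r, 1 / 2 * hh a x r n ≤ hh a x r (n + ℓ) := by
    intro ℓ hℓ
    rw [Finset.mem_range] at hℓ
    have h1 := hSHH a x r n ℓ (by omega) hr (by omega)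
    have h2 : 1 / Real.log a ≤ 1 / 4 := one_div_le_one_div_of_le (by norm_num) hlog
    have h3 : (ℓ : ℝ) / a ≤ 1 / 8 := by
      rw [div_le_iff₀ (by linarith)]
      have : (ℓ : ℝ) ≤ r := by exact_mod_cast hℓ.le
      linarith
    have h4 : 1 / 2 * hh a x r n ≤ (1 - 1 / Real.log a - (ℓ : ℝ) / a) * hh a x r n :=
      mul_le_mul_of_nonneg_right (by linarith) hnn
    exact h4.trans h1
  have hsum : ∑ ℓ ∈ Finset.range r, hh a x r (n + ℓ) ≤ 1 := by
    unfold hh
    rw [← Ex_sum]
    refine Ex_le_const fun S _ => ?_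
    exact_mod_cast hONE S r n hr
  have h5 := Finset.sum_le_sum hstep
  rw [Finset.sum_const, Finset.card_range, nsmul_eq_mul] at h5
  rw [le_div_iff₀ (by linarith)]
  nlinarith

end Pool.Agent.Work.MP_7d0410_cr
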