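import Pool.Agent.Work.MP_7d0410_cr.Interface

/-!
# Runs with large gaps are rare
-/

set_option autoImplicit false

namespace Pool.Agent.Work.MP_7d0410_cr

open Finset Filter MeasureTheory ProbabilityTheory
open scoped Classical Topology

lemma GAP_run (S : Finset ℕ) (G : ℕ) : ∀ k : ℕ, ∀ q ∈ runs S, q.2 - q.1 = k →
    (∀ s ∈ S, q.1 ≤ s → s < q.2 → (S ∩ Finset.Ioc s (s + G)).Nonempty) →
    q.2 ≤ q.1 + G * len S q := by
  intro k
  induction k using Nat.strong_induction_on with
  | _ k ih =>
    intro q hq hk hs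
    obtain ⟨h1, h2, h3⟩ := mem_runs.1 hq
    have hmem : q.1 ∈ seg S q := mem_seg.2 ⟨h1, le_rfl, h3⟩
    have hlen : 1 ≤ len S q := Finset.card_pos.2 ⟨q.1, hmem⟩
    have hGl : G ≤ G * len S q := Nat.le_mul_of_pos_right G hlen
    rcases Nat.eq_or_lt_of_le h3 with h | h
    · omega
    · obtain ⟨t, ht⟩ := hs q.1 h1 le_rfl h
      rw [Finset.mem_inter, Finset.mem_Ioc] at ht
      obtain ⟨ht1, ht2, ht3⟩ := ht
      by_cases htq : q.2 ≤ t
      · omega
      · have hrun : (t, q.2) ∈ runs S := mem_runs.2 ⟨ht1, h2, by show t ≤ q.2; omega⟩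
        have hI := ih (q.2 - t) (by omega) (t, q.2) hrun rfl (fun s hsS hs1 hs2 =>
          hs s hsS (by have : t ≤ s := hs1; omega) hs2)
        have hlt : len S (t, q.2) + 1 ≤ len S q := by
          unfold len
          rw [Nat.succ_le_iff]
          apply Finset.card_lt_card
          rw [Finset.ssubset_iff_of_subset]
          · refine ⟨q.1, hmem, ?_⟩
            rw [mem_seg]
            rintro ⟨_, h', _⟩
            have h'' : t ≤ q.1 := h'
            omega
          · intro m hm
            rw [mem_seg] at hm ⊢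
            have h' : t ≤ m := hm.2.1
            exact ⟨hm.1, by omega, hm.2.2⟩
        have hmul : G * (len S (t, q.2) + 1) ≤ G * len S q := Nat.mul_le_mul_left G hlt
        have hI' : q.2 ≤ t + G * len S (t, q.2) := hI
        rw [Nat.mul_add, Nat.mul_one] at hmul
        omega

theorem p_GAP (hEMP : Stmt_EMP) : Stmt_GAP := by
  intro ε hε0 hε1
  filter_upwards [Filter.eventually_ge_atTop 3, Filter.eventually_ge_atTop
    (⌈(3 : ℝ) ^ (1 / (1 / 2 + ε))⌉₊)] with x hx _
  obtain ⟨U, hU⟩ : ∃ U, U = UU ε x := ⟨_, rfl⟩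
  obtain ⟨G, hG⟩ : ∃ G, G = GG x := ⟨_, rfl⟩
  rw [← hU, ← hG]
  have hx3 : (3 : ℝ) ≤ x := by exact_mod_cast hx
  have hlogx : 1 < Real.log x := by
    rw [Real.lt_log_iff_exp_lt (by linarith)]
    exact Real.exp_one_lt_d9.trans (by linarith)
  have hlog2x : Real.log (2 * x) ≤ 2 * Real.log x := by
    rw [Real.log_mul (by norm_num) (by linarith)]
    have : Real.log 2 ≤ Real.log x := Real.log_le_log (by norm_num) (by linarith)
    linarith
  have hUmem : ∀ m, m ∈ U ↔ a0 ε x ≤ m ∧ m ≤ 2 * x := by
    intro m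
    rw [hU]
    unfold UU
    rw [Finset.mem_Icc]
  have ha0 : ∀ m, m ∈ U → 1 ≤ m := by
    intro m hm
    have h1 := ((hUmem m).1 hm).1
    have h2 : 1 ≤ a0 ε x := by
      unfold a0
      apply Nat.one_le_ceil_iff.2
      positivity
    omega
  have hcardU : (U.card : ℝ) ≤ 2 * x := by
    have : U.card ≤ 2 * x := by
      have hsub : U ⊆ Finset.Icc 1 (2 * x) := by
        intro m hm
        rw [Finset.mem_Icc]
        exact ⟨ha0 m hm, ((hUmem m).1 hm).2⟩
      have := Finset.card_le_card hsub
      rw [Nat.card_Icc] at this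
      omega
    exact_mod_cast this
  -- the bad event
  set J : Finset ℕ := U.filter (fun s => s + G ≤ 2 * x) with hJ
  have hpt : ∀ S ⊆ U, (((runs S).filter (fun q => q.1 + G * len S q < q.2)).card : ℝ) ≤
      (2 * x) ^ 2 * (if ∃ s ∈ J, S ∩ Finset.Ioc s (s + G) = ∅ then 1 else 0) := by
    intro S hS
    split_ifs with h
    · rw [mul_one]
      have h1 : ((runs S).filter (fun q => q.1 + G * len S q < q.2)).card ≤ U.card * U.card := by
        rw [← Finset.card_product]
        apply Finset.card_le_card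
        intro q hq
        rw [Finset.mem_filter, mem_runs] at hq
        exact Finset.mem_product.2 ⟨hS hq.1.1, hS hq.1.2.1⟩
      have h2 : (((runs S).filter (fun q => q.1 + G * len S q < q.2)).card : ℝ) ≤
          (U.card : ℝ) * U.card := by exact_mod_cast h1
      have h3 : (0 : ℝ) ≤ U.card := Nat.cast_nonneg _
      nlinarith
    · rw [mul_zero]
      have : (runs S).filter (fun q => q.1 + G * len S q < q.2) = ∅ := by
        rw [Finset.filter_eq_empty_iff]
        intro q hq hlt
        have := GAP_run S G _ q hq rfl (fun s hs hs1 hs2 => by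
          rw [Finset.nonempty_iff_ne_empty]
          intro he
          apply h
          refine ⟨s, ?_, he⟩
          rw [hJ, Finset.mem_filter]
          refine ⟨hS hs, ?_⟩
          have hq2 := (mem_runs.1 hq).2.1
          have hle := ((hUmem q.2).1 (hS hq2)).2
          by_contra hcon
          have : q.2 ∈ S ∩ Finset.Ioc s (s + G) := by
            rw [Finset.mem_inter, Finset.mem_Ioc]
            exact ⟨hq2, hs2, by omega⟩
          rw [he] at this
          exact absurd this (Finset.notMem_empty _))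
        omega
      rw [this, Finset.card_empty]
      simp
  have hEx := Ex_mono hpt
  rw [Ex_const_mul] at hEx
  have hPb : Ex U (fun S => if ∃ s ∈ J, S ∩ Finset.Ioc s (s + G) = ∅ then (1 : ℝ) else 0) ≤
      ∑ s ∈ J, Pb U (fun S => S ∩ Finset.Ioc s (s + G) = ∅) := by
    refine le_trans (le_of_eq ?_) (Pb_exists_le U J (fun s S => S ∩ Finset.Ioc s (s + G) = ∅))
    unfold Pb
    refine Ex_congr fun S _ => ?_
    by_cases h : ∃ s ∈ J, S ∩ Finset.Ioc s (s + G) = ∅
    · rw [if_pos h, if_pos h]
    · rw [if_neg h, if_neg h]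
  have hG1 : 40 * (Real.log x) ^ 2 ≤ (G : ℝ) := by
    rw [hG]
    exact Nat.le_ceil _
  have hone : ∀ s ∈ J, Pb U (fun S => S ∩ Finset.Ioc s (s + G) = ∅) ≤
      Real.exp (-(20 * Real.log x)) := by
    intro s hs
    rw [hJ, Finset.mem_filter] at hs
    have hsub : Finset.Ioc s (s + G) ⊆ U := by
      intro m hm
      rw [Finset.mem_Ioc] at hm
      rw [hUmem]
      have := ((hUmem s).1 hs.1).1
      omega
    refine (hEMP U (Finset.Ioc s (s + G)) hsub).trans (Real.exp_le_exp.2 ?_)
    have h1 : (G : ℝ) * (1 / Real.log (2 * x)) ≤ ∑ m ∈ Finset.Ioc s (s + G), pr m := by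
      have h2 : ∀ m ∈ Finset.Ioc s (s + G), 1 / Real.log (2 * x) ≤ pr m := by
        intro m hm
        have hm2 := ((hUmem m).1 (hsub hm)).2
        unfold pr
        have hl := one_lt_log_max m
        apply one_div_le_one_div_of_le (by linarith)
        apply Real.log_le_log (by positivity)
        have : (m : ℝ) ≤ 2 * x := by exact_mod_cast hm2
        exact max_le this (by linarith)
      have h3 := Finset.card_nsmul_le_sum _ _ _ h2
      rw [Nat.card_Ioc, nsmul_eq_mul] at h3
      have h4 : s + G - s = G := by omega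
      rw [h4] at h3
      exact h3
    have h5 : 20 * Real.log x ≤ (G : ℝ) * (1 / Real.log (2 * x)) := by
      have hpos : 0 < Real.log (2 * x) := by
        apply Real.log_pos
        linarith
      rw [mul_one_div, le_div_iff₀ hpos]
      nlinarith
    linarith
  have hsum : ∑ s ∈ J, Pb U (fun S => S ∩ Finset.Ioc s (s + G) = ∅) ≤
      (2 * x) * Real.exp (-(20 * Real.log x)) := by
    refine (Finset.sum_le_sum hone).trans ?_
    rw [Finset.sum_const, nsmul_eq_mul]
    apply mul_le_mul_of_nonneg_right _ (Real.exp_pos _).le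
    have : (J.card : ℝ) ≤ U.card := by
      exact_mod_cast Finset.card_le_card (Finset.filter_subset _ _)
    linarith
  have hexp : Real.exp (-(20 * Real.log x)) = 1 / (x : ℝ) ^ 20 := by
    rw [Real.exp_neg, one_div]
    congr 1
    have h1 : (20 : ℝ) * Real.log x = Real.log ((x : ℝ) ^ 20) := by
      rw [Real.log_pow]
      norm_num
    rw [h1, Real.exp_log (by positivity)]
  rw [hexp] at hsum
  have hfin : (2 * (x : ℝ)) ^ 2 * ((2 * x) * (1 / (x : ℝ) ^ 20)) ≤ 1 / x := by
    have hxpos : (0 : ℝ) < x := by linarith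
    have h16 : (8 : ℝ) ≤ (x : ℝ) ^ 16 := by
      have h2 : (2 : ℝ) ^ 16 ≤ (x : ℝ) ^ 16 := pow_le_pow_left₀ (by norm_num) (by linarith) 16
      norm_num at h2 ⊢
      linarith
    rw [show (2 * (x : ℝ)) ^ 2 * ((2 * x) * (1 / (x : ℝ) ^ 20)) = 8 * (x : ℝ) ^ 3 / (x : ℝ) ^ 20 by
      ring, div_le_div_iff₀ (by positivity) hxpos]
    nlinarith [pow_pos hxpos 4, mul_le_mul_of_nonneg_left h16 (pow_pos hxpos 4).le]
  refine hEx.trans ?_
  refine le_trans ?_ hfin
  apply mul_le_mul_of_nonneg_left (hPb.trans hsum)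
  positivity

end Pool.Agent.Work.MP_7d0410_cr
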