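import Pool.Agent.Work.MP_7d0410_cr.Interface

/-!
# Block HL1 (MP_7d0410_cr): the expected number of good runs is `lam ε` for most `n`

Written by helper55.
-/

set_option autoImplicit false

namespace Pool.Agent.Work.MP_7d0410_cr

open Finset Filter MeasureTheory ProbabilityTheory
open scoped Classical Topology

theorem p_HL1 (hLOW : Stmt_LOW) (hUPP : Stmt_UPP) : Stmt_HL1 := by
  intro ε η hε hε4 hη
  have h1 := hLOW ε (η / 6) hε hε4 (by positivity)
  have h2 := hUPP ε (η / 6) hε hε4 (by positivity)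
  have h3 : ∀ᶠ x : ℕ in atTop, 4 * |lam ε| / η + 1 ≤ Real.log x :=
    (Real.tendsto_log_atTop.comp tendsto_natCast_atTop_atTop).eventually_ge_atTop _
  filter_upwards [h1, h2, h3] with x h1 h2 h3
  have hl0 : 0 ≤ 4 * |lam ε| / η := by positivity
  have hlog : 0 < Real.log x := by linarith
  have hlog4 : 4 * |lam ε| / η ≤ Real.log x := by linarith
  set H : ℕ → ℝ := fun n => HH (UU ε x) (R0 ε x) (GG x) n with hH
  have hH0 : ∀ n, 0 ≤ H n := fun n => Ex_nonneg fun S _ => by positivity
  have hpt : ∀ n ∈ Finset.Icc 1 x, |H n - lam ε| ≤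
      H n + (-lam ε + 2 * (η / 6) + 2 * (if (n : ℝ) * Real.log x < x then |lam ε| else 0)) := by
    intro n hn
    have hn2 := (Finset.mem_Icc.1 hn).2
    have habs := le_abs_self (lam ε)
    have h0 := hH0 n
    by_cases hc : (n : ℝ) * Real.log x < x
    · rw [if_pos hc, abs_le]
      have := abs_nonneg (lam ε)
      constructor <;> linarith
    · rw [if_neg hc, abs_le]
      have := h1 n (not_lt.1 hc) hn2
      change lam ε - η / 6 ≤ H n at this
      constructor <;> linarith
  have hcount : (((Finset.Icc 1 x).filter (fun n : ℕ => (n : ℝ) * Real.log x < x)).card : ℝ) ≤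
      x / Real.log x := by
    have hsub : (Finset.Icc 1 x).filter (fun n : ℕ => (n : ℝ) * Real.log x < x) ⊆
        Finset.Icc 1 ⌊(x : ℝ) / Real.log x⌋₊ := by
      intro n hn
      obtain ⟨hn1, hn2⟩ := Finset.mem_filter.1 hn
      rw [Finset.mem_Icc] at hn1 ⊢
      refine ⟨hn1.1, Nat.le_floor ?_⟩
      rw [le_div_iff₀ hlog]
      exact hn2.le
    have h4 := Finset.card_le_card hsub
    rw [Nat.card_Icc, Nat.add_sub_cancel] at h4
    calc (((Finset.Icc 1 x).filter (fun n : ℕ => (n : ℝ) * Real.log x < x)).card : ℝ)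
        ≤ (⌊(x : ℝ) / Real.log x⌋₊ : ℝ) := by exact_mod_cast h4
      _ ≤ x / Real.log x := Nat.floor_le (by positivity)
  have hsum : ∑ n ∈ Finset.Icc 1 x, (if (n : ℝ) * Real.log x < x then |lam ε| else 0) ≤
      η / 4 * x := by
    rw [← Finset.sum_filter, Finset.sum_const, nsmul_eq_mul]
    have h5 : |lam ε| ≤ η / 4 * Real.log x := by
      have := (div_le_iff₀ hη).1 hlog4
      linarith
    calc (((Finset.Icc 1 x).filter (fun n : ℕ => (n : ℝ) * Real.log x < x)).card : ℝ) * |lam ε|
        ≤ (x / Real.log x) * (η / 4 * Real.log x) := by gcongr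
      _ = η / 4 * x := by field_simp
  have hcard : ((Finset.Icc 1 x).card : ℝ) = x := by
    rw [Nat.card_Icc, Nat.add_sub_cancel]
  calc ∑ n ∈ Finset.Icc 1 x, |H n - lam ε|
      ≤ ∑ n ∈ Finset.Icc 1 x, (H n + (-lam ε + 2 * (η / 6) +
        2 * (if (n : ℝ) * Real.log x < x then |lam ε| else 0))) := Finset.sum_le_sum hpt
    _ = ∑ n ∈ Finset.Icc 1 x, H n + (x * (-lam ε + 2 * (η / 6)) +
        2 * ∑ n ∈ Finset.Icc 1 x, (if (n : ℝ) * Real.log x < x then |lam ε| else 0)) := by
      rw [Finset.sum_add_distrib, Finset.sum_add_distrib, Finset.sum_const, nsmul_eq_mul, hcard,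
        ← Finset.mul_sum]
    _ ≤ (lam ε + η / 6) * x + (x * (-lam ε + 2 * (η / 6)) + 2 * (η / 4 * x)) := by
      gcongr
    _ = η * x := by ring

end Pool.Agent.Work.MP_7d0410_cr
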