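import Pool.Agent.Work.MP_7d0410_cr.Interface

/-!
# Block HLN (MP_7d0410_cr): lower bound for `h_r n`, with explicit errors

Written by helper35.
-/

set_option autoImplicit false

namespace Pool.Agent.Work.MP_7d0410_cr

open Finset Filter MeasureTheory ProbabilityTheory
open scoped Classical Topology

theorem HLN_NN (S : Finset ℕ) (r n M : ℕ) (hM : M ≤ n) :
    NN S r n M = ∑ l ∈ Finset.Icc 1 M, (rr S r (n - l)).card := by
  unfold NN
  rw [← Finset.card_biUnion]
  · congr 1
    ext q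
    rw [Finset.mem_filter, Finset.mem_biUnion]
    constructor
    · rintro ⟨h1, h2, h3, h4⟩
      refine ⟨n - sm S q, ?_, ?_⟩
      · rw [Finset.mem_Icc]
        omega
      · rw [mem_rr]
        exact ⟨h1, h2, by omega⟩
    · rintro ⟨l, hl, hq⟩
      rw [Finset.mem_Icc] at hl
      rw [mem_rr] at hq
      exact ⟨hq.1, hq.2.1, by omega, by omega⟩
  · intro l hl l' hl' hne
    rw [Function.onFun, Finset.disjoint_left]
    intro q hq hq'
    rw [mem_rr] at hq hq'
    have h1 := hq.2.2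
    have h2 := hq'.2.2
    simp only [Finset.coe_Icc, Set.mem_Icc] at hl hl'
    omega

theorem HLN_log (a : ℕ) (ha : 64 ≤ a) : 4 ≤ Real.log a := by
  have h1 : Real.log 64 ≤ Real.log (a : ℝ) := Real.log_le_log (by norm_num) (by exact_mod_cast ha)
  have h2 : (4 : ℝ) ≤ Real.log 64 := by
    have h3 : Real.log 64 = 6 * Real.log 2 := by
      rw [show (64 : ℝ) = 2 ^ 6 by norm_num, Real.log_pow]
      norm_num
    rw [h3]
    have := Real.log_two_gt_d9
    linarith
  linarith

theorem p_HLN (hSHH : Stmt_SHH) (hNRL : Stmt_NRL) (hCHL : Stmt_CHL) : Stmt_HLN := by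
  intro a x r g n M δ ha hr hg hM hMa hnx hgx hrag hδ hδ1 hsum
  obtain ⟨U, hU⟩ : ∃ U : Finset ℕ, U = Finset.Icc a (2 * x) := ⟨_, rfl⟩
  have ha0 : (0 : ℝ) < a := by exact_mod_cast (by omega : 0 < a)
  have hg0 : (0 : ℝ) < g := by exact_mod_cast (by omega : 0 < g)
  have hM0 : (0 : ℝ) < M := by exact_mod_cast (by omega : 0 < M)
  have hMn : M ≤ n := by omega
  obtain ⟨A, hA⟩ : ∃ A : Finset ℕ → Prop, A = fun S =>
    ∀ y : ℕ, a ≤ y + 1 → r * y ≤ n → r ≤ (S ∩ Finset.Ioc y (y + g)).card := ⟨_, rfl⟩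
  have hPA : Pb U (fun S => ¬ A S) ≤ (x + 1) * Real.exp (-(δ ^ 2 * r / 4)) := by
    have h1 : Pb U (fun S => ¬ A S) ≤ Pb U (fun S => ∃ y ∈ (Finset.range (x + 1)).filter
        (fun y => a ≤ y + 1 ∧ r * y ≤ n), (S ∩ Finset.Ioc y (y + g)).card < r) := by
      refine Pb_mono fun S _ hS => ?_
      rw [hA] at hS
      push Not at hS
      obtain ⟨y, hy1, hy2, hy3⟩ := hS
      refine ⟨y, ?_, hy3⟩
      rw [Finset.mem_filter, Finset.mem_range]
      refine ⟨?_, hy1, hy2⟩
      have : 1 * y ≤ r * y := Nat.mul_le_mul_right y hr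
      omega
    refine h1.trans ((Pb_exists_le _ _ _).trans ?_)
    have h2 : ∀ y ∈ (Finset.range (x + 1)).filter (fun y => a ≤ y + 1 ∧ r * y ≤ n),
        Pb U (fun S => (S ∩ Finset.Ioc y (y + g)).card < r) ≤ Real.exp (-(δ ^ 2 * r / 4)) := by
      intro y hy
      rw [Finset.mem_filter, Finset.mem_range] at hy
      refine hCHL U (Finset.Ioc y (y + g)) r δ ?_ hδ hδ1 (hsum y hy.2.1 hy.2.2)
      intro m hm
      rw [Finset.mem_Ioc] at hm
      rw [hU, Finset.mem_Icc]
      omega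
    refine (Finset.sum_le_sum h2).trans ?_
    rw [Finset.sum_const, nsmul_eq_mul]
    refine mul_le_mul_of_nonneg_right ?_ (Real.exp_pos _).le
    have h3 := Finset.card_filter_le (Finset.range (x + 1)) (fun y => a ≤ y + 1 ∧ r * y ≤ n)
    rw [Finset.card_range] at h3
    exact_mod_cast h3
  have hEx : ∑ l ∈ Finset.Icc 1 M, hh a x r (n - l) = Ex U (fun S => (NN S r n M : ℝ)) := by
    unfold hh
    rw [← hU, ← Ex_sum]
    refine Ex_congr fun S _ => ?_
    rw [HLN_NN S r n M hMn]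
    push_cast
    rfl
  have hlow : (M : ℝ) / g * (1 - (x + 1) * Real.exp (-(δ ^ 2 * r / 4))) - 1 ≤
      Ex U (fun S => (NN S r n M : ℝ)) := by
    have h1 : Ex U (fun S => (M : ℝ) / g * (1 - if ¬ A S then 1 else 0) - 1) ≤
        Ex U (fun S => (NN S r n M : ℝ)) := by
      refine Ex_mono fun S hS => ?_
      by_cases hAS : A S
      · rw [if_neg (by simpa using hAS), sub_zero, mul_one]
        have hmem : ∀ m ∈ S, a ≤ m := by
          intro m hm
          have := hS hm
          rw [hU, Finset.mem_Icc] at this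
          exact this.1
        have hAS' := hAS
        rw [hA] at hAS'
        have h2 := hNRL S a r g n M hmem (by omega) hr hg hAS' hrag
        have h3 : (M : ℝ) ≤ ((NN S r n M : ℝ) + 1) * g := by exact_mod_cast h2
        rw [sub_le_iff_le_add, div_le_iff₀ hg0]
        exact h3
      · rw [if_pos hAS, sub_self, mul_zero, zero_sub]
        have : (0 : ℝ) ≤ (NN S r n M : ℝ) := Nat.cast_nonneg _
        linarith
    refine le_trans ?_ h1
    rw [Ex_sub, Ex_const_mul, Ex_sub, Ex_const]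
    have h4 : Ex U (fun S => if ¬ A S then (1 : ℝ) else 0) = Pb U (fun S => ¬ A S) :=
      (Pb_eq U _).symm
    rw [h4]
    have h5 : (M : ℝ) / g * (1 - (x + 1) * Real.exp (-(δ ^ 2 * r / 4))) ≤
        (M : ℝ) / g * (1 - Pb U (fun S => ¬ A S)) :=
      mul_le_mul_of_nonneg_left (by linarith) (by positivity)
    linarith
  obtain ⟨c, hc⟩ : ∃ c : ℝ, c = 1 - 1 / Real.log a - (M : ℝ) / a := ⟨_, rfl⟩
  have hc0 : 0 ≤ c := by
    have h1 := HLN_log a ha
    have h2 : 1 / Real.log (a : ℝ) ≤ 1 / 4 := one_div_le_one_div_of_le (by norm_num) h1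
    have h3 : (M : ℝ) / a ≤ 1 / 2 := by
      rw [div_le_div_iff₀ ha0 (by norm_num)]
      have : (2 * M : ℝ) ≤ a := by exact_mod_cast hMa
      linarith
    rw [hc]
    linarith
  have hhh0 : ∀ k, 0 ≤ hh a x r k := fun k => Ex_nonneg fun S _ => Nat.cast_nonneg _
  have hcmp : ∀ l ∈ Finset.Icc 1 M, c * hh a x r (n - l) ≤ hh a x r n := by
    intro l hl
    rw [Finset.mem_Icc] at hl
    have h1 := hSHH a x r (n - l) l (by omega) hr (by omega)
    rw [Nat.sub_add_cancel (by omega)] at h1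
    refine le_trans (mul_le_mul_of_nonneg_right ?_ (hhh0 _)) h1
    rw [hc]
    have h2 : (l : ℝ) / a ≤ (M : ℝ) / a :=
      div_le_div_of_nonneg_right (by exact_mod_cast hl.2) ha0.le
    linarith
  have hfin : c * Ex U (fun S => (NN S r n M : ℝ)) ≤ M * hh a x r n := by
    rw [← hEx, Finset.mul_sum]
    refine (Finset.sum_le_sum hcmp).trans ?_
    rw [Finset.sum_const, Nat.card_Icc, nsmul_eq_mul, Nat.add_sub_cancel]
  rw [← hc]
  have h6 := (mul_le_mul_of_nonneg_left hlow hc0).trans hfin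
  have h7 : c * ((M : ℝ) / g * (1 - (x + 1) * Real.exp (-(δ ^ 2 * r / 4))) - 1) =
      M * (c * ((1 - (x + 1) * Real.exp (-(δ ^ 2 * r / 4))) / g - 1 / M)) := by
    field_simp
  rw [h7] at h6
  exact le_of_mul_le_mul_left h6 hM0

end Pool.Agent.Work.MP_7d0410_cr
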