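import Pool.Agent.Work.MP_7d0410_cr.Interface

/-!
# Block HLO (MP_7d0410_cr): lower bound for `h_r n`

Written by helper35.
-/

set_option autoImplicit false

namespace Pool.Agent.Work.MP_7d0410_cr

open Finset Filter MeasureTheory ProbabilityTheory
open scoped Classical Topology

/-- the final estimate -/
theorem HLO_fin (y g P M u v η : ℝ) (hη : 0 < η) (hη1 : η ≤ 1) (hy : 0 < y) (hg : 0 < g)
    (hg2 : g ≤ (1 + η / 4) * y + 1) (hy1 : 1 ≤ η / 12 * y) (hP : P ≤ η / 12)
    (hM : 1 / M ≤ η / 12 / y) (hu : u ≤ η / 12) (hv : v ≤ η / 12) :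
    (1 - η) / y ≤ (1 - u - v) * ((1 - P) / g - 1 / M) := by
  have h1 : g ≤ (1 + η / 3) * y := by linarith
  have h2 : (1 - η / 12) * (1 - η / 3) / y ≤ (1 - P) / g := by
    rw [div_le_div_iff₀ hy hg]
    have h3 : (1 - η / 12) * (1 - η / 3) * g ≤ (1 - η / 12) * (1 - η / 3) * ((1 + η / 3) * y) := by
      refine mul_le_mul_of_nonneg_left h1 (mul_nonneg ?_ ?_) <;> linarith
    have h4 : (1 - η / 3) * (1 + η / 3) ≤ 1 := by nlinarith
    calc (1 - η / 12) * (1 - η / 3) * g ≤ (1 - η / 12) * (1 - η / 3) * ((1 + η / 3) * y) := h3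
      _ = (1 - η / 12) * ((1 - η / 3) * (1 + η / 3)) * y := by ring
      _ ≤ (1 - η / 12) * 1 * y := by
          refine mul_le_mul_of_nonneg_right (mul_le_mul_of_nonneg_left h4 ?_) hy.le
          linarith
      _ ≤ (1 - P) * y := mul_le_mul_of_nonneg_right (by linarith) hy.le
  have h5 : (1 - η / 2) / y ≤ (1 - P) / g - 1 / M := by
    have h6 : (1 - η / 12) * (1 - η / 3) / y - η / 12 / y ≤ (1 - P) / g - 1 / M := by linarith
    refine le_trans ?_ h6
    rw [← sub_div]
    refine div_le_div_of_nonneg_right ?_ hy.le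
    nlinarith
  have h7 : 1 - η / 6 ≤ 1 - u - v := by linarith
  have h8 : 0 ≤ (1 - η / 2) / y := div_nonneg (by linarith) hy.le
  calc (1 - η) / y ≤ (1 - η / 6) * ((1 - η / 2) / y) := by
        rw [← mul_div_assoc]
        refine div_le_div_of_nonneg_right ?_ hy.le
        nlinarith
    _ ≤ (1 - u - v) * ((1 - P) / g - 1 / M) := by
        refine mul_le_mul h7 h5 h8 ?_
        linarith

/-- the sums over the intervals -/
theorem HLO_sum (a r g n : ℕ) (η Λ : ℝ) (ha : 64 ≤ a) (hr : 1 ≤ r) (hη : 0 < η) (hη1 : η ≤ 1)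
    (hΛ : Λ = Real.log ((n : ℝ) / r)) (hn : 1 ≤ n) (hΛ8 : 2 ≤ η / 8 * Λ)
    (hg : (1 + η / 4) * (r * Λ) ≤ g) (hgr : r * g ≤ n) (y : ℕ) (hay : a ≤ y + 1)
    (hry : r * y ≤ n) : (1 + η / 8) * r ≤ ∑ m ∈ Finset.Ioc y (y + g), pr m := by
  have hr0 : (0 : ℝ) < r := by exact_mod_cast hr
  have hn0 : (0 : ℝ) < n := by exact_mod_cast hn
  have hΛ0 : 0 < Λ := by
    by_contra h
    push Not at h
    nlinarith
  have hyr : (y : ℝ) ≤ n / r := by
    rw [le_div_iff₀ hr0]
    have : (r * y : ℝ) ≤ n := by exact_mod_cast hry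
    linarith
  have hgr' : (g : ℝ) ≤ n / r := by
    rw [le_div_iff₀ hr0]
    have : (r * g : ℝ) ≤ n := by exact_mod_cast hgr
    linarith
  have hlog : ∀ m ∈ Finset.Ioc y (y + g), 1 / (Λ + 1) ≤ pr m := by
    intro m hm
    rw [Finset.mem_Ioc] at hm
    rw [pr_eq (by omega)]
    have hm0 : (0 : ℝ) < m := by exact_mod_cast (by omega : 0 < m)
    have hm1 : (1 : ℝ) < m := by exact_mod_cast (by omega : 1 < m)
    refine one_div_le_one_div_of_le (Real.log_pos hm1) ?_
    have h1 : (m : ℝ) ≤ 2 * (n / r) := by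
      have : (m : ℝ) ≤ y + g := by exact_mod_cast hm.2
      linarith
    have h2 : Real.log m ≤ Real.log (2 * (n / r)) := Real.log_le_log hm0 h1
    rw [Real.log_mul (by norm_num) (by positivity), ← hΛ] at h2
    have := Real.log_two_lt_d9
    linarith
  have h3 : (g : ℝ) * (1 / (Λ + 1)) ≤ ∑ m ∈ Finset.Ioc y (y + g), pr m := by
    have := Finset.sum_le_sum hlog
    rw [Finset.sum_const, Nat.card_Ioc, nsmul_eq_mul, Nat.add_sub_cancel_left] at this
    exact this
  refine le_trans ?_ h3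
  rw [mul_one_div, le_div_iff₀ (by linarith)]
  refine le_trans ?_ hg
  have h4 : (1 + η / 8) * (Λ + 1) ≤ (1 + η / 4) * Λ := by linarith
  calc (1 + η / 8) * r * (Λ + 1) = (1 + η / 8) * (Λ + 1) * r := by ring
    _ ≤ (1 + η / 4) * Λ * r := mul_le_mul_of_nonneg_right h4 hr0.le
    _ = (1 + η / 4) * (r * Λ) := by ring

theorem p_HLO (hHLN : Stmt_HLN) : Stmt_HLO := by
  intro ε η hε hε4 hη
  obtain ⟨K, hK⟩ : ∃ K : ℝ, K = 1024 / η ^ 2 + 100 / η + 100 := ⟨_, rfl⟩
  have hKa : 1024 / η ^ 2 ≤ K := by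
    have : 0 < 100 / η := by positivity
    rw [hK]
    linarith
  have hKb : 100 / η ≤ K := by
    have : 0 < 1024 / η ^ 2 := by positivity
    rw [hK]
    linarith
  have hKc : 100 ≤ K := by
    have h1 : 0 < 1024 / η ^ 2 := by positivity
    have h2 : 0 < 100 / η := by positivity
    rw [hK]
    linarith
  have hK0 : 0 < K := by linarith
  have e1 : ∀ᶠ x : ℕ in atTop, K ≤ Real.log x :=
    (Real.tendsto_log_atTop.comp tendsto_natCast_atTop_atTop).eventually_ge_atTop _
  have e2 : ∀ᶠ x : ℕ in atTop, ‖Real.log (x : ℝ)‖ ≤ 1 / K * ‖(x : ℝ) ^ ε‖ :=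
    tendsto_natCast_atTop_atTop.eventually
      ((isLittleO_log_rpow_atTop hε).bound (show (0 : ℝ) < 1 / K by positivity))
  filter_upwards [e1, e2, eventually_ge_atTop 100] with x h1 h2 hx100
  intro n r hnL hnx hrR har
  have hX0 : (0 : ℝ) < x := by exact_mod_cast (by omega : 0 < x)
  have hX1 : (1 : ℝ) ≤ x := by exact_mod_cast (by omega : 1 ≤ x)
  obtain ⟨L, hL⟩ : ∃ L : ℝ, L = Real.log x := ⟨_, rfl⟩
  obtain ⟨s, hs⟩ : ∃ s : ℝ, s = (x : ℝ) ^ ε := ⟨_, rfl⟩
  obtain ⟨q, hq⟩ : ∃ q : ℝ, q = √(x : ℝ) := ⟨_, rfl⟩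
  have hs0 : 0 < s := by rw [hs]; positivity
  rw [← hL] at h1 hnL
  have hL0 : 0 < L := by linarith
  rw [← hL, ← hs, Real.norm_of_nonneg hL0.le, Real.norm_of_nonneg hs0.le, one_div_mul_eq_div,
    le_div_iff₀ hK0] at h2
  have hs1 : 100 ≤ s := by
    have h3 : L * 1 ≤ L * K := mul_le_mul_of_nonneg_left (by linarith only [hKc]) hL0.le
    linarith only [h3, h2, h1, hKc]
  have hq0 : 0 < q := by rw [hq]; positivity
  have hqq : q * q = x := by rw [hq]; exact Real.mul_self_sqrt hX0.le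
  have hqs : (x : ℝ) ^ (1 / 2 + ε) = q * s := by
    rw [Real.rpow_add hX0, hq, hs, Real.sqrt_eq_rpow]
  have hsq : s ≤ q := by
    rw [hs, hq, Real.sqrt_eq_rpow]
    exact Real.rpow_le_rpow_of_exponent_le hX1 (by linarith)
  obtain ⟨a, ha⟩ : ∃ a : ℕ, a = a0 ε x := ⟨_, rfl⟩
  rw [← ha] at har ⊢
  have haq : q * s ≤ a := by
    rw [ha, ← hqs]
    exact Nat.le_ceil _
  have hrs : s ≤ r := by
    have h3 : s ≤ (R0 ε x : ℝ) := by
      rw [hs]
      exact Nat.le_ceil _
    exact h3.trans (by exact_mod_cast hrR)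
  have hr0 : (0 : ℝ) < r := by linarith
  have hr1 : 1 ≤ r := by exact_mod_cast hr0
  have hr1' : (1 : ℝ) ≤ r := by exact_mod_cast hr1
  have hq1 : 100 ≤ q := by linarith
  have hqs0 : 0 < q * s := by positivity
  have hqqs : q ≤ q * s := le_mul_of_one_le_right hq0.le (by linarith only [hs1])
  have ha0 : (0 : ℝ) < a := by linarith
  have ha64 : 64 ≤ a := by
    have : (64 : ℝ) ≤ a := by linarith
    exact_mod_cast this
  have hnx' : (n : ℝ) ≤ x := by exact_mod_cast hnx
  have har' : 2 * (a : ℝ) * r ≤ n := by exact_mod_cast har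
  have hn0 : (0 : ℝ) < n := lt_of_lt_of_le (by positivity) har'
  have hn1 : 1 ≤ n := by exact_mod_cast hn0
  have hrq : 2 * s * r ≤ q := by
    have h3 : q * (2 * s * r) ≤ q * q := by
      rw [hqq]
      calc q * (2 * s * r) = 2 * (q * s) * r := by ring
        _ ≤ 2 * a * r := by
            refine mul_le_mul_of_nonneg_right ?_ hr0.le
            linarith
        _ ≤ n := har'
        _ ≤ x := hnx'
    exact le_of_mul_le_mul_left h3 hq0
  obtain ⟨Λ, hΛ⟩ : ∃ Λ : ℝ, Λ = Real.log ((n : ℝ) / r) := ⟨_, rfl⟩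
  rw [← hΛ]
  have hnr : q ≤ (n : ℝ) / r := by
    rw [le_div_iff₀ hr0]
    refine le_trans ?_ har'
    refine mul_le_mul_of_nonneg_right ?_ hr0.le
    linarith
  have hΛ1 : L / 2 ≤ Λ := by
    have h3 : Real.log q ≤ Λ := by
      rw [hΛ]
      exact Real.log_le_log hq0 hnr
    have h4 : Real.log q = L / 2 := by
      rw [hq, Real.log_sqrt hX0.le, hL]
    linarith
  have hΛ2 : Λ ≤ L := by
    rw [hΛ, hL]
    refine Real.log_le_log (by positivity) ?_
    rw [div_le_iff₀ hr0]
    exact hnx'.trans (le_mul_of_one_le_right hX0.le hr1')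
  have hΛ0 : 0 < Λ := by linarith
  have hy0 : 0 < (r : ℝ) * Λ := by positivity
  rcases le_or_gt 1 η with hη1 | hη1
  · have h3 : (1 - η) / (r * Λ) ≤ 0 := div_nonpos_of_nonpos_of_nonneg (by linarith) hy0.le
    exact h3.trans (Ex_nonneg fun S _ => Nat.cast_nonneg _)
  have hηL : 100 ≤ η * L := by
    have h3 := hKb.trans h1
    rw [div_le_iff₀ hη] at h3
    linarith
  have hηs : 100 * L ≤ η * s := by
    have h3 : 100 / η * L ≤ s := (mul_le_mul_of_nonneg_right hKb hL0.le).trans (by linarith)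
    rw [div_mul_eq_mul_div, div_le_iff₀ hη] at h3
    linarith
  have hηΛ : 50 ≤ η * Λ := by
    have := mul_le_mul_of_nonneg_left hΛ1 hη.le
    linarith
  have hyΛ : Λ ≤ r * Λ := le_mul_of_one_le_left hΛ0.le hr1'
  have hηy : 50 ≤ η * (r * Λ) := hηΛ.trans (mul_le_mul_of_nonneg_left hyΛ hη.le)
  have hy50 : 50 ≤ (r : ℝ) * Λ := by linarith only [hyΛ, hΛ1, h1, hKc]
  obtain ⟨g, hg⟩ : ∃ g : ℕ, g = ⌈(1 + η / 4) * (r * Λ)⌉₊ := ⟨_, rfl⟩
  have hg1 : (1 + η / 4) * (r * Λ) ≤ g := by
    rw [hg]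
    exact Nat.le_ceil _
  have hg2 : (g : ℝ) ≤ (1 + η / 4) * (r * Λ) + 1 := by
    rw [hg]
    exact (Nat.ceil_lt_add_one (by positivity)).le
  have hg3 : (g : ℝ) ≤ 2 * (r * Λ) := by
    have h3 : η * (r * Λ) ≤ 1 * (r * Λ) := mul_le_mul_of_nonneg_right hη1.le hy0.le
    linarith only [h3, hg2, hy50]
  have hg0 : (0 : ℝ) < g := lt_of_lt_of_le (by positivity) hg1
  have hg1' : 1 ≤ g := by exact_mod_cast hg0
  have hgL : (g : ℝ) * s ≤ q * L := by
    calc (g : ℝ) * s ≤ 2 * (r * Λ) * s := mul_le_mul_of_nonneg_right hg3 hs0.le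
      _ ≤ 2 * (r * L) * s := by
          refine mul_le_mul_of_nonneg_right ?_ hs0.le
          have := mul_le_mul_of_nonneg_left hΛ2 hr0.le
          linarith
      _ = 2 * s * r * L := by ring
      _ ≤ q * L := mul_le_mul_of_nonneg_right hrq hL0.le
  have hsL : 100 * L ≤ s := by
    have := mul_le_mul_of_nonneg_right hKc hL0.le
    linarith
  have hgq : 100 * (g : ℝ) ≤ q := by
    have h3 : L * (100 * (g : ℝ)) ≤ L * q := by
      calc L * (100 * (g : ℝ)) = g * (100 * L) := by ring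
        _ ≤ g * s := mul_le_mul_of_nonneg_left hsL hg0.le
        _ ≤ q * L := hgL
        _ = L * q := by ring
    exact le_of_mul_le_mul_left h3 hL0
  have hqx : q ≤ x := by
    rw [← hqq]
    exact le_mul_of_one_le_right hq0.le (by linarith only [hq1])
  have hgx : g ≤ x := by
    have : (g : ℝ) ≤ x := by linarith
    exact_mod_cast this
  obtain ⟨M, hM⟩ : ∃ M : ℕ, M = Nat.sqrt x := ⟨_, rfl⟩
  have hM1 : (M : ℝ) ≤ q := by
    rw [hM, hq]
    exact Real.nat_sqrt_le_real_sqrt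
  have hM2 : q ≤ M + 1 := by
    rw [hM, hq]
    exact Real.real_sqrt_le_nat_sqrt_succ
  have hM3 : q / 2 ≤ M := by linarith
  have hM0 : (0 : ℝ) < M := by linarith
  have hM1' : 1 ≤ M := by exact_mod_cast hM0
  have h2Ma : 2 * M ≤ a := by
    have : (2 * M : ℝ) ≤ a := by
      have h3 : q * 2 ≤ q * s := mul_le_mul_of_nonneg_left (by linarith only [hs1]) hq0.le
      linarith only [h3, hM1, haq]
    exact_mod_cast this
  have hrgn : r * g + M ≤ n / 2 := by
    have h3 : 4 * (r * g : ℝ) ≤ n := by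
      have h5 : (2 * s * r) * (g * s) ≤ q * (q * L) := mul_le_mul hrq hgL (by positivity) hq0.le
      have h6 : q * (q * L) ≤ n * L * L := by
        calc q * (q * L) = q * q * L := by ring
          _ = x * L := by rw [hqq]
          _ ≤ n * L * L := mul_le_mul_of_nonneg_right hnL hL0.le
      have h7 : L * L * (4 * (r * g)) ≤ L * L * n := by
        have h8 : 100 * L * (100 * L) ≤ s * s := mul_le_mul hsL hsL (by positivity) hs0.le
        have h9 : (r * g : ℝ) * (100 * L * (100 * L)) ≤ r * g * (s * s) :=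
          mul_le_mul_of_nonneg_left h8 (by positivity)
        have h10 : 0 ≤ L * L * (r * g : ℝ) := by positivity
        have h11 : 0 ≤ (n : ℝ) * L * L := by positivity
        linarith only [h5, h6, h9, h10, h11]
      exact le_of_mul_le_mul_left h7 (by positivity)
    have h4 : 4 * (M : ℝ) ≤ n := by
      have h5 : L * (4 * (M : ℝ)) ≤ L * n := by
        calc L * (4 * (M : ℝ)) = M * (4 * L) := by ring
          _ ≤ q * q := by
              refine mul_le_mul hM1 ?_ (by positivity) hq0.le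
              linarith
          _ = x := hqq
          _ ≤ n * L := hnL
          _ = L * n := by ring
      exact le_of_mul_le_mul_left h5 hL0
    have h5 : 4 * (r * g) ≤ n := by exact_mod_cast h3
    have h6 : 4 * M ≤ n := by exact_mod_cast h4
    omega
  have hrag : r * (a + g) + M ≤ n := by
    have h3 : r * (a + g) = a * r + r * g := by ring
    have h4 : 2 * a * r = 2 * (a * r) := by ring
    omega
  have hrgn' : r * g ≤ n := by omega
  have hH := hHLN a x r g n M (η / 8) ha64 hr1 hg1' hM1' h2Ma hnx hgx hrag (by linarith)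
    (by linarith) (HLO_sum a r g n η Λ ha64 hr1 hη hη1.le hΛ hn1 (by linarith) hg1 hrgn')
  refine le_trans (HLO_fin (r * Λ) g _ M _ _ η hη hη1.le hy0 hg0 hg2 (by linarith) ?_ ?_ ?_ ?_) hH
  · -- the exceptional probability
    have h3 : 4 * L ≤ (η / 8) ^ 2 * r / 4 := by
      have h4 : 1024 / η ^ 2 * L ≤ s := (mul_le_mul_of_nonneg_right hKa hL0.le).trans (by linarith)
      rw [div_mul_eq_mul_div, div_le_iff₀ (by positivity)] at h4
      have h5 : s * η ^ 2 ≤ r * η ^ 2 := mul_le_mul_of_nonneg_right hrs (by positivity)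
      linarith only [h4, h5]
    have h4 : Real.exp (-((η / 8) ^ 2 * r / 4)) ≤ Real.exp (-(4 * L)) :=
      Real.exp_le_exp.2 (by linarith)
    have h5 : Real.exp (-(4 * L)) = 1 / (x : ℝ) ^ 4 := by
      rw [Real.exp_neg, show 4 * L = L * 4 by ring, Real.exp_mul, hL, Real.exp_log hX0, one_div]
      norm_num
    have h6 : (x + 1 : ℝ) ≤ x ^ 2 := by
      have : (100 : ℝ) ≤ x := by exact_mod_cast hx100
      nlinarith only [this]
    have h7 : 12 / η ≤ x := by
      have h8 : 100 / η ≤ L := hKb.trans h1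
      have h9 : L ≤ x := by
        rw [hL]
        exact (Real.log_le_sub_one_of_pos hX0).trans (by linarith)
      have h10 : 12 / η ≤ 100 / η := div_le_div_of_nonneg_right (by norm_num) hη.le
      linarith
    have h8 : 1 / (x : ℝ) ≤ η / 12 := by
      rw [div_le_iff₀ hη] at h7
      rw [div_le_div_iff₀ hX0 (by norm_num)]
      linarith
    calc (x + 1 : ℝ) * Real.exp (-((η / 8) ^ 2 * r / 4)) ≤ x ^ 2 * (1 / (x : ℝ) ^ 4) := by
          rw [← h5]
          exact mul_le_mul h6 h4 (Real.exp_pos _).le (by positivity)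
      _ = 1 / (x : ℝ) ^ 2 := by
          field_simp
      _ ≤ 1 / (x : ℝ) := by
          refine one_div_le_one_div_of_le hX0 ?_
          nlinarith only [hX1]
      _ ≤ η / 12 := h8
  · -- the window is long
    rw [div_le_div_iff₀ hM0 hy0]
    have h3 : (r : ℝ) * Λ ≤ r * L := mul_le_mul_of_nonneg_left hΛ2 hr0.le
    have h4 : (r : ℝ) * (100 * L) ≤ η * q / 2 := by
      calc (r : ℝ) * (100 * L) ≤ r * (η * s) := mul_le_mul_of_nonneg_left hηs hr0.le
        _ = η * (2 * s * r) / 2 := by ring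
        _ ≤ η * q / 2 := by
            have := mul_le_mul_of_nonneg_left hrq hη.le
            linarith
    have h5 : η * (q / 2) ≤ η * M := mul_le_mul_of_nonneg_left hM3 hη.le
    have h6 : 0 < (r : ℝ) * L := by positivity
    linarith
  · -- `1 / log a`
    have h3 : L / 2 ≤ Real.log a := by
      have h4 : Real.log q ≤ Real.log a := Real.log_le_log hq0 (by linarith)
      have h5 : Real.log q = L / 2 := by rw [hq, Real.log_sqrt hX0.le, hL]
      linarith
    have h6 : 1 / Real.log (a : ℝ) ≤ 1 / (L / 2) := one_div_le_one_div_of_le (by linarith) h3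
    refine h6.trans ?_
    rw [div_le_div_iff₀ (by linarith) (by norm_num)]
    linarith
  · -- `M / a`
    rw [div_le_div_iff₀ ha0 (by norm_num)]
    have h3 : 12 ≤ η * s := by linarith only [hηs, h1, hKc]
    have h4 : η * (q * s) ≤ η * a := mul_le_mul_of_nonneg_left haq hη.le
    have h5 : q * 12 ≤ q * (η * s) := mul_le_mul_of_nonneg_left h3 hq0.le
    linarith only [h4, h5, hM1]

end Pool.Agent.Work.MP_7d0410_cr
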