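import Pool.Agent.Work.MP_7d0410_cr.Interface

/-! # Block HRQ (MP_7d0410, note 2914; helper25) -/

set_option autoImplicit false

namespace Pool.Agent.Work.MP_7d0410_cr

open Finset Filter MeasureTheory ProbabilityTheory
open scoped Classical Topology

theorem HRQ_hull_seg {S : Finset ℕ} {q : ℕ × ℕ} (hq : q ∈ runs S) (m : ℕ) :
    m ∈ hull (seg S q) ↔ q.1 ≤ m ∧ m ≤ q.2 := by
  obtain ⟨h1, h2, h3⟩ := mem_runs.1 hq
  rw [mem_hull]
  constructor
  · rintro ⟨⟨u, hu, hum⟩, ⟨v, hv, hmv⟩⟩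
    exact ⟨(mem_seg.1 hu).2.1.trans hum, hmv.trans (mem_seg.1 hv).2.2⟩
  · rintro ⟨h4, h5⟩
    exact ⟨⟨q.1, mem_seg.2 ⟨h1, le_rfl, h3⟩, h4⟩, ⟨q.2, mem_seg.2 ⟨h2, h3, le_rfl⟩, h5⟩⟩

theorem HRQ_card (U S : Finset ℕ) (hS : S ⊆ U) (r n : ℕ) (hr : 1 ≤ r) :
    (rr S r n).card = (((U.powersetCard r).filter (fun Q => ∑ m ∈ Q, m = n)).filter
      (fun Q => S ∩ hull Q = Q)).card := by
  apply Finset.card_bij (fun q _ => seg S q)
  · intro q hq
    obtain ⟨h1, h2, h3⟩ := mem_rr.1 hq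
    rw [Finset.mem_filter, Finset.mem_filter, Finset.mem_powersetCard]
    refine ⟨⟨⟨?_, h2⟩, h3⟩, ?_⟩
    · intro m hm
      exact hS (mem_seg.1 hm).1
    · ext m
      rw [Finset.mem_inter, HRQ_hull_seg h1, mem_seg]
  · intro q hq q' hq' he
    obtain ⟨h1, _, _⟩ := mem_rr.1 hq
    obtain ⟨h1', _, _⟩ := mem_rr.1 hq'
    obtain ⟨a1, a2, a3⟩ := mem_runs.1 h1
    obtain ⟨b1, b2, b3⟩ := mem_runs.1 h1'
    have e1 : q.1 ∈ seg S q' := by
      rw [← he]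
      exact mem_seg.2 ⟨a1, le_rfl, a3⟩
    have e2 : q.2 ∈ seg S q' := by
      rw [← he]
      exact mem_seg.2 ⟨a2, a3, le_rfl⟩
    have e3 : q'.1 ∈ seg S q := by
      rw [he]
      exact mem_seg.2 ⟨b1, le_rfl, b3⟩
    have e4 : q'.2 ∈ seg S q := by
      rw [he]
      exact mem_seg.2 ⟨b2, b3, le_rfl⟩
    exact Prod.ext (le_antisymm (mem_seg.1 e3).2.1 (mem_seg.1 e1).2.1)
      (le_antisymm (mem_seg.1 e2).2.2 (mem_seg.1 e4).2.2)
  · intro Q hQ
    rw [Finset.mem_filter, Finset.mem_filter, Finset.mem_powersetCard] at hQ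
    obtain ⟨⟨⟨hQU, hQr⟩, hQn⟩, hQS⟩ := hQ
    have hne : Q.Nonempty := by
      rw [← Finset.card_pos]
      omega
    have hQS' : Q ⊆ S := by
      intro m hm
      rw [← hQS] at hm
      exact (Finset.mem_inter.1 hm).1
    have hmin := Q.min'_mem hne
    have hmax := Q.max'_mem hne
    have hseg : seg S (Q.min' hne, Q.max' hne) = Q := by
      ext m
      rw [mem_seg]
      constructor
      · rintro ⟨h1, h2, h3⟩
        rw [← hQS, Finset.mem_inter, mem_hull]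
        exact ⟨h1, ⟨_, hmin, h2⟩, ⟨_, hmax, h3⟩⟩
      · intro hm
        exact ⟨hQS' hm, Q.min'_le m hm, Q.le_max' m hm⟩
    refine ⟨(Q.min' hne, Q.max' hne), ?_, hseg⟩
    rw [mem_rr, mem_runs]
    refine ⟨⟨hQS' hmin, hQS' hmax, Q.min'_le _ hmax⟩, ?_, ?_⟩
    · unfold len
      rw [hseg, hQr]
    · unfold sm
      rw [hseg, hQn]

theorem p_HRQ (hWTQ : Stmt_WTQ) : Stmt_HRQ := by
  intro a x r n hr
  set U := Finset.Icc a (2 * x) with hU
  unfold hh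
  have h1 : Ex U (fun S => ((rr S r n).card : ℝ)) =
      Ex U (fun S => ∑ Q ∈ (U.powersetCard r).filter (fun Q => ∑ m ∈ Q, m = n),
        if S ∩ hull Q = Q then (1 : ℝ) else 0) := by
    apply Ex_congr
    intro S hS
    rw [HRQ_card U S hS r n hr, Finset.card_filter]
    push_cast
    rfl
  rw [h1, Ex_sum]
  apply Finset.sum_congr rfl
  intro Q hQ
  rw [Finset.mem_filter, Finset.mem_powersetCard] at hQ
  have hhull : hull Q ⊆ U := by
    intro m hm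
    obtain ⟨⟨u, hu, hum⟩, ⟨v, hv, hmv⟩⟩ := mem_hull.1 hm
    have h2 := Finset.mem_Icc.1 (hQ.1.1 hu)
    have h3 := Finset.mem_Icc.1 (hQ.1.1 hv)
    rw [hU, Finset.mem_Icc]
    omega
  rw [← hWTQ U Q hhull]
  exact (Pb_eq U (fun S => S ∩ hull Q = Q)).symm

end Pool.Agent.Work.MP_7d0410_cr
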