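import Pool.Agent.Work.MP_7d0410_cr.Interface

/-!
# The influence of a block
-/

set_option autoImplicit false

namespace Pool.Agent.Work.MP_7d0410_cr

open Finset Filter MeasureTheory ProbabilityTheory
open scoped Classical Topology

lemma INF_mem_runs {S : Finset ℕ} {q : ℕ × ℕ} : q ∈ runs S ↔ q.1 ∈ S ∧ q.2 ∈ S ∧ q.1 ≤ q.2 := by
  unfold runs
  rw [Finset.mem_filter, Finset.mem_product, and_assoc]

lemma INF_mem_seg {S : Finset ℕ} {q : ℕ × ℕ} {m : ℕ} :
    m ∈ seg S q ↔ m ∈ S ∧ q.1 ≤ m ∧ m ≤ q.2 := by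
  unfold seg
  rw [Finset.mem_filter]

/-- The runs with sum at most `x` which meet the block. -/
noncomputable def INF_M (S : Finset ℕ) (x ℓ b : ℕ) : Finset (ℕ × ℕ) :=
  (runs S).filter (fun q => sm S q ≤ x ∧ q.1 < b + ℓ ∧ b ≤ q.2)

/-- The elements of the run before the block. -/
noncomputable def INF_L (S : Finset ℕ) (b s : ℕ) : Finset ℕ := S.filter (fun m => s ≤ m ∧ m < b)

/-- The elements of the run after the beginning of the block. -/
noncomputable def INF_R (S : Finset ℕ) (t c : ℕ) : Finset ℕ := S.filter (fun m => t ≤ m ∧ m ≤ c)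

lemma INF_sub_le (S : Finset ℕ) (q : ℕ × ℕ) (T : Finset ℕ) (a x : ℕ) (hT : T ⊆ seg S q)
    (ha : ∀ m ∈ T, a ≤ m) (hx : sm S q ≤ x) : T.card * a ≤ x := by
  have h1 := Finset.card_nsmul_le_sum T (fun m => m) a ha
  rw [smul_eq_mul] at h1
  have h2 : ∑ m ∈ T, m ≤ ∑ m ∈ seg S q, m := Finset.sum_le_sum_of_subset hT
  exact (h1.trans h2).trans hx

lemma INF_L_inj (S : Finset ℕ) (b s s' : ℕ) (hs : s ∈ S) (hsb : s < b) (hs' : s' ∈ S)
    (hsb' : s' < b) (h : (INF_L S b s).card = (INF_L S b s').card) : s = s' := by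
  have key : ∀ s s' : ℕ, s ∈ S → s < b → s < s' → (INF_L S b s').card < (INF_L S b s).card := by
    intro s s' hs hsb hlt
    apply Finset.card_lt_card
    rw [Finset.ssubset_iff_of_subset]
    · refine ⟨s, Finset.mem_filter.2 ⟨hs, le_rfl, hsb⟩, ?_⟩
      unfold INF_L
      rw [Finset.mem_filter]
      rintro ⟨_, h1, _⟩
      omega
    · intro m hm
      unfold INF_L at hm ⊢
      rw [Finset.mem_filter] at hm ⊢
      exact ⟨hm.1, by omega, hm.2.2⟩
  rcases lt_trichotomy s s' with h1 | h1 | h1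
  · have := key s s' hs hsb h1
    omega
  · exact h1
  · have := key s' s hs' hsb' h1
    omega

lemma INF_R_inj (S : Finset ℕ) (t c c' : ℕ) (hc : c ∈ S) (htc : t ≤ c) (hc' : c' ∈ S)
    (htc' : t ≤ c') (h : (INF_R S t c).card = (INF_R S t c').card) : c = c' := by
  have key : ∀ c c' : ℕ, c' ∈ S → t ≤ c' → c < c' → (INF_R S t c).card < (INF_R S t c').card := by
    intro c c' hc' htc' hlt
    apply Finset.card_lt_card
    rw [Finset.ssubset_iff_of_subset]
    · refine ⟨c', Finset.mem_filter.2 ⟨hc', htc', le_rfl⟩, ?_⟩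
      unfold INF_R
      rw [Finset.mem_filter]
      rintro ⟨_, _, h1⟩
      omega
    · intro m hm
      unfold INF_R at hm ⊢
      rw [Finset.mem_filter] at hm ⊢
      exact ⟨hm.1, hm.2.1, by omega⟩
  rcases lt_trichotomy c c' with h1 | h1 | h1
  · have := key c c' hc' htc' h1
    omega
  · exact h1
  · have := key c' c hc htc h1
    omega

lemma INF_count (S : Finset ℕ) (a x ℓ b : ℕ) (hS : ∀ m ∈ S, a ≤ m) (ha : 1 ≤ a) (hab : a ≤ b)
    (hx : x ≤ a * ℓ) : (INF_M S x ℓ b).card ≤ 2 * ℓ * (x / b) := by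
  have hb : 0 < b := by omega
  set φ : ℕ × ℕ → ℕ × ℕ := fun q =>
    (if q.1 < b then (INF_L S b q.1).card - 1 else ℓ + (q.1 - b),
      (INF_R S (max b q.1) q.2).card - 1) with hφ
  have hmem : ∀ q, q ∈ INF_M S x ℓ b → q.1 ∈ S ∧ q.2 ∈ S ∧ q.1 ≤ q.2 ∧ sm S q ≤ x ∧
      q.1 < b + ℓ ∧ b ≤ q.2 := by
    intro q hq
    unfold INF_M at hq
    rw [Finset.mem_filter, INF_mem_runs] at hq
    tauto
  have hL : ∀ q, q ∈ INF_M S x ℓ b → q.1 < b → 1 ≤ (INF_L S b q.1).card ∧
      (INF_L S b q.1).card ≤ ℓ := by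
    intro q hq hqb
    obtain ⟨h1, h2, h3, h4, h5, h6⟩ := hmem q hq
    constructor
    · exact Finset.card_pos.2 ⟨q.1, Finset.mem_filter.2 ⟨h1, le_rfl, hqb⟩⟩
    · have hsub : INF_L S b q.1 ⊆ seg S q := by
        intro m hm
        unfold INF_L at hm
        rw [Finset.mem_filter] at hm
        exact INF_mem_seg.2 ⟨hm.1, hm.2.1, by omega⟩
      have h7 := INF_sub_le S q _ a x hsub (fun m hm => hS m (Finset.mem_filter.1 hm).1) h4
      have h8 : (INF_L S b q.1).card * a ≤ ℓ * a := by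
        rw [mul_comm ℓ a]; exact h7.trans hx
      exact Nat.le_of_mul_le_mul_right h8 (by omega)
  have hR : ∀ q, q ∈ INF_M S x ℓ b → 1 ≤ (INF_R S (max b q.1) q.2).card ∧
      (INF_R S (max b q.1) q.2).card ≤ x / b := by
    intro q hq
    obtain ⟨h1, h2, h3, h4, h5, h6⟩ := hmem q hq
    constructor
    · exact Finset.card_pos.2 ⟨q.2, Finset.mem_filter.2 ⟨h2, max_le h6 h3, le_rfl⟩⟩
    · have hsub : INF_R S (max b q.1) q.2 ⊆ seg S q := by
        intro m hm
        unfold INF_R at hm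
        rw [Finset.mem_filter] at hm
        exact INF_mem_seg.2 ⟨hm.1, (le_max_right _ _).trans hm.2.1, hm.2.2⟩
      have h7 := INF_sub_le S q _ b x hsub (fun m hm => by
        unfold INF_R at hm
        rw [Finset.mem_filter] at hm
        exact (le_max_left _ _).trans hm.2.1) h4
      exact (Nat.le_div_iff_mul_le hb).2 h7
  have hmaps : ∀ q ∈ INF_M S x ℓ b, φ q ∈ Finset.range (2 * ℓ) ×ˢ Finset.range (x / b) := by
    intro q hq
    obtain ⟨h1, h2, h3, h4, h5, h6⟩ := hmem q hq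
    rw [Finset.mem_product, Finset.mem_range, Finset.mem_range, hφ]
    have hr := hR q hq
    refine ⟨?_, by simp only; omega⟩
    simp only
    by_cases hqb : q.1 < b
    · rw [if_pos hqb]
      have := hL q hq hqb
      omega
    · rw [if_neg hqb]
      omega
  have hinj : ∀ q ∈ INF_M S x ℓ b, ∀ q' ∈ INF_M S x ℓ b, φ q = φ q' → q = q' := by
    intro q hq q' hq' h
    obtain ⟨h1, h2, h3, h4, h5, h6⟩ := hmem q hq
    obtain ⟨h1', h2', h3', h4', h5', h6'⟩ := hmem q' hq'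
    have hr := hR q hq
    have hr' := hR q' hq'
    rw [hφ] at h
    have e1 := congrArg Prod.fst h
    have e2 := congrArg Prod.snd h
    simp only at e1 e2
    have e : q.1 = q'.1 := by
      by_cases hqb : q.1 < b
      · have hl := hL q hq hqb
        by_cases hqb' : q'.1 < b
        · have hl' := hL q' hq' hqb'
          rw [if_pos hqb, if_pos hqb'] at e1
          exact INF_L_inj S b q.1 q'.1 h1 hqb h1' hqb' (by omega)
        · rw [if_pos hqb, if_neg hqb'] at e1
          omega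
      · by_cases hqb' : q'.1 < b
        · have hl' := hL q' hq' hqb'
          rw [if_neg hqb, if_pos hqb'] at e1
          omega
        · rw [if_neg hqb, if_neg hqb'] at e1
          omega
    rw [e] at e2 hr
    have e' : q.2 = q'.2 :=
      INF_R_inj S (max b q'.1) q.2 q'.2 h2 (max_le h6 (e ▸ h3)) h2' (max_le h6' h3') (by omega)
    exact Prod.ext e e'
  have := Finset.card_le_card_of_injOn φ hmaps (fun q hq q' hq' h => hinj q hq q' hq' h)
  rwa [Finset.card_product, Finset.card_range, Finset.card_range] at this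

lemma INF_gr (S S' : Finset ℕ) (x ℓ b R G n : ℕ) (hn : n ≤ x)
    (hSS : ∀ m, ¬ (b ≤ m ∧ m < b + ℓ) → (m ∈ S ↔ m ∈ S'))
    (hno : ∀ q ∈ INF_M S x ℓ b, sm S q ≠ n) : gr R G S n ⊆ gr R G S' n := by
  intro q hq
  unfold gr good at hq ⊢
  rw [Finset.mem_filter, Finset.mem_filter, INF_mem_runs] at hq ⊢
  obtain ⟨⟨⟨h1, h2, h3⟩, h4, h5⟩, h6⟩ := hq
  have hM : ¬ (q.1 < b + ℓ ∧ b ≤ q.2) := by
    intro h
    refine hno q ?_ h6
    unfold INF_M
    rw [Finset.mem_filter, INF_mem_runs]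
    exact ⟨⟨h1, h2, h3⟩, by omega, h.1, h.2⟩
  have hiff : ∀ m, q.1 ≤ m → m ≤ q.2 → (m ∈ S ↔ m ∈ S') := by
    intro m hm1 hm2
    apply hSS
    rintro ⟨h7, h8⟩
    exact hM ⟨by omega, by omega⟩
  have hseg : seg S q = seg S' q := by
    ext m
    rw [INF_mem_seg, INF_mem_seg]
    constructor
    · rintro ⟨k1, k2, k3⟩
      exact ⟨(hiff m k2 k3).1 k1, k2, k3⟩
    · rintro ⟨k1, k2, k3⟩
      exact ⟨(hiff m k2 k3).2 k1, k2, k3⟩
  have hlen : len S q = len S' q := by unfold len; rw [hseg]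
  have hsm : sm S q = sm S' q := by unfold sm; rw [hseg]
  refine ⟨⟨⟨(hiff q.1 le_rfl h3).1 h1, (hiff q.2 h3 le_rfl).1 h2, h3⟩, ?_, ?_⟩, ?_⟩
  · rw [← hlen]; exact h4
  · rw [← hlen]; exact h5
  · rw [← hsm]; exact h6

theorem p_INF : Stmt_INF := by
  intro S S' a x ℓ b R G k hS hS' ha hab hx hSS
  have hb : 0 < b := by omega
  have hiff : ∀ m, ¬ (b ≤ m ∧ m < b + ℓ) → (m ∈ S ↔ m ∈ S') := by
    intro m hm
    have h1 : m ∈ S \ Finset.Ico b (b + ℓ) ↔ m ∈ S' \ Finset.Ico b (b + ℓ) := by rw [hSS]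
    rw [Finset.mem_sdiff, Finset.mem_sdiff, Finset.mem_Ico] at h1
    constructor
    · intro h; exact (h1.1 ⟨h, hm⟩).1
    · intro h; exact (h1.2 ⟨h, hm⟩).1
  set D : Finset ℕ := (Finset.Icc 1 x).filter (fun n => cnt R G S n ≠ cnt R G S' n) with hD
  have hDsub : D ⊆ (INF_M S x ℓ b).image (sm S) ∪ (INF_M S' x ℓ b).image (sm S') := by
    intro n hn
    rw [hD, Finset.mem_filter, Finset.mem_Icc] at hn
    obtain ⟨⟨_, hnx⟩, hne⟩ := hn
    by_contra hcon
    rw [Finset.mem_union, Finset.mem_image, Finset.mem_image] at hcon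
    push Not at hcon
    obtain ⟨hc1, hc2⟩ := hcon
    have s1 := INF_gr S S' x ℓ b R G n hnx hiff hc1
    have s2 := INF_gr S' S x ℓ b R G n hnx (fun m hm => (hiff m hm).symm) hc2
    apply hne
    unfold cnt
    rw [Finset.Subset.antisymm s1 s2]
  have hDcard : D.card ≤ 4 * ℓ * (x / b) := by
    have h1 := INF_count S a x ℓ b hS ha hab hx
    have h2 := INF_count S' a x ℓ b hS' ha hab hx
    calc D.card ≤ _ := Finset.card_le_card hDsub
      _ ≤ _ := Finset.card_union_le _ _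
      _ ≤ (INF_M S x ℓ b).card + (INF_M S' x ℓ b).card :=
          add_le_add Finset.card_image_le Finset.card_image_le
      _ ≤ 2 * ℓ * (x / b) + 2 * ℓ * (x / b) := add_le_add h1 h2
      _ = 4 * ℓ * (x / b) := by ring
  have key1 : DD R G S x k ≤ DD R G S' x k + D.card := by
    unfold DD
    refine (Finset.card_le_card ?_).trans (Finset.card_union_le _ _)
    intro n hn
    rw [Finset.mem_filter] at hn
    rw [Finset.mem_union, hD, Finset.mem_filter, Finset.mem_filter]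
    by_cases h : cnt R G S n = cnt R G S' n
    · exact Or.inl ⟨hn.1, by rw [← h]; exact hn.2⟩
    · exact Or.inr ⟨hn.1, h⟩
  have key2 : DD R G S' x k ≤ DD R G S x k + D.card := by
    unfold DD
    refine (Finset.card_le_card ?_).trans (Finset.card_union_le _ _)
    intro n hn
    rw [Finset.mem_filter] at hn
    rw [Finset.mem_union, hD, Finset.mem_filter, Finset.mem_filter]
    by_cases h : cnt R G S n = cnt R G S' n
    · exact Or.inl ⟨hn.1, by rw [h]; exact hn.2⟩
    · exact Or.inr ⟨hn.1, h⟩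
  have hreal : ((D.card : ℕ) : ℝ) ≤ 4 * ℓ * x / b := by
    have h1 : ((D.card : ℕ) : ℝ) ≤ 4 * ℓ * ((x / b : ℕ) : ℝ) := by exact_mod_cast hDcard
    have h2 : ((x / b : ℕ) : ℝ) ≤ (x : ℝ) / b := Nat.cast_div_le
    calc ((D.card : ℕ) : ℝ) ≤ 4 * ℓ * ((x / b : ℕ) : ℝ) := h1
      _ ≤ 4 * ℓ * ((x : ℝ) / b) := by
          apply mul_le_mul_of_nonneg_left h2; positivity
      _ = 4 * ℓ * x / b := by ring
  have k1 : (DD R G S x k : ℝ) ≤ DD R G S' x k + D.card := by exact_mod_cast key1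
  have k2 : (DD R G S' x k : ℝ) ≤ DD R G S x k + D.card := by exact_mod_cast key2
  rw [abs_le]
  constructor <;> linarith

end Pool.Agent.Work.MP_7d0410_cr
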