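import Pool.Agent.Work.MP_7d0410_cr.Interface

/-! Block INT: interpolation between the terms of the subsequence. -/

set_option autoImplicit false

namespace Pool.Agent.Work.MP_7d0410_cr

open Finset Filter MeasureTheory ProbabilityTheory Topology

theorem INT_root (A x : ℕ) (hA : 1 ≤ A) : ∃ j : ℕ, j ^ A ≤ x ∧ x < (j + 1) ^ A := by
  classical
  refine ⟨Nat.findGreatest (fun j => j ^ A ≤ x) x, ?_, ?_⟩
  · refine Nat.findGreatest_spec (P := fun j => j ^ A ≤ x) (m := 0) (Nat.zero_le _) ?_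
    show 0 ^ A ≤ x
    rw [Nat.zero_pow hA]; exact Nat.zero_le _
  · by_contra hcon
    push Not at hcon
    have h1 : Nat.findGreatest (fun j => j ^ A ≤ x) x + 1 ≤ x :=
      (Nat.le_self_pow (by omega) _).trans hcon
    exact Nat.findGreatest_is_greatest (P := fun j => j ^ A ≤ x) (Nat.lt_succ_self _) h1 hcon

theorem INT_lim (A : ℕ) : Tendsto (fun j : ℕ => (((j : ℝ) + 1) / j) ^ A) atTop (𝓝 1) := by
  have h1 : Tendsto (fun j : ℕ => 1 + 1 / (j : ℝ)) atTop (𝓝 (1 + 0)) :=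
    tendsto_const_nhds.add tendsto_one_div_atTop_nhds_zero_nat
  have h2 := h1.pow A
  rw [add_zero, one_pow] at h2
  refine h2.congr' ?_
  filter_upwards [eventually_ge_atTop 1] with j hj
  have : (j : ℝ) ≠ 0 := by positivity
  congr 1
  field_simp

theorem p_INT : Stmt_INT := by
  intro c A L δ δ' hmono hc hA hδ hev
  have hη : 0 < δ' - δ := by linarith
  obtain ⟨J1, hJ1⟩ := eventually_atTop.1 hev
  have hr : ∀ᶠ j : ℕ in atTop, (((j : ℝ) + 1) / j) ^ A < 1 + (δ' - δ) :=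
    (INT_lim A).eventually_lt_const (by linarith)
  obtain ⟨J2, hJ2⟩ := eventually_atTop.1 hr
  filter_upwards [eventually_ge_atTop ((max J1 (max J2 1)) ^ A)] with x hx
  obtain ⟨j, hj1, hj2⟩ := INT_root A x hA
  have hj : max J1 (max J2 1) ≤ j := by
    by_contra hcon
    push Not at hcon
    have : (j + 1) ^ A ≤ (max J1 (max J2 1)) ^ A := Nat.pow_le_pow_left hcon A
    omega
  have hjJ1 : J1 ≤ j := (le_max_left _ _).trans hj
  have hjJ2 : J2 ≤ j := ((le_max_left _ _).trans (le_max_right _ _)).trans hj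
  have hj0 : 1 ≤ j := ((le_max_right _ _).trans (le_max_right _ _)).trans hj
  have hjR : (0 : ℝ) < j := by exact_mod_cast hj0
  have e1 := abs_le.1 (hJ1 j hjJ1)
  have e2 := abs_le.1 (hJ1 (j + 1) (by omega))
  have e3 := hJ2 j hjJ2
  set a : ℝ := ((j ^ A : ℕ) : ℝ) with ha
  set b : ℝ := (((j + 1) ^ A : ℕ) : ℝ) with hb
  have ha0 : 0 < a := by rw [ha]; positivity
  have hb0 : 0 < b := by rw [hb]; positivity
  have hrab : (((j : ℝ) + 1) / j) ^ A = b / a := by
    rw [ha, hb, div_pow]; push_cast; rfl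
  rw [hrab] at e3
  have hxa : a ≤ x := by rw [ha]; exact_mod_cast hj1
  have hxb : (x : ℝ) ≤ b := by rw [hb]; exact_mod_cast hj2.le
  have hx0 : (0 : ℝ) < x := lt_of_lt_of_le ha0 hxa
  have c1 : (c (j ^ A) : ℝ) ≤ c x := by exact_mod_cast hmono hj1
  have c2 : (c x : ℝ) ≤ c ((j + 1) ^ A) := by exact_mod_cast hmono hj2.le
  have c3 : (c ((j + 1) ^ A) : ℝ) ≤ b := by rw [hb]; exact_mod_cast hc _
  have c4 : (c (j ^ A) : ℝ) ≤ a := by rw [ha]; exact_mod_cast hc _
  have c5 : (0 : ℝ) ≤ c (j ^ A) := by positivity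
  have c6 : (0 : ℝ) ≤ c ((j + 1) ^ A) := by positivity
  have hab : b < (1 + (δ' - δ)) * a := by
    rwa [div_lt_iff₀ ha0] at e3
  set u : ℝ := (c ((j + 1) ^ A) : ℝ) / b with hu
  set v : ℝ := (c (j ^ A) : ℝ) / a with hv
  have hu1 : u ≤ 1 := by rw [hu, div_le_one hb0]; exact c3
  have hu0 : 0 ≤ u := by rw [hu]; positivity
  have hv1 : v ≤ 1 := by rw [hv, div_le_one ha0]; exact c4
  have hv0 : 0 ≤ v := by rw [hv]; positivity
  have hub : (c ((j + 1) ^ A) : ℝ) = u * b := by rw [hu]; field_simp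
  have hva : (c (j ^ A) : ℝ) = v * a := by rw [hv]; field_simp
  have upper : (c x : ℝ) / x ≤ u + (δ' - δ) := by
    rw [div_le_iff₀ hx0]
    have k1 : (c x : ℝ) ≤ u * ((1 + (δ' - δ)) * a) := by
      calc (c x : ℝ) ≤ u * b := by rw [← hub]; exact c2
        _ ≤ _ := mul_le_mul_of_nonneg_left hab.le hu0
    have k2 : u * ((1 + (δ' - δ)) * a) ≤ (u + (δ' - δ)) * a := by nlinarith [mul_nonneg hη.le ha0.le]
    have k3 : (u + (δ' - δ)) * a ≤ (u + (δ' - δ)) * x :=
      mul_le_mul_of_nonneg_left hxa (by linarith)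
    linarith
  have lower : v - (δ' - δ) ≤ (c x : ℝ) / x := by
    rw [le_div_iff₀ hx0]
    by_cases hneg : v - (δ' - δ) ≤ 0
    · have : (v - (δ' - δ)) * x ≤ 0 := mul_nonpos_of_nonpos_of_nonneg hneg hx0.le
      linarith
    · push Not at hneg
      have k1 : (v - (δ' - δ)) * x ≤ (v - (δ' - δ)) * b := mul_le_mul_of_nonneg_left hxb hneg.le
      have k2 : (v - (δ' - δ)) * b ≤ (v - (δ' - δ)) * ((1 + (δ' - δ)) * a) :=
        mul_le_mul_of_nonneg_left hab.le hneg.le
      have k3 : (v - (δ' - δ)) * ((1 + (δ' - δ)) * a) ≤ v * a := by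
        have : (v - (δ' - δ)) * (1 + (δ' - δ)) ≤ v := by nlinarith
        calc (v - (δ' - δ)) * ((1 + (δ' - δ)) * a) = ((v - (δ' - δ)) * (1 + (δ' - δ))) * a := by ring
          _ ≤ v * a := mul_le_mul_of_nonneg_right this ha0.le
      rw [← hva] at k3
      linarith
  rw [abs_le]
  constructor
  · linarith [e1.1]
  · linarith [e2.2]

end Pool.Agent.Work.MP_7d0410_cr
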