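import Pool.Agent.Work.MP_7d0410_cr.Interface

/-! # Block LAW: the law of the random set -/

set_option autoImplicit false

namespace Pool.Agent.Work.MP_7d0410_cr

open Finset Filter MeasureTheory ProbabilityTheory
open scoped Classical Topology

/-- `E p` or its complement -/
def LAW_ev {Ω : Type*} (E : ℕ → Set Ω) (M : Finset ℕ) (p : ℕ) : Set Ω :=
  if p ∈ M then E p else (E p)ᶜ

lemma LAW_inter {Ω : Type*} [MeasurableSpace Ω] (μ : Measure Ω) [IsProbabilityMeasure μ]
    (E : ℕ → Set Ω) (hI : iIndepSet E μ) (M S : Finset ℕ) :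
    μ.real (⋂ p ∈ S, LAW_ev E M p) = ∏ p ∈ S, μ.real (LAW_ev E M p) := by
  have h := (iIndepSet_iff_iIndep E μ).1 hI
  have h2 := h.meas_biInter (s := LAW_ev E M) (S := S) (fun p _ => by
    have h : MeasurableSet[MeasurableSpace.generateFrom {E p}] (E p) :=
      MeasurableSpace.measurableSet_generateFrom rfl
    unfold LAW_ev
    split_ifs
    · exact h
    · exact h.compl)
  simp only [Measure.real]
  rw [h2, ENNReal.toReal_prod]

theorem p_LAW.{u} : Stmt_LAW.{u} := by
  intro Ω _ μ _ E hE U hU A
  have hfil : ∀ ω, U.filter (fun m => m ∈ cramer E ω) = U.filter (fun m => ω ∈ E m) := by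
    intro ω
    refine Finset.filter_congr fun m hm => ?_
    have := hU m hm
    show (m = 2 ∨ (3 ≤ m ∧ ω ∈ E m)) ↔ ω ∈ E m
    constructor
    · rintro (h | h)
      · omega
      · exact h.2
    · intro h
      exact Or.inr ⟨this, h⟩
  -- the atoms
  have hset : ∀ M ⊆ U, {ω | U.filter (fun m => ω ∈ E m) = M} = ⋂ p ∈ U, LAW_ev E M p := by
    intro M hM
    ext ω
    simp only [Set.mem_ofPred_eq, Set.mem_iInter]
    constructor
    · intro h p hp
      unfold LAW_ev
      split_ifs with hpM
      · rw [← h] at hpM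
        exact (Finset.mem_filter.1 hpM).2
      · intro hω
        exact hpM (h ▸ Finset.mem_filter.2 ⟨hp, hω⟩)
    · intro h
      ext p
      rw [Finset.mem_filter]
      constructor
      · rintro ⟨hp, hω⟩
        by_contra hpM
        have := h p hp
        rw [LAW_ev, if_neg hpM] at this
        exact this hω
      · intro hp
        have := h p (hM hp)
        rw [LAW_ev, if_pos hp] at this
        exact ⟨hM hp, this⟩
  have hms : ∀ M ⊆ U, MeasurableSet {ω | U.filter (fun m => ω ∈ E m) = M} := by
    intro M hM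
    rw [hset M hM]
    refine Finset.measurableSet_biInter _ (fun p _ => ?_)
    unfold LAW_ev
    split_ifs
    · exact hE.meas p
    · exact (hE.meas p).compl
  have hμ : ∀ M ⊆ U, μ.real {ω | U.filter (fun m => ω ∈ E m) = M} = wt U M := by
    intro M hM
    rw [hset M hM, LAW_inter μ E hE.indep]
    have hp : ∀ p ∈ U, μ.real (E p) = pr p := by
      intro p hp
      have h3 := hU p hp
      rw [Measure.real, hE.prob p h3, pr_eq h3, ENNReal.toReal_ofReal]
      have : 0 ≤ Real.log p := Real.log_natCast_nonneg p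
      positivity
    unfold wt
    rw [← Finset.prod_sdiff hM, mul_comm]
    congr 1
    · refine Finset.prod_congr rfl fun p hp' => ?_
      rw [LAW_ev, if_pos hp', hp p (hM hp')]
    · refine Finset.prod_congr rfl fun p hp' => ?_
      have hp'' := Finset.mem_sdiff.1 hp'
      rw [LAW_ev, if_neg hp''.2, probReal_compl_eq_one_sub (hE.meas p), hp p hp''.1]
  have hdec : {ω | A (U.filter (fun m => m ∈ cramer E ω))} =
      ⋃ M ∈ U.powerset.filter A, {ω | U.filter (fun m => ω ∈ E m) = M} := by
    ext ω
    simp only [Set.mem_ofPred_eq, Set.mem_iUnion, hfil]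
    constructor
    · intro h
      exact ⟨_, Finset.mem_filter.2 ⟨Finset.mem_powerset.2 (Finset.filter_subset _ _), h⟩, rfl⟩
    · rintro ⟨M, hM, h⟩
      rw [h]
      exact (Finset.mem_filter.1 hM).2
  have hsub : ∀ M ∈ U.powerset.filter A, M ⊆ U := fun M hM =>
    Finset.mem_powerset.1 (Finset.mem_filter.1 hM).1
  rw [hdec]
  refine ⟨Finset.measurableSet_biUnion _ fun M hM => hms M (hsub M hM), ?_⟩
  rw [measureReal_biUnion_finset]
  · rw [Finset.sum_congr rfl fun M hM => hμ M (hsub M hM)]
    unfold Pb Ex
    rw [Finset.sum_filter]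
    exact Finset.sum_congr rfl fun M _ => by
      by_cases h : A M <;> simp [h]
  · intro M _ M' _ hne
    exact Set.disjoint_left.2 fun ω h1 h2 => hne (h1.symm.trans h2)
  · exact fun M hM => hms M (hsub M hM)

end Pool.Agent.Work.MP_7d0410_cr
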