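import Pool.Agent.Work.MP_7d0410_cr.Interface

/-!
# Moser's problem in Cramér's random model: the expected densities (block LIM)
-/

set_option autoImplicit false

namespace Pool.Agent.Work.MP_7d0410_cr

open Finset Filter MeasureTheory ProbabilityTheory
open scoped Classical Topology

/-- the probability of exactly `k` good runs -/
noncomputable def LIM_P (ε : ℝ) (x n k : ℕ) : ℝ := Pb (UU ε x) (fun S => cnt (R0 ε x) (GG x) S n = k)

/-- the mean over `n` -/
noncomputable def LIM_A (ε : ℝ) (k x : ℕ) : ℝ := (∑ n ∈ Finset.Icc 1 x, LIM_P ε x n k) / x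

lemma LIM_lam_pos {ε : ℝ} (h1 : 0 < ε) (h2 : ε < 1 / 4) : 0 < lam ε := by
  unfold lam
  apply Real.log_pos
  rw [one_lt_div (by linarith)]
  linarith

lemma LIM_sum (ε : ℝ) (x n K : ℕ) : ∑ k ∈ Finset.range K, LIM_P ε x n k =
    Ex (UU ε x) (fun S => if cnt (R0 ε x) (GG x) S n < K then 1 else 0) := by
  unfold LIM_P
  simp only [Pb_eq]
  rw [← Ex_sum]
  refine Ex_congr fun S _ => ?_
  rw [Finset.sum_ite_eq]
  simp only [Finset.mem_range]

lemma LIM_sum_le (ε : ℝ) (x n K : ℕ) : ∑ k ∈ Finset.range K, LIM_P ε x n k ≤ 1 := by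
  rw [LIM_sum]
  exact Ex_le_const fun S _ => by split_ifs <;> norm_num

lemma LIM_sum_ge (ε : ℝ) (x n K : ℕ) (hK : 1 ≤ K) :
    1 - HH (UU ε x) (R0 ε x) (GG x) n / K ≤ ∑ k ∈ Finset.range K, LIM_P ε x n k := by
  rw [LIM_sum]
  have hK0 : (0 : ℝ) < K := by exact_mod_cast hK
  have e : 1 - HH (UU ε x) (R0 ε x) (GG x) n / K =
      Ex (UU ε x) (fun S => 1 - (1 / (K : ℝ)) * (cnt (R0 ε x) (GG x) S n : ℝ)) := by
    rw [Ex_sub, Ex_const, Ex_const_mul]
    unfold HH
    ring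
  rw [e]
  refine Ex_mono fun S _ => ?_
  split_ifs with h
  · have : 0 ≤ (1 / (K : ℝ)) * (cnt (R0 ε x) (GG x) S n : ℝ) := by positivity
    linarith
  · have h' : (K : ℝ) ≤ (cnt (R0 ε x) (GG x) S n : ℝ) := by exact_mod_cast not_lt.1 h
    have : 1 ≤ (1 / (K : ℝ)) * (cnt (R0 ε x) (GG x) S n : ℝ) := by
      rw [one_div, inv_mul_eq_div, one_le_div hK0]
      exact h'
    linarith

theorem p_LIM (h1 : Stmt_HL1) (h2 : Stmt_CO1) (h3 : Stmt_CO2) (h4 : Stmt_MEC) (h5 : Stmt_POI)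
    (h6 : Stmt_UPP) : Stmt_LIM := by
  intro ε hε hε4
  have hlam := LIM_lam_pos hε hε4
  refine h5 (LIM_A ε) (lam ε) (lam ε + 1) hlam ?_ ?_ ?_ ?_
  · intro k x
    unfold LIM_A
    exact div_nonneg (Finset.sum_nonneg fun n _ => Pb_nonneg _ _) (Nat.cast_nonneg _)
  · filter_upwards [eventually_ge_atTop 1] with x hx K
    have hx0 : (0 : ℝ) < x := by exact_mod_cast hx
    unfold LIM_A
    rw [← Finset.sum_div, div_le_one hx0, Finset.sum_comm]
    calc ∑ n ∈ Finset.Icc 1 x, ∑ k ∈ Finset.range K, LIM_P ε x n k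
        ≤ ∑ n ∈ Finset.Icc 1 x, (1 : ℝ) := Finset.sum_le_sum fun n _ => LIM_sum_le ε x n K
      _ = x := by simp
  · filter_upwards [eventually_ge_atTop 1, h6 ε 1 hε hε4 one_pos] with x hx hU K hK
    have hx0 : (0 : ℝ) < x := by exact_mod_cast hx
    have hK0 : (0 : ℝ) < K := by exact_mod_cast hK
    unfold LIM_A
    rw [← Finset.sum_div, le_div_iff₀ hx0, Finset.sum_comm]
    calc (1 - (lam ε + 1) / K) * x = x - (lam ε + 1) * x / K := by ring
      _ ≤ x - (∑ n ∈ Finset.Icc 1 x, HH (UU ε x) (R0 ε x) (GG x) n) / K := by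
          have := div_le_div_of_nonneg_right hU hK0.le
          linarith
      _ = ∑ n ∈ Finset.Icc 1 x, (1 - HH (UU ε x) (R0 ε x) (GG x) n / K) := by
          rw [Finset.sum_sub_distrib, Finset.sum_div]
          simp
      _ ≤ ∑ n ∈ Finset.Icc 1 x, ∑ k ∈ Finset.range K, LIM_P ε x n k :=
          Finset.sum_le_sum fun n _ => LIM_sum_ge ε x n K hK
  · intro k
    rw [Metric.tendsto_nhds]
    intro η hη
    filter_upwards [eventually_ge_atTop 1, h1 ε (η / 4) hε hε4 (by linarith),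
      h2 ε (η / 4) hε hε4 (by linarith), h3 ε (η / 4) hε hε4 (by linarith)] with x hx a1 a2 a3
    have hx0 : (0 : ℝ) < x := by exact_mod_cast hx
    rw [Real.dist_eq, sub_zero]
    have e : ((k : ℝ) + 1) * LIM_A ε (k + 1) x - lam ε * LIM_A ε k x =
        (∑ n ∈ Finset.Icc 1 x, (((k : ℝ) + 1) * LIM_P ε x n (k + 1) - lam ε * LIM_P ε x n k)) / x := by
      unfold LIM_A
      rw [Finset.sum_sub_distrib, ← Finset.mul_sum, ← Finset.mul_sum]
      ring
    rw [e, abs_div, abs_of_pos hx0, div_lt_iff₀ hx0]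
    have hP : ∀ n, |LIM_P ε x n k| ≤ 1 := by
      intro n
      unfold LIM_P
      rw [abs_of_nonneg (Pb_nonneg _ _)]
      exact Pb_le_one _ _
    calc |∑ n ∈ Finset.Icc 1 x, (((k : ℝ) + 1) * LIM_P ε x n (k + 1) - lam ε * LIM_P ε x n k)|
        ≤ ∑ n ∈ Finset.Icc 1 x, |((k : ℝ) + 1) * LIM_P ε x n (k + 1) - lam ε * LIM_P ε x n k| :=
          Finset.abs_sum_le_sum_abs _ _
      _ ≤ ∑ n ∈ Finset.Icc 1 x, ((T1 (UU ε x) (R0 ε x) (GG x) n + T2 (UU ε x) (R0 ε x) (GG x) n) +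
          |HH (UU ε x) (R0 ε x) (GG x) n - lam ε|) := by
          refine Finset.sum_le_sum fun n _ => ?_
          have m1 := h4 (UU ε x) (R0 ε x) (GG x) n k
          have e2 : ((k : ℝ) + 1) * LIM_P ε x n (k + 1) - lam ε * LIM_P ε x n k =
              (((k : ℝ) + 1) * LIM_P ε x n (k + 1) - HH (UU ε x) (R0 ε x) (GG x) n * LIM_P ε x n k) +
              (HH (UU ε x) (R0 ε x) (GG x) n - lam ε) * LIM_P ε x n k := by ring
          rw [e2]
          refine (abs_add_le _ _).trans (add_le_add m1 ?_)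
          rw [abs_mul]
          calc |HH (UU ε x) (R0 ε x) (GG x) n - lam ε| * |LIM_P ε x n k|
              ≤ |HH (UU ε x) (R0 ε x) (GG x) n - lam ε| * 1 :=
                mul_le_mul_of_nonneg_left (hP n) (abs_nonneg _)
            _ = _ := mul_one _
      _ = ∑ n ∈ Finset.Icc 1 x, T1 (UU ε x) (R0 ε x) (GG x) n +
          ∑ n ∈ Finset.Icc 1 x, T2 (UU ε x) (R0 ε x) (GG x) n +
          ∑ n ∈ Finset.Icc 1 x, |HH (UU ε x) (R0 ε x) (GG x) n - lam ε| := by
          rw [Finset.sum_add_distrib, Finset.sum_add_distrib]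
      _ ≤ η / 4 * x + η / 4 * x + η / 4 * x := add_le_add (add_le_add a2 a3) a1
      _ < η * x := by nlinarith

end Pool.Agent.Work.MP_7d0410_cr
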