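import Pool.Agent.Work.MP_7d0410_cr.Interface

/-! # Block LOW of MP_7d0410_cr (helper60) -/

set_option autoImplicit false

namespace Pool.Agent.Work.MP_7d0410_cr

open Finset Filter MeasureTheory ProbabilityTheory
open scoped Classical Topology

theorem LOW_card (S : Finset ℕ) (R G n : ℕ) (I : Finset ℕ) (hI : ∀ r ∈ I, R ≤ r) :
    ∑ r ∈ I, (rr S r n).card ≤ cnt R G S n +
      ((runs S).filter (fun q => q.1 + G * len S q < q.2)).card := by
  have hdis : ∀ r ∈ I, ∀ r' ∈ I, r ≠ r' → Disjoint (rr S r n) (rr S r' n) := by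
    intro r _ r' _ hne
    rw [disjoint_left]
    intro q hq hq'
    rw [mem_rr] at hq hq'
    exact hne (hq.2.1.symm.trans hq'.2.1)
  rw [← card_biUnion hdis]
  unfold cnt
  refine (card_le_card ?_).trans (card_union_le _ _)
  intro q hq
  rw [mem_biUnion] at hq
  obtain ⟨r, hr, hq⟩ := hq
  rw [mem_rr] at hq
  rw [mem_union]
  by_cases h : q.1 + G * len S q < q.2
  · right
    rw [mem_filter]
    exact ⟨hq.1, h⟩
  · left
    rw [mem_gr, mem_good]
    refine ⟨⟨hq.1, ?_, not_lt.1 h⟩, hq.2.2⟩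
    rw [hq.2.1]
    exact hI r hr

theorem LOW_lam (ε : ℝ) (h0 : 0 < ε) (h1 : ε < 1 / 4) : 0 ≤ lam ε ∧ lam ε ≤ 1 := by
  unfold lam
  constructor
  · apply Real.log_nonneg
    rw [one_le_div (by linarith)]
    linarith
  · have : (1 - ε) / (1 / 2 + ε) ≤ 2 := by
      rw [div_le_iff₀ (by linarith)]
      linarith
    calc Real.log ((1 - ε) / (1 / 2 + ε)) ≤ Real.log 2 := by
          apply Real.log_le_log _ this
          apply div_pos <;> linarith
      _ ≤ 1 := by
          have := Real.log_two_lt_d9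
          linarith

theorem p_LOW (hH : Stmt_HLO) (hS : Stmt_SUM) (hG : Stmt_GAP) : Stmt_LOW := by
  intro ε η h0 h1 hη
  set η' : ℝ := min (η / 4) (1 / 2) with hη'
  have hη'0 : 0 < η' := lt_min (by linarith) (by norm_num)
  have hη'1 : η' ≤ η / 4 := min_le_left _ _
  have hη'2 : η' ≤ 1 / 2 := min_le_right _ _
  obtain ⟨hl0, hl1⟩ := LOW_lam ε h0 h1
  have hx : ∀ᶠ x : ℕ in atTop, 1 / (x : ℝ) ≤ η / 2 := by
    have : Tendsto (fun x : ℕ => 1 / (x : ℝ)) atTop (𝓝 0) := tendsto_one_div_atTop_nhds_zero_nat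
    exact this.eventually_le_const (by linarith)
  filter_upwards [hH ε η' h0 h1 hη'0, hS ε η' h0 h1 hη'0, hG ε h0 h1, hx] with x aH aS aG ax
  intro n hn hnx
  set I := Finset.Icc (R0 ε x) (n / (2 * a0 ε x)) with hI
  have b1 : Ex (UU ε x) (fun S => ∑ r ∈ I, ((rr S r n).card : ℝ)) ≤
      HH (UU ε x) (R0 ε x) (GG x) n +
      Ex (UU ε x) (fun S => (((runs S).filter (fun q => q.1 + GG x * len S q < q.2)).card : ℝ)) := by
    unfold HH
    rw [← Ex_add]
    apply Ex_mono
    intro S _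
    have := LOW_card S (R0 ε x) (GG x) n I (fun r hr => (mem_Icc.1 hr).1)
    exact_mod_cast this
  rw [Ex_sum] at b1
  have b2 : (1 - η') * (lam ε - η') ≤ ∑ r ∈ I, Ex (UU ε x) (fun S => ((rr S r n).card : ℝ)) := by
    calc (1 - η') * (lam ε - η') ≤ (1 - η') * ∑ r ∈ I, 1 / (r * Real.log ((n : ℝ) / r)) :=
          mul_le_mul_of_nonneg_left (aS n hn hnx) (by linarith)
      _ = ∑ r ∈ I, (1 - η') / (r * Real.log ((n : ℝ) / r)) := by
          rw [mul_sum]
          apply sum_congr rfl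
          intro r _
          ring
      _ ≤ _ := by
          apply sum_le_sum
          intro r hr
          rw [mem_Icc] at hr
          apply aH n r hn hnx hr.1
          calc 2 * a0 ε x * r ≤ 2 * a0 ε x * (n / (2 * a0 ε x)) := Nat.mul_le_mul_left _ hr.2
            _ ≤ n := Nat.mul_div_le _ _
  have b3 : lam ε - 2 * η' ≤ (1 - η') * (lam ε - η') := by nlinarith
  have b4 := b1
  linarith

end Pool.Agent.Work.MP_7d0410_cr

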