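import Pool.Agent.Work.MP_7d0410_cr.Interface

/-!
# Lower bound for the number of runs with the sum in an interval
-/

set_option autoImplicit false

namespace Pool.Agent.Work.MP_7d0410_cr

open Finset Filter MeasureTheory ProbabilityTheory
open scoped Classical Topology

/-- The runs counted by `NN` which start after `b`. -/
noncomputable def NRL_A (S : Finset ℕ) (r n M b : ℕ) : Finset (ℕ × ℕ) :=
  (runs S).filter (fun q => (len S q = r ∧ n ≤ sm S q + M ∧ sm S q < n) ∧ b < q.1)

lemma NRL_mem_runs {S : Finset ℕ} {q : ℕ × ℕ} : q ∈ runs S ↔ q.1 ∈ S ∧ q.2 ∈ S ∧ q.1 ≤ q.2 := by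
  unfold runs
  rw [Finset.mem_filter, Finset.mem_product, and_assoc]

lemma NRL_mem_seg {S : Finset ℕ} {q : ℕ × ℕ} {m : ℕ} :
    m ∈ seg S q ↔ m ∈ S ∧ q.1 ≤ m ∧ m ≤ q.2 := by
  unfold seg
  rw [Finset.mem_filter]

lemma NRL_step (S : Finset ℕ) (g r : ℕ) (q : ℕ × ℕ) (hq : q ∈ runs S) (hr : len S q = r)
    (hc : r ≤ (S ∩ Finset.Ioc q.1 (q.1 + g)).card) :
    ∃ q' ∈ runs S, len S q' = r ∧ q.1 < q'.1 ∧ sm S q ≤ sm S q' ∧ sm S q' ≤ sm S q + g := by
  obtain ⟨hb, hcS, hbc⟩ := NRL_mem_runs.1 hq
  set b := q.1 with hbdef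
  set c := q.2 with hcdef
  have hseg : seg S q = insert b (S ∩ Finset.Ioc b c) := by
    ext m
    rw [NRL_mem_seg, Finset.mem_insert, Finset.mem_inter, Finset.mem_Ioc]
    constructor
    · rintro ⟨h1, h2, h3⟩
      by_cases hm : m = b
      · exact Or.inl hm
      · exact Or.inr ⟨h1, by omega, h3⟩
    · rintro (h | ⟨h1, h2, h3⟩)
      · rw [h]; exact ⟨hb, le_rfl, hbc⟩
      · exact ⟨h1, by omega, h3⟩
  have hnot : b ∉ S ∩ Finset.Ioc b c := by
    rw [Finset.mem_inter, Finset.mem_Ioc]
    rintro ⟨_, h, _⟩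
    exact lt_irrefl _ h
  have hcard : (S ∩ Finset.Ioc b c).card + 1 = r := by
    rw [← hr]
    unfold len
    rw [hseg, Finset.card_insert_of_notMem hnot]
  obtain ⟨m, hm1, hm2⟩ := Finset.exists_mem_notMem_of_card_lt_card
    (show (S ∩ Finset.Ioc b c).card < (S ∩ Finset.Ioc b (b + g)).card by omega)
  rw [Finset.mem_inter, Finset.mem_Ioc] at hm1 hm2
  obtain ⟨hmS, hbm, hmg⟩ := hm1
  have hcm : c < m := by
    by_contra h
    exact hm2 ⟨hmS, hbm, by omega⟩
  have hne1 : (S.filter (fun x => c < x)).Nonempty := ⟨m, Finset.mem_filter.2 ⟨hmS, hcm⟩⟩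
  have hne2 : (S.filter (fun x => b < x)).Nonempty := ⟨m, Finset.mem_filter.2 ⟨hmS, hbm⟩⟩
  obtain ⟨c', hc'⟩ : ∃ c', c' = (S.filter (fun x => c < x)).min' hne1 := ⟨_, rfl⟩
  obtain ⟨b', hb'⟩ : ∃ b', b' = (S.filter (fun x => b < x)).min' hne2 := ⟨_, rfl⟩
  have h1 := Finset.min'_mem _ hne1
  have h2 := Finset.min'_mem _ hne2
  rw [← hc', Finset.mem_filter] at h1
  rw [← hb', Finset.mem_filter] at h2
  have h3 : ∀ x ∈ S, c < x → c' ≤ x := fun x hx hx' => by
    rw [hc']; exact Finset.min'_le _ _ (Finset.mem_filter.2 ⟨hx, hx'⟩)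
  have h4 : ∀ x ∈ S, b < x → b' ≤ x := fun x hx hx' => by
    rw [hb']; exact Finset.min'_le _ _ (Finset.mem_filter.2 ⟨hx, hx'⟩)
  have hc'g : c' ≤ b + g := (h3 m hmS hcm).trans hmg
  have hb'c' : b' ≤ c' := h4 c' h1.1 (by omega)
  have hseg' : seg S (b', c') = insert c' (S ∩ Finset.Ioc b c) := by
    ext x
    rw [NRL_mem_seg, Finset.mem_insert, Finset.mem_inter, Finset.mem_Ioc]
    constructor
    · rintro ⟨k1, k2, k3⟩
      simp only at k2 k3
      by_cases hx : x ≤ c
      · exact Or.inr ⟨k1, by omega, hx⟩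
      · have := h3 x k1 (by omega)
        exact Or.inl (by omega)
    · rintro (h | ⟨k1, k2, k3⟩)
      · rw [h]; exact ⟨h1.1, hb'c', le_rfl⟩
      · have := h4 x k1 k2
        exact ⟨k1, this, by show x ≤ c'; omega⟩
  have hnot' : c' ∉ S ∩ Finset.Ioc b c := by
    rw [Finset.mem_inter, Finset.mem_Ioc]
    rintro ⟨_, _, h⟩
    omega
  have hs1 : sm S q = b + ∑ x ∈ S ∩ Finset.Ioc b c, x := by
    unfold sm
    rw [hseg, Finset.sum_insert hnot]
  have hs2 : sm S (b', c') = c' + ∑ x ∈ S ∩ Finset.Ioc b c, x := by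
    unfold sm
    rw [hseg', Finset.sum_insert hnot']
  refine ⟨(b', c'), NRL_mem_runs.2 ⟨h2.1, h1.1, hb'c'⟩, ?_, h2.2, by omega, by omega⟩
  unfold len
  rw [hseg', Finset.card_insert_of_notMem hnot', hcard]

lemma NRL_ind (S : Finset ℕ) (a r g n M : ℕ) (hS : ∀ m ∈ S, a ≤ m)
    (hc : ∀ y : ℕ, a ≤ y + 1 → r * y ≤ n → r ≤ (S ∩ Finset.Ioc y (y + g)).card) :
    ∀ k : ℕ, ∀ q ∈ runs S, len S q = r → sm S q < n → (S.filter (fun x => q.1 < x)).card = k →
      min M (n - sm S q) ≤ ((NRL_A S r n M q.1).card + 1) * g := by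
  intro k
  induction k using Nat.strong_induction_on with
  | _ k ih =>
    intro q hq hlen hsm hk
    have hq' := NRL_mem_runs.1 hq
    have hrq : r * q.1 ≤ sm S q := by
      have := Finset.card_nsmul_le_sum (seg S q) (fun m => m) q.1
        (fun m hm => (NRL_mem_seg.1 hm).2.1)
      rw [smul_eq_mul] at this
      rw [← hlen]
      exact this
    obtain ⟨q', hq'r, hlen', hlt, hle, hge⟩ := NRL_step S g r q hq hlen
      (hc q.1 (by have := hS q.1 hq'.1; omega) (by omega))
    have hsub : NRL_A S r n M q'.1 ⊆ NRL_A S r n M q.1 := by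
      intro z hz
      unfold NRL_A at hz ⊢
      rw [Finset.mem_filter] at hz ⊢
      exact ⟨hz.1, hz.2.1, by omega⟩
    have hcardle := Finset.card_le_card hsub
    by_cases hn : n ≤ sm S q'
    · have : g ≤ ((NRL_A S r n M q.1).card + 1) * g := Nat.le_mul_of_pos_left g (by omega)
      have h5 : min M (n - sm S q) ≤ n - sm S q := min_le_right _ _
      omega
    · have hlt' : (S.filter (fun x => q'.1 < x)).card < k := by
        rw [← hk]
        apply Finset.card_lt_card
        rw [Finset.ssubset_iff_of_subset]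
        · refine ⟨q'.1, Finset.mem_filter.2 ⟨(NRL_mem_runs.1 hq'r).1, hlt⟩, ?_⟩
          rw [Finset.mem_filter]
          rintro ⟨_, h⟩
          exact lt_irrefl _ h
        · intro x hx
          rw [Finset.mem_filter] at hx ⊢
          exact ⟨hx.1, by omega⟩
      have hI := ih _ hlt' q' hq'r hlen' (by omega) rfl
      by_cases hM : n ≤ sm S q' + M
      · have hmem : q' ∈ NRL_A S r n M q.1 := by
          unfold NRL_A
          rw [Finset.mem_filter]
          exact ⟨hq'r, ⟨hlen', hM, by omega⟩, hlt⟩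
        have hnmem : q' ∉ NRL_A S r n M q'.1 := by
          unfold NRL_A
          rw [Finset.mem_filter]
          rintro ⟨_, _, h⟩
          exact lt_irrefl _ h
        have hcard : (NRL_A S r n M q'.1).card + 1 ≤ (NRL_A S r n M q.1).card := by
          rw [← Finset.card_insert_of_notMem hnmem]
          apply Finset.card_le_card
          intro z hz
          rcases Finset.mem_insert.1 hz with h | h
          · rw [h]; exact hmem
          · exact hsub h
        have h6 : ((NRL_A S r n M q'.1).card + 1) * g + g ≤ ((NRL_A S r n M q.1).card + 1) * g := by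
          have := Nat.mul_le_mul_right g (show (NRL_A S r n M q'.1).card + 1 + 1 ≤
            (NRL_A S r n M q.1).card + 1 by omega)
          calc ((NRL_A S r n M q'.1).card + 1) * g + g
              = ((NRL_A S r n M q'.1).card + 1 + 1) * g := by ring
            _ ≤ _ := this
        have h7 : min M (n - sm S q') = n - sm S q' := min_eq_right (by omega)
        rw [h7] at hI
        have h5 : min M (n - sm S q) ≤ n - sm S q := min_le_right _ _
        omega
      · have h7 : min M (n - sm S q') = M := min_eq_left (by omega)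
        rw [h7] at hI
        have h8 : ((NRL_A S r n M q'.1).card + 1) * g ≤ ((NRL_A S r n M q.1).card + 1) * g :=
          Nat.mul_le_mul_right g (by omega)
        exact (min_le_left _ _).trans (hI.trans h8)

theorem p_NRL : Stmt_NRL := by
  intro S a r g n M hS ha hr hg hc hn
  have hra : r * (a - 1) ≤ n := by
    have : r * (a - 1) ≤ r * (a + g) := Nat.mul_le_mul_left r (by omega)
    omega
  have h0 := hc (a - 1) (by omega) hra
  have hex : ∃ c, r ≤ (S.filter (fun m => m ≤ c)).card := by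
    refine ⟨a - 1 + g, h0.trans (Finset.card_le_card ?_)⟩
    intro m hm
    rw [Finset.mem_inter, Finset.mem_Ioc] at hm
    exact Finset.mem_filter.2 ⟨hm.1, hm.2.2⟩
  obtain ⟨c, hcdef⟩ : ∃ c, c = Nat.find hex := ⟨_, rfl⟩
  have hc1 : r ≤ (S.filter (fun m => m ≤ c)).card := by rw [hcdef]; exact Nat.find_spec hex
  have hc2 : ∀ d, d < c → (S.filter (fun m => m ≤ d)).card < r := by
    intro d hd
    rw [hcdef] at hd
    have := Nat.find_min hex hd
    omega
  have hcle : c ≤ a - 1 + g := by
    by_contra h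
    have := hc2 (a - 1 + g) (by omega)
    have h1 : (S ∩ Finset.Ioc (a - 1) (a - 1 + g)).card ≤
        (S.filter (fun m => m ≤ a - 1 + g)).card := by
      apply Finset.card_le_card
      intro m hm
      rw [Finset.mem_inter, Finset.mem_Ioc] at hm
      exact Finset.mem_filter.2 ⟨hm.1, hm.2.2⟩
    omega
  have hcpos : 1 ≤ c := by
    by_contra h
    have hc0 : c = 0 := by omega
    have : S.filter (fun m => m ≤ c) = ∅ := by
      apply Finset.filter_eq_empty_iff.2
      intro m hm hm'
      have := hS m hm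
      omega
    rw [this, Finset.card_empty] at hc1
    omega
  have hprev := hc2 (c - 1) (by omega)
  have hsub1 : S.filter (fun m => m ≤ c) ⊆ insert c (S.filter (fun m => m ≤ c - 1)) := by
    intro m hm
    rw [Finset.mem_filter] at hm
    rw [Finset.mem_insert, Finset.mem_filter]
    by_cases h : m = c
    · exact Or.inl h
    · exact Or.inr ⟨hm.1, by omega⟩
  have hcardc : (S.filter (fun m => m ≤ c)).card = r := by
    have := (Finset.card_le_card hsub1).trans (Finset.card_insert_le _ _)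
    omega
  have hcS : c ∈ S := by
    by_contra h
    have : S.filter (fun m => m ≤ c) ⊆ S.filter (fun m => m ≤ c - 1) := by
      intro m hm
      rw [Finset.mem_filter] at hm ⊢
      have hmc : m ≠ c := fun h' => h (h' ▸ hm.1)
      exact ⟨hm.1, by omega⟩
    have := Finset.card_le_card this
    omega
  have hne : S.Nonempty := ⟨c, hcS⟩
  obtain ⟨b, hb⟩ : ∃ b, b = S.min' hne := ⟨_, rfl⟩
  have hbS : b ∈ S := by rw [hb]; exact Finset.min'_mem _ _
  have hbmin : ∀ m ∈ S, b ≤ m := fun m hm => by rw [hb]; exact Finset.min'_le _ _ hm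
  have hseg : seg S (b, c) = S.filter (fun m => m ≤ c) := by
    ext m
    rw [NRL_mem_seg, Finset.mem_filter]
    constructor
    · rintro ⟨h1, _, h3⟩
      exact ⟨h1, h3⟩
    · rintro ⟨h1, h3⟩
      exact ⟨h1, hbmin m h1, h3⟩
  have hrun : (b, c) ∈ runs S := NRL_mem_runs.2 ⟨hbS, hcS, hbmin c hcS⟩
  have hlen : len S (b, c) = r := by
    unfold len
    rw [hseg, hcardc]
  have hsm : sm S (b, c) ≤ r * (a - 1 + g) := by
    have := Finset.sum_le_card_nsmul (seg S (b, c)) (fun m => m) (a - 1 + g)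
      (fun m hm => by have := (NRL_mem_seg.1 hm).2.2; simp only at this; omega)
    rw [smul_eq_mul] at this
    have e : (seg S (b, c)).card = r := hlen
    rw [e] at this
    exact this
  have hlt : r * (a - 1 + g) < r * (a + g) := Nat.mul_lt_mul_of_pos_left (by omega) (by omega)
  have hI := NRL_ind S a r g n M hS hc _ (b, c) hrun hlen (by omega) rfl
  have hmin : min M (n - sm S (b, c)) = M := min_eq_left (by omega)
  rw [hmin] at hI
  refine hI.trans (Nat.mul_le_mul_right g ?_)
  have : (NRL_A S r n M (b, c).1).card ≤ NN S r n M := by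
    unfold NN NRL_A
    apply Finset.card_le_card
    intro z hz
    rw [Finset.mem_filter] at hz ⊢
    exact ⟨hz.1, hz.2.1⟩
  omega

end Pool.Agent.Work.MP_7d0410_cr
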