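import Pool.Agent.Work.MP_7d0410_cr.Interface

/-!
# At most one run of length `r` has its sum in an interval of length `r`
-/

set_option autoImplicit false

namespace Pool.Agent.Work.MP_7d0410_cr

open Finset Filter MeasureTheory ProbabilityTheory
open scoped Classical Topology

lemma ONE_tail (S : Finset ℕ) (q : ℕ × ℕ) (r : ℕ) (hq : q ∈ runs S) (hl : len S q = r + 1)
    (hr : 1 ≤ r) : ∃ s, q.1 < s ∧ (∀ m ∈ S, q.1 < m → s ≤ m) ∧ (s, q.2) ∈ runs S ∧
      len S (s, q.2) = r ∧ sm S q = q.1 + sm S (s, q.2) := by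
  obtain ⟨h1, h2, h3⟩ := mem_runs.1 hq
  have hmem : q.1 ∈ seg S q := mem_seg.2 ⟨h1, le_rfl, h3⟩
  have hc : 0 < ((seg S q).erase q.1).card := by
    rw [Finset.card_erase_of_mem hmem]
    unfold len at hl
    omega
  obtain ⟨m, hm⟩ := Finset.card_pos.1 hc
  rw [Finset.mem_erase, mem_seg] at hm
  obtain ⟨hm1, hm2, hm3, hm4⟩ := hm
  have hne : (S.filter (fun x => q.1 < x)).Nonempty :=
    ⟨m, Finset.mem_filter.2 ⟨hm2, by omega⟩⟩
  obtain ⟨s, hs⟩ : ∃ s, s = (S.filter (fun x => q.1 < x)).min' hne := ⟨_, rfl⟩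
  have hsm := Finset.min'_mem _ hne
  rw [← hs, Finset.mem_filter] at hsm
  have hsle : ∀ x ∈ S, q.1 < x → s ≤ x := fun x hx hx' => by
    rw [hs]; exact Finset.min'_le _ _ (Finset.mem_filter.2 ⟨hx, hx'⟩)
  have hs2 : s ≤ q.2 := (hsle m hm2 (by omega)).trans hm4
  have hseg : seg S q = insert q.1 (seg S (s, q.2)) := by
    ext x
    rw [Finset.mem_insert, mem_seg, mem_seg]
    constructor
    · rintro ⟨k1, k2, k3⟩
      by_cases hx : x = q.1
      · exact Or.inl hx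
      · exact Or.inr ⟨k1, hsle x k1 (by omega), k3⟩
    · rintro (h | ⟨k1, k2, k3⟩)
      · rw [h]; exact ⟨h1, le_rfl, h3⟩
      · have k2' : s ≤ x := k2
        exact ⟨k1, by have := hsm.2; omega, k3⟩
  have hnot : q.1 ∉ seg S (s, q.2) := by
    rw [mem_seg]
    rintro ⟨_, h, _⟩
    have h' : s ≤ q.1 := h
    have := hsm.2
    omega
  refine ⟨s, hsm.2, hsle, mem_runs.2 ⟨hsm.1, h2, hs2⟩, ?_, ?_⟩
  · unfold len at hl ⊢
    rw [hseg, Finset.card_insert_of_notMem hnot] at hl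
    omega
  · unfold sm
    rw [hseg, Finset.sum_insert hnot]

lemma ONE_sep (S : Finset ℕ) : ∀ r : ℕ, ∀ q ∈ runs S, ∀ q' ∈ runs S, len S q = r + 1 →
    len S q' = r + 1 → q.1 < q'.1 → sm S q + (r + 1) ≤ sm S q' := by
  intro r
  induction r with
  | zero =>
    intro q hq q' hq' hl hl' hlt
    have key : ∀ q ∈ runs S, len S q = 0 + 1 → sm S q = q.1 := by
      intro q hq hl
      obtain ⟨h1, h2, h3⟩ := mem_runs.1 hq
      have hmem : q.1 ∈ seg S q := mem_seg.2 ⟨h1, le_rfl, h3⟩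
      obtain ⟨y, hy⟩ := Finset.card_eq_one.1 hl
      rw [hy, Finset.mem_singleton] at hmem
      unfold sm
      rw [hy, Finset.sum_singleton, hmem]
    rw [key q hq hl, key q' hq' hl']
    omega
  | succ r ih =>
    intro q hq q' hq' hl hl' hlt
    obtain ⟨s, a1, a2, a3, a4, a5⟩ := ONE_tail S q (r + 1) hq hl (by omega)
    obtain ⟨s', b1, b2, b3, b4, b5⟩ := ONE_tail S q' (r + 1) hq' hl' (by omega)
    have hss : s ≤ q'.1 := a2 q'.1 (mem_runs.1 hq').1 hlt
    have := ih (s, q.2) a3 (s', q'.2) b3 a4 b4 (show s < s' by omega)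
    omega

lemma ONE_end (S : Finset ℕ) (q q' : ℕ × ℕ) (hq : q ∈ runs S) (hq' : q' ∈ runs S)
    (hl : len S q = len S q') (h : q.1 = q'.1) : q = q' := by
  have key : ∀ q q' : ℕ × ℕ, q' ∈ runs S → q.1 = q'.1 → q.2 < q'.2 → len S q < len S q' := by
    intro q q' hq' h hlt
    unfold len
    apply Finset.card_lt_card
    rw [Finset.ssubset_iff_of_subset]
    · refine ⟨q'.2, mem_seg.2 ⟨(mem_runs.1 hq').2.1, (mem_runs.1 hq').2.2, le_rfl⟩, ?_⟩
      rw [mem_seg]
      rintro ⟨_, _, h'⟩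
      omega
    · intro m hm
      rw [mem_seg] at hm ⊢
      exact ⟨hm.1, by omega, by omega⟩
  apply Prod.ext h
  rcases lt_trichotomy q.2 q'.2 with h1 | h1 | h1
  · have := key q q' hq' h h1
    omega
  · exact h1
  · have := key q' q hq h.symm h1
    omega

theorem p_ONE : Stmt_ONE := by
  intro S r n hr
  obtain ⟨r, rfl⟩ := Nat.exists_eq_add_of_le' hr
  set T : Finset (ℕ × ℕ) := (runs S).filter (fun q => len S q = r + 1 ∧ n ≤ sm S q ∧
    sm S q < n + (r + 1)) with hT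
  have hsum : ∑ ℓ ∈ Finset.range (r + 1), (rr S (r + 1) (n + ℓ)).card = T.card := by
    have h1 : ∀ q ∈ T, sm S q - n ∈ Finset.range (r + 1) := by
      intro q hq
      rw [hT, Finset.mem_filter] at hq
      rw [Finset.mem_range]
      omega
    rw [Finset.card_eq_sum_card_fiberwise h1]
    refine Finset.sum_congr rfl fun ℓ hℓ => ?_
    rw [Finset.mem_range] at hℓ
    congr 1
    ext q
    rw [mem_rr, hT, Finset.mem_filter, Finset.mem_filter]
    constructor
    · rintro ⟨k1, k2, k3⟩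
      exact ⟨⟨k1, k2, by omega, by omega⟩, by omega⟩
    · rintro ⟨⟨k1, k2, k3, k4⟩, k5⟩
      exact ⟨k1, k2, by omega⟩
  rw [hsum, Finset.card_le_one]
  intro q hq q' hq'
  rw [hT, Finset.mem_filter] at hq hq'
  rcases lt_trichotomy q.1 q'.1 with h | h | h
  · have := ONE_sep S r q hq.1 q' hq'.1 hq.2.1 hq'.2.1 h
    omega
  · exact ONE_end S q q' hq.1 hq'.1 (by omega) h
  · have := ONE_sep S r q' hq'.1 q hq.1 hq'.2.1 hq.2.1 h
    omega

end Pool.Agent.Work.MP_7d0410_cr
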