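import Pool.Agent.Work.MP_7d0410_cr.Interface

/-! # Block POI: the recursion determines the limits -/

set_option autoImplicit false

namespace Pool.Agent.Work.MP_7d0410_cr

open Finset Filter MeasureTheory ProbabilityTheory
open scoped Classical Topology

theorem POI_series (l : ℝ) :
    Tendsto (fun K : ℕ => ∑ k ∈ Finset.range K, l ^ k / (k.factorial : ℝ)) atTop
      (𝓝 (Real.exp l)) := by
  have h := NormedSpace.expSeries_div_hasSum_exp (𝔸 := ℝ) l
  rw [← Real.exp_eq_exp_ℝ] at h
  exact h.tendsto_sum_nat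

theorem p_POI : Stmt_POI := by
  intro A l C hl hA hup hlow hrec
  -- (i)
  have h1 : ∀ k : ℕ, Tendsto (fun x => A k x - A 0 x * (l ^ k / (k.factorial : ℝ))) atTop (𝓝 0) := by
    intro k
    induction k with
    | zero => simp
    | succ k ih =>
      have h2 := (hrec k).mul_const (1 / ((k : ℝ) + 1))
      have h3 := ih.const_mul (l / ((k : ℝ) + 1))
      have h4 := h2.add h3
      simp only [zero_mul, mul_zero, add_zero] at h4
      refine h4.congr fun x => ?_
      have h5 : ((k : ℝ) + 1) ≠ 0 := by positivity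
      have h6 : (k.factorial : ℝ) ≠ 0 := by positivity
      rw [Nat.factorial_succ]
      push_cast
      field_simp
      ring
  have h2 : ∀ K : ℕ, Tendsto (fun x => ∑ k ∈ Finset.range K, A k x -
      A 0 x * ∑ k ∈ Finset.range K, l ^ k / (k.factorial : ℝ)) atTop (𝓝 0) := by
    intro K
    have h3 := tendsto_finset_sum (Finset.range K) (fun k _ => h1 k)
    rw [Finset.sum_const_zero] at h3
    refine h3.congr fun x => ?_
    rw [Finset.sum_sub_distrib, Finset.mul_sum]
  have hexp : 0 < Real.exp l := Real.exp_pos l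
  -- (iii)
  have h3 : Tendsto (fun x => A 0 x * Real.exp l) atTop (𝓝 1) := by
    rw [Metric.tendsto_nhds]
    intro η hη
    have h4 := (Metric.tendsto_nhds.1 (POI_series l)) (η / 4) (by positivity)
    have h5 : Tendsto (fun K : ℕ => C / (K : ℝ)) atTop (𝓝 0) := tendsto_const_div_atTop_nhds_zero_nat C
    have h6 := (Metric.tendsto_nhds.1 h5) (η / 4) (by positivity)
    obtain ⟨K, ⟨hK1, hK2⟩, hK3⟩ := ((h4.and h6).and (eventually_ge_atTop 1)).exists
    have h7 := (Metric.tendsto_nhds.1 (h2 K)) (η / 4) (by positivity)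
    filter_upwards [hup, hlow, h7] with x hx1 hx2 hx3
    have e1 := hx1 K
    have e2 := hx2 K hK3
    have e3 := hx1 1
    simp only [Finset.sum_range_one] at e3
    have e4 := hA 0 x
    rw [Real.dist_eq, sub_zero] at hx3 hK2
    rw [Real.dist_eq] at hK1 ⊢
    set s := ∑ k ∈ Finset.range K, l ^ k / (k.factorial : ℝ) with hs
    set t := ∑ k ∈ Finset.range K, A k x with ht
    have e5 : |A 0 x * (Real.exp l - s)| ≤ η / 4 := by
      rw [abs_mul, abs_of_nonneg e4]
      have : |Real.exp l - s| < η / 4 := by rw [abs_sub_comm]; exact hK1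
      calc A 0 x * |Real.exp l - s| ≤ 1 * |Real.exp l - s| :=
            mul_le_mul_of_nonneg_right e3 (abs_nonneg _)
        _ ≤ η / 4 := by linarith
    have e6 := abs_lt.1 hx3
    have e7 := abs_lt.1 hK2
    have e8 := abs_le.1 e5
    rw [abs_lt]
    constructor
    · have : A 0 x * Real.exp l = A 0 x * (Real.exp l - s) + A 0 x * s := by ring
      rw [this]
      linarith [e6.1, e6.2, e7.1, e7.2, e8.1, e8.2]
    · have : A 0 x * Real.exp l = A 0 x * (Real.exp l - s) + A 0 x * s := by ring
      rw [this]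
      linarith [e6.1, e6.2, e7.1, e7.2, e8.1, e8.2]
  have h4 : Tendsto (A 0) atTop (𝓝 (Real.exp (-l))) := by
    have h5 := h3.mul_const (Real.exp (-l))
    rw [one_mul] at h5
    refine h5.congr fun x => ?_
    rw [mul_assoc, ← Real.exp_add, add_neg_cancel, Real.exp_zero, mul_one]
  intro k
  have h5 := (h1 k).add (h4.mul_const (l ^ k / (k.factorial : ℝ)))
  rw [zero_add, ← mul_div_assoc] at h5
  refine h5.congr fun x => ?_
  ring

end Pool.Agent.Work.MP_7d0410_cr
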