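import Pool.Agent.Work.MP_7d0410_cr.Interface

/-!
# The shift of a finite set
-/

set_option autoImplicit false

namespace Pool.Agent.Work.MP_7d0410_cr

open Finset Filter MeasureTheory ProbabilityTheory
open scoped Classical Topology

/-- The rank. -/
noncomputable def SH1_rk (Q : Finset ℕ) (q : ℕ) : ℕ := (Q.filter (fun m => m < q)).card

/-- The shift of an element. -/
noncomputable def SH1_f (r ℓ : ℕ) (Q : Finset ℕ) (q : ℕ) : ℕ :=
  q + ℓ / r + if r ≤ SH1_rk Q q + ℓ % r then 1 else 0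

lemma SH1_shf (r ℓ : ℕ) (Q : Finset ℕ) : shf r ℓ Q = Q.image (SH1_f r ℓ Q) := by
  unfold shf SH1_f SH1_rk
  rfl

lemma SH1_rk_lt {Q : Finset ℕ} {q q' : ℕ} (hq : q ∈ Q) (h : q < q') : SH1_rk Q q < SH1_rk Q q' := by
  unfold SH1_rk
  apply Finset.card_lt_card
  rw [Finset.ssubset_iff_of_subset]
  · refine ⟨q, Finset.mem_filter.2 ⟨hq, h⟩, ?_⟩
    rw [Finset.mem_filter]
    rintro ⟨_, h'⟩
    exact lt_irrefl _ h'
  · intro m hm
    rw [Finset.mem_filter] at hm ⊢
    exact ⟨hm.1, by omega⟩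

lemma SH1_mono (r ℓ : ℕ) {Q : Finset ℕ} {q q' : ℕ} (hq : q ∈ Q) (h : q < q') :
    SH1_f r ℓ Q q < SH1_f r ℓ Q q' := by
  have := SH1_rk_lt hq h
  unfold SH1_f
  split_ifs <;> omega

lemma SH1_inj (r ℓ : ℕ) {Q : Finset ℕ} : ∀ q ∈ Q, ∀ q' ∈ Q, SH1_f r ℓ Q q = SH1_f r ℓ Q q' →
    q = q' := by
  intro q hq q' hq' h
  rcases lt_trichotomy q q' with h1 | h1 | h1
  · have := SH1_mono r ℓ hq h1
    omega
  · exact h1
  · have := SH1_mono r ℓ hq' h1
    omega

lemma SH1_rank_shift (r ℓ : ℕ) (Q : Finset ℕ) (q : ℕ) (hq : q ∈ Q) :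
    SH1_rk (shf r ℓ Q) (SH1_f r ℓ Q q) = SH1_rk Q q := by
  rw [SH1_shf]
  unfold SH1_rk
  have e : (Q.image (SH1_f r ℓ Q)).filter (fun m => m < SH1_f r ℓ Q q) =
      (Q.filter (fun m => m < q)).image (SH1_f r ℓ Q) := by
    ext m
    rw [Finset.mem_filter, Finset.mem_image, Finset.mem_image]
    constructor
    · rintro ⟨⟨p, hp, rfl⟩, h⟩
      refine ⟨p, Finset.mem_filter.2 ⟨hp, ?_⟩, rfl⟩
      by_contra hcon
      rcases lt_or_eq_of_le (not_lt.1 hcon) with h1 | h1
      · have := SH1_mono r ℓ hq h1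
        omega
      · rw [h1] at h
        exact lt_irrefl _ h
    · rintro ⟨p, hp, rfl⟩
      rw [Finset.mem_filter] at hp
      exact ⟨⟨p, hp.1, rfl⟩, SH1_mono r ℓ hp.1 hp.2⟩
  rw [e, Finset.card_image_of_injOn]
  intro x hx y hy h
  exact SH1_inj r ℓ x (Finset.mem_filter.1 hx).1 y (Finset.mem_filter.1 hy).1 h

/-- The inverse of the shift. -/
noncomputable def SH1_g (r ℓ : ℕ) (T : Finset ℕ) (m : ℕ) : ℕ :=
  m - (ℓ / r + if r ≤ SH1_rk T m + ℓ % r then 1 else 0)

lemma SH1_inv (r ℓ : ℕ) (Q : Finset ℕ) : (shf r ℓ Q).image (SH1_g r ℓ (shf r ℓ Q)) = Q := by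
  have key : ∀ q ∈ Q, SH1_g r ℓ (shf r ℓ Q) (SH1_f r ℓ Q q) = q := by
    intro q hq
    unfold SH1_g
    rw [SH1_rank_shift r ℓ Q q hq]
    unfold SH1_f
    split_ifs <;> omega
  ext m
  rw [Finset.mem_image]
  constructor
  · rintro ⟨y, hy, rfl⟩
    rw [SH1_shf, Finset.mem_image] at hy
    obtain ⟨q, hq, rfl⟩ := hy
    rw [key q hq]
    exact hq
  · intro hm
    refine ⟨SH1_f r ℓ Q m, ?_, key m hm⟩
    rw [SH1_shf]
    exact Finset.mem_image_of_mem _ hm

lemma SH1_rk_image (r : ℕ) (Q : Finset ℕ) (hQ : Q.card = r) : Q.image (SH1_rk Q) = Finset.range r := by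
  have hinj : Set.InjOn (SH1_rk Q) (Q : Set ℕ) := by
    intro x hx y hy h
    rcases lt_trichotomy x y with h1 | h1 | h1
    · have := SH1_rk_lt hx h1
      omega
    · exact h1
    · have := SH1_rk_lt hy h1
      omega
  apply Finset.eq_of_subset_of_card_le
  · intro i hi
    rw [Finset.mem_image] at hi
    obtain ⟨q, hq, rfl⟩ := hi
    rw [Finset.mem_range, ← hQ]
    unfold SH1_rk
    apply Finset.card_lt_card
    rw [Finset.ssubset_iff_of_subset (Finset.filter_subset _ _)]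
    refine ⟨q, hq, ?_⟩
    rw [Finset.mem_filter]
    rintro ⟨_, h⟩
    exact lt_irrefl _ h
  · rw [Finset.card_image_of_injOn hinj, hQ, Finset.card_range]

theorem p_SH1 : Stmt_SH1 := by
  intro r ℓ Q hr hQ
  refine ⟨?_, ?_, ?_⟩
  · rw [SH1_shf, Finset.card_image_of_injOn, hQ]
    intro x hx y hy h
    exact SH1_inj r ℓ x hx y hy h
  · rw [SH1_shf, Finset.sum_image (fun x hx y hy h => SH1_inj r ℓ x hx y hy h)]
    have hmod : ℓ % r < r := Nat.mod_lt _ (by omega)
    have hcount : (Q.filter (fun q => r ≤ SH1_rk Q q + ℓ % r)).card = ℓ % r := by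
      have e : (Q.filter (fun q => r ≤ SH1_rk Q q + ℓ % r)).image (SH1_rk Q) =
          Finset.Ico (r - ℓ % r) r := by
        ext i
        rw [Finset.mem_image, Finset.mem_Ico]
        constructor
        · rintro ⟨q, hq, rfl⟩
          rw [Finset.mem_filter] at hq
          have : SH1_rk Q q ∈ Finset.range r := by
            rw [← SH1_rk_image r Q hQ]
            exact Finset.mem_image_of_mem _ hq.1
          rw [Finset.mem_range] at this
          omega
        · rintro ⟨h1, h2⟩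
          have : i ∈ Q.image (SH1_rk Q) := by
            rw [SH1_rk_image r Q hQ, Finset.mem_range]
            exact h2
          rw [Finset.mem_image] at this
          obtain ⟨q, hq, rfl⟩ := this
          exact ⟨q, Finset.mem_filter.2 ⟨hq, by omega⟩, rfl⟩
      have h1 : ((Q.filter (fun q => r ≤ SH1_rk Q q + ℓ % r)).image (SH1_rk Q)).card =
          (Q.filter (fun q => r ≤ SH1_rk Q q + ℓ % r)).card := by
        apply Finset.card_image_of_injOn
        intro x hx y hy h
        have hx' := (Finset.mem_filter.1 hx).1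
        have hy' := (Finset.mem_filter.1 hy).1
        have h' : SH1_rk Q x = SH1_rk Q y := h
        rcases lt_trichotomy x y with h1 | h1 | h1
        · have := SH1_rk_lt hx' h1
          omega
        · exact h1
        · have := SH1_rk_lt hy' h1
          omega
      rw [← h1, e, Nat.card_Ico]
      omega
    unfold SH1_f
    rw [Finset.sum_add_distrib, Finset.sum_add_distrib, Finset.sum_const, smul_eq_mul, hQ,
      ← Finset.card_filter, hcount]
    have := Nat.div_add_mod ℓ r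
    omega
  · intro Q' hQ' h
    rw [← SH1_inv r ℓ Q', ← SH1_inv r ℓ Q, h]

end Pool.Agent.Work.MP_7d0410_cr
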