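import Pool.Agent.Work.MP_7d0410_cr.Interface

/-! # Block SH2: the weight of the shifted set -/

set_option autoImplicit false

namespace Pool.Agent.Work.MP_7d0410_cr

open Finset Filter MeasureTheory ProbabilityTheory
open scoped Classical Topology

/-- the odds -/
noncomputable def SH2_w (m : ℕ) : ℝ := pr m / (1 - pr m)

lemma SH2_w_pos (m : ℕ) : 0 < SH2_w m := div_pos (pr_pos m) (one_sub_pr_pos m)

lemma SH2_om (Q : Finset ℕ) : om Q = (∏ m ∈ Q, SH2_w m) * ∏ m ∈ hull Q, (1 - pr m) := by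
  unfold om
  rw [← Finset.prod_sdiff (subset_hull Q) (f := fun m => 1 - pr m), mul_left_comm, mul_comm,
    ← Finset.prod_mul_distrib]
  congr 1
  apply Finset.prod_congr rfl
  intro m _
  unfold SH2_w
  have := one_sub_pr_pos m
  field_simp

lemma SH2_log8 : 2 ≤ Real.log 8 := by
  have h : Real.log 8 = 3 * Real.log 2 := by
    rw [show (8 : ℝ) = 2 ^ 3 by norm_num, Real.log_pow]
    norm_num
  have := Real.log_two_gt_d9
  rw [h]
  linarith

lemma SH2_step (q s : ℕ) (hq : 8 ≤ q) : (1 - (s : ℝ) / q) * SH2_w q ≤ SH2_w (q + s) := by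
  have hq' : (8 : ℝ) ≤ q := by exact_mod_cast hq
  have hs : (0 : ℝ) ≤ s := Nat.cast_nonneg s
  have hL : 2 ≤ Real.log q := SH2_log8.trans (Real.log_le_log (by norm_num) hq')
  have hL' : Real.log q ≤ Real.log ((q + s : ℕ) : ℝ) := by
    apply Real.log_le_log (by linarith)
    push_cast
    linarith
  have hu0 : (0 : ℝ) ≤ (s : ℝ) / q := by positivity
  have hup : Real.log ((q + s : ℕ) : ℝ) ≤ Real.log q + (s : ℝ) / q := by
    have e : ((q + s : ℕ) : ℝ) = q * (1 + (s : ℝ) / q) := by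
      push_cast
      field_simp
    rw [e, Real.log_mul (by linarith) (by positivity)]
    have := Real.log_le_sub_one_of_pos (show (0 : ℝ) < 1 + (s : ℝ) / q by positivity)
    linarith
  have hw : ∀ m : ℕ, 3 ≤ m → 1 < Real.log m → SH2_w m = 1 / (Real.log m - 1) := by
    intro m hm hm1
    unfold SH2_w
    rw [pr_eq hm]
    have h1 : Real.log m ≠ 0 := by linarith
    have h2 : Real.log m - 1 ≠ 0 := by linarith
    field_simp
  rw [hw q (by omega) (by linarith), hw (q + s) (by omega) (by linarith), mul_one_div,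
    div_le_div_iff₀ (by linarith) (by linarith)]
  nlinarith

lemma SH2_prod (Q : Finset ℕ) (u : ℕ → ℝ) (h : ∀ q ∈ Q, 0 ≤ u q ∧ u q ≤ 1) :
    1 - ∑ q ∈ Q, u q ≤ ∏ q ∈ Q, (1 - u q) ∧ ∏ q ∈ Q, (1 - u q) ≤ 1 := by
  induction Q using Finset.induction_on with
  | empty => simp
  | insert x Q hx ih =>
    rw [Finset.sum_insert hx, Finset.prod_insert hx]
    have h1 := h x (Finset.mem_insert_self x Q)
    obtain ⟨h2, h3⟩ := ih (fun q hq => h q (Finset.mem_insert_of_mem hq))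
    have h4 : 0 ≤ ∏ q ∈ Q, (1 - u q) := Finset.prod_nonneg fun q hq => by
      have := h q (Finset.mem_insert_of_mem hq)
      linarith
    constructor <;> nlinarith

theorem p_SH2 (h1 : Stmt_SH1) : Stmt_SH2 := by
  intro a r ℓ Q ha hr hc hQ
  have ha' : (8 : ℝ) ≤ a := by exact_mod_cast ha
  have hloga : 2 ≤ Real.log a := SH2_log8.trans (Real.log_le_log (by norm_num) ha')
  have hom : ∀ S : Finset ℕ, 0 ≤ om S := fun S =>
    mul_nonneg (Finset.prod_nonneg fun m _ => pr_nonneg m)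
      (Finset.prod_nonneg fun m _ => (one_sub_pr_pos m).le)
  by_cases hℓ : a ≤ ℓ
  · have h2 : (1 : ℝ) ≤ (ℓ : ℝ) / a := by
      rw [le_div_iff₀ (by linarith)]
      have : (a : ℝ) ≤ ℓ := by exact_mod_cast hℓ
      linarith
    have h3 : 0 ≤ 1 / Real.log a := by positivity
    have h4 : (1 - 1 / Real.log a - (ℓ : ℝ) / a) * om Q ≤ 0 :=
      mul_nonpos_of_nonpos_of_nonneg (by linarith) (hom Q)
    exact h4.trans (hom _)
  push Not at hℓ
  obtain ⟨hcard, hsum, -⟩ := h1 r ℓ Q hr hc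
  set s : ℕ → ℕ := fun q => ℓ / r + if r ≤ (Q.filter (fun m => m < q)).card + ℓ % r then 1 else 0
    with hs
  have hshf : shf r ℓ Q = Q.image (fun q => q + s q) := by
    unfold shf
    apply Finset.image_congr
    intro q _
    simp only [hs]
    ring
  have hinj : Set.InjOn (fun q => q + s q) (Q : Set ℕ) := by
    rw [← Finset.card_image_iff, ← hshf, hcard, hc]
  have hsum2 : ∑ q ∈ Q, s q = ℓ := by
    rw [hshf, Finset.sum_image hinj, Finset.sum_add_distrib] at hsum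
    omega
  have hne : Q.Nonempty := by
    rw [← Finset.card_pos, hc]
    omega
  -- the odds
  have hodds : (1 - (ℓ : ℝ) / a) * ∏ m ∈ Q, SH2_w m ≤ ∏ m ∈ shf r ℓ Q, SH2_w m := by
    rw [hshf, Finset.prod_image hinj]
    have hsq : ∀ q ∈ Q, s q ≤ ℓ := by
      intro q hq
      rw [← hsum2]
      exact Finset.single_le_sum (f := s) (fun _ _ => Nat.zero_le _) hq
    have h01 : ∀ q ∈ Q, 0 ≤ (s q : ℝ) / q ∧ (s q : ℝ) / q ≤ 1 := by
      intro q hq
      have h2 := hQ q hq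
      have h3 := hsq q hq
      have h4 : (0 : ℝ) < q := by exact_mod_cast (by omega : 0 < q)
      refine ⟨by positivity, ?_⟩
      rw [div_le_one h4]
      exact_mod_cast (by omega : s q ≤ q)
    have h5 := (SH2_prod Q (fun q => (s q : ℝ) / q) h01).1
    have h6 : ∑ q ∈ Q, (s q : ℝ) / q ≤ (ℓ : ℝ) / a := by
      calc ∑ q ∈ Q, (s q : ℝ) / q ≤ ∑ q ∈ Q, (s q : ℝ) / a := by
            apply Finset.sum_le_sum
            intro q hq
            have h2 : (a : ℝ) ≤ q := by exact_mod_cast hQ q hq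
            exact div_le_div_of_nonneg_left (Nat.cast_nonneg _) (by linarith) h2
        _ = (ℓ : ℝ) / a := by
            rw [← Finset.sum_div, ← Nat.cast_sum, hsum2]
    calc (1 - (ℓ : ℝ) / a) * ∏ m ∈ Q, SH2_w m
        ≤ (∏ q ∈ Q, (1 - (s q : ℝ) / q)) * ∏ m ∈ Q, SH2_w m := by
          apply mul_le_mul_of_nonneg_right _ (Finset.prod_nonneg fun m _ => (SH2_w_pos m).le)
          linarith
      _ = ∏ q ∈ Q, ((1 - (s q : ℝ) / q) * SH2_w q) := by rw [Finset.prod_mul_distrib]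
      _ ≤ ∏ q ∈ Q, SH2_w (q + s q) := by
          apply Finset.prod_le_prod
          · intro q hq
            exact mul_nonneg (by linarith [(h01 q hq).2]) (SH2_w_pos q).le
          · intro q hq
            exact SH2_step q (s q) (by have := hQ q hq; omega)
  -- the hull
  set m₀ := Q.min' hne with hm₀
  set m₁ := Q.max' hne with hm₁
  have hm₀Q : m₀ ∈ Q := Q.min'_mem hne
  have hm₁Q : m₁ ∈ Q := Q.max'_mem hne
  have hle01 : m₀ ≤ m₁ := Q.min'_le m₁ hm₁Q
  have hle1 : ∀ m : ℕ, 0 ≤ 1 - pr m ∧ 1 - pr m ≤ 1 := fun m =>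
    ⟨(one_sub_pr_pos m).le, by linarith [pr_nonneg m]⟩
  have hsub1 : hull (shf r ℓ Q) ⊆ Finset.Icc (m₀ + ℓ / r) (m₁ + ℓ / r + 1) := by
    intro m hm
    rw [mem_hull, hshf] at hm
    obtain ⟨⟨q, hq, hqm⟩, ⟨q', hq', hqm'⟩⟩ := hm
    obtain ⟨z, hz, rfl⟩ := Finset.mem_image.1 hq
    obtain ⟨z', hz', rfl⟩ := Finset.mem_image.1 hq'
    have h2 := Q.min'_le z hz
    have h3 := Q.le_max' z' hz'
    simp only [hs] at hqm hqm'
    rw [Finset.mem_Icc]
    constructor
    · omega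
    · split_ifs at hqm' <;> omega
  have hsub2 : Finset.Icc m₀ m₁ ⊆ hull Q := by
    intro m hm
    rw [Finset.mem_Icc] at hm
    exact mem_hull.2 ⟨⟨m₀, hm₀Q, hm.1⟩, ⟨m₁, hm₁Q, hm.2⟩⟩
  have hhull : (1 - 1 / Real.log a) * ∏ m ∈ hull Q, (1 - pr m) ≤
      ∏ m ∈ hull (shf r ℓ Q), (1 - pr m) := by
    have g1 : ∏ m ∈ Finset.Icc (m₀ + ℓ / r) (m₁ + ℓ / r + 1), (1 - pr m) ≤
        ∏ m ∈ hull (shf r ℓ Q), (1 - pr m) := by
      rw [← Finset.prod_sdiff hsub1]
      have g2 : ∏ m ∈ Finset.Icc (m₀ + ℓ / r) (m₁ + ℓ / r + 1) \ hull (shf r ℓ Q), (1 - pr m) ≤ 1 :=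
        Finset.prod_le_one (fun m _ => (hle1 m).1) (fun m _ => (hle1 m).2)
      have g3 : 0 ≤ ∏ m ∈ hull (shf r ℓ Q), (1 - pr m) :=
        Finset.prod_nonneg fun m _ => (hle1 m).1
      nlinarith
    have g4 : ∏ m ∈ hull Q, (1 - pr m) ≤ ∏ m ∈ Finset.Icc m₀ m₁, (1 - pr m) := by
      rw [← Finset.prod_sdiff hsub2]
      have g2 : ∏ m ∈ hull Q \ Finset.Icc m₀ m₁, (1 - pr m) ≤ 1 :=
        Finset.prod_le_one (fun m _ => (hle1 m).1) (fun m _ => (hle1 m).2)
      have g3 : 0 ≤ ∏ m ∈ Finset.Icc m₀ m₁, (1 - pr m) :=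
        Finset.prod_nonneg fun m _ => (hle1 m).1
      nlinarith
    have g5 : ∏ m ∈ Finset.Icc m₀ m₁, (1 - pr m) ≤
        ∏ m ∈ Finset.Icc (m₀ + ℓ / r) (m₁ + ℓ / r), (1 - pr m) := by
      rw [← Finset.map_add_right_Icc, Finset.prod_map]
      apply Finset.prod_le_prod (fun m _ => (hle1 m).1)
      intro m _
      have := pr_anti (Nat.le_add_right m (ℓ / r))
      simp only [addRightEmbedding_apply]
      linarith
    have g6 : ∏ m ∈ Finset.Icc (m₀ + ℓ / r) (m₁ + ℓ / r + 1), (1 - pr m) =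
        (∏ m ∈ Finset.Icc (m₀ + ℓ / r) (m₁ + ℓ / r), (1 - pr m)) *
          (1 - pr (m₁ + ℓ / r + 1)) :=
      Finset.prod_Icc_succ_top (by omega) _
    have g7 : pr (m₁ + ℓ / r + 1) ≤ 1 / Real.log a := by
      rw [← pr_eq (show 3 ≤ a by omega)]
      apply pr_anti
      have := hQ m₁ hm₁Q
      rw [add_assoc]
      exact this.trans (Nat.le_add_right _ _)
    have g8 : 1 / Real.log a ≤ 1 := by
      rw [div_le_one (by linarith)]
      linarith
    have g9 : 0 ≤ ∏ m ∈ hull Q, (1 - pr m) := Finset.prod_nonneg fun m _ => (hle1 m).1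
    calc (1 - 1 / Real.log a) * ∏ m ∈ hull Q, (1 - pr m)
        = (∏ m ∈ hull Q, (1 - pr m)) * (1 - 1 / Real.log a) := mul_comm _ _
      _ ≤ (∏ m ∈ Finset.Icc (m₀ + ℓ / r) (m₁ + ℓ / r), (1 - pr m)) *
          (1 - pr (m₁ + ℓ / r + 1)) := by
          apply mul_le_mul (g4.trans g5) (by linarith) (by linarith)
          exact g9.trans (g4.trans g5)
      _ ≤ _ := by
          rw [← g6]
          exact g1
  -- the end
  rw [SH2_om Q, SH2_om (shf r ℓ Q)]
  have k1 : 0 ≤ ∏ m ∈ Q, SH2_w m := Finset.prod_nonneg fun m _ => (SH2_w_pos m).le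
  have k2 : 0 ≤ ∏ m ∈ hull Q, (1 - pr m) := Finset.prod_nonneg fun m _ => (hle1 m).1
  have k3 : (ℓ : ℝ) / a ≤ 1 := by
    rw [div_le_one (by linarith)]
    exact_mod_cast hℓ.le
  have k4 : 1 / Real.log a ≤ 1 := by
    rw [div_le_one (by linarith)]
    linarith
  have k5 : 0 ≤ (ℓ : ℝ) / a := by positivity
  have k6 : 0 ≤ 1 / Real.log a := by positivity
  calc (1 - 1 / Real.log a - (ℓ : ℝ) / a) *
        ((∏ m ∈ Q, SH2_w m) * ∏ m ∈ hull Q, (1 - pr m))
      ≤ ((1 - (ℓ : ℝ) / a) * (1 - 1 / Real.log a)) *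
        ((∏ m ∈ Q, SH2_w m) * ∏ m ∈ hull Q, (1 - pr m)) := by
        apply mul_le_mul_of_nonneg_right _ (mul_nonneg k1 k2)
        nlinarith
    _ = ((1 - (ℓ : ℝ) / a) * ∏ m ∈ Q, SH2_w m) *
        ((1 - 1 / Real.log a) * ∏ m ∈ hull Q, (1 - pr m)) := by ring
    _ ≤ (∏ m ∈ shf r ℓ Q, SH2_w m) * ∏ m ∈ hull (shf r ℓ Q), (1 - pr m) := by
        apply mul_le_mul hodds hhull
        · exact mul_nonneg (by linarith) k2
        · exact Finset.prod_nonneg fun m _ => (SH2_w_pos m).le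

end Pool.Agent.Work.MP_7d0410_cr
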