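import Pool.Agent.Work.MP_7d0410_cr.Interface

/-! # Block SHH (helper96) -/

set_option autoImplicit false

namespace Pool.Agent.Work.MP_7d0410_cr

open Finset Filter MeasureTheory ProbabilityTheory
open scoped Classical Topology

theorem SHH_om (Q : Finset ℕ) : 0 ≤ om Q := by
  unfold om
  refine mul_nonneg (Finset.prod_nonneg fun m _ => pr_nonneg m)
    (Finset.prod_nonneg fun m _ => ?_)
  have := pr_le_one m
  linarith

theorem p_SHH (hHRQ : Stmt_HRQ) (hSH1 : Stmt_SH1) (hSH2 : Stmt_SH2) : Stmt_SHH := by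
  intro a x r n ℓ ha hr hn
  rw [hHRQ a x r n hr, hHRQ a x r (n + ℓ) hr, Finset.mul_sum]
  set A := ((Finset.Icc a (2 * x)).powersetCard r).filter (fun Q => ∑ m ∈ Q, m = n) with hA
  set B := ((Finset.Icc a (2 * x)).powersetCard r).filter (fun Q => ∑ m ∈ Q, m = n + ℓ) with hB
  have hmemA : ∀ Q ∈ A, (∀ m ∈ Q, a ≤ m) ∧ Q.card = r ∧ ∑ m ∈ Q, m = n := by
    intro Q hQ
    rw [hA, Finset.mem_filter, Finset.mem_powersetCard] at hQ
    exact ⟨fun m hm => (Finset.mem_Icc.mp (hQ.1.1 hm)).1, hQ.1.2, hQ.2⟩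
  have hinj : Set.InjOn (shf r ℓ) (A : Set (Finset ℕ)) := by
    intro Q hQ Q' hQ' h
    exact (hSH1 r ℓ Q' hr (hmemA Q' hQ').2.1).2.2 Q (hmemA Q hQ).2.1 h
  calc ∑ Q ∈ A, (1 - 1 / Real.log a - (ℓ : ℝ) / a) * om Q ≤ ∑ Q ∈ A, om (shf r ℓ Q) := by
        refine Finset.sum_le_sum fun Q hQ => ?_
        exact hSH2 a r ℓ Q ha hr (hmemA Q hQ).2.1 (hmemA Q hQ).1
    _ = ∑ Q ∈ A.image (shf r ℓ), om Q := (Finset.sum_image hinj).symm
    _ ≤ ∑ Q ∈ B, om Q := by
        refine Finset.sum_le_sum_of_subset_of_nonneg ?_ fun Q _ _ => SHH_om Q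
        intro Q' hQ'
        rw [Finset.mem_image] at hQ'
        obtain ⟨Q, hQ, rfl⟩ := hQ'
        obtain ⟨h1, h2, h3⟩ := hmemA Q hQ
        obtain ⟨h4, h5, -⟩ := hSH1 r ℓ Q hr h2
        rw [h3] at h5
        rw [hB, Finset.mem_filter, Finset.mem_powersetCard]
        refine ⟨⟨?_, h4⟩, h5⟩
        intro m hm
        rw [Finset.mem_Icc]
        constructor
        · unfold shf at hm
          rw [Finset.mem_image] at hm
          obtain ⟨q, hq, rfl⟩ := hm
          refine (h1 q hq).trans ?_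
          rw [add_assoc]
          exact Nat.le_add_right _ _
        · have h6 : m ≤ ∑ m ∈ shf r ℓ Q, m :=
            Finset.single_le_sum (f := fun m => m) (fun i _ => Nat.zero_le i) hm
          omega

end Pool.Agent.Work.MP_7d0410_cr
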