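import Pool.Agent.Work.MP_7d0410_cr.Interface

/-! # Block SUM: the sum of `1 / (r log (n/r))` -/

set_option autoImplicit false

namespace Pool.Agent.Work.MP_7d0410_cr

open Finset Filter MeasureTheory ProbabilityTheory
open scoped Classical Topology

/-- one term of the telescoping sum -/
theorem SUM_term {n r : ℝ} (hr : 1 ≤ r) (hn : 0 < n) (h : 1 ≤ Real.log (n / (r + 1))) :
    Real.log (Real.log (n / r)) - Real.log (Real.log (n / (r + 1))) ≤
      (1 + 1 / r) * (1 / (r * Real.log (n / r))) := by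
  have hr0 : 0 < r := by linarith
  have e1 : Real.log (n / r) = Real.log (n / (r + 1)) + Real.log ((r + 1) / r) := by
    rw [← Real.log_mul (by positivity) (by positivity)]
    congr 1
    field_simp
  have e2 : Real.log ((r + 1) / r) ≤ 1 / r := by
    have := Real.log_le_sub_one_of_pos (show 0 < (r + 1) / r by positivity)
    have e3 : (r + 1) / r - 1 = 1 / r := by field_simp; ring
    linarith
  have e4 : 0 ≤ Real.log ((r + 1) / r) := by
    apply Real.log_nonneg
    rw [le_div_iff₀ hr0]
    linarith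
  set L := Real.log (n / (r + 1)) with hL
  have hL0 : 0 < L := by linarith
  rw [e1]
  set u := Real.log ((r + 1) / r) with hu
  have e5 : Real.log (L + u) - Real.log L ≤ u / L := by
    rw [← Real.log_div (by positivity) (by positivity)]
    have := Real.log_le_sub_one_of_pos (show 0 < (L + u) / L by positivity)
    have e6 : (L + u) / L - 1 = u / L := by field_simp; ring
    linarith
  have e7 : u / L ≤ 1 / (r * L) := by
    rw [div_le_div_iff₀ hL0 (by positivity)]
    have : u * r ≤ 1 := by
      rw [le_div_iff₀ hr0] at e2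
      exact e2
    nlinarith
  have e8 : 1 / (r * L) ≤ (1 + 1 / r) * (1 / (r * (L + u))) := by
    have e9 : L + u ≤ (1 + 1 / r) * L := by
      have : 1 / r ≤ 1 / r * L := le_mul_of_one_le_right (by positivity) h
      linarith
    rw [mul_one_div, div_le_div_iff₀ (by positivity) (by positivity)]
    nlinarith
  linarith

theorem p_SUM : Stmt_SUM := by
  intro ε η hε hε4 hη
  have hlog : Tendsto (fun x : ℕ => Real.log (x : ℝ)) atTop atTop :=
    Real.tendsto_log_atTop.comp tendsto_natCast_atTop_atTop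
  -- the limit of `G`
  have hll : Tendsto (fun y : ℝ => Real.log y / y) atTop (𝓝 0) :=
    Real.isLittleO_log_id_atTop.tendsto_div_nhds_zero
  have hc : ∀ c : ℝ, Tendsto (fun y : ℝ => c / y) atTop (𝓝 0) := fun c =>
    tendsto_const_nhds.div_atTop tendsto_id
  have hG : Tendsto (fun y : ℝ => ((1 - ε) * y - Real.log y - Real.log 2) /
      ((1 / 2 + ε) * y + Real.log 4)) atTop (𝓝 ((1 - ε) / (1 / 2 + ε))) := by
    have h1 : Tendsto (fun y : ℝ => ((1 - ε) - Real.log y / y - Real.log 2 / y) /
        ((1 / 2 + ε) + Real.log 4 / y)) atTop (𝓝 (((1 - ε) - 0 - 0) / ((1 / 2 + ε) + 0))) :=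
      ((tendsto_const_nhds.sub hll).sub (hc _)).div (tendsto_const_nhds.add (hc _))
        (by positivity)
    rw [sub_zero, sub_zero, add_zero] at h1
    refine h1.congr' ?_
    filter_upwards [eventually_gt_atTop (0 : ℝ)] with y hy
    have h4 : 0 < Real.log 4 := Real.log_pos (by norm_num)
    have e1 : (1 - ε) - Real.log y / y - Real.log 2 / y =
        ((1 - ε) * y - Real.log y - Real.log 2) / y := by field_simp
    have e2 : (1 / 2 + ε) + Real.log 4 / y = ((1 / 2 + ε) * y + Real.log 4) / y := by field_simp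
    rw [e1, e2, div_div_div_cancel_right₀ hy.ne']
  have hlim : 0 < (1 - ε) / (1 / 2 + ε) := div_pos (by linarith) (by linarith)
  have hlG : Tendsto (fun y : ℝ => Real.log (((1 - ε) * y - Real.log y - Real.log 2) /
      ((1 / 2 + ε) * y + Real.log 4))) atTop (𝓝 (lam ε)) :=
    (Real.continuousAt_log hlim.ne').tendsto.comp hG
  have E1 : ∀ᶠ x : ℕ in atTop, 0 < ((1 - ε) * Real.log x - Real.log (Real.log x) - Real.log 2) /
      ((1 / 2 + ε) * Real.log x + Real.log 4) :=
    hlog.eventually (hG.eventually (lt_mem_nhds hlim))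
  have E2 : ∀ᶠ x : ℕ in atTop, lam ε - η / 2 < Real.log (((1 - ε) * Real.log x -
      Real.log (Real.log x) - Real.log 2) / ((1 / 2 + ε) * Real.log x + Real.log 4)) :=
    hlog.eventually (hlG.eventually (lt_mem_nhds (by linarith)))
  have E3 : ∀ᶠ x : ℕ in atTop, (1 : ℝ) ≤ Real.log x := hlog.eventually (eventually_ge_atTop 1)
  have hpow : ∀ c : ℝ, 0 < c → Tendsto (fun x : ℕ => (x : ℝ) ^ c) atTop atTop := fun c hc =>
    (tendsto_rpow_atTop hc).comp tendsto_natCast_atTop_atTop
  have E4 : ∀ᶠ x : ℕ in atTop, (3 : ℝ) ≤ (x : ℝ) ^ (1 / 2 + ε) :=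
    (hpow _ (by linarith)).eventually (eventually_ge_atTop 3)
  have E5 : ∀ᶠ x : ℕ in atTop, (1 : ℝ) ≤ (x : ℝ) ^ ε :=
    (hpow _ hε).eventually (eventually_ge_atTop 1)
  have E6 : ∀ᶠ x : ℕ in atTop, Real.log (x : ℝ) / (x : ℝ) < 1 / 3 :=
    (hll.comp tendsto_natCast_atTop_atTop).eventually (gt_mem_nhds (by norm_num))
  have E7 : ∀ᶠ x : ℕ in atTop, (lam ε - η) * (1 + 1 / (x : ℝ) ^ ε) < lam ε - η / 2 := by
    have h1 : Tendsto (fun x : ℕ => (lam ε - η) * (1 + 1 / (x : ℝ) ^ ε)) atTop
        (𝓝 ((lam ε - η) * (1 + 0))) := by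
      apply Tendsto.const_mul
      apply Tendsto.const_add
      exact tendsto_const_nhds.div_atTop (hpow _ hε)
    exact h1.eventually (gt_mem_nhds (by linarith))
  filter_upwards [E1, E2, E3, E4, E5, E6, E7, eventually_ge_atTop 1] with x h1 h2 h3 h4 h5 h6 h7 h8
  intro n hn hnx
  have hx0 : (0 : ℝ) < x := by exact_mod_cast h8
  have hn0 : (0 : ℝ) < n := by
    by_contra hneg
    have : (n : ℝ) = 0 := le_antisymm (not_lt.1 hneg) (Nat.cast_nonneg n)
    rw [this, zero_mul] at hn
    linarith
  have hn1 : 1 ≤ n := by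
    have : (0 : ℕ) < n := by exact_mod_cast hn0
    exact this
  have hR0 : (x : ℝ) ^ ε ≤ (R0 ε x : ℝ) := Nat.le_ceil _
  have hR0' : (R0 ε x : ℝ) ≤ 2 * (x : ℝ) ^ ε := by
    have := Nat.ceil_lt_add_one (show 0 ≤ (x : ℝ) ^ ε by positivity)
    unfold R0
    linarith
  have ha0 : (x : ℝ) ^ (1 / 2 + ε) ≤ (a0 ε x : ℝ) := Nat.le_ceil _
  have ha0' : (a0 ε x : ℝ) ≤ 2 * (x : ℝ) ^ (1 / 2 + ε) := by
    have := Nat.ceil_lt_add_one (show 0 ≤ (x : ℝ) ^ (1 / 2 + ε) by positivity)
    unfold a0
    linarith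
  set R := R0 ε x with hR
  set a := a0 ε x with ha
  set K := n / (2 * a) with hK
  have ha3 : (3 : ℝ) ≤ a := h4.trans ha0
  have ha3' : 3 ≤ a := by exact_mod_cast ha3
  have hR1 : (1 : ℝ) ≤ R := h5.trans hR0
  have hnK : (n : ℝ) < 2 * a * (K + 1) := by
    have : n < 2 * a * (n / (2 * a) + 1) := Nat.lt_mul_div_succ n (by omega)
    exact_mod_cast this
  -- `log (n/(K+1)) ≥ 1`
  have hLK : (3 : ℝ) ≤ n / ((K : ℝ) + 1) := by
    rw [le_div_iff₀ (by positivity)]
    rcases Nat.eq_zero_or_pos K with h0 | h0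
    · rw [h0]
      rw [div_lt_iff₀ hx0] at h6
      have e1 : (x : ℝ) ≤ n * Real.log x := hn
      have e2 : 3 * Real.log x < x := by linarith
      have e3 : 3 * Real.log x < n * Real.log x := lt_of_lt_of_le e2 e1
      have e4 : (3 : ℝ) < n := lt_of_mul_lt_mul_right e3 (by linarith)
      push_cast
      linarith
    · have e1 : K * (2 * a) ≤ n := Nat.div_mul_le_self n (2 * a)
      have e2 : (K : ℝ) * (2 * a) ≤ n := by exact_mod_cast e1
      have e3 : (1 : ℝ) ≤ K := by exact_mod_cast h0
      nlinarith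
  have hlog3 : (1 : ℝ) < Real.log 3 := by
    rw [Real.lt_log_iff_exp_lt (by norm_num)]
    exact Real.exp_one_lt_d9.trans (by norm_num)
  have hL1 : 1 ≤ Real.log (n / ((K : ℝ) + 1)) :=
    hlog3.le.trans (Real.log_le_log (by norm_num) hLK)
  have hLr : ∀ r : ℕ, 1 ≤ r → r ≤ K + 1 → 1 ≤ Real.log ((n : ℝ) / r) := by
    intro r hr1 hr2
    refine hL1.trans (Real.log_le_log (by positivity) ?_)
    apply div_le_div_of_nonneg_left hn0.le
    · exact_mod_cast hr1
    · exact_mod_cast hr2
  have hsum0 : 0 ≤ ∑ r ∈ Finset.Icc R K, 1 / ((r : ℝ) * Real.log ((n : ℝ) / r)) := by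
    apply Finset.sum_nonneg
    intro r hr
    rw [Finset.mem_Icc] at hr
    have hr1 : 1 ≤ r := by
      have : 1 ≤ R := by exact_mod_cast hR1
      omega
    have := hLr r hr1 (by omega)
    positivity
  rcases le_or_gt (lam ε - η) 0 with hneg | hpos
  · exact hneg.trans hsum0
  -- numerators
  have hden : 0 < (1 / 2 + ε) * Real.log x + Real.log 4 := by
    have : 0 < Real.log 4 := Real.log_pos (by norm_num)
    have : 0 < (1 / 2 + ε) * Real.log x := by positivity
    linarith
  have hnum : 0 < (1 - ε) * Real.log x - Real.log (Real.log x) - Real.log 2 := by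
    rcases lt_or_ge 0 ((1 - ε) * Real.log x - Real.log (Real.log x) - Real.log 2) with h | h
    · exact h
    · exact absurd h1 (not_lt.2 (div_nonpos_of_nonpos_of_nonneg h hden.le))
  have hA : (1 - ε) * Real.log x - Real.log (Real.log x) - Real.log 2 ≤ Real.log ((n : ℝ) / R) := by
    have e1 : (x : ℝ) / Real.log x / (2 * (x : ℝ) ^ ε) ≤ (n : ℝ) / R := by
      apply div_le_div₀ hn0.le _ (by linarith) hR0'
      rw [div_le_iff₀ (by linarith)]
      exact hn
    have e2 := Real.log_le_log (by positivity) e1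
    rw [Real.log_div (by positivity) (by positivity), Real.log_div (by positivity) (by positivity),
      Real.log_mul (by positivity) (by positivity), Real.log_rpow hx0] at e2
    linarith
  have hB : Real.log (n / ((K : ℝ) + 1)) ≤ (1 / 2 + ε) * Real.log x + Real.log 4 := by
    have e1 : (n : ℝ) / ((K : ℝ) + 1) ≤ 4 * (x : ℝ) ^ (1 / 2 + ε) := by
      rw [div_le_iff₀ (by positivity)]
      have : (2 : ℝ) * a * (K + 1) ≤ 4 * (x : ℝ) ^ (1 / 2 + ε) * (K + 1) :=
        mul_le_mul_of_nonneg_right (by linarith) (by positivity)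
      linarith
    have e2 := Real.log_le_log (by positivity) e1
    rw [Real.log_mul (by positivity) (by positivity), Real.log_rpow hx0] at e2
    linarith
  have hLR0 : 0 < Real.log ((n : ℝ) / R) := hnum.trans_le hA
  have hD : lam ε - η / 2 < Real.log (Real.log ((n : ℝ) / R)) -
      Real.log (Real.log (n / ((K : ℝ) + 1))) := by
    rw [← Real.log_div (by positivity) (by linarith)]
    refine h2.trans_le (Real.log_le_log h1 ?_)
    exact div_le_div₀ hLR0.le hA (by linarith) hB
  -- `R ≤ K + 1`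
  have hRK : R ≤ K + 1 := by
    by_contra hcon
    push Not at hcon
    have e1 : (K : ℝ) + 1 ≤ R := by exact_mod_cast hcon.le
    have e2 : Real.log ((n : ℝ) / R) ≤ Real.log (n / ((K : ℝ) + 1)) := by
      apply Real.log_le_log (by positivity)
      exact div_le_div_of_nonneg_left hn0.le (by positivity) e1
    have e3 := Real.log_le_log hLR0 e2
    linarith
  have htel : ∀ M : ℕ, R ≤ M + 1 → M ≤ K → Real.log (Real.log ((n : ℝ) / R)) -
      Real.log (Real.log (n / ((M : ℝ) + 1))) ≤
      (1 + 1 / (x : ℝ) ^ ε) * ∑ r ∈ Finset.Icc R M, 1 / ((r : ℝ) * Real.log ((n : ℝ) / r)) := by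
    intro M hM
    induction M with
    | zero =>
      intro _
      have hR1' : 1 ≤ R := by exact_mod_cast hR1
      have e1 : R = 1 := by omega
      rw [e1]
      simp
    | succ M ih =>
      intro hMK
      rcases Nat.lt_or_ge (M + 1) R with hlt | hge
      · have e1 : R = M + 1 + 1 := by omega
        rw [e1, Finset.Icc_eq_empty (by omega)]
        push_cast
        simp
      · have e1 := ih (by omega) (by omega)
        rw [← Finset.insert_Icc_right_eq_Icc_add_one (by omega), Finset.sum_insert (by simp), mul_add]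
        have e2 := SUM_term (n := n) (r := ((M : ℝ) + 1)) (by
          have : (0 : ℝ) ≤ M := Nat.cast_nonneg M
          linarith) hn0 (by
          have := hLr (M + 1 + 1) (by omega) (by omega)
          push_cast at this
          exact this)
        have e3 : (1 + 1 / ((M : ℝ) + 1)) * (1 / (((M : ℝ) + 1) * Real.log (n / ((M : ℝ) + 1)))) ≤
            (1 + 1 / (x : ℝ) ^ ε) * (1 / (((M : ℝ) + 1) * Real.log (n / ((M : ℝ) + 1)))) := by
          apply mul_le_mul_of_nonneg_right
          · have e4 : (x : ℝ) ^ ε ≤ (M : ℝ) + 1 := by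
              have : (R : ℝ) ≤ M + 1 := by exact_mod_cast hge
              linarith
            have := one_div_le_one_div_of_le (by positivity) e4
            linarith
          · have := hLr (M + 1) (by omega) (by omega)
            push_cast at this
            positivity
        push_cast at e1 e2 e3 ⊢
        linarith
  have hfin := htel K hRK le_rfl
  have hpos2 : (0 : ℝ) < 1 + 1 / (x : ℝ) ^ ε := by positivity
  have hlt : (lam ε - η) * (1 + 1 / (x : ℝ) ^ ε) <
      (1 + 1 / (x : ℝ) ^ ε) * ∑ r ∈ Finset.Icc R K, 1 / ((r : ℝ) * Real.log ((n : ℝ) / r)) :=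
    h7.trans (hD.trans_le hfin)
  rw [mul_comm] at hlt
  exact (lt_of_mul_lt_mul_left hlt hpos2.le).le

end Pool.Agent.Work.MP_7d0410_cr
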