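import Pool.Agent.Work.MP_7d0410_cr.Interface

/-!
# Upper bound for the expected number of good runs on average
-/

set_option autoImplicit false

namespace Pool.Agent.Work.MP_7d0410_cr

open Finset Filter MeasureTheory ProbabilityTheory
open scoped Classical Topology

lemma UPP_Ex_mem (U : Finset ℕ) (b : ℕ) (hb : b ∈ U) (g : ℝ) :
    Ex U (fun S => if b ∈ S then g else 0) = pr b * g := by
  have hsub : ({b} : Finset ℕ) ⊆ U := Finset.singleton_subset_iff.2 hb
  have h1 := Ex_inter hsub (fun S => if b ∈ S then g else 0)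
  have h2 : Ex U (fun S => (fun S => if b ∈ S then g else 0) (S ∩ {b})) =
      Ex U (fun S => if b ∈ S then g else 0) := by
    refine Ex_congr fun S _ => ?_
    simp
  rw [← h2, h1]
  unfold Ex
  rw [show ({b} : Finset ℕ).powerset = {∅, {b}} from rfl,
    Finset.sum_insert (by
      rw [Finset.mem_singleton]
      exact (Finset.singleton_ne_empty b).symm), Finset.sum_singleton]
  unfold wt
  simp

lemma UPP_end (S : Finset ℕ) (q q' : ℕ × ℕ) (hq : q ∈ runs S) (hq' : q' ∈ runs S)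
    (hl : len S q = len S q') (h : q.1 = q'.1) : q = q' := by
  have key : ∀ q q' : ℕ × ℕ, q' ∈ runs S → q.1 = q'.1 → q.2 < q'.2 → len S q < len S q' := by
    intro q q' hq' h hlt
    unfold len
    apply Finset.card_lt_card
    rw [Finset.ssubset_iff_of_subset]
    · refine ⟨q'.2, mem_seg.2 ⟨(mem_runs.1 hq').2.1, (mem_runs.1 hq').2.2, le_rfl⟩, ?_⟩
      rw [mem_seg]
      rintro ⟨_, _, h'⟩
      omega
    · intro m hm
      rw [mem_seg] at hm ⊢
      exact ⟨hm.1, by omega, by omega⟩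
  apply Prod.ext h
  rcases lt_trichotomy q.2 q'.2 with h1 | h1 | h1
  · have := key q q' hq' h h1
    omega
  · exact h1
  · have := key q' q hq h.symm h1
    omega

/-- The number of good runs with sum at most `x`. -/
lemma UPP_count (S : Finset ℕ) (R G x : ℕ) (hS : ∀ m ∈ S, 1 ≤ m) :
    ∑ n ∈ Finset.Icc 1 x, cnt R G S n ≤ ∑ b ∈ S.filter (fun b => b * R ≤ x), x / b := by
  set T : Finset (ℕ × ℕ) := (good R G S).filter (fun q => sm S q ∈ Finset.Icc 1 x) with hT
  have h1 : ∑ n ∈ Finset.Icc 1 x, cnt R G S n = T.card := by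
    have hmaps : ∀ q ∈ T, sm S q ∈ Finset.Icc 1 x := fun q hq => (Finset.mem_filter.1 hq).2
    rw [Finset.card_eq_sum_card_fiberwise hmaps]
    refine Finset.sum_congr rfl fun n hn => ?_
    unfold cnt
    congr 1
    ext q
    rw [mem_gr, hT, Finset.mem_filter, Finset.mem_filter]
    constructor
    · rintro ⟨k1, k2⟩
      exact ⟨⟨k1, by rw [k2]; exact hn⟩, k2⟩
    · rintro ⟨⟨k1, _⟩, k2⟩
      exact ⟨k1, k2⟩
  rw [h1]
  have h2 : ∑ b ∈ S.filter (fun b => b * R ≤ x), x / b =
      ((S.filter (fun b => b * R ≤ x)).sigma (fun b => Finset.Icc 1 (x / b))).card := by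
    rw [Finset.card_sigma]
    refine Finset.sum_congr rfl fun b _ => ?_
    rw [Nat.card_Icc, Nat.add_sub_cancel]
  rw [h2]
  apply Finset.card_le_card_of_injOn (fun q => ⟨q.1, len S q⟩)
  · intro q hq
    have hq' := Finset.mem_filter.1 hq
    obtain ⟨g1, g2, g3⟩ := mem_good.1 hq'.1
    have g4 := Finset.mem_Icc.1 hq'.2
    have g5 := len_mul_le_sm S q
    have g6 := len_pos g1
    have g7 := hS q.1 (mem_runs.1 g1).1
    rw [Finset.mem_coe, Finset.mem_sigma, Finset.mem_filter, Finset.mem_Icc]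
    refine ⟨⟨(mem_runs.1 g1).1, ?_⟩, g6, ?_⟩
    · have : q.1 * R ≤ q.1 * len S q := Nat.mul_le_mul_left _ g2
      have e : q.1 * len S q = len S q * q.1 := mul_comm _ _
      show q.1 * R ≤ x
      omega
    · show len S q ≤ x / q.1
      rw [Nat.le_div_iff_mul_le (by omega)]
      omega
  · intro q hq q' hq' h
    have e1 : q.1 = q'.1 := by
      have := congrArg Sigma.fst h
      exact this
    have e2 : len S q = len S q' := by
      rw [Sigma.mk.injEq] at h
      exact eq_of_heq h.2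
    exact UPP_end S q q' (mem_good.1 (Finset.mem_filter.1 hq).1).1
      (mem_good.1 (Finset.mem_filter.1 hq').1).1 e2 e1

lemma UPP_tele (L : ℕ → ℝ) (a B : ℕ) (h : a ≤ B) :
    ∑ b ∈ Finset.Icc a B, (L b - L (b - 1)) = L B - L (a - 1) := by
  induction B, h using Nat.le_induction with
  | base => simp
  | succ B hB ih =>
    rw [Finset.sum_Icc_succ_top (by omega), ih]
    simp only [Nat.add_sub_cancel]
    ring

lemma UPP_step (b : ℕ) (hb : 4 ≤ b) : 1 / ((b : ℝ) * Real.log b) ≤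
    Real.log (Real.log b) - Real.log (Real.log ((b - 1 : ℕ) : ℝ)) := by
  have hb4 : (4 : ℝ) ≤ b := by exact_mod_cast hb
  have hcast : ((b - 1 : ℕ) : ℝ) = (b : ℝ) - 1 := by
    rw [Nat.cast_sub (by omega), Nat.cast_one]
  rw [hcast]
  have hl1 : 0 < Real.log ((b : ℝ) - 1) := Real.log_pos (by linarith)
  have hl2 : 0 < Real.log (b : ℝ) := Real.log_pos (by linarith)
  rw [← Real.log_div hl2.ne' hl1.ne']
  -- log y ≥ 1 - 1/y
  have h1 : 1 - (Real.log b / Real.log ((b : ℝ) - 1))⁻¹ ≤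
      Real.log (Real.log b / Real.log ((b : ℝ) - 1)) :=
    Real.one_sub_inv_le_log_of_pos (div_pos hl2 hl1)
  rw [inv_div] at h1
  have h2 : 1 / (b : ℝ) ≤ Real.log b - Real.log ((b : ℝ) - 1) := by
    rw [← Real.log_div (by linarith) (by linarith)]
    have h3 := Real.one_sub_inv_le_log_of_pos
      (show (0 : ℝ) < (b : ℝ) / ((b : ℝ) - 1) from div_pos (by linarith) (by linarith))
    rw [inv_div] at h3
    have h4 : 1 - ((b : ℝ) - 1) / b = 1 / b := by
      field_simp
      ring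
    linarith
  have h5 : 1 / ((b : ℝ) * Real.log b) ≤ 1 - Real.log ((b : ℝ) - 1) / Real.log b := by
    rw [show 1 / ((b : ℝ) * Real.log b) = (1 / (b : ℝ)) / Real.log b by field_simp]
    rw [show 1 - Real.log ((b : ℝ) - 1) / Real.log b =
      (Real.log b - Real.log ((b : ℝ) - 1)) / Real.log b by field_simp]
    exact div_le_div_of_nonneg_right h2 hl2.le
  linarith

/-- the exponential estimate of the sum of `1 / (b log b)` -/
lemma UPP_asym (ε η : ℝ) (hε0 : 0 < ε) (hε1 : ε < 1 / 4) (hη : 0 < η) : ∀ᶠ x : ℕ in atTop,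
    4 ≤ a0 ε x ∧ ∀ B : ℕ, B = x / R0 ε x →
      ∑ b ∈ Finset.Icc (a0 ε x) B, 1 / ((b : ℝ) * Real.log b) ≤ lam ε + η := by
  have hlog : Tendsto (fun x : ℕ => Real.log (x : ℝ)) atTop atTop :=
    Real.tendsto_log_atTop.comp tendsto_natCast_atTop_atTop
  filter_upwards [hlog.eventually_ge_atTop (max 4 (4 / η)), Filter.eventually_ge_atTop 1]
    with x hx hx1
  have hx4 : 4 ≤ Real.log x := (le_max_left _ _).trans hx
  have hxη : 4 / η ≤ Real.log x := (le_max_right _ _).trans hx
  have hxpos : (0 : ℝ) < x := by exact_mod_cast (show 0 < x by omega)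
  have hlam : 0 < lam ε := by
    unfold lam
    apply Real.log_pos
    rw [one_lt_div (by linarith)]
    linarith
  set E : ℝ := (x : ℝ) ^ (1 / 2 + ε) with hE
  have hEexp : E = Real.exp (Real.log x * (1 / 2 + ε)) := by
    rw [hE, Real.rpow_def_of_pos hxpos]
  have hE7 : 7 ≤ E := by
    rw [hEexp]
    have h1 : (2 : ℝ) ≤ Real.log x * (1 / 2 + ε) := by nlinarith
    have h2 : Real.exp 2 ≤ Real.exp (Real.log x * (1 / 2 + ε)) := Real.exp_le_exp.2 h1
    have h3 : Real.exp 2 = Real.exp 1 * Real.exp 1 := by rw [← Real.exp_add]; norm_num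
    have h4 := Real.exp_one_gt_d9
    nlinarith
  have ha0 : E ≤ (a0 ε x : ℝ) := by
    unfold a0
    exact Nat.le_ceil _
  have ha4 : 4 ≤ a0 ε x := by
    have : (4 : ℝ) ≤ (a0 ε x : ℝ) := by linarith
    exact_mod_cast this
  refine ⟨ha4, ?_⟩
  intro B hB
  by_cases hle : a0 ε x ≤ B
  · have h1 : ∑ b ∈ Finset.Icc (a0 ε x) B, 1 / ((b : ℝ) * Real.log b) ≤
        ∑ b ∈ Finset.Icc (a0 ε x) B, ((fun b : ℕ => Real.log (Real.log b)) b -
          (fun b : ℕ => Real.log (Real.log b)) (b - 1)) := by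
      refine Finset.sum_le_sum fun b hb => ?_
      rw [Finset.mem_Icc] at hb
      exact UPP_step b (by omega)
    rw [UPP_tele _ _ _ hle] at h1
    refine h1.trans ?_
    have hBpos : 1 ≤ B := by omega
    have hR : (x : ℝ) ^ ε ≤ (R0 ε x : ℝ) := by
      unfold R0
      exact Nat.le_ceil _
    have hxe : 0 < (x : ℝ) ^ ε := Real.rpow_pos_of_pos hxpos _
    have hBle : (B : ℝ) ≤ (x : ℝ) / (x : ℝ) ^ ε := by
      rw [hB]
      calc ((x / R0 ε x : ℕ) : ℝ) ≤ (x : ℝ) / R0 ε x := Nat.cast_div_le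
        _ ≤ (x : ℝ) / (x : ℝ) ^ ε := by
            apply div_le_div_of_nonneg_left hxpos.le hxe hR
    have hlogB : Real.log B ≤ (1 - ε) * Real.log x := by
      have hBp : (0 : ℝ) < B := by exact_mod_cast hBpos
      have := Real.log_le_log hBp hBle
      rw [Real.log_div hxpos.ne' hxe.ne', Real.log_rpow hxpos] at this
      linarith
    have hloga : (1 / 2 + ε) * Real.log x - 1 ≤ Real.log ((a0 ε x - 1 : ℕ) : ℝ) := by
      have hcast : ((a0 ε x - 1 : ℕ) : ℝ) = (a0 ε x : ℝ) - 1 := by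
        rw [Nat.cast_sub (by omega), Nat.cast_one]
      rw [hcast]
      have h2 : E * Real.exp (-1) ≤ (a0 ε x : ℝ) - 1 := by
        have h3 : Real.exp (-1) ≤ 1 / 2 := by
          rw [Real.exp_neg, inv_le_comm₀ (Real.exp_pos _) (by norm_num)]
          have := Real.exp_one_gt_d9
          norm_num
          linarith
        nlinarith
      have h4 := Real.log_le_log (mul_pos (by linarith) (Real.exp_pos _)) h2
      rw [Real.log_mul (by linarith) (Real.exp_pos _).ne', Real.log_exp, hEexp, Real.log_exp] at h4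
      linarith
    have hlx : 0 < Real.log x := by linarith
    have hmid : 0 < (1 / 2 + ε) * Real.log x - 1 := by nlinarith
    have hlogBpos : 0 < Real.log B := by
      apply Real.log_pos
      have : (4 : ℝ) ≤ B := by exact_mod_cast (by omega : 4 ≤ B)
      linarith
    have h5 : Real.log (Real.log B) ≤ Real.log (1 - ε) + Real.log (Real.log x) := by
      rw [← Real.log_mul (by linarith) hlx.ne']
      exact Real.log_le_log hlogBpos hlogB
    have h6 : Real.log ((1 / 2 + ε) * Real.log x - 1) ≤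
        Real.log (Real.log ((a0 ε x - 1 : ℕ) : ℝ)) := Real.log_le_log hmid hloga
    set u : ℝ := 1 / ((1 / 2 + ε) * Real.log x) with hu
    have hden : 0 < (1 / 2 + ε) * Real.log x := by nlinarith
    have hupos : 0 < u := by positivity
    have hu2 : u ≤ 1 / 2 := by
      rw [hu]
      apply one_div_le_one_div_of_le (by norm_num)
      nlinarith
    have huη : 2 * u ≤ η := by
      rw [hu, mul_one_div, div_le_iff₀ hden]
      have h7 : 4 ≤ η * Real.log x := by
        have := (div_le_iff₀ hη).1 hxη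
        linarith
      nlinarith
    have h8 : (1 / 2 + ε) * Real.log x - 1 = ((1 / 2 + ε) * Real.log x) * (1 - u) := by
      rw [hu]
      field_simp
    have h9 : Real.log ((1 / 2 + ε) * Real.log x - 1) =
        Real.log (1 / 2 + ε) + Real.log (Real.log x) + Real.log (1 - u) := by
      rw [h8, Real.log_mul hden.ne' (by linarith), Real.log_mul (by linarith) hlx.ne']
    have h10 : -(2 * u) ≤ Real.log (1 - u) := by
      have h11 := Real.one_sub_inv_le_log_of_pos (show (0 : ℝ) < 1 - u by linarith)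
      have h12 : (1 - u)⁻¹ ≤ 1 + 2 * u := by
        rw [inv_le_iff_one_le_mul₀ (by linarith)]
        nlinarith
      linarith
    have hlameq : lam ε = Real.log (1 - ε) - Real.log (1 / 2 + ε) := by
      unfold lam
      rw [Real.log_div (by linarith) (by linarith)]
    linarith
  · rw [Finset.Icc_eq_empty (by omega), Finset.sum_empty]
    linarith

theorem p_UPP : Stmt_UPP := by
  intro ε η hε0 hε1 hη
  filter_upwards [UPP_asym ε η hε0 hε1 hη, Filter.eventually_ge_atTop 1] with x hx hx1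
  obtain ⟨ha4, hsum⟩ := hx
  have hsum := hsum _ rfl
  obtain ⟨U, hU⟩ : ∃ U, U = UU ε x := ⟨_, rfl⟩
  obtain ⟨R, hR⟩ : ∃ R, R = R0 ε x := ⟨_, rfl⟩
  obtain ⟨G, hG⟩ : ∃ G, G = GG x := ⟨_, rfl⟩
  rw [← hU, ← hR, ← hG]
  rw [← hR] at hsum
  have hR1 : 1 ≤ R := by
    rw [hR]
    unfold R0
    apply Nat.one_le_ceil_iff.2
    have : (0 : ℝ) < x := by exact_mod_cast (show 0 < x by omega)
    exact Real.rpow_pos_of_pos this _
  have hUmem : ∀ m, m ∈ U ↔ a0 ε x ≤ m ∧ m ≤ 2 * x := by
    intro m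
    rw [hU]
    unfold UU
    rw [Finset.mem_Icc]
  set U' : Finset ℕ := U.filter (fun b => b * R ≤ x) with hU'
  have h1 : ∑ n ∈ Finset.Icc 1 x, HH U R G n =
      Ex U (fun S => ∑ n ∈ Finset.Icc 1 x, (cnt R G S n : ℝ)) := by
    rw [Ex_sum]
    rfl
  have h2 : Ex U (fun S => ∑ n ∈ Finset.Icc 1 x, (cnt R G S n : ℝ)) ≤
      Ex U (fun S => ∑ b ∈ U', if b ∈ S then ((x / b : ℕ) : ℝ) else 0) := by
    refine Ex_mono fun S hS => ?_
    have h3 := UPP_count S R G x (fun m hm => by have := ((hUmem m).1 (hS hm)).1; omega)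
    have h4 : ∑ n ∈ Finset.Icc 1 x, (cnt R G S n : ℝ) ≤
        ∑ b ∈ S.filter (fun b => b * R ≤ x), ((x / b : ℕ) : ℝ) := by exact_mod_cast h3
    refine h4.trans (le_of_eq ?_)
    rw [← Finset.sum_filter]
    refine Finset.sum_congr ?_ fun _ _ => rfl
    ext b
    rw [hU', Finset.mem_filter, Finset.mem_filter, Finset.mem_filter]
    constructor
    · rintro ⟨k1, k2⟩
      exact ⟨⟨hS k1, k2⟩, k1⟩
    · rintro ⟨⟨_, k2⟩, k1⟩
      exact ⟨k1, k2⟩
  have h5 : Ex U (fun S => ∑ b ∈ U', if b ∈ S then ((x / b : ℕ) : ℝ) else 0) =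
      ∑ b ∈ U', pr b * ((x / b : ℕ) : ℝ) := by
    rw [Ex_sum]
    refine Finset.sum_congr rfl fun b hb => ?_
    exact UPP_Ex_mem U b (Finset.mem_filter.1 hb).1 _
  have h6 : ∑ b ∈ U', pr b * ((x / b : ℕ) : ℝ) ≤
      ∑ b ∈ Finset.Icc (a0 ε x) (x / R), (x : ℝ) * (1 / ((b : ℝ) * Real.log b)) := by
    have h7 : ∀ b ∈ U', pr b * ((x / b : ℕ) : ℝ) ≤ (x : ℝ) * (1 / ((b : ℝ) * Real.log b)) := by
      intro b hb
      rw [hU', Finset.mem_filter, hUmem] at hb
      have hb4 : 4 ≤ b := by omega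
      have hb4' : (4 : ℝ) ≤ b := by exact_mod_cast hb4
      have hlb : 0 < Real.log b := Real.log_pos (by linarith)
      rw [pr_eq (by omega)]
      have h8 : ((x / b : ℕ) : ℝ) ≤ (x : ℝ) / b := Nat.cast_div_le
      calc 1 / Real.log b * ((x / b : ℕ) : ℝ) ≤ 1 / Real.log b * ((x : ℝ) / b) := by
            apply mul_le_mul_of_nonneg_left h8; positivity
        _ = (x : ℝ) * (1 / ((b : ℝ) * Real.log b)) := by field_simp
    refine (Finset.sum_le_sum h7).trans ?_
    apply Finset.sum_le_sum_of_subset_of_nonneg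
    · intro b hb
      rw [hU', Finset.mem_filter, hUmem] at hb
      rw [Finset.mem_Icc]
      exact ⟨hb.1.1, (Nat.le_div_iff_mul_le (by omega)).2 hb.2⟩
    · intro b hb _
      rw [Finset.mem_Icc] at hb
      have hb4' : (4 : ℝ) ≤ b := by exact_mod_cast (show 4 ≤ b by omega)
      have hlb : 0 < Real.log b := Real.log_pos (by linarith)
      positivity
  rw [← Finset.mul_sum] at h6
  have hx0 : (0 : ℝ) ≤ x := Nat.cast_nonneg _
  calc ∑ n ∈ Finset.Icc 1 x, HH U R G n ≤ (x : ℝ) *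
        ∑ b ∈ Finset.Icc (a0 ε x) (x / R), 1 / ((b : ℝ) * Real.log b) := by
          rw [h1]; exact h2.trans (h5.le.trans h6)
    _ ≤ (x : ℝ) * (lam ε + η) := mul_le_mul_of_nonneg_left hsum hx0
    _ = (lam ε + η) * x := mul_comm _ _

end Pool.Agent.Work.MP_7d0410_cr
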