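import Pool.Agent.Work.MP_7d0410_cr.Interface

/-! # Block WTQ (MP_7d0410, note 2914; helper25) -/

set_option autoImplicit false

namespace Pool.Agent.Work.MP_7d0410_cr

open Finset Filter MeasureTheory ProbabilityTheory
open scoped Classical Topology

theorem p_WTQ : Stmt_WTQ := by
  intro U Q hU
  rw [Pb_inter hU (fun T => T = Q)]
  unfold Pb Ex
  rw [Finset.sum_eq_single Q]
  · simp [wt, om]
  · intro T _ hT
    simp [hT]
  · intro h
    exact absurd (Finset.mem_powerset.2 (subset_hull Q)) h

end Pool.Agent.Work.MP_7d0410_cr
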