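import Pool.Agent.Work.MP_7d0410_cr.Defs

/-!
# Moser's problem in Cramér's random model: basic facts
-/

set_option autoImplicit false

namespace Pool.Agent.Work.MP_7d0410_cr

open Finset Filter MeasureTheory ProbabilityTheory
open scoped Classical

/-! ## Probabilities -/

lemma one_lt_log_max (m : ℕ) : 1 < Real.log (max (m : ℝ) 3) := by
  have h1 : Real.log 3 ≤ Real.log (max (m : ℝ) 3) := Real.log_le_log (by norm_num) (le_max_right _ _)
  have h2 : 1 < Real.log 3 := by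
    rw [Real.lt_log_iff_exp_lt (by norm_num)]
    exact Real.exp_one_lt_d9.trans (by norm_num)
  linarith

lemma pr_pos (m : ℕ) : 0 < pr m := by
  unfold pr
  have := one_lt_log_max m
  positivity

lemma pr_nonneg (m : ℕ) : 0 ≤ pr m := (pr_pos m).le

lemma pr_lt_one (m : ℕ) : pr m < 1 := by
  unfold pr
  have := one_lt_log_max m
  rw [div_lt_one (by linarith)]
  exact this

lemma pr_le_one (m : ℕ) : pr m ≤ 1 := (pr_lt_one m).le

lemma one_sub_pr_pos (m : ℕ) : 0 < 1 - pr m := by have := pr_lt_one m; linarith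

lemma pr_anti {m n : ℕ} (h : m ≤ n) : pr n ≤ pr m := by
  unfold pr
  have h1 := one_lt_log_max m
  have h2 : Real.log (max (m : ℝ) 3) ≤ Real.log (max (n : ℝ) 3) := by
    apply Real.log_le_log (by positivity)
    have : (m : ℝ) ≤ n := by exact_mod_cast h
    exact max_le_max this le_rfl
  exact one_div_le_one_div_of_le (by linarith) h2

lemma pr_eq {m : ℕ} (h : 3 ≤ m) : pr m = 1 / Real.log m := by
  unfold pr
  have : (3 : ℝ) ≤ m := by exact_mod_cast h
  rw [max_eq_left this]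

/-! ## Expectations -/

lemma wt_nonneg (U S : Finset ℕ) : 0 ≤ wt U S :=
  mul_nonneg (Finset.prod_nonneg fun i _ => pr_nonneg i)
    (Finset.prod_nonneg fun i _ => (one_sub_pr_pos i).le)

lemma sum_wt (U : Finset ℕ) : ∑ S ∈ U.powerset, wt U S = 1 := by
  unfold wt
  rw [← Finset.prod_add]
  simp

/-- generating function -/
lemma Ex_prod (U : Finset ℕ) (f : ℕ → ℝ) :
    Ex U (fun S => ∏ m ∈ S, f m) = ∏ m ∈ U, (1 - pr m + pr m * f m) := by
  unfold Ex wt
  have : ∏ m ∈ U, (1 - pr m + pr m * f m) = ∏ m ∈ U, (pr m * f m + (1 - pr m)) :=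
    Finset.prod_congr rfl fun m _ => by ring
  rw [this, Finset.prod_add]
  refine Finset.sum_congr rfl fun S _ => ?_
  rw [Finset.prod_mul_distrib]
  ring

lemma Ex_const (U : Finset ℕ) (c : ℝ) : Ex U (fun _ => c) = c := by
  unfold Ex
  rw [← Finset.sum_mul, sum_wt, one_mul]

lemma Ex_add (U : Finset ℕ) (F K : Finset ℕ → ℝ) : Ex U (fun S => F S + K S) = Ex U F + Ex U K := by
  unfold Ex
  rw [← Finset.sum_add_distrib]
  exact Finset.sum_congr rfl fun S _ => by ring

lemma Ex_sub (U : Finset ℕ) (F K : Finset ℕ → ℝ) : Ex U (fun S => F S - K S) = Ex U F - Ex U K := by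
  unfold Ex
  rw [← Finset.sum_sub_distrib]
  exact Finset.sum_congr rfl fun S _ => by ring

lemma Ex_const_mul (U : Finset ℕ) (c : ℝ) (F : Finset ℕ → ℝ) :
    Ex U (fun S => c * F S) = c * Ex U F := by
  unfold Ex
  rw [Finset.mul_sum]
  exact Finset.sum_congr rfl fun S _ => by ring

lemma Ex_mul_const (U : Finset ℕ) (c : ℝ) (F : Finset ℕ → ℝ) :
    Ex U (fun S => F S * c) = Ex U F * c := by
  unfold Ex
  rw [Finset.sum_mul]
  exact Finset.sum_congr rfl fun S _ => by ring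

lemma Ex_sum {ι : Type*} (U : Finset ℕ) (I : Finset ι) (F : ι → Finset ℕ → ℝ) :
    Ex U (fun S => ∑ i ∈ I, F i S) = ∑ i ∈ I, Ex U (F i) := by
  unfold Ex
  rw [Finset.sum_comm]
  exact Finset.sum_congr rfl fun S _ => by rw [Finset.mul_sum]

lemma Ex_congr {U : Finset ℕ} {F K : Finset ℕ → ℝ} (h : ∀ S ⊆ U, F S = K S) : Ex U F = Ex U K := by
  unfold Ex
  exact Finset.sum_congr rfl fun S hS => by rw [h S (Finset.mem_powerset.1 hS)]

lemma Ex_mono {U : Finset ℕ} {F K : Finset ℕ → ℝ} (h : ∀ S ⊆ U, F S ≤ K S) : Ex U F ≤ Ex U K := by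
  unfold Ex
  exact Finset.sum_le_sum fun S hS =>
    mul_le_mul_of_nonneg_left (h S (Finset.mem_powerset.1 hS)) (wt_nonneg U S)

lemma Ex_nonneg {U : Finset ℕ} {F : Finset ℕ → ℝ} (h : ∀ S ⊆ U, 0 ≤ F S) : 0 ≤ Ex U F := by
  have := Ex_mono h
  rwa [Ex_const] at this

lemma Ex_le_const {U : Finset ℕ} {F : Finset ℕ → ℝ} {c : ℝ} (h : ∀ S ⊆ U, F S ≤ c) : Ex U F ≤ c := by
  have := Ex_mono h
  rwa [Ex_const] at this

lemma const_le_Ex {U : Finset ℕ} {F : Finset ℕ → ℝ} {c : ℝ} (h : ∀ S ⊆ U, c ≤ F S) : c ≤ Ex U F := by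
  have := Ex_mono h
  rwa [Ex_const] at this

lemma abs_Ex_le (U : Finset ℕ) (F : Finset ℕ → ℝ) : |Ex U F| ≤ Ex U (fun S => |F S|) := by
  unfold Ex
  refine (Finset.abs_sum_le_sum_abs _ _).trans (Finset.sum_le_sum fun S _ => ?_)
  rw [abs_mul, abs_of_nonneg (wt_nonneg U S)]

/-- independence of disjoint parts -/
lemma Ex_union {U V : Finset ℕ} (h : Disjoint U V) (F : Finset ℕ → ℝ) :
    Ex (U ∪ V) F = Ex U (fun S => Ex V (fun T => F (S ∪ T))) := by
  have hR : Ex U (fun S => Ex V (fun T => F (S ∪ T))) =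
      ∑ z ∈ U.powerset ×ˢ V.powerset, wt U z.1 * wt V z.2 * F (z.1 ∪ z.2) := by
    rw [Finset.sum_product]
    unfold Ex
    refine Finset.sum_congr rfl fun S _ => ?_
    rw [Finset.mul_sum]
    exact Finset.sum_congr rfl fun T _ => by ring
  rw [hR]
  unfold Ex
  refine Finset.sum_bij' (fun S _ => (S ∩ U, S ∩ V)) (fun z _ => z.1 ∪ z.2) ?_ ?_ ?_ ?_ ?_
  · intro S _
    exact Finset.mem_product.2 ⟨Finset.mem_powerset.2 Finset.inter_subset_right,
      Finset.mem_powerset.2 Finset.inter_subset_right⟩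
  · intro z hz
    obtain ⟨h1, h2⟩ := Finset.mem_product.1 hz
    exact Finset.mem_powerset.2 (Finset.union_subset_union (Finset.mem_powerset.1 h1)
      (Finset.mem_powerset.1 h2))
  · intro S hS
    have hS := Finset.mem_powerset.1 hS
    simp only
    rw [← Finset.inter_union_distrib_left]
    exact Finset.inter_eq_left.2 hS
  · rintro ⟨S, T⟩ hz
    obtain ⟨h1, h2⟩ := Finset.mem_product.1 hz
    have h1 := Finset.mem_powerset.1 h1
    have h2 := Finset.mem_powerset.1 h2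
    simp only at h1 h2
    have e1 : (S ∪ T) ∩ U = S := by
      rw [Finset.union_inter_distrib_right, Finset.inter_eq_left.2 h1,
        Finset.disjoint_iff_inter_eq_empty.1 (Finset.disjoint_of_subset_left h2 h.symm),
        Finset.union_empty]
    have e2 : (S ∪ T) ∩ V = T := by
      rw [Finset.union_inter_distrib_right, Finset.inter_eq_left.2 h2,
        Finset.disjoint_iff_inter_eq_empty.1 (Finset.disjoint_of_subset_left h1 h),
        Finset.empty_union]
    simp only [e1, e2]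
  · intro S hS
    have hS := Finset.mem_powerset.1 hS
    have hSU : (S ∩ U) ∪ (S ∩ V) = S := by
      rw [← Finset.inter_union_distrib_left]
      exact Finset.inter_eq_left.2 hS
    have hd : Disjoint (S ∩ U) (S ∩ V) :=
      Finset.disjoint_of_subset_left Finset.inter_subset_right
        (Finset.disjoint_of_subset_right Finset.inter_subset_right h)
    have hd2 : Disjoint (U \ (S ∩ U)) (V \ (S ∩ V)) :=
      Finset.disjoint_of_subset_left Finset.sdiff_subset
        (Finset.disjoint_of_subset_right Finset.sdiff_subset h)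
    have hc : (U ∪ V) \ S = (U \ (S ∩ U)) ∪ (V \ (S ∩ V)) := by
      ext m
      simp only [Finset.mem_sdiff, Finset.mem_union, Finset.mem_inter]
      tauto
    simp only [hSU]
    congr 1
    unfold wt
    rw [hc, Finset.prod_union hd2]
    have : ∏ m ∈ S, pr m = (∏ m ∈ S ∩ U, pr m) * ∏ m ∈ S ∩ V, pr m := by
      rw [← Finset.prod_union hd, hSU]
    rw [this]
    ring

lemma Ex_split {U V : Finset ℕ} (h : V ⊆ U) (F : Finset ℕ → ℝ) :
    Ex U F = Ex V (fun T => Ex (U \ V) (fun S => F (T ∪ S))) := by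
  rw [← Ex_union Finset.disjoint_sdiff, Finset.union_sdiff_of_subset h]

/-- marginal law -/
lemma Ex_inter {U V : Finset ℕ} (h : V ⊆ U) (F : Finset ℕ → ℝ) :
    Ex U (fun S => F (S ∩ V)) = Ex V F := by
  rw [Ex_split h]
  refine Ex_congr fun T hT => ?_
  have : Ex (U \ V) (fun S => F ((T ∪ S) ∩ V)) = Ex (U \ V) (fun _ => F T) := by
    refine Ex_congr fun S hS => ?_
    have : (T ∪ S) ∩ V = T := by
      ext m
      simp only [Finset.mem_inter, Finset.mem_union]
      constructor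
      · rintro ⟨h1 | h1, h2⟩
        · exact h1
        · exact absurd h2 (Finset.mem_sdiff.1 (hS h1)).2
      · intro h1
        exact ⟨Or.inl h1, hT h1⟩
    rw [this]
  rw [this, Ex_const]

/-- independence -/
lemma Ex_indep {U V : Finset ℕ} (h : V ⊆ U) (F K : Finset ℕ → ℝ) :
    Ex U (fun S => F (S ∩ V) * K (S \ V)) = Ex V F * Ex (U \ V) K := by
  rw [Ex_split h, ← Ex_mul_const]
  refine Ex_congr fun T hT => ?_
  rw [← Ex_const_mul]
  refine Ex_congr fun S hS => ?_
  have e1 : (T ∪ S) ∩ V = T := by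
    ext m
    simp only [Finset.mem_inter, Finset.mem_union]
    constructor
    · rintro ⟨h1 | h1, h2⟩
      · exact h1
      · exact absurd h2 (Finset.mem_sdiff.1 (hS h1)).2
    · intro h1
      exact ⟨Or.inl h1, hT h1⟩
  have e2 : (T ∪ S) \ V = S := by
    ext m
    simp only [Finset.mem_sdiff, Finset.mem_union]
    constructor
    · rintro ⟨h1 | h1, h2⟩
      · exact absurd (hT h1) h2
      · exact h1
    · intro h1
      exact ⟨Or.inr h1, (Finset.mem_sdiff.1 (hS h1)).2⟩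
  rw [e1, e2]

lemma Ex_sdiff {U V : Finset ℕ} (h : V ⊆ U) (K : Finset ℕ → ℝ) :
    Ex U (fun S => K (S \ V)) = Ex (U \ V) K := by
  have := Ex_indep h (fun _ => 1) K
  simpa [Ex_const] using this

/-! ## Probabilities of events -/

/-- `Pb` with any decidability instance (rewrite with this before using `if`) -/
lemma Pb_eq (U : Finset ℕ) (A : Finset ℕ → Prop) [inst : ∀ S, Decidable (A S)] :
    Pb U A = Ex U (fun S => if A S then 1 else 0) := by
  unfold Pb
  refine Ex_congr fun S _ => ?_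
  congr

lemma Pb_nonneg (U : Finset ℕ) (A : Finset ℕ → Prop) : 0 ≤ Pb U A :=
  Ex_nonneg fun S _ => by split_ifs <;> norm_num

lemma Pb_le_one (U : Finset ℕ) (A : Finset ℕ → Prop) : Pb U A ≤ 1 :=
  Ex_le_const fun S _ => by split_ifs <;> norm_num

lemma Pb_mono {U : Finset ℕ} {A B : Finset ℕ → Prop} (h : ∀ S ⊆ U, A S → B S) : Pb U A ≤ Pb U B := by
  refine Ex_mono fun S hS => ?_
  by_cases hA : A S
  · rw [if_pos hA, if_pos (h S hS hA)]
  · rw [if_neg hA]
    split_ifs <;> norm_num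

lemma Pb_congr {U : Finset ℕ} {A B : Finset ℕ → Prop} (h : ∀ S ⊆ U, (A S ↔ B S)) : Pb U A = Pb U B :=
  le_antisymm (Pb_mono fun S hS => (h S hS).1) (Pb_mono fun S hS => (h S hS).2)

/-- Markov's inequality -/
lemma Pb_le_Ex {U : Finset ℕ} {A : Finset ℕ → Prop} {F : Finset ℕ → ℝ} (h0 : ∀ S ⊆ U, 0 ≤ F S)
    (h : ∀ S ⊆ U, A S → 1 ≤ F S) : Pb U A ≤ Ex U F := by
  refine Ex_mono fun S hS => ?_
  by_cases hA : A S
  · rw [if_pos hA]
    exact h S hS hA
  · rw [if_neg hA]
    exact h0 S hS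

/-- the union bound -/
lemma Pb_exists_le {ι : Type*} (U : Finset ℕ) (I : Finset ι) (A : ι → Finset ℕ → Prop) :
    Pb U (fun S => ∃ i ∈ I, A i S) ≤ ∑ i ∈ I, Pb U (A i) := by
  unfold Pb
  rw [← Ex_sum]
  refine Ex_mono fun S _ => ?_
  split_ifs with h
  · obtain ⟨i, hi, hA⟩ := h
    have : (if A i S then (1 : ℝ) else 0) ≤ ∑ j ∈ I, if A j S then (1 : ℝ) else 0 :=
      Finset.single_le_sum (f := fun j => if A j S then (1 : ℝ) else 0)
        (fun j _ => by split_ifs <;> norm_num) hi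
    rwa [if_pos hA] at this
  · exact Finset.sum_nonneg fun j _ => by split_ifs <;> norm_num

lemma Pb_compl (U : Finset ℕ) (A : Finset ℕ → Prop) : Pb U (fun S => ¬ A S) = 1 - Pb U A := by
  unfold Pb
  rw [← Ex_const U 1, ← Ex_sub, Ex_const]
  refine Ex_congr fun S _ => ?_
  by_cases h : A S <;> simp [h]

/-- marginal law -/
lemma Pb_inter {U V : Finset ℕ} (h : V ⊆ U) (A : Finset ℕ → Prop) :
    Pb U (fun S => A (S ∩ V)) = Pb V A := Ex_inter h (fun S => if A S then 1 else 0)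

/-! ## Runs -/

lemma mem_seg {S : Finset ℕ} {q : ℕ × ℕ} {m : ℕ} : m ∈ seg S q ↔ m ∈ S ∧ q.1 ≤ m ∧ m ≤ q.2 := by
  simp [seg]

lemma mem_runs {S : Finset ℕ} {q : ℕ × ℕ} : q ∈ runs S ↔ q.1 ∈ S ∧ q.2 ∈ S ∧ q.1 ≤ q.2 := by
  simp [runs, and_assoc]

lemma mem_rr {S : Finset ℕ} {r n : ℕ} {q : ℕ × ℕ} :
    q ∈ rr S r n ↔ q ∈ runs S ∧ len S q = r ∧ sm S q = n := by simp [rr]

lemma mem_good {R G : ℕ} {S : Finset ℕ} {q : ℕ × ℕ} :
    q ∈ good R G S ↔ q ∈ runs S ∧ R ≤ len S q ∧ q.2 ≤ q.1 + G * len S q := by simp [good]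

lemma mem_gr {R G n : ℕ} {S : Finset ℕ} {q : ℕ × ℕ} :
    q ∈ gr R G S n ↔ q ∈ good R G S ∧ sm S q = n := by simp [gr]

lemma mem_hull {Q : Finset ℕ} {m : ℕ} : m ∈ hull Q ↔ (∃ q ∈ Q, q ≤ m) ∧ (∃ q ∈ Q, m ≤ q) := by
  unfold hull
  rw [Finset.mem_filter, Finset.mem_range]
  constructor
  · exact fun h => h.2
  · intro h
    obtain ⟨q, hq, hm⟩ := h.2
    have : q ≤ Q.sup id := Finset.le_sup (f := id) hq
    exact ⟨by omega, h⟩

lemma subset_hull (Q : Finset ℕ) : Q ⊆ hull Q := fun m hm => mem_hull.2 ⟨⟨m, hm, le_rfl⟩, ⟨m, hm, le_rfl⟩⟩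

/-- the sum of a run is at least its length times its first element -/
lemma len_mul_le_sm (S : Finset ℕ) (q : ℕ × ℕ) : len S q * q.1 ≤ sm S q := by
  unfold len sm
  rw [← smul_eq_mul, ← Finset.sum_const]
  exact Finset.sum_le_sum fun m hm => (mem_seg.1 hm).2.1

/-- the sum of a run is at most its length times its last element -/
lemma sm_le_len_mul (S : Finset ℕ) (q : ℕ × ℕ) : sm S q ≤ len S q * q.2 := by
  unfold len sm
  rw [← smul_eq_mul, ← Finset.sum_const]
  exact Finset.sum_le_sum fun m hm => (mem_seg.1 hm).2.2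

lemma le_sm_of_mem {S : Finset ℕ} {q : ℕ × ℕ} {m : ℕ} (h : m ∈ seg S q) : m ≤ sm S q :=
  Finset.single_le_sum (f := fun m => m) (fun _ _ => Nat.zero_le _) h

lemma len_pos {S : Finset ℕ} {q : ℕ × ℕ} (h : q ∈ runs S) : 1 ≤ len S q := by
  obtain ⟨h1, h2, h3⟩ := mem_runs.1 h
  exact Finset.card_pos.2 ⟨q.1, mem_seg.2 ⟨h1, le_rfl, h3⟩⟩

end Pool.Agent.Work.MP_7d0410_cr
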