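import Pool.Agent.Work.MP_7d0410_cr.Moser

/-!
# Moser's problem in Cramér's random model: definitions for the proof
-/

set_option autoImplicit false

namespace Pool.Agent.Work.MP_7d0410_cr

open Finset Filter MeasureTheory ProbabilityTheory
open scoped Classical

/-! ## Runs of finite sets -/

/-- The elements of `S` in `[q.1, q.2]`. -/
def seg (S : Finset ℕ) (q : ℕ × ℕ) : Finset ℕ := S.filter (fun m => q.1 ≤ m ∧ m ≤ q.2)

/-- Their sum. -/
def sm (S : Finset ℕ) (q : ℕ × ℕ) : ℕ := ∑ m ∈ seg S q, m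

/-- Their number. -/
def len (S : Finset ℕ) (q : ℕ × ℕ) : ℕ := (seg S q).card

/-- The runs of `S`, given by their end points. -/
def runs (S : Finset ℕ) : Finset (ℕ × ℕ) := (S ×ˢ S).filter (fun q => q.1 ≤ q.2)

/-- The runs of length `r` with the sum `n`. -/
def rr (S : Finset ℕ) (r n : ℕ) : Finset (ℕ × ℕ) :=
  (runs S).filter (fun q => len S q = r ∧ sm S q = n)

/-- Good runs: at least `R` elements, and not too long. -/
def good (R G : ℕ) (S : Finset ℕ) : Finset (ℕ × ℕ) :=
  (runs S).filter (fun q => R ≤ len S q ∧ q.2 ≤ q.1 + G * len S q)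

/-- The good runs with the sum `n`. -/
def gr (R G : ℕ) (S : Finset ℕ) (n : ℕ) : Finset (ℕ × ℕ) := (good R G S).filter (fun q => sm S q = n)

/-- The number of good runs with the sum `n`. -/
def cnt (R G : ℕ) (S : Finset ℕ) (n : ℕ) : ℕ := (gr R G S n).card

/-- The number of `1 ≤ n ≤ x` with exactly `k` good runs of sum `n`. -/
def DD (R G : ℕ) (S : Finset ℕ) (x k : ℕ) : ℕ := ((Finset.Icc 1 x).filter (fun n => cnt R G S n = k)).card

/-- The hulls `[q.1, q.2]` and `[q'.1, q'.2]` meet. -/
def meet (q q' : ℕ × ℕ) : Prop := q.1 ≤ q'.2 ∧ q'.1 ≤ q.2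

instance (q q' : ℕ × ℕ) : Decidable (meet q q') := by unfold meet; infer_instance

/-- The smallest interval containing `Q`. -/
def hull (Q : Finset ℕ) : Finset ℕ :=
  (Finset.range (Q.sup id + 1)).filter (fun m => (∃ q ∈ Q, q ≤ m) ∧ (∃ q ∈ Q, m ≤ q))

/-! ## Expectations -/

/-- `1 / log m` for `m ≥ 3`. -/
noncomputable def pr (m : ℕ) : ℝ := 1 / Real.log (max (m : ℝ) 3)

/-- The probability that the random subset of `U` is `S`. -/
noncomputable def wt (U S : Finset ℕ) : ℝ := (∏ m ∈ S, pr m) * ∏ m ∈ U \ S, (1 - pr m)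

/-- The expectation over random subsets of `U`. -/
noncomputable def Ex (U : Finset ℕ) (F : Finset ℕ → ℝ) : ℝ := ∑ S ∈ U.powerset, wt U S * F S

/-- The probability of the event `A`. -/
noncomputable def Pb (U : Finset ℕ) (A : Finset ℕ → Prop) : ℝ := Ex U (fun S => if A S then 1 else 0)

/-- The probability that `S ∩ hull Q = Q`. -/
noncomputable def om (Q : Finset ℕ) : ℝ := (∏ m ∈ Q, pr m) * ∏ m ∈ hull Q \ Q, (1 - pr m)

/-- The expected number of runs of length `r` with the sum `n`. -/
noncomputable def hh (a x r n : ℕ) : ℝ := Ex (Finset.Icc a (2 * x)) (fun S => ((rr S r n).card : ℝ))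

/-- The probability that `q` is a good run with the sum `n`. -/
noncomputable def gg (U : Finset ℕ) (R G n : ℕ) (q : ℕ × ℕ) : ℝ := Pb U (fun S => q ∈ gr R G S n)

/-- The expected number of good runs with the sum `n`. -/
noncomputable def HH (U : Finset ℕ) (R G n : ℕ) : ℝ := Ex U (fun S => (cnt R G S n : ℝ))

/-- The expected number of pairs of different good runs with the sum `n` whose hulls meet. -/
noncomputable def T1 (U : Finset ℕ) (R G n : ℕ) : ℝ :=
  Ex U (fun S => ∑ q ∈ gr R G S n, (((gr R G S n).filter (fun q' => q' ≠ q ∧ meet q q')).card : ℝ))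

/-- The same for two independent sets. -/
noncomputable def T2 (U : Finset ℕ) (R G n : ℕ) : ℝ :=
  ∑ q ∈ U ×ˢ U, ∑ q' ∈ (U ×ˢ U).filter (fun q' => meet q q'), gg U R G n q * gg U R G n q'

/-! ## The parameters -/

/-- The first element which is used, `x ^ (1/2 + ε)`. -/
noncomputable def a0 (ε : ℝ) (x : ℕ) : ℕ := ⌈(x : ℝ) ^ (1 / 2 + ε)⌉₊

/-- The smallest length which is used, `x ^ ε`. -/
noncomputable def R0 (ε : ℝ) (x : ℕ) : ℕ := ⌈(x : ℝ) ^ ε⌉₊

/-- The bound for the mean gap. -/
noncomputable def GG (x : ℕ) : ℕ := ⌈40 * (Real.log x) ^ 2⌉₊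

/-- The range of the random elements which are used. -/
noncomputable def UU (ε : ℝ) (x : ℕ) : Finset ℕ := Finset.Icc (a0 ε x) (2 * x)

/-- The mean value of the number of good runs. -/
noncomputable def lam (ε : ℝ) : ℝ := Real.log ((1 - ε) / (1 / 2 + ε))

end Pool.Agent.Work.MP_7d0410_cr
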