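import Pool.Agent.Work.MP_7d0410_cr.B_WTQ
import Pool.Agent.Work.MP_7d0410_cr.B_HRQ
import Pool.Agent.Work.MP_7d0410_cr.B_SH1
import Pool.Agent.Work.MP_7d0410_cr.B_SH2
import Pool.Agent.Work.MP_7d0410_cr.B_SHH
import Pool.Agent.Work.MP_7d0410_cr.B_ONE
import Pool.Agent.Work.MP_7d0410_cr.B_CRU
import Pool.Agent.Work.MP_7d0410_cr.B_CHE
import Pool.Agent.Work.MP_7d0410_cr.B_NRL
import Pool.Agent.Work.MP_7d0410_cr.B_HLN
import Pool.Agent.Work.MP_7d0410_cr.B_HLO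
import Pool.Agent.Work.MP_7d0410_cr.B_SUM
import Pool.Agent.Work.MP_7d0410_cr.B_GAP
import Pool.Agent.Work.MP_7d0410_cr.B_LOW
import Pool.Agent.Work.MP_7d0410_cr.B_UPP
import Pool.Agent.Work.MP_7d0410_cr.B_HL1
import Pool.Agent.Work.MP_7d0410_cr.B_C1A
import Pool.Agent.Work.MP_7d0410_cr.B_C1L
import Pool.Agent.Work.MP_7d0410_cr.B_C1B
import Pool.Agent.Work.MP_7d0410_cr.B_C2A
import Pool.Agent.Work.MP_7d0410_cr.B_CO
import Pool.Agent.Work.MP_7d0410_cr.B_MEC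
import Pool.Agent.Work.MP_7d0410_cr.B_POI
import Pool.Agent.Work.MP_7d0410_cr.B_LIM
import Pool.Agent.Work.MP_7d0410_cr.B_TEN
import Pool.Agent.Work.MP_7d0410_cr.B_INF
import Pool.Agent.Work.MP_7d0410_cr.B_VAR
import Pool.Agent.Work.MP_7d0410_cr.B_LAW
import Pool.Agent.Work.MP_7d0410_cr.B_BCL
import Pool.Agent.Work.MP_7d0410_cr.B_ASC
import Pool.Agent.Work.MP_7d0410_cr.B_ASG
import Pool.Agent.Work.MP_7d0410_cr.B_BD1
import Pool.Agent.Work.MP_7d0410_cr.B_BD2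
import Pool.Agent.Work.MP_7d0410_cr.B_BD3
import Pool.Agent.Work.MP_7d0410_cr.B_BD4
import Pool.Agent.Work.MP_7d0410_cr.B_BAD
import Pool.Agent.Work.MP_7d0410_cr.B_INT
import Pool.Agent.Work.MP_7d0410_cr.B_FIN

/-!
# Moser's problem in Cramér's random model: the theorem
-/

set_option autoImplicit false

namespace Pool.Agent.Work.MP_7d0410_cr

theorem f_SHH : Stmt_SHH := p_SHH (p_HRQ p_WTQ) p_SH1 (p_SH2 p_SH1)

theorem f_CRU : Stmt_CRU := p_CRU f_SHH p_ONE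

theorem f_HLO : Stmt_HLO := p_HLO (p_HLN f_SHH p_NRL p_CHL)

theorem f_LOW : Stmt_LOW := p_LOW f_HLO p_SUM (p_GAP p_EMP)

theorem f_CO1 : Stmt_CO1 := p_CO1 p_C1A (p_C1B (p_C1L f_CRU))

theorem f_CO2 : Stmt_CO2 := p_CO2 (p_C2A f_CRU)

theorem f_LIM : Stmt_LIM := p_LIM (p_HL1 f_LOW p_UPP) f_CO1 f_CO2 p_MEC p_POI p_UPP

theorem f_BCL.{u} : Stmt_BCL.{u} := p_BCL (p_VAR p_TEN p_INF) p_LAW

theorem f_BAD : Stmt_BAD := p_BAD p_BD1 p_BD2 p_BD3 p_BD4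

theorem final.{u} : Stmt_FIN.{u} :=
  p_FIN f_BCL f_LIM (p_ASC p_CHU p_LAW) (p_ASG p_EMP p_LAW) f_BAD p_INT

end Pool.Agent.Work.MP_7d0410_cr
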