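import Pool.Agent.Work.MP_7d0410_cr.Basic

/-!
# Moser's problem in Cramér's random model: statements of the blocks

See note 2914 for the paper proof.
-/

set_option autoImplicit false

namespace Pool.Agent.Work.MP_7d0410_cr

open Finset Filter MeasureTheory ProbabilityTheory
open scoped Classical Topology

/-! ## The law of a run, shifts, the crude bound -/

/-- WTQ: the probability of `S ∩ hull Q = Q`. -/
def Stmt_WTQ : Prop := ∀ U Q : Finset ℕ, hull Q ⊆ U → Pb U (fun S => S ∩ hull Q = Q) = om Q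

/-- HRQ: the expected number of `r`-runs with the sum `n` as a sum over sets. -/
def Stmt_HRQ : Prop := ∀ a x r n : ℕ, 1 ≤ r → hh a x r n =
  ∑ Q ∈ ((Finset.Icc a (2 * x)).powersetCard r).filter (fun Q => ∑ m ∈ Q, m = n), om Q

/-- The shifted set: all elements of `Q` are raised by `ℓ / r`, the top `ℓ % r` elements by one
more (`r` is the number of elements of `Q`). -/
def shf (r ℓ : ℕ) (Q : Finset ℕ) : Finset ℕ :=
  Q.image (fun q => q + ℓ / r + if r ≤ (Q.filter (fun m => m < q)).card + ℓ % r then 1 else 0)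

/-- SH1: the shift is injective and raises the sum by `ℓ`. -/
def Stmt_SH1 : Prop := ∀ (r ℓ : ℕ) (Q : Finset ℕ), 1 ≤ r → Q.card = r →
  (shf r ℓ Q).card = r ∧ ∑ m ∈ shf r ℓ Q, m = ∑ m ∈ Q, m + ℓ ∧
  ∀ Q' : Finset ℕ, Q'.card = r → shf r ℓ Q' = shf r ℓ Q → Q' = Q

/-- SH2: the weight of the shifted set. -/
def Stmt_SH2 : Prop := ∀ (a r ℓ : ℕ) (Q : Finset ℕ), 8 ≤ a → 1 ≤ r → Q.card = r →
  (∀ m ∈ Q, a ≤ m) → (1 - 1 / Real.log a - (ℓ : ℝ) / a) * om Q ≤ om (shf r ℓ Q)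

/-- SHH: `h_r (n + ℓ)` is at least almost `h_r n`. -/
def Stmt_SHH : Prop := ∀ a x r n ℓ : ℕ, 8 ≤ a → 1 ≤ r → n + ℓ ≤ 2 * x →
  (1 - 1 / Real.log a - (ℓ : ℝ) / a) * hh a x r n ≤ hh a x r (n + ℓ)

/-- ONE: at most one `r`-run has its sum in `[n, n + r)`. -/
def Stmt_ONE : Prop := ∀ (S : Finset ℕ) (r n : ℕ), 1 ≤ r →
  ∑ ℓ ∈ Finset.range r, (rr S r (n + ℓ)).card ≤ 1

/-- CRU: the crude bound. -/
def Stmt_CRU : Prop := ∀ a x r n : ℕ, 64 ≤ a → 1 ≤ r → 8 * r ≤ a → n + r ≤ 2 * x →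
  hh a x r n ≤ 2 / r

/-! ## Chernoff bounds -/

/-- CHL: lower tail. -/
def Stmt_CHL : Prop := ∀ (U I : Finset ℕ) (r : ℕ) (δ : ℝ), I ⊆ U → 0 < δ → δ ≤ 1 →
  (1 + δ) * r ≤ ∑ m ∈ I, pr m → Pb U (fun S => (S ∩ I).card < r) ≤ Real.exp (-(δ ^ 2 * r / 4))

/-- CHU: upper tail. -/
def Stmt_CHU : Prop := ∀ (U : Finset ℕ) (t : ℝ),
  Pb U (fun S => t ≤ (S.card : ℝ)) ≤ Real.exp (2 * ∑ m ∈ U, pr m - t)

/-- EMP: the probability that `I` contains no element. -/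
def Stmt_EMP : Prop := ∀ U I : Finset ℕ, I ⊆ U →
  Pb U (fun S => S ∩ I = ∅) ≤ Real.exp (-∑ m ∈ I, pr m)

/-! ## The expected number of good runs with the sum `n` -/

/-- The number of `r`-runs with the sum in `[n - M, n)`. -/
def NN (S : Finset ℕ) (r n M : ℕ) : ℕ :=
  ((runs S).filter (fun q => len S q = r ∧ n ≤ sm S q + M ∧ sm S q < n)).card

/-- NRL: lower bound for the number of `r`-runs with the sum in `[n - M, n)`. -/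
def Stmt_NRL : Prop := ∀ (S : Finset ℕ) (a r g n M : ℕ), (∀ m ∈ S, a ≤ m) → 1 ≤ a → 1 ≤ r → 1 ≤ g →
  (∀ y : ℕ, a ≤ y + 1 → r * y ≤ n → r ≤ (S ∩ Finset.Ioc y (y + g)).card) →
  r * (a + g) + M ≤ n → M ≤ (NN S r n M + 1) * g

/-- HLN: lower bound for `h_r n`, with explicit errors. -/
def Stmt_HLN : Prop := ∀ (a x r g n M : ℕ) (δ : ℝ), 64 ≤ a → 1 ≤ r → 1 ≤ g → 1 ≤ M → 2 * M ≤ a →
  n ≤ x → g ≤ x → r * (a + g) + M ≤ n → 0 < δ → δ ≤ 1 →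
  (∀ y : ℕ, a ≤ y + 1 → r * y ≤ n → (1 + δ) * r ≤ ∑ m ∈ Finset.Ioc y (y + g), pr m) →
  (1 - 1 / Real.log a - (M : ℝ) / a) *
    ((1 - (x + 1) * Real.exp (-(δ ^ 2 * r / 4))) / g - 1 / M) ≤ hh a x r n

/-- HLO: lower bound for `h_r n`. -/
def Stmt_HLO : Prop := ∀ ε η : ℝ, 0 < ε → ε < 1 / 4 → 0 < η → ∀ᶠ x : ℕ in atTop, ∀ n r : ℕ,
  (x : ℝ) ≤ n * Real.log x → n ≤ x → R0 ε x ≤ r → 2 * a0 ε x * r ≤ n →
  (1 - η) / (r * Real.log ((n : ℝ) / r)) ≤ hh (a0 ε x) x r n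

/-- SUM: the sum of `1 / (r log (n/r))`. -/
def Stmt_SUM : Prop := ∀ ε η : ℝ, 0 < ε → ε < 1 / 4 → 0 < η → ∀ᶠ x : ℕ in atTop, ∀ n : ℕ,
  (x : ℝ) ≤ n * Real.log x → n ≤ x →
  lam ε - η ≤ ∑ r ∈ Finset.Icc (R0 ε x) (n / (2 * a0 ε x)), 1 / (r * Real.log ((n : ℝ) / r))

/-- GAP: runs with large gaps are rare. -/
def Stmt_GAP : Prop := ∀ ε : ℝ, 0 < ε → ε < 1 / 4 → ∀ᶠ x : ℕ in atTop,
  Ex (UU ε x) (fun S => (((runs S).filter (fun q => q.1 + GG x * len S q < q.2)).card : ℝ)) ≤ 1 / x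

/-- LOW: lower bound for the expected number of good runs with the sum `n`. -/
def Stmt_LOW : Prop := ∀ ε η : ℝ, 0 < ε → ε < 1 / 4 → 0 < η → ∀ᶠ x : ℕ in atTop, ∀ n : ℕ,
  (x : ℝ) ≤ n * Real.log x → n ≤ x → lam ε - η ≤ HH (UU ε x) (R0 ε x) (GG x) n

/-- UPP: upper bound on average. -/
def Stmt_UPP : Prop := ∀ ε η : ℝ, 0 < ε → ε < 1 / 4 → 0 < η → ∀ᶠ x : ℕ in atTop,
  ∑ n ∈ Finset.Icc 1 x, HH (UU ε x) (R0 ε x) (GG x) n ≤ (lam ε + η) * x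

/-- HL1: the expected number of good runs with the sum `n` is `lam ε` for most `n`. -/
def Stmt_HL1 : Prop := ∀ ε η : ℝ, 0 < ε → ε < 1 / 4 → 0 < η → ∀ᶠ x : ℕ in atTop,
  ∑ n ∈ Finset.Icc 1 x, |HH (UU ε x) (R0 ε x) (GG x) n - lam ε| ≤ η * x

/-! ## Collisions -/

/-- Pairs of runs `A`, `B` with the same sum `≤ x`, `A` below `B`, close together. -/
def AB (S : Finset ℕ) (G x : ℕ) : Finset ((ℕ × ℕ) × (ℕ × ℕ)) :=
  (runs S ×ˢ runs S).filter (fun z => z.1.2 < z.2.1 ∧ sm S z.1 = sm S z.2 ∧ sm S z.1 ≤ x ∧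
    z.1.1 * (z.2.2 - z.1.1) ≤ 2 * G * x)

/-- C1A: pairs of good runs with the same sum and meeting hulls give pairs in `AB`. -/
def Stmt_C1A : Prop := ∀ (S : Finset ℕ) (R G x : ℕ), (∀ m ∈ S, 1 ≤ m) →
  ∑ n ∈ Finset.Icc 1 x, ∑ q ∈ gr R G S n,
    ((gr R G S n).filter (fun q' => q' ≠ q ∧ meet q q')).card ≤ 2 * (AB S G x).card

/-- C1L: pairs in `AB` with given first element and lengths. -/
def Stmt_C1L : Prop := ∀ a x G b k l : ℕ, 64 ≤ a → 8 * x ≤ a ^ 2 → a ≤ b → 1 ≤ l →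
  Ex (Finset.Icc a (2 * x)) (fun S => (((AB S G x).filter
    (fun z => z.1.1 = b ∧ len S z.1 = k ∧ len S z.2 = l)).card : ℝ)) ≤ 2 / l

/-- C1B: the expected number of pairs in `AB`. -/
def Stmt_C1B : Prop := ∀ a x G : ℕ, 64 ≤ a → 8 * x ≤ a ^ 2 →
  Ex (Finset.Icc a (2 * x)) (fun S => ((AB S G x).card : ℝ)) ≤ 8 * G * (x : ℝ) ^ 2 / (a : ℝ) ^ 2

/-- C2A: collisions of independent copies. -/
def Stmt_C2A : Prop := ∀ a x R G : ℕ, 64 ≤ a → 8 * x ≤ a ^ 2 → 8 * G * x ≤ a ^ 2 → 1 ≤ R → 1 ≤ x →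
  ∑ n ∈ Finset.Icc 1 x, T2 (Finset.Icc a (2 * x)) R G n ≤
    4 * ((x : ℝ) / R) * (1 + Real.log x) + 96 * G * (x : ℝ) ^ 2 / (a : ℝ) ^ 2

/-- CO1: collisions are rare. -/
def Stmt_CO1 : Prop := ∀ ε η : ℝ, 0 < ε → ε < 1 / 4 → 0 < η → ∀ᶠ x : ℕ in atTop,
  ∑ n ∈ Finset.Icc 1 x, T1 (UU ε x) (R0 ε x) (GG x) n ≤ η * x

/-- CO2: collisions of independent copies are rare. -/
def Stmt_CO2 : Prop := ∀ ε η : ℝ, 0 < ε → ε < 1 / 4 → 0 < η → ∀ᶠ x : ℕ in atTop,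
  ∑ n ∈ Finset.Icc 1 x, T2 (UU ε x) (R0 ε x) (GG x) n ≤ η * x

/-! ## The Poisson law -/

/-- MEC: the approximate Mecke identity. -/
def Stmt_MEC : Prop := ∀ (U : Finset ℕ) (R G n k : ℕ),
  |((k : ℝ) + 1) * Pb U (fun S => cnt R G S n = k + 1) -
    HH U R G n * Pb U (fun S => cnt R G S n = k)| ≤ T1 U R G n + T2 U R G n

/-- POI: the recursion determines the limits. -/
def Stmt_POI : Prop := ∀ (A : ℕ → ℕ → ℝ) (l C : ℝ), 0 < l → (∀ k x, 0 ≤ A k x) →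
  (∀ᶠ x in atTop, ∀ K : ℕ, ∑ k ∈ Finset.range K, A k x ≤ 1) →
  (∀ᶠ x in atTop, ∀ K : ℕ, 1 ≤ K → 1 - C / K ≤ ∑ k ∈ Finset.range K, A k x) →
  (∀ k : ℕ, Tendsto (fun x => ((k : ℝ) + 1) * A (k + 1) x - l * A k x) atTop (𝓝 0)) →
  ∀ k : ℕ, Tendsto (A k) atTop (𝓝 (Real.exp (-l) * l ^ k / (k.factorial : ℝ)))

/-- LIM: the expected density. -/
def Stmt_LIM : Prop := ∀ ε : ℝ, 0 < ε → ε < 1 / 4 → ∀ k : ℕ,
  Tendsto (fun x : ℕ => (∑ n ∈ Finset.Icc 1 x, Pb (UU ε x) (fun S => cnt (R0 ε x) (GG x) S n = k)) / x)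
    atTop (𝓝 (Real.exp (-lam ε) * lam ε ^ k / (k.factorial : ℝ)))

/-! ## The variance -/

/-- TEN: tensorization of the variance. -/
def Stmt_TEN : Prop := ∀ (T : ℕ) (I : ℕ → Finset ℕ) (c : ℕ → ℝ) (F : Finset ℕ → ℝ),
  (∀ i j, i < T → j < T → i ≠ j → Disjoint (I i) (I j)) →
  (∀ t < T, ∀ S ⊆ (Finset.range T).biUnion I, ∀ S' ⊆ (Finset.range T).biUnion I,
    S \ I t = S' \ I t → |F S - F S'| ≤ c t) →
  Ex ((Finset.range T).biUnion I) (fun S => (F S - Ex ((Finset.range T).biUnion I) F) ^ 2) ≤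
    ∑ t ∈ Finset.range T, c t ^ 2

/-- INF: the influence of a block. -/
def Stmt_INF : Prop := ∀ (S S' : Finset ℕ) (a x ℓ b R G k : ℕ), (∀ m ∈ S, a ≤ m) →
  (∀ m ∈ S', a ≤ m) → 1 ≤ a → a ≤ b → x ≤ a * ℓ →
  S \ Finset.Ico b (b + ℓ) = S' \ Finset.Ico b (b + ℓ) →
  |(DD R G S x k : ℝ) - DD R G S' x k| ≤ 4 * ℓ * x / b

/-- VAR: the variance of the number of `n ≤ x` with `k` good runs. -/
def Stmt_VAR : Prop := ∀ a x R G k : ℕ, 1 ≤ a → a ≤ x → 4 * x ≤ a ^ 2 →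
  Ex (Finset.Icc a (2 * x)) (fun S => ((DD R G S x k : ℝ) -
    Ex (Finset.Icc a (2 * x)) (fun S => (DD R G S x k : ℝ))) ^ 2) ≤ 64 * (x : ℝ) ^ 3 / (a : ℝ) ^ 2

/-! ## Almost sure statements -/

/-- The hypotheses on the events. -/
structure Cramer {Ω : Type*} [MeasurableSpace Ω] (μ : Measure Ω) (E : ℕ → Set Ω) : Prop where
  meas : ∀ m, MeasurableSet (E m)
  indep : iIndepSet E μ
  prob : ∀ m : ℕ, 3 ≤ m → μ (E m) = ENNReal.ofReal (1 / Real.log m)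

/-- LAW: the law of the random set in `U`. -/
def Stmt_LAW.{u} : Prop := ∀ {Ω : Type u} [MeasurableSpace Ω] (μ : Measure Ω)
  [IsProbabilityMeasure μ] (E : ℕ → Set Ω), Cramer μ E → ∀ U : Finset ℕ, (∀ m ∈ U, 3 ≤ m) →
  ∀ A : Finset ℕ → Prop, MeasurableSet {ω | A (U.filter (fun m => m ∈ cramer E ω))} ∧
    μ.real {ω | A (U.filter (fun m => m ∈ cramer E ω))} = Pb U A

/-- The part of `P` which is used. -/
noncomputable def SS (ε : ℝ) (x : ℕ) (P : Set ℕ) : Finset ℕ := (UU ε x).filter (fun m => m ∈ P)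

/-- The exponent of the subsequence. -/
noncomputable def AA (ε : ℝ) : ℕ := ⌈2 / ε⌉₊

/-- BCL: concentration along the subsequence `j ^ A`. -/
def Stmt_BCL.{u} : Prop := ∀ {Ω : Type u} [MeasurableSpace Ω] (μ : Measure Ω)
  [IsProbabilityMeasure μ] (E : ℕ → Set Ω), Cramer μ E → ∀ ε : ℝ, 0 < ε → ε < 1 / 4 → ∀ k : ℕ,
  ∀ᵐ ω ∂μ, Tendsto (fun j : ℕ => ((DD (R0 ε (j ^ AA ε)) (GG (j ^ AA ε))
      (SS ε (j ^ AA ε) (cramer E ω)) (j ^ AA ε) k : ℝ) -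
    Ex (UU ε (j ^ AA ε)) (fun S => (DD (R0 ε (j ^ AA ε)) (GG (j ^ AA ε)) S (j ^ AA ε) k : ℝ))) /
    ((j ^ AA ε : ℕ) : ℝ)) atTop (𝓝 0)

/-- The elements of `P` in `[1, x]`. -/
noncomputable def PP (P : Set ℕ) (x : ℕ) : Finset ℕ := (Finset.Icc 1 x).filter (fun m => m ∈ P)

/-- The counting function of `P` is not too large. -/
def CountReg (P : Set ℕ) : Prop := ∀ᶠ y : ℕ in atTop, ((PP P y).card : ℝ) ≤ 16 * (y / Real.log y)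

/-- The gaps of `P` are not too large. -/
def GapReg (P : Set ℕ) : Prop := ∀ᶠ m : ℕ in atTop, ∃ p ∈ P, m < p ∧ (p : ℝ) ≤ m + 10 * Real.log m ^ 2

/-- ASC: the counting function. -/
def Stmt_ASC.{u} : Prop := ∀ {Ω : Type u} [MeasurableSpace Ω] (μ : Measure Ω)
  [IsProbabilityMeasure μ] (E : ℕ → Set Ω), Cramer μ E → ∀ᵐ ω ∂μ, CountReg (cramer E ω)

/-- ASG: the gaps. -/
def Stmt_ASG.{u} : Prop := ∀ {Ω : Type u} [MeasurableSpace Ω] (μ : Measure Ω)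
  [IsProbabilityMeasure μ] (E : ℕ → Set Ω), Cramer μ E → ∀ᵐ ω ∂μ, GapReg (cramer E ω)

/-! ## Bad runs -/

/-- BD1: where `repCount` and the number of good runs differ there is a bad run. -/
def Stmt_BD1 : Prop := ∀ (P : Set ℕ) (ε : ℝ) (x : ℕ), (∀ m ∈ P, 1 ≤ m) →
  ((Finset.Icc 1 x).filter (fun n => repCount P n ≠ cnt (R0 ε x) (GG x) (SS ε x P) n)).card ≤
    ((runs (PP P x)).filter (fun q => sm (PP P x) q ≤ x ∧ (len (PP P x) q < R0 ε x ∨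
      q.1 < a0 ε x ∨ (a0 ε x ≤ q.1 ∧ q.1 + GG x * len (PP P x) q < q.2)))).card

/-- BD2: few short runs. -/
def Stmt_BD2 : Prop := ∀ P : Set ℕ, CountReg P → ∀ ε : ℝ, 0 < ε → ε < 1 / 4 → ∀ᶠ x : ℕ in atTop,
  (((runs (PP P x)).filter (fun q => sm (PP P x) q ≤ x ∧ len (PP P x) q < R0 ε x)).card : ℝ) ≤
    100 * ε * x

/-- BD3: few runs with a small first element. -/
def Stmt_BD3 : Prop := ∀ P : Set ℕ, CountReg P → ∀ ε : ℝ, 0 < ε → ε < 1 / 4 → ∀ᶠ x : ℕ in atTop,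
  (((runs (PP P x)).filter (fun q => sm (PP P x) q ≤ x ∧ q.1 < a0 ε x)).card : ℝ) ≤ 200 * ε * x

/-- BD4: no run with large gaps. -/
def Stmt_BD4 : Prop := ∀ P : Set ℕ, GapReg P → ∀ ε : ℝ, 0 < ε → ε < 1 / 4 → ∀ᶠ x : ℕ in atTop,
  ∀ q ∈ runs (PP P x), a0 ε x ≤ q.1 → q.2 ≤ q.1 + GG x * len (PP P x) q

/-- BAD: few bad values. -/
def Stmt_BAD : Prop := ∀ P : Set ℕ, (∀ m ∈ P, 1 ≤ m) → CountReg P → GapReg P → ∀ ε : ℝ, 0 < ε →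
  ε < 1 / 4 → ∀ᶠ x : ℕ in atTop,
  (((Finset.Icc 1 x).filter (fun n => repCount P n ≠ cnt (R0 ε x) (GG x) (SS ε x P) n)).card : ℝ) ≤
    400 * ε * x

/-! ## The end -/

/-- INT: interpolation between the terms of the subsequence. -/
def Stmt_INT : Prop := ∀ (c : ℕ → ℕ) (A : ℕ) (L δ δ' : ℝ), Monotone c → (∀ x, c x ≤ x) → 1 ≤ A →
  δ < δ' → (∀ᶠ j : ℕ in atTop, |(c (j ^ A) : ℝ) / ((j ^ A : ℕ) : ℝ) - L| ≤ δ) →
  ∀ᶠ x : ℕ in atTop, |(c x : ℝ) / x - L| ≤ δ'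

/-- FIN: the theorem. -/
def Stmt_FIN.{u} : Prop := ∀ {Ω : Type u} [MeasurableSpace Ω] (μ : Measure Ω)
  [IsProbabilityMeasure μ] (E : ℕ → Set Ω), Cramer μ E → ∀ᵐ ω ∂μ, ∀ k : ℕ,
  Tendsto (fun x : ℕ => (((Finset.Icc 1 x).filter (fun n => repCount (cramer E ω) n = k)).card : ℝ) / x)
    atTop (𝓝 (Real.log 2 ^ k / (2 * (k.factorial : ℝ))))

end Pool.Agent.Work.MP_7d0410_cr
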