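import Mathlib

/-!
# Moser's problem in Cramér's random model: the definitions used in the theorem

`repCount P n` is the number of representations of `n` as a sum of one or more consecutive
elements of the set `P`, `cramer E ω` is Cramér's random set.
-/

set_option autoImplicit false

namespace Pool.Agent.Work.MP_7d0410_cr

open scoped Classical

/-- The number of representations of `n` as a sum of one or more consecutive elements of `P`:
the number of pairs `(a, b)` of elements of `P` with `a ≤ b` such that the elements of `P` in
`[a, b]` have the sum `n`. -/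
noncomputable def repCount (P : Set ℕ) (n : ℕ) : ℕ :=
  Set.ncard {q : ℕ × ℕ | q.1 ∈ P ∧ q.2 ∈ P ∧ q.1 ≤ q.2 ∧
    ∑ m ∈ (Finset.Icc q.1 q.2).filter (fun m => m ∈ P), m = n}

/-- Cramér's random set: `2` is an element, and `m ≥ 3` is an element when `E m` occurs. -/
def cramer {Ω : Type*} (E : ℕ → Set Ω) (ω : Ω) : Set ℕ := {m | m = 2 ∨ (3 ≤ m ∧ ω ∈ E m)}

end Pool.Agent.Work.MP_7d0410_cr
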